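import Pool.Agent.Lib.MP_4322ef_CH.RDefs

section

/-!
# Basic facts on reflections

All elementary. `hh_sr`: reindex the sum over `P` by the involution `sr al`, with
`⟪be, sr al x⟫ = ⟪sr al be, x⟫`.
-/

set_option autoImplicit false

open scoped InnerProductSpace

namespace Pool.Agent.Lib.MP_4322ef_CH

variable {E : Type} [NormedAddCommGroup E] [InnerProductSpace ℝ E]

theorem sr_inner (al x y : E) : ⟪sr al x, y⟫_ℝ = ⟪x, sr al y⟫_ℝ := by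
  unfold sr
  rw [inner_sub_left, inner_sub_right, real_inner_smul_left, real_inner_smul_right,
    real_inner_comm al y]
  ring

theorem sr_self {al : E} (h : al ≠ 0) : sr al al = -al := by
  unfold sr
  have h1 : ⟪al, al⟫_ℝ ≠ 0 := by
    rw [Ne, inner_self_eq_zero]
    exact h
  have h2 : 2 * ⟪al, al⟫_ℝ / ⟪al, al⟫_ℝ = 2 := by
    field_simp
  rw [h2, two_smul]
  abel

theorem sr_sr {al : E} (h : al ≠ 0) (x : E) : sr al (sr al x) = x := by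
  have h1 : ⟪al, al⟫_ℝ ≠ 0 := by
    rw [Ne, inner_self_eq_zero]
    exact h
  have h2 : ⟪sr al x, al⟫_ℝ = -⟪x, al⟫_ℝ := by
    rw [sr_inner, sr_self h, inner_neg_right]
  have h3 : sr al (sr al x) = sr al x - (2 * ⟪sr al x, al⟫_ℝ / ⟪al, al⟫_ℝ) • al := rfl
  rw [h3, h2]
  unfold sr
  rw [sub_sub, ← add_smul]
  have h4 : 2 * ⟪x, al⟫_ℝ / ⟪al, al⟫_ℝ + 2 * -⟪x, al⟫_ℝ / ⟪al, al⟫_ℝ = 0 := by
    ring
  rw [h4, zero_smul, sub_zero]

theorem sr_isom {al : E} (h : al ≠ 0) (x y : E) : ⟪sr al x, sr al y⟫_ℝ = ⟪x, y⟫_ℝ := by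
  rw [sr_inner, sr_sr h]

theorem sr_cont (al : E) : Continuous (sr al) := by
  unfold sr
  fun_prop

theorem sr_add (al x y : E) : sr al (x + y) = sr al x + sr al y := by
  unfold sr
  rw [inner_add_left, mul_add, add_div, add_smul]
  abel

theorem sr_neg_al (al x : E) : sr (-al) x = sr al x := by
  unfold sr
  rw [inner_neg_right, inner_neg_neg, mul_neg, neg_div, smul_neg, neg_smul, neg_neg]

theorem RSys.neg_mem {P : Finset E} (hP : RSys P) {al : E} (h : al ∈ P) : -al ∈ P := by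
  have h1 := hP.refl al h al h
  rwa [sr_self (hP.ne al h)] at h1

theorem hh_nonneg (P : Finset E) (x : E) : 0 ≤ hh P x := by
  unfold hh
  exact mul_nonneg (by norm_num) (Finset.sum_nonneg fun al _ => abs_nonneg _)

theorem hh_cont (P : Finset E) : Continuous (hh P) := by
  unfold hh
  fun_prop

theorem hh_sr {P : Finset E} (hP : RSys P) {al : E} (h : al ∈ P) (x : E) : hh P (sr al x) = hh P x := by
  unfold hh
  congr 1
  refine Finset.sum_bij' (fun be _ => sr al be) (fun be _ => sr al be)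
    (fun be hb => hP.refl al h be hb) (fun be hb => hP.refl al h be hb)
    (fun be _ => sr_sr (hP.ne al h) be) (fun be _ => sr_sr (hP.ne al h) be) ?_
  intro be _
  rw [sr_inner]

end Pool.Agent.Lib.MP_4322ef_CH
end

section

/-!
# The vectors `vc`

* `vc_inner_self`: the pairing `al ↔ -al` on `P`.
* `vc_mem`: `⟪vc c, x⟫ ≤ ∑_{⟪al, c⟫ > 0} |⟪al, x⟫| ≤ (1/2) ∑_{all} |⟪al, x⟫|` (the vectors positive and
  negative on `c` are exchanged by `al ↦ -al`).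
* `vc_zero`: if `⟪al, c⟫ = 0` then `sr al` maps `{be | 0 < ⟪be, c⟫}` to itself, so `sr al (vc c) = vc c`.
* `vc_pos`: let `0 < ⟪al, c⟫` and `P⁺ = {be ∈ P | 0 < ⟪be, c⟫}`. The part of `P⁺` with `sr al be ∈ P⁺` is
  stable under `sr al` and `⟪sr al be, al⟫ = -⟪be, al⟫`, so it contributes zero to `⟪vc c, al⟫`. If
  `be ∈ P⁺`, `sr al be ∉ P⁺` then `⟪sr al be, c⟫ ≤ 0 < ⟪be, c⟫`, so `0 < ⟪be, al⟫`. The vector `al`
  is of this kind (`sr al al = -al`).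
* `hh_pos`: pairing `al ↔ -al`. `hh_chm`: `hh_pos` and `⟪al, c⟫ ≥ 0`.
-/

set_option autoImplicit false

open scoped InnerProductSpace

namespace Pool.Agent.Lib.MP_4322ef_CH

variable {E : Type} [NormedAddCommGroup E] [InnerProductSpace ℝ E]

open Classical in
/-- pairing of the vectors positive and negative on `c` -/
theorem R02_half {P : Finset E} (hP : RSys P) (c : E) (g : E → ℝ) (hg : ∀ al, g (-al) = g al) :
    ∑ al ∈ P, g al = 2 * ∑ al ∈ P.filter (fun al => 0 < ⟪al, c⟫_ℝ), g al +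
      ∑ al ∈ P.filter (fun al => ⟪al, c⟫_ℝ = 0), g al := by
  have h1 : ∑ al ∈ P.filter (fun al => ⟪al, c⟫_ℝ < 0), g al =
      ∑ al ∈ P.filter (fun al => 0 < ⟪al, c⟫_ℝ), g al := by
    refine Finset.sum_bij' (fun be _ => -be) (fun be _ => -be) ?_ ?_ ?_ ?_ ?_
    · intro be hb
      rw [Finset.mem_filter] at hb ⊢
      refine ⟨hP.neg_mem hb.1, ?_⟩
      rw [inner_neg_left]
      linarith [hb.2]
    · intro be hb
      rw [Finset.mem_filter] at hb ⊢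
      refine ⟨hP.neg_mem hb.1, ?_⟩
      rw [inner_neg_left]
      linarith [hb.2]
    · intro be _
      exact neg_neg be
    · intro be _
      exact neg_neg be
    · intro be _
      exact (hg be).symm
  have h2 : ∀ al ∈ P, g al = (if 0 < ⟪al, c⟫_ℝ then g al else 0) + (if ⟪al, c⟫_ℝ < 0 then g al else 0) +
      (if ⟪al, c⟫_ℝ = 0 then g al else 0) := by
    intro al _
    rcases lt_trichotomy ⟪al, c⟫_ℝ 0 with h | h | h
    · rw [if_neg (not_lt.mpr h.le), if_pos h, if_neg h.ne]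
      ring
    · rw [if_neg (not_lt.mpr h.le), if_neg (not_lt.mpr h.ge), if_pos h]
      ring
    · rw [if_pos h, if_neg (not_lt.mpr h.le), if_neg h.ne']
      ring
  rw [Finset.sum_congr rfl h2, Finset.sum_add_distrib, Finset.sum_add_distrib, ← Finset.sum_filter,
    ← Finset.sum_filter, ← Finset.sum_filter, h1]
  ring

theorem vc_inner_self {P : Finset E} (hP : RSys P) (c : E) : ⟪vc P c, c⟫_ℝ = hh P c := by
  classical
  unfold hh vc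
  rw [sum_inner, R02_half hP c (fun al => |⟪al, c⟫_ℝ|)
    (fun al => by rw [inner_neg_left, abs_neg])]
  have h1 : ∑ al ∈ P.filter (fun al => ⟪al, c⟫_ℝ = 0), |⟪al, c⟫_ℝ| = 0 := by
    refine Finset.sum_eq_zero fun al hal => ?_
    rw [(Finset.mem_filter.mp hal).2, abs_zero]
  have h2 : ∑ al ∈ P.filter (fun al => 0 < ⟪al, c⟫_ℝ), |⟪al, c⟫_ℝ| =
      ∑ al ∈ P.filter (fun al => 0 < ⟪al, c⟫_ℝ), ⟪al, c⟫_ℝ :=
    Finset.sum_congr rfl fun al hal => abs_of_pos (Finset.mem_filter.mp hal).2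
  rw [h1, h2]
  ring

theorem vc_mem {P : Finset E} (hP : RSys P) (c : E) : vc P c ∈ ZZ P := by
  classical
  intro x
  unfold hh vc
  rw [sum_inner, R02_half hP c (fun al => |⟪al, x⟫_ℝ|)
    (fun al => by rw [inner_neg_left, abs_neg])]
  have h1 : 0 ≤ ∑ al ∈ P.filter (fun al => ⟪al, c⟫_ℝ = 0), |⟪al, x⟫_ℝ| :=
    Finset.sum_nonneg fun al _ => abs_nonneg _
  have h2 : ∑ al ∈ P.filter (fun al => 0 < ⟪al, c⟫_ℝ), ⟪al, x⟫_ℝ ≤
      ∑ al ∈ P.filter (fun al => 0 < ⟪al, c⟫_ℝ), |⟪al, x⟫_ℝ| :=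
    Finset.sum_le_sum fun al _ => le_abs_self _
  linarith

theorem vc_zero {P : Finset E} (hP : RSys P) {c al : E} (h : al ∈ P) (h0 : ⟪al, c⟫_ℝ = 0) :
    ⟪vc P c, al⟫_ℝ = 0 := by
  classical
  have hal := hP.ne al h
  have hc : sr al c = c := by
    unfold sr
    rw [real_inner_comm, h0]
    simp
  have h1 : ⟪vc P c, al⟫_ℝ = -⟪vc P c, al⟫_ℝ := by
    unfold vc
    rw [sum_inner, ← Finset.sum_neg_distrib]
    refine Finset.sum_bij' (fun be _ => sr al be) (fun be _ => sr al be) ?_ ?_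
      (fun be _ => sr_sr hal be) (fun be _ => sr_sr hal be) ?_
    · intro be hb
      rw [Finset.mem_filter] at hb ⊢
      exact ⟨hP.refl al h be hb.1, by rw [sr_inner, hc]; exact hb.2⟩
    · intro be hb
      rw [Finset.mem_filter] at hb ⊢
      exact ⟨hP.refl al h be hb.1, by rw [sr_inner, hc]; exact hb.2⟩
    · intro be _
      rw [sr_inner, sr_self hal, inner_neg_right, neg_neg]
  linarith

theorem vc_pos {P : Finset E} (hP : RSys P) {c al : E} (h : al ∈ P) (h0 : 0 < ⟪al, c⟫_ℝ) :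
    ⟪al, al⟫_ℝ ≤ ⟪vc P c, al⟫_ℝ := by
  classical
  have hal := hP.ne al h
  have hpos : 0 < ⟪al, al⟫_ℝ := real_inner_self_pos.mpr hal
  unfold vc
  rw [sum_inner, ← Finset.sum_filter_add_sum_filter_not _ (fun be => 0 < ⟪sr al be, c⟫_ℝ)]
  have hA : ∑ be ∈ (P.filter (fun al => 0 < ⟪al, c⟫_ℝ)).filter (fun be => 0 < ⟪sr al be, c⟫_ℝ),
      ⟪be, al⟫_ℝ = 0 := by
    have h1 : ∑ be ∈ (P.filter (fun al => 0 < ⟪al, c⟫_ℝ)).filter (fun be => 0 < ⟪sr al be, c⟫_ℝ),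
        ⟪be, al⟫_ℝ =
        -∑ be ∈ (P.filter (fun al => 0 < ⟪al, c⟫_ℝ)).filter (fun be => 0 < ⟪sr al be, c⟫_ℝ),
        ⟪be, al⟫_ℝ := by
      rw [← Finset.sum_neg_distrib]
      refine Finset.sum_bij' (fun be _ => sr al be) (fun be _ => sr al be) ?_ ?_
        (fun be _ => sr_sr hal be) (fun be _ => sr_sr hal be) ?_
      · intro be hb
        rw [Finset.mem_filter, Finset.mem_filter] at hb ⊢
        exact ⟨⟨hP.refl al h be hb.1.1, hb.2⟩, by rw [sr_sr hal]; exact hb.1.2⟩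
      · intro be hb
        rw [Finset.mem_filter, Finset.mem_filter] at hb ⊢
        exact ⟨⟨hP.refl al h be hb.1.1, hb.2⟩, by rw [sr_sr hal]; exact hb.1.2⟩
      · intro be _
        rw [sr_inner, sr_self hal, inner_neg_right, neg_neg]
    linarith
  have hB0 : ∀ be ∈ (P.filter (fun al => 0 < ⟪al, c⟫_ℝ)).filter (fun be => ¬0 < ⟪sr al be, c⟫_ℝ),
      0 ≤ ⟪be, al⟫_ℝ := by
    intro be hb
    rw [Finset.mem_filter, Finset.mem_filter, not_lt] at hb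
    by_contra hneg
    rw [not_le] at hneg
    have h2 := hb.2
    unfold sr at h2
    rw [inner_sub_left, real_inner_smul_left] at h2
    have h3 : 2 * ⟪be, al⟫_ℝ / ⟪al, al⟫_ℝ * ⟪al, c⟫_ℝ < 0 :=
      mul_neg_of_neg_of_pos (div_neg_of_neg_of_pos (by linarith) hpos) h0
    linarith [hb.1.2]
  have hB : ⟪al, al⟫_ℝ ≤
      ∑ be ∈ (P.filter (fun al => 0 < ⟪al, c⟫_ℝ)).filter (fun be => ¬0 < ⟪sr al be, c⟫_ℝ),
        ⟪be, al⟫_ℝ := by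
    refine Finset.single_le_sum (f := fun be => ⟪be, al⟫_ℝ) hB0 ?_
    rw [Finset.mem_filter, Finset.mem_filter, not_lt]
    refine ⟨⟨h, h0⟩, ?_⟩
    rw [sr_self hal, inner_neg_left]
    linarith
  rw [hA, zero_add]
  exact hB

open Classical in
theorem hh_pos {P : Finset E} (hP : RSys P) {H : E} (hH : Rg P H) (x : E) :
    hh P x = ∑ al ∈ P.filter (fun al => 0 < ⟪al, H⟫_ℝ), |⟪al, x⟫_ℝ| := by
  unfold hh
  rw [R02_half hP H (fun al => |⟪al, x⟫_ℝ|) (fun al => by rw [inner_neg_left, abs_neg])]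
  have h1 : P.filter (fun al => ⟪al, H⟫_ℝ = 0) = ∅ := by
    rw [Finset.filter_eq_empty_iff]
    intro al hal
    exact hH al hal
  rw [h1, Finset.sum_empty]
  ring

/-- on the chamber of `H` the function `hh` is linear -/
theorem hh_chm {P : Finset E} (hP : RSys P) {H c : E} (hH : Rg P H) (hc : c ∈ Chm P H) :
    hh P c = ⟪vc P H, c⟫_ℝ := by
  classical
  rw [hh_pos hP hH]
  unfold vc
  rw [sum_inner]
  refine Finset.sum_congr rfl fun al hal => ?_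
  rw [Finset.mem_filter] at hal
  exact abs_of_nonneg (hc al hal.1 hal.2)

end Pool.Agent.Lib.MP_4322ef_CH
end

section

/-!
# Chambers containing given vectors

`H = x₁ + ε x₂ + ε² H₀` for small `ε > 0` (finitely many conditions, one for each `al ∈ P`; e.g. with
`Filter.Eventually` in `𝓝[>] 0` and `Finset.eventually_all`): the sign of `⟪al, H⟫` is the sign of the
first nonzero of `⟪al, x₁⟫`, `⟪al, x₂⟫`, `⟪al, H₀⟫`.
-/

set_option autoImplicit false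

open scoped InnerProductSpace

namespace Pool.Agent.Lib.MP_4322ef_CH

variable {E : Type} [NormedAddCommGroup E] [InnerProductSpace ℝ E]

/-- the sign of `a + ε b + ε² c` for small `ε > 0` -/
theorem R04_aux (a b c : ℝ) (hc : c ≠ 0) :
    ∀ᶠ t in nhdsWithin (0 : ℝ) (Set.Ioi 0),
      a + t * b + t ^ 2 * c ≠ 0 ∧ (0 < a + t * b + t ^ 2 * c → 0 ≤ a ∧ (a = 0 → 0 ≤ b)) := by
  have hpos : ∀ᶠ t in nhdsWithin (0 : ℝ) (Set.Ioi 0), 0 < t := self_mem_nhdsWithin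
  have key : ∀ p q : ℝ → ℝ, Continuous p → ∀ x : ℝ, x < 0 → p 0 = x →
      ∀ᶠ t in nhdsWithin (0 : ℝ) (Set.Ioi 0), p t < 0 := by
    intro p _ hp x hx hx0
    have h1 : Filter.Tendsto p (nhdsWithin (0 : ℝ) (Set.Ioi 0)) (nhds (p 0)) :=
      (hp.tendsto 0).mono_left nhdsWithin_le_nhds
    exact h1.eventually (Iio_mem_nhds (by rw [hx0]; exact hx))
  have key2 : ∀ p : ℝ → ℝ, Continuous p → 0 < p 0 →
      ∀ᶠ t in nhdsWithin (0 : ℝ) (Set.Ioi 0), 0 < p t := by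
    intro p hp hx
    have h1 : Filter.Tendsto p (nhdsWithin (0 : ℝ) (Set.Ioi 0)) (nhds (p 0)) :=
      (hp.tendsto 0).mono_left nhdsWithin_le_nhds
    exact h1.eventually (Ioi_mem_nhds hx)
  rcases lt_trichotomy a 0 with ha | ha | ha
  · have h := key (fun t => a + t * b + t ^ 2 * c) id (by fun_prop) a ha (by simp)
    filter_upwards [h] with t ht
    exact ⟨ne_of_lt ht, fun h2 => absurd h2 (not_lt.mpr ht.le)⟩
  · subst ha
    rcases lt_trichotomy b 0 with hb | hb | hb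
    · have h := key (fun t => b + t * c) id (by fun_prop) b hb (by simp)
      filter_upwards [h, hpos] with t ht ht0
      have h3 : (0 : ℝ) + t * b + t ^ 2 * c = t * (b + t * c) := by ring
      have h4 : (0 : ℝ) + t * b + t ^ 2 * c < 0 := by
        rw [h3]
        exact mul_neg_of_pos_of_neg ht0 ht
      exact ⟨ne_of_lt h4, fun h2 => absurd h2 (not_lt.mpr h4.le)⟩
    · subst hb
      filter_upwards [hpos] with t ht0
      have h3 : (0 : ℝ) + t * 0 + t ^ 2 * c = t ^ 2 * c := by ring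
      refine ⟨?_, fun _ => ⟨le_refl 0, fun _ => le_refl 0⟩⟩
      rw [h3]
      exact mul_ne_zero (pow_ne_zero 2 ht0.ne') hc
    · have h := key2 (fun t => b + t * c) (by fun_prop) (by simpa using hb)
      filter_upwards [h, hpos] with t ht ht0
      have h3 : (0 : ℝ) + t * b + t ^ 2 * c = t * (b + t * c) := by ring
      have h4 : 0 < (0 : ℝ) + t * b + t ^ 2 * c := by
        rw [h3]
        exact mul_pos ht0 ht
      exact ⟨ne_of_gt h4, fun _ => ⟨le_refl 0, fun _ => hb.le⟩⟩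
  · have h := key2 (fun t => a + t * b + t ^ 2 * c) (by fun_prop) (by simpa using ha)
    filter_upwards [h] with t ht
    exact ⟨ne_of_gt ht, fun _ => ⟨ha.le, fun h5 => absurd h5 ha.ne'⟩⟩

theorem exists_chm {P : Finset E} {H₀ : E} (h0 : Rg P H₀) (x₁ x₂ : E) :
    ∃ H, Rg P H ∧ ∀ al ∈ P, 0 < ⟪al, H⟫_ℝ → 0 ≤ ⟪al, x₁⟫_ℝ ∧ (⟪al, x₁⟫_ℝ = 0 → 0 ≤ ⟪al, x₂⟫_ℝ) := by
  have h1 : ∀ᶠ t in nhdsWithin (0 : ℝ) (Set.Ioi 0), ∀ al ∈ P,
      ⟪al, x₁⟫_ℝ + t * ⟪al, x₂⟫_ℝ + t ^ 2 * ⟪al, H₀⟫_ℝ ≠ 0 ∧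
        (0 < ⟪al, x₁⟫_ℝ + t * ⟪al, x₂⟫_ℝ + t ^ 2 * ⟪al, H₀⟫_ℝ →
          0 ≤ ⟪al, x₁⟫_ℝ ∧ (⟪al, x₁⟫_ℝ = 0 → 0 ≤ ⟪al, x₂⟫_ℝ)) := by
    rw [Filter.eventually_all_finset]
    intro al hal
    exact R04_aux _ _ _ (h0 al hal)
  obtain ⟨t, ht⟩ := h1.exists
  have h2 : ∀ al : E, ⟪al, x₁ + t • x₂ + t ^ 2 • H₀⟫_ℝ =
      ⟪al, x₁⟫_ℝ + t * ⟪al, x₂⟫_ℝ + t ^ 2 * ⟪al, H₀⟫_ℝ := by
    intro al
    rw [inner_add_right, inner_add_right, real_inner_smul_right, real_inner_smul_right]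
  refine ⟨x₁ + t • x₂ + t ^ 2 • H₀, ?_, ?_⟩
  · intro al hal
    rw [h2]
    exact (ht al hal).1
  · intro al hal h3
    rw [h2] at h3
    exact (ht al hal).2 h3

end Pool.Agent.Lib.MP_4322ef_CH
end

section

/-!
# The hull in a chamber is spanned by the vectors `vc`

`S = {vc P c | c ∈ Chm P H}` is finite (`vc P c` is the sum over one of finitely many subsets of `P`),
so its convex hull is compact, hence closed (`Set.Finite.isCompact_convexHull`). If `m` is not in it,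
Hahn-Banach (`geometric_hahn_banach_closed_point` and `InnerProductSpace.toDual`) gives `ξ` with
`⟪v, ξ⟫ < ⟪m, ξ⟫` for all `v ∈ S`. Let `c` be the nearest point to `ξ` in the closed convex cone
`Chm P H` (`exists_norm_eq_iInf_of_complete_convex`, `norm_eq_iInf_iff_real_inner_le_zero`):
`⟪ξ - c, c' - c⟫ ≤ 0` for `c' ∈ Chm P H`. Put `d = ξ - c`. With `c' = m + c`: `⟪m, d⟫ ≤ 0`.
With `c' = c ± δ • vc P c` (in `Chm P H` for small `δ > 0`: for `al ∈ P` positive on `H` either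
`⟪al, c⟫ > 0` or `⟪al, c⟫ = 0` and then `⟪al, vc P c⟫ = 0` by `vc_zero`): `⟪vc P c, d⟫ = 0`. So
`⟪m, ξ⟫ ≤ ⟪m, c⟫ ≤ hh P c = ⟪vc P c, c⟫ = ⟪vc P c, ξ⟫ < ⟪m, ξ⟫`: contradiction.
-/

set_option autoImplicit false

open scoped InnerProductSpace

namespace Pool.Agent.Lib.MP_4322ef_CH

variable {E : Type} [NormedAddCommGroup E] [InnerProductSpace ℝ E]

theorem R05_finite (P : Finset E) (H : E) : {v | ∃ c ∈ Chm P H, v = vc P c}.Finite := by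
  classical
  refine ((P.powerset.finite_toSet).image (fun s => ∑ al ∈ s, al)).subset ?_
  rintro v ⟨c, _, rfl⟩
  exact ⟨P.filter (fun al => 0 < ⟪al, c⟫_ℝ),
    Finset.mem_coe.mpr (Finset.mem_powerset.mpr (Finset.filter_subset _ _)), rfl⟩

theorem R05_closed (P : Finset E) (H : E) : IsClosed (Chm P H) := by
  unfold Chm
  simp only [Set.ofPred_forall]
  exact isClosed_iInter fun al => isClosed_iInter fun _ => isClosed_iInter fun _ =>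
    isClosed_le continuous_const (by fun_prop)

theorem R05_convex (P : Finset E) (H : E) : Convex ℝ (Chm P H) := by
  intro x hx y hy a b ha hb _ al hal hH
  rw [inner_add_right, real_inner_smul_right, real_inner_smul_right]
  exact add_nonneg (mul_nonneg ha (hx al hal hH)) (mul_nonneg hb (hy al hal hH))

theorem R05_small {P : Finset E} (hP : RSys P) {H c : E} (hc : c ∈ Chm P H) :
    ∃ t : ℝ, 0 < t ∧ c - t • vc P c ∈ Chm P H := by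
  have h1 : ∀ᶠ t in nhdsWithin (0 : ℝ) (Set.Ioi 0), ∀ al ∈ P,
      0 < ⟪al, H⟫_ℝ → 0 ≤ ⟪al, c - t • vc P c⟫_ℝ := by
    rw [Filter.eventually_all_finset]
    intro al hal
    by_cases hH : 0 < ⟪al, H⟫_ℝ
    · rcases (hc al hal hH).eq_or_lt with h0 | h0
      · filter_upwards with t _
        rw [inner_sub_right, real_inner_smul_right, ← h0, real_inner_comm,
          vc_zero hP hal h0.symm]
        simp
      · have h2 : Continuous fun t : ℝ => ⟪al, c - t • vc P c⟫_ℝ := by fun_prop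
        have h3 : Filter.Tendsto (fun t : ℝ => ⟪al, c - t • vc P c⟫_ℝ)
            (nhdsWithin (0 : ℝ) (Set.Ioi 0)) (nhds ⟪al, c - (0 : ℝ) • vc P c⟫_ℝ) :=
          (h2.tendsto 0).mono_left nhdsWithin_le_nhds
        have h4 : 0 < ⟪al, c - (0 : ℝ) • vc P c⟫_ℝ := by
          rw [zero_smul, sub_zero]
          exact h0
        filter_upwards [h3.eventually (Ioi_mem_nhds h4)] with t ht _
        exact le_of_lt ht
    · filter_upwards with t h2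
      exact absurd h2 hH
  have h5 : ∀ᶠ t in nhdsWithin (0 : ℝ) (Set.Ioi 0), 0 < t := self_mem_nhdsWithin
  obtain ⟨t, ht1, ht2⟩ := (h5.and h1).exists
  exact ⟨t, ht1, ht2⟩

theorem mem_hull [FiniteDimensional ℝ E] {P : Finset E} (hP : RSys P) {H m : E} (hm : m ∈ ZZ P)
    (hmc : m ∈ Chm P H) : m ∈ convexHull ℝ {v | ∃ c ∈ Chm P H, v = vc P c} := by
  have := FiniteDimensional.complete ℝ E
  by_contra hnot
  have hcl : IsClosed (convexHull ℝ {v | ∃ c ∈ Chm P H, v = vc P c}) :=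
    ((R05_finite P H).isCompact_convexHull ℝ).isClosed
  obtain ⟨f, u, hf, hu⟩ := geometric_hahn_banach_closed_point (convex_convexHull ℝ _) hcl hnot
  obtain ⟨xi, hxi⟩ : ∃ xi : E, ∀ x, ⟪xi, x⟫_ℝ = f x :=
    ⟨(InnerProductSpace.toDual ℝ E).symm f, fun x => InnerProductSpace.toDual_symm_apply (𝕜 := ℝ)⟩
  have hne : (Chm P H).Nonempty := ⟨m, hmc⟩
  obtain ⟨c, hc, hmin⟩ := exists_norm_eq_iInf_of_complete_convex hne
    (R05_closed P H).isComplete (R05_convex P H) xi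
  have hproj := (norm_eq_iInf_iff_real_inner_le_zero (R05_convex P H) hc).mp hmin
  have h1 : ⟪xi - c, m⟫_ℝ ≤ 0 := by
    have h2 : m + c ∈ Chm P H := by
      intro al hal hH
      rw [inner_add_right]
      exact add_nonneg (hmc al hal hH) (hc al hal hH)
    have h3 := hproj (m + c) h2
    rwa [add_sub_cancel_right] at h3
  obtain ⟨t, ht, htc⟩ := R05_small hP hc
  have h4 : 0 ≤ ⟪xi - c, vc P c⟫_ℝ := by
    have h5 := hproj _ htc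
    rw [sub_sub_cancel_left, inner_neg_right, real_inner_smul_right] at h5
    have h6 : 0 ≤ t * ⟪xi - c, vc P c⟫_ℝ := by linarith
    exact nonneg_of_mul_nonneg_right h6 ht
  have h7 : f (vc P c) < u := hf _ (subset_convexHull ℝ _ ⟨c, hc, rfl⟩)
  rw [← hxi] at h7 hu
  rw [inner_sub_left] at h1 h4
  have h8 := hm c
  rw [← vc_inner_self hP c, real_inner_comm] at h8
  rw [real_inner_comm c (vc P c)] at h8
  linarith

end Pool.Agent.Lib.MP_4322ef_CH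
end

section

/-!
# Moving into a chamber by reflections

The set `{x' | Q x' ∧ ‖x'‖ = ‖x‖}` is compact and nonempty. Let `x'` maximise `⟪x', H⟫` on it. If
`al ∈ P`, `0 < ⟪al, H⟫`, `⟪al, x'⟫ < 0`, then `sr al x'` is in the set and
`⟪sr al x', H⟫ = ⟪x', H⟫ - 2 ⟪x', al⟫ / ⟪al, al⟫ * ⟪al, H⟫ > ⟪x', H⟫`: contradiction.
-/

set_option autoImplicit false

open scoped InnerProductSpace

namespace Pool.Agent.Lib.MP_4322ef_CH

variable {E : Type} [NormedAddCommGroup E] [InnerProductSpace ℝ E]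

theorem move [FiniteDimensional ℝ E] {P : Finset E} (hP : RSys P) (H : E) (Q : E → Prop)
    (hQ : IsClosed {x | Q x})
    (hst : ∀ x, Q x → ∀ al ∈ P, 0 < ⟪al, H⟫_ℝ → ⟪al, x⟫_ℝ < 0 → Q (sr al x)) (x : E) (hx : Q x) :
    ∃ x', Q x' ∧ x' ∈ Chm P H := by
  have hc : IsCompact ({y | Q y} ∩ Metric.sphere (0 : E) ‖x‖) :=
    (isCompact_sphere (0 : E) ‖x‖).inter_left hQ
  have hne : ({y | Q y} ∩ Metric.sphere (0 : E) ‖x‖).Nonempty :=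
    ⟨x, hx, by simp⟩
  have hf : ContinuousOn (fun y : E => ⟪y, H⟫_ℝ) ({y | Q y} ∩ Metric.sphere (0 : E) ‖x‖) :=
    Continuous.continuousOn (by fun_prop)
  obtain ⟨x', hx', hmax⟩ := hc.exists_isMaxOn hne hf
  refine ⟨x', hx'.1, ?_⟩
  intro al hal hH
  by_contra hneg
  rw [not_le] at hneg
  have h0 : al ≠ 0 := hP.ne al hal
  have h1 : sr al x' ∈ {y | Q y} ∩ Metric.sphere (0 : E) ‖x‖ := by
    refine ⟨hst x' hx'.1 al hal hH hneg, ?_⟩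
    have h2 : ‖sr al x'‖ = ‖x'‖ := by
      rw [norm_eq_sqrt_real_inner, norm_eq_sqrt_real_inner, sr_isom h0]
    have h3 := hx'.2
    rw [mem_sphere_zero_iff_norm] at h3 ⊢
    rw [h2, h3]
  have h4 := hmax h1
  have h5 : ⟪sr al x', H⟫_ℝ ≤ ⟪x', H⟫_ℝ := h4
  unfold sr at h5
  rw [inner_sub_left, real_inner_smul_left] at h5
  have h6 : 0 < ⟪al, al⟫_ℝ := real_inner_self_pos.mpr h0
  have h7 : 2 * ⟪x', al⟫_ℝ / ⟪al, al⟫_ℝ * ⟪al, H⟫_ℝ < 0 := by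
    rw [real_inner_comm al x'] at *
    exact mul_neg_of_neg_of_pos (div_neg_of_neg_of_pos (by linarith) h6) hH
  linarith

end Pool.Agent.Lib.MP_4322ef_CH
end

section

/-!
# The geometric lemma R2

* `R2a`: apply `move` with `H := H₂` to `c` and `Q x := (∀ al ∈ P, 0 ≤ ⟪al, y⟫ * ⟪al, x⟫) ∧
  ⟪y, x⟫ = ⟪y, c⟫ ∧ ∃ m' ∈ PY, ⟪m, c⟫ ≤ ⟪m', x⟫` (closed since `PY` is finite). Stability: if
  `0 < ⟪al, H₂⟫`, `⟪al, x⟫ < 0`, then `0 ≤ ⟪al, y⟫` (`y ∈ Chm P H₂`) and `0 ≤ ⟪al, y⟫ * ⟪al, x⟫` give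
  `⟪al, y⟫ = 0`, `sr al y = y`; use `⟪be, sr al x⟫ = ⟪sr al be, x⟫`, `⟪be, y⟫ = ⟪sr al be, y⟫`. For the
  resulting `x' ∈ Chm P H₂`: `⟪m, c⟫ ≤ ⟪m', x'⟫ ≤ ⟪y, x'⟫ = ⟪y, c⟫`.
* `R2b`: for small `s > 0` the vector `y + s • c` is in `Chm P H₃`, so
  `⟪p, y + s c⟫ ≤ hh P (y + s c) = ⟪vc P H₃, y + s c⟫`, and `⟪p, y⟫ = hh P y = ⟪vc P H₃, y⟫` (`hh_chm`).
* `R2`: let `x : E`. Step 1: `move` with `H := H₁` from `x` with `Q z := hh P z = hh P x ∧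
  (∃ l₁ ∈ PV, ⟪l, x⟫ ≤ ⟪l₁, z⟫) ∧ ∃ l₂ ∈ PY, ⟪l', x⟫ ≤ ⟪l₂, z⟫` gives `c ∈ Chm P H₁`, so
  `⟪l, x⟫ ≤ ⟪m - y, c⟫`. Step 2: `exists_chm` with `x₁ = y`, `x₂ = c` gives `H₃`; put
  `d = vc P H₃ - 2 y ∈ Chm P H₃` (`hfund`). `move` with `H := H₃` from `c` with `Q z := hh P z = hh P c ∧
  ⟪d, c⟫ ≤ ⟪d, z⟫ ∧ ∃ l₃ ∈ PY, ⟪l₂, c⟫ ≤ ⟪l₃, z⟫` gives `c' ∈ Chm P H₃` (for `⟪al, z⟫ < 0` the vector
  `sr al z` is `z` plus a positive multiple of `al` and `0 ≤ ⟪d, al⟫`). By `R2a` at `c'` (`y` and `c'` are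
  both in `Chm P H₃`): `⟪l₃, c'⟫ ≤ ⟪y, c'⟫`. So `⟪l', x⟫ ≤ ⟪y, c'⟫`. Finally `⟪m, c⟫ = (⟪p, c⟫ + ⟪p', c⟫)/2
  ≤ (⟪vc P H₃, c⟫ + hh P c) / 2` (`R2b`), `hh P x = hh P c = hh P c' = ⟪vc P H₃, c'⟫` (`hh_chm`) and
  `⟪d, c⟫ ≤ ⟪d, c'⟫` give `⟪l + l', x⟫ ≤ hh P x`.
-/

set_option autoImplicit false

open scoped InnerProductSpace

namespace Pool.Agent.Lib.MP_4322ef_CH

variable {E : Type} [NormedAddCommGroup E] [InnerProductSpace ℝ E]

theorem R2a [FiniteDimensional ℝ E] {P : Finset E} (hP : RSys P) {H₂ y : E}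
    (hy : y ∈ Chm P H₂) {PY : Set E} (hfin : PY.Finite)
    (hst : ∀ m ∈ PY, ∀ al ∈ P, sr al m ∈ PY) (hhw : ∀ m ∈ PY, ∀ c ∈ Chm P H₂, ⟪m, c⟫_ℝ ≤ ⟪y, c⟫_ℝ)
    {c : E} (hc : ∀ al ∈ P, 0 ≤ ⟪al, y⟫_ℝ * ⟪al, c⟫_ℝ) {m : E} (hm : m ∈ PY) :
    ⟪m, c⟫_ℝ ≤ ⟪y, c⟫_ℝ := by
  have hQ : IsClosed {x : E | (∀ al ∈ P, 0 ≤ ⟪al, y⟫_ℝ * ⟪al, x⟫_ℝ) ∧ ⟪y, x⟫_ℝ = ⟪y, c⟫_ℝ ∧
      ∃ m' ∈ PY, ⟪m, c⟫_ℝ ≤ ⟪m', x⟫_ℝ} := by
    have e1 : IsClosed {x : E | ∀ al ∈ P, 0 ≤ ⟪al, y⟫_ℝ * ⟪al, x⟫_ℝ} := by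
      have : {x : E | ∀ al ∈ P, 0 ≤ ⟪al, y⟫_ℝ * ⟪al, x⟫_ℝ} =
          ⋂ al ∈ P, {x : E | 0 ≤ ⟪al, y⟫_ℝ * ⟪al, x⟫_ℝ} := by
        ext x; simp
      rw [this]
      refine isClosed_biInter fun al _ => ?_
      exact isClosed_le continuous_const (by fun_prop)
    have e2 : IsClosed {x : E | ⟪y, x⟫_ℝ = ⟪y, c⟫_ℝ} :=
      isClosed_eq (by fun_prop) continuous_const
    have e3 : IsClosed {x : E | ∃ m' ∈ PY, ⟪m, c⟫_ℝ ≤ ⟪m', x⟫_ℝ} := by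
      have : {x : E | ∃ m' ∈ PY, ⟪m, c⟫_ℝ ≤ ⟪m', x⟫_ℝ} =
          ⋃ m' ∈ PY, {x : E | ⟪m, c⟫_ℝ ≤ ⟪m', x⟫_ℝ} := by
        ext x; simp
      rw [this]
      exact hfin.isClosed_biUnion fun m' _ => isClosed_le continuous_const (by fun_prop)
    exact e1.inter (e2.inter e3)
  have hst2 : ∀ x : E, ((∀ al ∈ P, 0 ≤ ⟪al, y⟫_ℝ * ⟪al, x⟫_ℝ) ∧ ⟪y, x⟫_ℝ = ⟪y, c⟫_ℝ ∧
      ∃ m' ∈ PY, ⟪m, c⟫_ℝ ≤ ⟪m', x⟫_ℝ) → ∀ al ∈ P, 0 < ⟪al, H₂⟫_ℝ → ⟪al, x⟫_ℝ < 0 →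
      ((∀ be ∈ P, 0 ≤ ⟪be, y⟫_ℝ * ⟪be, sr al x⟫_ℝ) ∧ ⟪y, sr al x⟫_ℝ = ⟪y, c⟫_ℝ ∧
      ∃ m' ∈ PY, ⟪m, c⟫_ℝ ≤ ⟪m', sr al x⟫_ℝ) := by
    rintro x ⟨h1, h2, m', hm', h3⟩ al hal hH hx
    have hy0 : ⟪al, y⟫_ℝ = 0 := by
      have h4 := hy al hal hH
      have h5 := h1 al hal
      by_contra hne
      have h6 : 0 < ⟪al, y⟫_ℝ := lt_of_le_of_ne h4 (Ne.symm hne)
      nlinarith [mul_neg_of_pos_of_neg h6 hx]
    have hsy : sr al y = y := by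
      unfold sr
      rw [real_inner_comm, hy0]
      simp
    refine ⟨?_, ?_, sr al m', hst m' hm' al hal, ?_⟩
    · intro be hbe
      have h4 := h1 (sr al be) (hP.refl al hal be hbe)
      rw [sr_inner al be y, hsy, sr_inner al be x] at h4
      exact h4
    · rw [← sr_inner, hsy]
      exact h2
    · rw [sr_isom (hP.ne al hal)]
      exact h3
  obtain ⟨x', ⟨_, h2, m', hm', h3⟩, hx'⟩ := move hP H₂
    (fun x => (∀ al ∈ P, 0 ≤ ⟪al, y⟫_ℝ * ⟪al, x⟫_ℝ) ∧ ⟪y, x⟫_ℝ = ⟪y, c⟫_ℝ ∧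
      ∃ m' ∈ PY, ⟪m, c⟫_ℝ ≤ ⟪m', x⟫_ℝ) hQ hst2 c ⟨hc, rfl, m, hm, le_rfl⟩
  exact (h3.trans (hhw m' hm' x' hx')).trans_eq h2

theorem R2b {P : Finset E} (hP : RSys P) {H₃ y c p : E} (hH : Rg P H₃)
    (hyc : ∀ al ∈ P, 0 < ⟪al, H₃⟫_ℝ → 0 ≤ ⟪al, y⟫_ℝ ∧ (⟪al, y⟫_ℝ = 0 → 0 ≤ ⟪al, c⟫_ℝ))
    (hp : p ∈ ZZ P) (hpy : ⟪p, y⟫_ℝ = hh P y) : ⟪p, c⟫_ℝ ≤ ⟪vc P H₃, c⟫_ℝ := by
  have hev : ∀ᶠ s in nhdsWithin (0 : ℝ) (Set.Ioi 0),
      ∀ al ∈ P, 0 < ⟪al, H₃⟫_ℝ → 0 ≤ ⟪al, y⟫_ℝ + s * ⟪al, c⟫_ℝ := by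
    rw [Finset.eventually_all]
    intro al hal
    by_cases hH3 : 0 < ⟪al, H₃⟫_ℝ
    · obtain ⟨h1, h2⟩ := hyc al hal hH3
      rcases h1.eq_or_lt with h0 | h0
      · have h3 := h2 h0.symm
        filter_upwards [self_mem_nhdsWithin] with s hs _
        rw [← h0]
        have hs' : (0 : ℝ) < s := hs
        positivity
      · have ht : Filter.Tendsto (fun s : ℝ => ⟪al, y⟫_ℝ + s * ⟪al, c⟫_ℝ) (nhds 0)
            (nhds (⟪al, y⟫_ℝ + 0 * ⟪al, c⟫_ℝ)) := by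
          have hcont : Continuous (fun s : ℝ => ⟪al, y⟫_ℝ + s * ⟪al, c⟫_ℝ) := by fun_prop
          exact hcont.tendsto 0
        have h4 : ∀ᶠ s : ℝ in nhds 0, 0 < ⟪al, y⟫_ℝ + s * ⟪al, c⟫_ℝ :=
          ht.eventually_const_lt (by simpa using h0)
        filter_upwards [nhdsWithin_le_nhds h4] with s hs _
        exact hs.le
    · exact Filter.Eventually.of_forall fun s h => absurd h hH3
  obtain ⟨s, hs, hs0⟩ := (hev.and self_mem_nhdsWithin).exists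
  have hs0' : (0 : ℝ) < s := hs0
  have hyC : y ∈ Chm P H₃ := fun al hal hH3 => (hyc al hal hH3).1
  have hC : y + s • c ∈ Chm P H₃ := by
    intro al hal hH3
    rw [inner_add_right, real_inner_smul_right]
    exact hs al hal hH3
  have h1 := hp (y + s • c)
  rw [hh_chm hP hH hC, inner_add_right, inner_add_right, real_inner_smul_right,
    real_inner_smul_right, hpy, hh_chm hP hH hyC] at h1
  have h2 : s * ⟪p, c⟫_ℝ ≤ s * ⟪vc P H₃, c⟫_ℝ := by linarith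
  exact le_of_mul_le_mul_left h2 hs0'

theorem R2 [FiniteDimensional ℝ E] {P : Finset E} (hP : RSys P) {H₁ H₂ m y p p' : E}
    (hH₁ : Rg P H₁) (hH₂ : Rg P H₂) (hy : y ∈ Chm P H₂)
    (hfund : ∀ H, Rg P H → y ∈ Chm P H → vc P H - (2 : ℝ) • y ∈ Chm P H)
    (hp : p ∈ ZZ P) (hp' : p' ∈ ZZ P) (hpp : p + p' = (2 : ℝ) • m) (hpy : ⟪p, y⟫_ℝ = hh P y)
    {PV PY : Set E} (hVfin : PV.Finite) (hYfin : PY.Finite)
    (hVst : ∀ l ∈ PV, ∀ al ∈ P, sr al l ∈ PV) (hYst : ∀ l ∈ PY, ∀ al ∈ P, sr al l ∈ PY)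
    (hV : ∀ l ∈ PV, ∀ c ∈ Chm P H₁, ⟪l, c⟫_ℝ ≤ ⟪m - y, c⟫_ℝ)
    (hY : ∀ l ∈ PY, ∀ c ∈ Chm P H₂, ⟪l, c⟫_ℝ ≤ ⟪y, c⟫_ℝ)
    {l l' : E} (hl : l ∈ PV) (hl' : l' ∈ PY) : l + l' ∈ ZZ P := by
  intro x
  have clo : ∀ (S : Set E), S.Finite → ∀ r : ℝ, IsClosed {z : E | ∃ l₁ ∈ S, r ≤ ⟪l₁, z⟫_ℝ} := by
    intro S hS r
    have : {z : E | ∃ l₁ ∈ S, r ≤ ⟪l₁, z⟫_ℝ} = ⋃ l₁ ∈ S, {z : E | r ≤ ⟪l₁, z⟫_ℝ} := by
      ext z; simp
    rw [this]
    exact hS.isClosed_biUnion fun m' _ => isClosed_le continuous_const (by fun_prop)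
  obtain ⟨c, ⟨hc1, ⟨l₁, hl₁, hc2⟩, l₂, hl₂, hc3⟩, hcC⟩ := move hP H₁
    (fun z => hh P z = hh P x ∧ (∃ l₁ ∈ PV, ⟪l, x⟫_ℝ ≤ ⟪l₁, z⟫_ℝ) ∧
      ∃ l₂ ∈ PY, ⟪l', x⟫_ℝ ≤ ⟪l₂, z⟫_ℝ)
    ((isClosed_eq (hh_cont P) continuous_const).inter ((clo PV hVfin _).inter (clo PY hYfin _)))
    (by
      rintro z ⟨h1, ⟨l₁, hl₁, h2⟩, l₂, hl₂, h3⟩ al hal _ _
      refine ⟨(hh_sr hP hal z).trans h1, ⟨sr al l₁, hVst l₁ hl₁ al hal, ?_⟩,
        sr al l₂, hYst l₂ hl₂ al hal, ?_⟩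
      · rw [sr_isom (hP.ne al hal)]; exact h2
      · rw [sr_isom (hP.ne al hal)]; exact h3)
    x ⟨rfl, ⟨l, hl, le_rfl⟩, l', hl', le_rfl⟩
  have hlx : ⟪l, x⟫_ℝ ≤ ⟪m, c⟫_ℝ - ⟪y, c⟫_ℝ := by
    have := hc2.trans (hV l₁ hl₁ c hcC)
    rwa [inner_sub_left] at this
  obtain ⟨H₃, hH₃, h3⟩ := exists_chm hH₁ y c
  have hyC : y ∈ Chm P H₃ := fun al hal hH3 => (h3 al hal hH3).1
  have hd := hfund H₃ hH₃ hyC
  obtain ⟨c', ⟨hc'1, hc'2, l₃, hl₃, hc'3⟩, hc'C⟩ := move hP H₃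
    (fun z => hh P z = hh P c ∧ ⟪vc P H₃ - (2 : ℝ) • y, c⟫_ℝ ≤ ⟪vc P H₃ - (2 : ℝ) • y, z⟫_ℝ ∧
      ∃ l₃ ∈ PY, ⟪l₂, c⟫_ℝ ≤ ⟪l₃, z⟫_ℝ)
    (by
      have e1 : IsClosed {z : E | hh P z = hh P c} := isClosed_eq (hh_cont P) continuous_const
      have e2 : IsClosed {z : E | ⟪vc P H₃ - (2 : ℝ) • y, c⟫_ℝ ≤ ⟪vc P H₃ - (2 : ℝ) • y, z⟫_ℝ} :=
        isClosed_le continuous_const (by fun_prop)
      exact e1.inter (e2.inter (clo PY hYfin _)))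
    (by
      rintro z ⟨h1, h2, l₃, hl₃, h3⟩ al hal hH3 hz
      refine ⟨(hh_sr hP hal z).trans h1, ?_, sr al l₃, hYst l₃ hl₃ al hal, ?_⟩
      · have h4 : 0 ≤ ⟪vc P H₃ - (2 : ℝ) • y, al⟫_ℝ := by
          rw [real_inner_comm]; exact hd al hal hH3
        have h5 : ⟪z, al⟫_ℝ < 0 := by rw [real_inner_comm]; exact hz
        have h6 : 0 < ⟪al, al⟫_ℝ := real_inner_self_pos.2 (hP.ne al hal)
        refine h2.trans ?_
        unfold sr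
        rw [inner_sub_right, real_inner_smul_right]
        have h7 : 2 * ⟪z, al⟫_ℝ / ⟪al, al⟫_ℝ ≤ 0 :=
          div_nonpos_of_nonpos_of_nonneg (by linarith) h6.le
        nlinarith [mul_nonneg (neg_nonneg.2 h7) h4]
      · rw [sr_isom (hP.ne al hal)]; exact h3)
    c ⟨rfl, le_rfl, l₂, hl₂, le_rfl⟩
  have hyc' : ∀ al ∈ P, 0 ≤ ⟪al, y⟫_ℝ * ⟪al, c'⟫_ℝ := by
    intro al hal
    rcases lt_or_gt_of_ne (hH₃ al hal) with h | h
    · have hn := hP.neg_mem hal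
      have h' : 0 < ⟪-al, H₃⟫_ℝ := by rw [inner_neg_left]; linarith
      have h1 := hyC (-al) hn h'
      have h2 := hc'C (-al) hn h'
      rw [inner_neg_left] at h1 h2
      nlinarith
    · exact mul_nonneg (hyC al hal h) (hc'C al hal h)
  have hl₃c : ⟪l₃, c'⟫_ℝ ≤ ⟪y, c'⟫_ℝ := R2a hP hy hYfin hYst hY hyc' hl₃
  have hl'x : ⟪l', x⟫_ℝ ≤ ⟪y, c'⟫_ℝ := (hc3.trans hc'3).trans hl₃c
  have hpc : ⟪p, c⟫_ℝ ≤ ⟪vc P H₃, c⟫_ℝ := R2b hP hH₃ h3 hp hpy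
  have hp'c : ⟪p', c⟫_ℝ ≤ hh P c := hp' c
  have hmc : ⟪p, c⟫_ℝ + ⟪p', c⟫_ℝ = 2 * ⟪m, c⟫_ℝ := by
    rw [← inner_add_left, hpp, real_inner_smul_left]
  have hc's : hh P c' = ⟪vc P H₃, c'⟫_ℝ := hh_chm hP hH₃ hc'C
  rw [inner_sub_left, inner_sub_left, real_inner_smul_left, real_inner_smul_left] at hc'2
  rw [inner_add_left]
  linarith

end Pool.Agent.Lib.MP_4322ef_CH
end
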