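import Pool.Agent.Lib.MP_4322ef_CH.Mg.G001
import Pool.Agent.Lib.MP_4322ef_CH.Defs2

section

/-!
# The complexification of a unitary representation of `k₀`
-/

set_option autoImplicit false

open scoped InnerProductSpace

namespace Pool.Agent.Lib.MP_4322ef_CH

open Pool.Agent.Lib.MP_4322ef_al.SR

variable {g : Type} [NormedAddCommGroup g] [InnerProductSpace ℝ g] {L : RedLie g}

section
variable {W : Type} [NormedAddCommGroup W] [InnerProductSpace ℂ W]

theorem W01_th (J : CStr L) (Z : g) : L.th (J.J (L.pp Z)) = J.J (L.pp Z) := by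
  rw [J.th, th_pp, map_neg, neg_neg]

theorem W01_brJ (J : CStr L) (A B : g) : L.br A (J.J B) = J.J (L.br A B) := by
  rw [br_skew, J.br, ← map_neg, ← br_skew]

theorem W01_brk (J : CStr L) (A B : g) : L.kk (L.br A B) =
    L.br (L.kk A) (L.kk B) - L.br (J.J (L.pp A)) (J.J (L.pp B)) := by
  have h1 : L.br A B = L.br (L.kk A) (L.kk B) + L.br (L.kk A) (L.pp B) + L.br (L.pp A) (L.kk B)
      + L.br (L.pp A) (L.pp B) := by
    conv_lhs => rw [← kk_add_pp L A, ← kk_add_pp L B]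
    simp only [map_add, LinearMap.add_apply]
    abel
  have h2 : L.br (J.J (L.pp A)) (J.J (L.pp B)) = -L.br (L.pp A) (L.pp B) := by
    rw [J.br, W01_brJ, J.sq]
  have h3 : L.kk (L.br (L.kk A) (L.kk B)) = L.br (L.kk A) (L.kk B) :=
    kk_of_k L (by rw [L.th_br, th_kk, th_kk])
  have h4 : L.kk (L.br (L.kk A) (L.pp B)) = 0 :=
    kk_of_p L (by rw [L.th_br, th_kk, th_pp, map_neg])
  have h5 : L.kk (L.br (L.pp A) (L.kk B)) = 0 :=
    kk_of_p L (by rw [L.th_br, th_kk, th_pp, map_neg, LinearMap.neg_apply])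
  have h6 : L.kk (L.br (L.pp A) (L.pp B)) = L.br (L.pp A) (L.pp B) :=
    kk_of_k L (by rw [L.th_br, th_pp, th_pp, map_neg, map_neg, LinearMap.neg_apply, neg_neg])
  rw [h1, map_add, map_add, map_add, h3, h4, h5, h6, h2]
  abel

theorem W01_brp (J : CStr L) (A B : g) : J.J (L.pp (L.br A B)) =
    L.br (L.kk A) (J.J (L.pp B)) + L.br (J.J (L.pp A)) (L.kk B) := by
  have h1 : L.br A B = L.br (L.kk A) (L.kk B) + L.br (L.kk A) (L.pp B) + L.br (L.pp A) (L.kk B)
      + L.br (L.pp A) (L.pp B) := by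
    conv_lhs => rw [← kk_add_pp L A, ← kk_add_pp L B]
    simp only [map_add, LinearMap.add_apply]
    abel
  have h3 : L.pp (L.br (L.kk A) (L.kk B)) = 0 :=
    pp_of_k L (by rw [L.th_br, th_kk, th_kk])
  have h4 : L.pp (L.br (L.kk A) (L.pp B)) = L.br (L.kk A) (L.pp B) :=
    pp_of_p L (by rw [L.th_br, th_kk, th_pp, map_neg])
  have h5 : L.pp (L.br (L.pp A) (L.kk B)) = L.br (L.pp A) (L.kk B) :=
    pp_of_p L (by rw [L.th_br, th_kk, th_pp, map_neg, LinearMap.neg_apply])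
  have h6 : L.pp (L.br (L.pp A) (L.pp B)) = 0 :=
    pp_of_k L (by rw [L.th_br, th_pp, th_pp, map_neg, map_neg, LinearMap.neg_apply, neg_neg])
  have h7 : L.pp (L.br A B) = L.br (L.kk A) (L.pp B) + L.br (L.pp A) (L.kk B) := by
    rw [h1, map_add, map_add, map_add, h3, h4, h5, h6, zero_add, add_zero]
  rw [h7, map_add, J.br, W01_brJ]

theorem exists_cplx (J : CStr L) (k : KRep L W) : ∃ t : CRep J W,
    ∀ Z, t.op Z = k.op (L.kk Z) - Complex.I • k.op (J.J (L.pp Z)) := by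
  have hI : Complex.I * Complex.I = -1 := Complex.I_mul_I
  refine ⟨{ op := fun Z => k.op (L.kk Z) - Complex.I • k.op (J.J (L.pp Z))
            add := ?_
            smul := ?_
            bracket := ?_
            lin := ?_
            adj := ?_ }, fun Z => rfl⟩
  · intro A B
    rw [map_add, map_add, map_add, k.add _ _ (th_kk L A) (th_kk L B),
      k.add _ _ (W01_th J A) (W01_th J B), smul_add]
    abel
  · intro c A
    rw [map_smul, map_smul, map_smul, k.smul _ _ (th_kk L A), k.smul _ _ (W01_th J A), smul_sub,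
      smul_comm (c : ℂ) Complex.I]
  · intro A B x
    have h1 : k.op (L.br (L.kk A) (L.kk B) - L.br (J.J (L.pp A)) (J.J (L.pp B))) =
        k.op (L.br (L.kk A) (L.kk B)) - k.op (L.br (J.J (L.pp A)) (J.J (L.pp B))) := by
      have e1 : L.th (L.br (L.kk A) (L.kk B)) = L.br (L.kk A) (L.kk B) := by
        rw [L.th_br, th_kk, th_kk]
      have e2 : L.th (L.br (J.J (L.pp A)) (J.J (L.pp B))) = L.br (J.J (L.pp A)) (J.J (L.pp B)) := by
        rw [L.th_br, W01_th, W01_th]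
      have e3 : L.th ((-1 : ℝ) • L.br (J.J (L.pp A)) (J.J (L.pp B))) =
          (-1 : ℝ) • L.br (J.J (L.pp A)) (J.J (L.pp B)) := by rw [map_smul, e2]
      rw [sub_eq_add_neg, ← neg_one_smul ℝ (L.br (J.J (L.pp A)) (J.J (L.pp B))),
        k.add _ _ e1 e3, k.smul _ _ e2, Complex.ofReal_neg, Complex.ofReal_one, neg_one_smul,
        ← sub_eq_add_neg]
    have h2 : k.op (L.br (L.kk A) (J.J (L.pp B)) + L.br (J.J (L.pp A)) (L.kk B)) =
        k.op (L.br (L.kk A) (J.J (L.pp B))) + k.op (L.br (J.J (L.pp A)) (L.kk B)) :=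
      k.add _ _ (by rw [L.th_br, th_kk, W01_th]) (by rw [L.th_br, th_kk, W01_th])
    simp only [LinearMap.sub_apply, LinearMap.smul_apply]
    rw [W01_brk J, W01_brp J, h1, h2, LinearMap.sub_apply, LinearMap.add_apply,
      k.bracket _ _ (th_kk L A) (th_kk L B), k.bracket _ _ (W01_th J A) (W01_th J B),
      k.bracket _ _ (th_kk L A) (W01_th J B), k.bracket _ _ (W01_th J A) (th_kk L B)]
    simp only [map_sub, map_smul, smul_sub, smul_add, smul_smul, hI, neg_one_smul]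
    abel
  · intro A
    have h1 : L.kk (J.J A) = J.J (L.pp A) := by
      rw [kk_apply, pp_apply, J.th, map_smul, map_sub, sub_eq_add_neg]
    have h2 : L.pp (J.J A) = J.J (L.kk A) := by
      rw [kk_apply, pp_apply, J.th, map_smul, map_add, sub_neg_eq_add]
    have h3 : k.op (J.J (L.pp (J.J A))) = -k.op (L.kk A) := by
      rw [h2, J.sq, ← neg_one_smul ℝ (L.kk A), k.smul _ _ (th_kk L A), Complex.ofReal_neg,
        Complex.ofReal_one, neg_one_smul]
    rw [h1, h3, smul_sub, smul_smul, hI, smul_neg, neg_one_smul]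
    abel
  · intro A x y
    have h1 : L.kk (L.th A) = L.kk A := by
      rw [kk_apply, kk_apply, L.th_th, add_comm]
    have h2 : L.pp (L.th A) = -L.pp A := by
      rw [pp_apply, pp_apply, L.th_th, ← smul_neg, neg_sub]
    have h3 : k.op (J.J (L.pp (L.th A))) = -k.op (J.J (L.pp A)) := by
      rw [h2, map_neg, ← neg_one_smul ℝ (J.J (L.pp A)), k.smul _ _ (W01_th J A),
        Complex.ofReal_neg, Complex.ofReal_one, neg_one_smul]
    simp only [LinearMap.sub_apply, LinearMap.smul_apply]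
    rw [h1, h3, LinearMap.neg_apply, smul_neg, sub_neg_eq_add, inner_sub_left, inner_add_right,
      inner_smul_left, inner_smul_right, k.skew _ (th_kk L A), k.skew _ (W01_th J A),
      Complex.conj_I]
    ring

theorem cplx_k {J : CStr L} {k : KRep L W} {t : CRep J W}
    (ht : ∀ Z, t.op Z = k.op (L.kk Z) - Complex.I • k.op (J.J (L.pp Z))) {Z : g}
    (hZ : L.th Z = Z) : t.op Z = k.op Z := by
  have h0 : k.op (0 : g) = 0 := by
    have h := k.smul 0 0 (map_zero _)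
    rw [zero_smul, Complex.ofReal_zero, zero_smul] at h
    exact h
  rw [ht, kk_of_k L hZ, pp_of_k L hZ, map_zero, h0, smul_zero, sub_zero]

end

end Pool.Agent.Lib.MP_4322ef_CH
end

section

/-!
# The `k₀`-types of `X` as complex linear unitary modules
-/

set_option autoImplicit false

open scoped InnerProductSpace

namespace Pool.Agent.Lib.MP_4322ef_CH

open Pool.Agent.Lib.MP_4322ef_al.SR

variable {g : Type} [NormedAddCommGroup g] [InnerProductSpace ℝ g] {L : RedLie g}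

section
variable {X : Type} [NormedAddCommGroup X] [InnerProductSpace ℂ X] (r : Rep L X)
  (hs : ∀ Z, L.th Z = Z → ∀ x y, ⟪r.op Z x, y⟫_ℂ = -⟪x, r.op Z y⟫_ℂ)

/-- the restriction to `k₀` and `V` -/
noncomputable def resK {V : Submodule ℂ X} (hV : ∀ Z, L.th Z = Z → ∀ v ∈ V, r.op Z v ∈ V)
    (hs : ∀ Z, L.th Z = Z → ∀ x y, ⟪r.op Z x, y⟫_ℂ = -⟪x, r.op Z y⟫_ℂ) : KRep L V where
  op Z := (r.op (L.kk Z)).restrict (hV _ (th_kk L Z))
  add A B _ _ := by
    ext v
    show r.op (L.kk (A + B)) (v : X) = r.op (L.kk A) (v : X) + r.op (L.kk B) (v : X)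
    rw [map_add, r.add, LinearMap.add_apply]
  smul c A _ := by
    ext v
    show r.op (L.kk (c • A)) (v : X) = (c : ℂ) • r.op (L.kk A) (v : X)
    rw [map_smul, r.smul, LinearMap.smul_apply]
  bracket A B hA hB x := by
    apply Subtype.ext
    show r.op (L.kk (L.br A B)) (x : X) = r.op (L.kk A) (r.op (L.kk B) (x : X))
      - r.op (L.kk B) (r.op (L.kk A) (x : X))
    rw [← r.bracket, kk_of_k L hA, kk_of_k L hB, kk_of_k L (by rw [L.th_br, hA, hB])]
  skew Z hZ x y := hs _ (th_kk L Z) x y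

include hs in
theorem ktype_pack [FiniteDimensional ℝ g] (J : CStr L) {V : Submodule ℂ X}
    (hV : IsKType L r.op V) :
    ∃ t : CRep J V, Irr t ∧ (∀ Z, L.th Z = Z → ∀ v : V, ((t.op Z v : V) : X) = r.op Z v) ∧
      ∀ v : V, kCas L r.op (v : X) = ((kCas L t.op v : V) : X) := by
  obtain ⟨t, ht⟩ := exists_cplx J (resK r hV.stable hs)
  have hk : ∀ Z, L.th Z = Z → ∀ v : V, ((t.op Z v : V) : X) = r.op Z v := by
    intro Z hZ v
    rw [cplx_k ht hZ]
    show r.op (L.kk Z) (v : X) = r.op Z v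
    rw [kk_of_k L hZ]
  refine ⟨t, ?_, hk, ?_⟩
  · intro U hU
    have h1 : U.map V.subtype ≤ V := by
      rintro x ⟨u, _, rfl⟩
      exact u.2
    rcases hV.irr (U.map V.subtype) h1 (by
      rintro Z hZ x ⟨u, hu, rfl⟩
      exact ⟨t.op Z u, hU Z u hu, hk Z hZ u⟩) with h2 | h2
    · left
      rw [Submodule.eq_bot_iff]
      intro u hu
      have h3 : V.subtype u ∈ U.map V.subtype := Submodule.mem_map_of_mem hu
      rw [h2, Submodule.mem_bot] at h3
      exact Subtype.ext h3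
    · right
      rw [Submodule.eq_top_iff']
      intro u
      have h3 : (u : X) ∈ U.map V.subtype := by
        rw [h2]
        exact u.2
      obtain ⟨u', hu', he⟩ := h3
      rw [← Subtype.ext he]
      exact hu'
  · intro v
    have h1 : ((kCas L t.op v : V) : X) = V.subtype (kCas L t.op v) := rfl
    rw [h1, kCas, kCas, map_neg, map_sum]
    congr 1
    refine Finset.sum_congr rfl fun i _ => ?_
    show r.op (L.kk (stdOrthonormalBasis ℝ g i)) (r.op (L.kk (stdOrthonormalBasis ℝ g i)) (v : X)) =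
      ((t.op (L.kk (stdOrthonormalBasis ℝ g i)) (t.op (L.kk (stdOrthonormalBasis ℝ g i)) v) : V) : X)
    rw [hk _ (th_kk L _), hk _ (th_kk L _)]

theorem K01_split {W : Type} [NormedAddCommGroup W] [InnerProductSpace ℂ W] {J : CStr L}
    (t : CRep J W) (Z : g) (w : W) :
    t.op Z w = t.op (L.kk Z) w - Complex.I • t.op (J.J (L.pp Z)) w := by
  rw [t.lin, LinearMap.smul_apply, smul_smul, Complex.I_mul_I, neg_one_smul, sub_neg_eq_add,
    ← LinearMap.add_apply, ← t.add, kk_add_pp]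

theorem K01_wt {W : Type} [NormedAddCommGroup W] [InnerProductSpace ℂ W] {J : CStr L}
    (t : CRep J W) {H : g} {c : ℂ} {w : W} (h : t.op (J.J H) w = (Complex.I * c) • w) :
    t.op H w = c • w := by
  rw [t.lin, LinearMap.smul_apply, mul_smul] at h
  exact smul_right_injective W Complex.I_ne_zero h

theorem high_hw (J : CStr L) (C : CSub L) {V : Submodule ℂ X} {t : CRep J V}
    (ht : ∀ Z, L.th Z = Z → ∀ v : V, ((t.op Z v : V) : X) = r.op Z v) {H₁ be : g}
    (h : IsHigh J C.a r.op V H₁ be) : ∃ v : V, HW t C.a H₁ be v := by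
  obtain ⟨hbe, v, hv, hv0, hw, hp⟩ := h
  refine ⟨⟨v, hv⟩, hbe, fun h0 => hv0 (congrArg Subtype.val h0), ?_, ?_⟩
  · intro H hH
    apply K01_wt
    apply Subtype.ext
    have h1 : L.th (J.J H) = J.J H := by rw [J.th, C.a_p H hH, map_neg, neg_neg]
    rw [ht _ h1]
    exact hw H hH
  · intro Z hZ
    rw [K01_split]
    apply Subtype.ext
    have h1 : ((t.op (L.kk Z) ⟨v, hv⟩ - Complex.I • t.op (J.J (L.pp Z)) ⟨v, hv⟩ : V) : X) =
        ((t.op (L.kk Z) ⟨v, hv⟩ : V) : X) - Complex.I • ((t.op (J.J (L.pp Z)) ⟨v, hv⟩ : V) : X) := rfl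
    rw [h1, ht _ (th_kk L Z), ht _ (W01_th J Z)]
    show r.op (L.kk Z) v - Complex.I • r.op (J.J (L.pp Z)) v = 0
    rw [hp Z hZ, sub_self]

theorem high_hw' {W : Type} [NormedAddCommGroup W] [InnerProductSpace ℂ W] {J : CStr L}
    (t : CRep J W) (C : CSub L) {H₁ be : g} (h : IsHigh J C.a t.op ⊤ H₁ be) :
    ∃ v : W, HW t C.a H₁ be v := by
  obtain ⟨hbe, v, -, hv0, hw, hp⟩ := h
  refine ⟨v, hbe, hv0, fun H hH => K01_wt t (hw H hH), fun Z hZ => ?_⟩
  rw [K01_split, hp Z hZ, sub_self]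

end

end Pool.Agent.Lib.MP_4322ef_CH
end

section

/-!
# The convex hull conjecture for complex groups: definitions, third part

The classical root systems `B n`, `C n`, `D n`, classical Lie algebras, the representations needed for
the other ones.
-/

set_option autoImplicit false

open scoped InnerProductSpace

namespace Pool.Agent.Lib.MP_4322ef_CH

open Pool.Agent.Lib.MP_4322ef_al.SR

variable {g : Type} [NormedAddCommGroup g] [InnerProductSpace ℝ g]

/-- The roots which are not orthogonal to all `ep i` are the `± ep i ± ep j`, `i ≠ j`, and, if `m ≠ 0`,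
the `± m ep i`, where the `ep i` are pairwise orthogonal and of equal length: the root system has a
factor of type `D n` (`m = 0`), `B n` (`m = 1`) or `C n` (`m = 2`). -/
structure BCD (L : RedLie g) (a : Submodule ℝ g) (m : ℕ) {n : ℕ} (ep : Fin n → g) : Prop where
  le : m ≤ 2
  mem : ∀ i, ep i ∈ a
  ne : ∀ i, ep i ≠ 0
  len : ∀ i j, ⟪ep i, ep i⟫_ℝ = ⟪ep j, ep j⟫_ℝ
  orth : ∀ i j, i ≠ j → ⟪ep i, ep j⟫_ℝ = 0
  root_mem : ∀ al, (∃ i j, ∃ σ τ : ℝ, i ≠ j ∧ |σ| = 1 ∧ |τ| = 1 ∧ al = σ • ep i + τ • ep j) ∨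
    (∃ i, ∃ σ : ℝ, m ≠ 0 ∧ |σ| = m ∧ al = σ • ep i) → al ∈ roots L a
  root : ∀ al ∈ roots L a,
    ((∃ i j, ∃ σ τ : ℝ, i ≠ j ∧ |σ| = 1 ∧ |τ| = 1 ∧ al = σ • ep i + τ • ep j) ∨
      ∃ i, ∃ σ : ℝ, m ≠ 0 ∧ |σ| = m ∧ al = σ • ep i) ∨ ∀ i, ⟪ep i, al⟫_ℝ = 0

/-- `E` is irreducible, the `± ep i` are extreme weights of `E` and there are no other weights except
possibly `0`: `E` is the natural representation. -/
structure NatMod {L : RedLie g} {J : CStr L} (a : Submodule ℝ g) {E : Type} [NormedAddCommGroup E]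
    [InnerProductSpace ℂ E] (s : CRep J E) {n : ℕ} (ep : Fin n → g) : Prop where
  irr : Irr s
  ext : ∀ i, ∀ σ : ℝ, |σ| = 1 → IsExt J a s.op ⊤ (σ • ep i)
  wt : ∀ lam, IsWt J a s.op ⊤ lam → lam = 0 ∨ ∃ i, ∃ σ : ℝ, |σ| = 1 ∧ lam = σ • ep i

/-- Every closed Weyl chamber is generated, modulo the centre, by weights `y` which are `Good` for the
`k₀`-type `V₀` of `X` with extreme weight `mu`. By the theorem of Parthasarathy, Ranga Rao and
Varadarajan and of Kumar this holds for every complex reductive `g` and all `V₀`, with the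
fundamental weights. -/
def FundData {L : RedLie g} (J : CStr L) (a : Submodule ℝ g) {X : Type} [AddCommGroup X] [Module ℂ X]
    (op : g → X →ₗ[ℂ] X) (V₀ : Submodule ℂ X) (mu : g) : Prop :=
  ∀ H, Reg L a H → ∃ S : Finset g, Gen L a H S ∧ ∀ y ∈ S, Good J a op V₀ mu y

end Pool.Agent.Lib.MP_4322ef_CH
end

section

/-!
# Weights generating the Weyl chambers modulo the roots orthogonal to a family
-/

set_option autoImplicit false

open scoped InnerProductSpace

namespace Pool.Agent.Lib.MP_4322ef_CH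

open Pool.Agent.Lib.MP_4322ef_al.SR

variable {g : Type} [NormedAddCommGroup g] [InnerProductSpace ℝ g]

/-- the weights in `S` are dominant for the positive system of `H`, orthogonal to the roots which are
orthogonal to all `ep i`, and generate the closed Weyl chamber modulo vectors orthogonal to the other
roots -/
def GenR (L : RedLie g) (a : Submodule ℝ g) {n : ℕ} (ep : Fin n → g) (H : g) (S : Finset g) : Prop :=
  (∀ y ∈ S, ∀ al ∈ roots L a, 0 < ⟪al, H⟫_ℝ → 0 ≤ ⟪al, y⟫_ℝ) ∧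
  (∀ y ∈ S, ∀ al ∈ roots L a, (∀ i, ⟪ep i, al⟫_ℝ = 0) → ⟪al, y⟫_ℝ = 0) ∧
  ∀ x ∈ a, (∀ al ∈ roots L a, 0 < ⟪al, H⟫_ℝ → 0 ≤ ⟪al, x⟫_ℝ) →
    ∃ c : g → ℝ, (∀ y ∈ S, 0 ≤ c y) ∧
      ∀ al ∈ roots L a, (∀ i, ⟪ep i, al⟫_ℝ = 0) ∨ ⟪al, x - ∑ y ∈ S, c y • y⟫_ℝ = 0

end Pool.Agent.Lib.MP_4322ef_CH
end

section

/-!
# Ideals on which a representation is faithful (technical definitions)
-/

set_option autoImplicit false

open scoped InnerProductSpace

namespace Pool.Agent.Lib.MP_4322ef_CH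

open Pool.Agent.Lib.MP_4322ef_al.SR

variable {g : Type} [NormedAddCommGroup g] [InnerProductSpace ℝ g] {L : RedLie g}
variable {J : CStr L} {E : Type} [NormedAddCommGroup E] [InnerProductSpace ℂ E]

/-- `N` is a `θ`-stable ideal on which `s` is faithful -/
structure Ide (s : CRep J E) (N : Submodule ℝ g) : Prop where
  faith : ∀ A ∈ N, s.op A = 0 → A = 0
  stab : ∀ B, ∀ A ∈ N, L.br B A ∈ N
  th : ∀ A ∈ N, L.th A ∈ N

/-- `s` maps the ideal `N` onto a Lie algebra which contains all operators of trace zero -/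
structure TypeAN (s : CRep J E) (N : Submodule ℝ g) : Prop where
  ide : Ide s N
  all : ∀ T : E →ₗ[ℂ] E, LinearMap.trace ℂ E T = 0 → ∃ A ∈ N, s.op A = T

/-- `s` maps `g` into and the ideal `N` onto the Lie algebra of the operators which are skew for the
bilinear form `⟪c x, y⟫` -/
structure TypeQN (s : CRep J E) (c : E →ₗ⋆[ℂ] E) (e : ℝ) (N : Submodule ℝ g) : Prop where
  ide : Ide s N
  sgn : e = 1 ∨ e = -1
  sq : ∀ x, c (c x) = (e : ℂ) • x
  iso : ∀ x y, ⟪c x, c y⟫_ℂ = ⟪y, x⟫_ℂ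
  inv : ∀ A x y, ⟪c (s.op A x), y⟫_ℂ = -⟪c x, s.op A y⟫_ℂ
  all : ∀ T : E →ₗ[ℂ] E, (∀ x y, ⟪c (T x), y⟫_ℂ = -⟪c x, T y⟫_ℂ) → ∃ A ∈ N, s.op A = T

end Pool.Agent.Lib.MP_4322ef_CH
end

section

/-!
# The form on an eigenvector of the split Casimir operator
-/

set_option autoImplicit false

open scoped InnerProductSpace

namespace Pool.Agent.Lib.MP_4322ef_CH

open Pool.Agent.Lib.MP_4322ef_al.SR

variable {g : Type} [NormedAddCommGroup g] [InnerProductSpace ℝ g] {L : RedLie g}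

section
variable {X : Type} [NormedAddCommGroup X] [InnerProductSpace ℂ X] (r : HC L X)
  [FiniteDimensional ℝ g]

theorem coreA {D : Type} [NormedAddCommGroup D] [InnerProductSpace ℂ D] [FiniteDimensional ℂ D]
    (de : DData L D) (B : InvForm r) (hE : FiniteDimensional ℂ (KHom L r.op de.κ)) (cV c₀ d : ℝ)
    (hc : ∀ x, ∑ i, de.α (L.kk (stdOrthonormalBasis ℝ g i))
      (de.α (L.kk (stdOrthonormalBasis ℝ g i)) x) = -((cV : ℂ) • x))
    (hd : ∀ x, ∑ i, de.τ.op (L.kk (stdOrthonormalBasis ℝ g i))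
      (de.τ.op (L.kk (stdOrthonormalBasis ℝ g i)) x) = -((d : ℂ) • x))
    (hs : ∀ V ≤ XD r de.κ, KType r V → ∀ c : ℝ, (∀ v ∈ V, casimir r v = (c : ℂ) • v) → c₀ ≤ c)
    (T : D →ₗ[ℂ] X) (hT : T ∈ KHom L r.op de.κ) (hT0 : T ≠ 0) (kap : ℂ)
    (hTe : cas r de T = kap • T) (hkap : cV - d - c₀ < 2 * kap.re)
    (hpsd : ∀ x ∈ XD r de.κ, 0 ≤ (B.form x x).re) : False := by
  let e := stdOrthonormalBasis ℂ D
  let N : ℝ := ∑ j, (B.form (T (e j)) (T (e j))).re
  have hNpos : 0 < N := by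
    have h4 : ∃ j, T (e j) ≠ 0 := by
      by_contra hcon
      push Not at hcon
      apply hT0
      refine e.toBasis.ext fun j => ?_
      rw [e.coe_toBasis, hcon j, LinearMap.zero_apply]
    obtain ⟨j, hj⟩ := h4
    exact Finset.sum_pos' (fun j _ => hpsd _ (mem_XD r _ hT _))
      ⟨j, Finset.mem_univ j, XD_pos r _ B hpsd (mem_XD r _ hT _) hj⟩
  have h5 : (∑ j, B.form (T (e j)) (cas r de T (e j))).re = kap.re * N := by
    have h6 : ∑ j, B.form (T (e j)) (cas r de T (e j)) = kap * ((N : ℝ) : ℂ) := by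
      rw [Complex.ofReal_sum, Finset.mul_sum]
      refine Finset.sum_congr rfl fun j _ => ?_
      rw [hTe, LinearMap.smul_apply, map_smul, smul_eq_mul, ← form_real]
    rw [h6, Complex.re_mul_ofReal]
  have h7 : (∑ j, B.form (T (e j)) (cas r de T (e j))).re =
      (∑ j, B.form (T (e j)) (∑ i, r.op (L.kk (stdOrthonormalBasis ℝ g i))
      (T (de.τ.op (L.kk (stdOrthonormalBasis ℝ g i)) (e j))))).re := by
    have h8 : ∑ j, B.form (T (e j)) (cas r de T (e j)) =
        ∑ j, B.form (T (e j)) (∑ i, r.op (L.kk (stdOrthonormalBasis ℝ g i))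
          (T (de.τ.op (L.kk (stdOrthonormalBasis ℝ g i)) (e j))))
        - ∑ i, ∑ j, B.form (T (e j)) (r.op (L.pp (stdOrthonormalBasis ℝ g i))
          (T (de.τ.op (L.pp (stdOrthonormalBasis ℝ g i)) (e j)))) := by
      rw [Finset.sum_comm (γ := Fin _), ← Finset.sum_sub_distrib]
      refine Finset.sum_congr rfl fun j _ => ?_
      rw [cas_split, map_sub, map_sum (B.form (T (e j))) (fun i =>
        r.op (L.pp (stdOrthonormalBasis ℝ g i)) (T (de.τ.op (L.pp (stdOrthonormalBasis ℝ g i))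
          (e j))))]
    rw [h8, Complex.sub_re, Complex.re_sum (f := fun i => ∑ j, B.form (T (e j))
      (r.op (L.pp (stdOrthonormalBasis ℝ g i))
          (T (de.τ.op (L.pp (stdOrthonormalBasis ℝ g i)) (e j)))))]
    rw [Finset.sum_eq_zero fun i _ => form_pp r de B e T (th_pp L _), sub_zero]
  rw [h5, form_kk r de B e cV hc hT] at h7
  have h9 : c₀ * N ≤ ∑ j, (B.form (T (e j)) (casimir r (T (e j)))).re := by
    rw [Finset.mul_sum]
    refine Finset.sum_le_sum fun j _ => ?_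
    exact casimir_bound r B (XD r de.κ) (XD_fin r _ hE) (XD_sub r _) hpsd _ hs _ (mem_XD r _ hT _)
  have h10 : ∑ i, ∑ j, (B.form (T (de.τ.op (L.kk (stdOrthonormalBasis ℝ g i)) (e j)))
        (T (de.τ.op (L.kk (stdOrthonormalBasis ℝ g i)) (e j)))).re = d * N := by
    have h3 : ∀ i, ∑ j, B.form (T (de.τ.op (L.kk (stdOrthonormalBasis ℝ g i)) (e j)))
        (T (de.τ.op (L.kk (stdOrthonormalBasis ℝ g i)) (e j))) =
        -∑ j, B.form (T (e j)) (T (de.τ.op (L.kk (stdOrthonormalBasis ℝ g i))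
          (de.τ.op (L.kk (stdOrthonormalBasis ℝ g i)) (e j)))) := by
      intro i
      have h4 := trace_swap B.form e T (T ∘ₗ de.τ.op (L.kk (stdOrthonormalBasis ℝ g i)))
        (de.τ.op (L.kk (stdOrthonormalBasis ℝ g i)))
        (-de.τ.op (L.kk (stdOrthonormalBasis ℝ g i))) (by
          intro x y
          rw [de.adj, th_kk, LinearMap.neg_apply, inner_neg_right])
      simp only [LinearMap.comp_apply, LinearMap.neg_apply, map_neg] at h4
      rw [h4, Finset.sum_neg_distrib, neg_neg]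
    have h4 : ∑ i, ∑ j, B.form (T (de.τ.op (L.kk (stdOrthonormalBasis ℝ g i)) (e j)))
        (T (de.τ.op (L.kk (stdOrthonormalBasis ℝ g i)) (e j))) = (d : ℂ) * (N : ℂ) := by
      rw [Finset.sum_congr rfl fun i _ => h3 i, Finset.sum_neg_distrib, Finset.sum_comm,
        Complex.ofReal_sum, Finset.mul_sum, ← Finset.sum_neg_distrib]
      refine Finset.sum_congr rfl fun j _ => ?_
      rw [← map_sum (B.form (T (e j))), ← map_sum T, hd, map_neg, map_neg, neg_neg, map_smul,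
        map_smul, smul_eq_mul, ← form_real]
    have h5 := congrArg Complex.re h4
    simp only [Complex.re_sum] at h5
    rw [← Complex.ofReal_mul, Complex.ofReal_re] at h5
    exact h5
  have h11 : (∑ j, (B.form (T (e j)) (T (e j))).re) = N := rfl
  rw [h11, h10] at h7
  have h12 : (cV - d - c₀) * N < 2 * kap.re * N := mul_lt_mul_of_pos_right hkap hNpos
  linarith

theorem coreT {D : Type} [NormedAddCommGroup D] [InnerProductSpace ℂ D] [FiniteDimensional ℂ D]
    (de : DData L D) (B : InvForm r) (hE : FiniteDimensional ℂ (KHom L r.op de.κ)) (cV c₀ d : ℝ)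
    (hc : ∀ x, ∑ i, de.α (L.kk (stdOrthonormalBasis ℝ g i))
      (de.α (L.kk (stdOrthonormalBasis ℝ g i)) x) = -((cV : ℂ) • x))
    (hd : ∀ x, ∑ i, de.τ.op (L.kk (stdOrthonormalBasis ℝ g i))
      (de.τ.op (L.kk (stdOrthonormalBasis ℝ g i)) x) = -((d : ℂ) • x))
    (hs : ∀ V ≤ XD r de.κ, KType r V → ∀ c : ℝ, (∀ v ∈ V, casimir r v = (c : ℂ) • v) → c₀ ≤ c)
    (T : D →ₗ[ℂ] X) (hT : T ∈ KHom L r.op de.κ) (hT0 : T ≠ 0) (kap : ℂ)
    (hTe : cas r de T = kap • T) (hkap : cV - d - c₀ < 2 * kap.re) :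
    ∃ V₁ V₂ : Submodule ℂ X, V₁ ≤ XD r de.κ ∧ V₂ ≤ XD r de.κ ∧ KType r V₁ ∧ KType r V₂ ∧
      (∀ v ∈ V₁, v ≠ 0 → 0 < (B.form v v).re) ∧ ∀ v ∈ V₂, v ≠ 0 → (B.form v v).re < 0 := by
  have key : ∀ B : InvForm r, ∃ V ≤ XD r de.κ, KType r V ∧ ∀ v ∈ V, v ≠ 0 → (B.form v v).re < 0 := by
    intro B
    have h4 : ∃ x ∈ XD r de.κ, (B.form x x).re < 0 := by
      by_contra hcon
      push Not at hcon
      exact coreA r de B hE cV c₀ d hc hd hs T hT hT0 kap hTe hkap hcon
    exact neg_type r _ (XD_fin r _ hE) (XD_sub r _) B.form (fun x _ y _ => B.herm x y)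
      (fun Z _ x _ y _ => B.inv Z x y) h4
  obtain ⟨V₂, hV₂, hK₂, hn₂⟩ := key B
  obtain ⟨V₁, hV₁, hK₁, hn₁⟩ := key B.negF
  refine ⟨V₁, V₂, hV₁, hV₂, hK₁, hK₂, fun v hv hv0 => ?_, hn₂⟩
  have h5 := hn₁ v hv hv0
  have h6 : B.negF.form v v = -B.form v v := rfl
  rw [h6, Complex.neg_re] at h5
  linarith

end

end Pool.Agent.Lib.MP_4322ef_CH
end

section

/-!
# The weights of the `k₀`-types of `V ⊗ Y`
-/

set_option autoImplicit false

open scoped InnerProductSpace

namespace Pool.Agent.Lib.MP_4322ef_CH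

open Pool.Agent.Lib.MP_4322ef_al.SR

variable {g : Type} [NormedAddCommGroup g] [InnerProductSpace ℝ g] {L : RedLie g}

section
variable {X : Type} [NormedAddCommGroup X] [InnerProductSpace ℂ X] (r : Rep L X)
  (hs : ∀ Z, L.th Z = Z → ∀ x y, ⟪r.op Z x, y⟫_ℂ = -⟪x, r.op Z y⟫_ℂ)

include hs in
/-- vectors of different weights under `J a` are orthogonal -/
theorem K02_orth (J : CStr L) (C : CSub L) {lam lam' : g} (hl : lam ∈ C.a) (hl' : lam' ∈ C.a)
    {x x' : X} (h : ∀ H ∈ C.a, r.op (J.J H) x = (Complex.I * (⟪lam, H⟫_ℝ : ℂ)) • x)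
    (h' : ∀ H ∈ C.a, r.op (J.J H) x' = (Complex.I * (⟪lam', H⟫_ℝ : ℂ)) • x')
    (hne : lam ≠ lam') : ⟪x, x'⟫_ℂ = 0 := by
  have hH : lam - lam' ∈ C.a := C.a.sub_mem hl hl'
  have hJH : L.th (J.J (lam - lam')) = J.J (lam - lam') := by
    rw [J.th, C.a_p _ hH, map_neg, neg_neg]
  have h1 := hs _ hJH x x'
  rw [h _ hH, h' _ hH, inner_smul_left, inner_smul_right, map_mul, Complex.conj_I,
    Complex.conj_ofReal] at h1
  have h2 : (Complex.I * ((⟪lam - lam', lam - lam'⟫_ℝ : ℝ) : ℂ)) * ⟪x, x'⟫_ℂ = 0 := by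
    have h3 : ((⟪lam - lam', lam - lam'⟫_ℝ : ℝ) : ℂ) =
        (⟪lam, lam - lam'⟫_ℝ : ℂ) - (⟪lam', lam - lam'⟫_ℝ : ℂ) := by
      rw [← Complex.ofReal_sub, ← inner_sub_left]
    rw [h3]
    linear_combination -h1
  rcases mul_eq_zero.1 h2 with h3 | h3
  · exfalso
    rcases mul_eq_zero.1 h3 with h4 | h4
    · exact Complex.I_ne_zero h4
    · have h5 : ⟪lam - lam', lam - lam'⟫_ℝ = 0 := by exact_mod_cast h4
      exact hne (sub_eq_zero.1 (inner_self_eq_zero.1 h5))
  · exact h3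

include hs in
theorem small_of [FiniteDimensional ℝ g] (J : CStr L) (C : CSub L) {V₁ : Submodule ℂ X}
    (hV₁ : IsKType L r.op V₁)
    {V : Type} [NormedAddCommGroup V] [InnerProductSpace ℂ V] [FiniteDimensional ℂ V]
    (t : CRep J V)
    {Y : Type} [NormedAddCommGroup Y] [InnerProductSpace ℂ Y] [FiniteDimensional ℂ Y]
    (s : CRep J Y) (b : V →ₗ[ℂ] Y →ₗ[ℂ] X) (hbV : ∀ v y, b v y ∈ V₁) (hne : ∃ v y, b v y ≠ 0)
    (hb : ∀ Z, L.th Z = Z → ∀ v y, r.op Z (b v y) = b (t.op Z v) y + b v (s.op Z y))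
    (hall : ∀ l, IsW t C.a l → ∀ l', IsW s C.a l' → InHull L C.a (l + l')) :
    Small J C.a r.op V₁ := by
  rintro lam ⟨hlam, x, hx, hx0, hxw⟩
  by_contra hcon
  -- the vector `x` is orthogonal to the image of `b`
  have h1 : ∀ v y, ⟪x, b v y⟫_ℂ = 0 := by
    have h2 : ∀ l ∈ C.a, ∀ v, WV t C.a l v → ∀ l' ∈ C.a, ∀ y, WV s C.a l' y →
        ⟪x, b v y⟫_ℂ = 0 := by
      intro l hl v hv l' hl' y hy
      by_cases hv0 : v = 0
      · rw [hv0, map_zero, LinearMap.zero_apply, inner_zero_right]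
      by_cases hy0 : y = 0
      · rw [hy0, map_zero, inner_zero_right]
      refine K02_orth r hs J C hlam (C.a.add_mem hl hl') hxw ?_ ?_
      · intro H hH
        have hJH : L.th (J.J H) = J.J H := by rw [J.th, C.a_p _ hH, map_neg, neg_neg]
        rw [hb _ hJH, t.lin, s.lin, LinearMap.smul_apply, LinearMap.smul_apply, hv H hH, hy H hH,
          map_smul, map_smul, map_smul, map_smul, LinearMap.smul_apply, LinearMap.smul_apply,
          smul_smul, smul_smul, ← add_smul, inner_add_left]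
        push_cast
        rw [mul_add]
      · intro h
        exact hcon (h ▸ hall l ⟨hl, v, hv0, hv⟩ l' ⟨hl', y, hy0, hy⟩)
    have h3 : ∀ l ∈ C.a, ∀ v, WV t C.a l v → ∀ y, ⟪x, b v y⟫_ℂ = 0 := by
      intro l hl v hv y
      have h4 : Submodule.span ℂ {v | ∃ lam ∈ C.a, WV s C.a lam v} ≤
          LinearMap.ker ((innerₛₗ ℂ x) ∘ₗ b v) := by
        refine Submodule.span_le.2 ?_
        rintro y ⟨l', hl', hy⟩
        exact LinearMap.mem_ker.2 (h2 l hl v hv l' hl' y hy)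
      exact LinearMap.mem_ker.1 (h4 (wt_span s C y))
    intro v y
    have h4 : Submodule.span ℂ {v | ∃ lam ∈ C.a, WV t C.a lam v} ≤
        LinearMap.ker ((innerₛₗ ℂ x) ∘ₗ b.flip y) := by
      refine Submodule.span_le.2 ?_
      rintro v ⟨l, hl, hv⟩
      exact LinearMap.mem_ker.2 (h3 l hl v hv y)
    exact LinearMap.mem_ker.1 (h4 (wt_span t C v))
  -- the image of `b` spans `V₁`
  let U : Submodule ℂ X := Submodule.span ℂ {z | ∃ v y, b v y = z}
  have hU1 : U ≤ V₁ := by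
    refine Submodule.span_le.2 ?_
    rintro z ⟨v, y, rfl⟩
    exact hbV v y
  have hU2 : ∀ Z, L.th Z = Z → ∀ u ∈ U, r.op Z u ∈ U := by
    intro Z hZ
    have h5 : U ≤ U.comap (r.op Z) := by
      refine Submodule.span_le.2 ?_
      rintro z ⟨v, y, rfl⟩
      show r.op Z (b v y) ∈ U
      rw [hb Z hZ]
      exact U.add_mem (Submodule.subset_span ⟨_, _, rfl⟩) (Submodule.subset_span ⟨_, _, rfl⟩)
    exact h5
  have hU : U = V₁ := by
    rcases hV₁.irr U hU1 hU2 with h5 | h5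
    · exfalso
      obtain ⟨v, y, hvy⟩ := hne
      apply hvy
      have h6 : b v y ∈ U := Submodule.subset_span ⟨_, _, rfl⟩
      rw [h5, Submodule.mem_bot] at h6
      exact h6
    · exact h5
  have h5 : V₁ ≤ LinearMap.ker (innerₛₗ ℂ x) := by
    rw [← hU]
    refine Submodule.span_le.2 ?_
    rintro z ⟨v, y, rfl⟩
    exact LinearMap.mem_ker.2 (h1 v y)
  have h6 : ⟪x, x⟫_ℂ = 0 := LinearMap.mem_ker.1 (h5 hx)
  exact hx0 (inner_self_eq_zero.1 h6)

end

end Pool.Agent.Lib.MP_4322ef_CH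
end
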