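import Pool.Agent.Lib.MP_4322ef_CH.Mg.G001
import Pool.Agent.Lib.MP_4322ef_CH.Mg.G003
import Pool.Agent.Lib.MP_4322ef_CH.Mg.G008

section

/-!
# An orthonormal basis of joint eigenvectors

Existence: by `span_RV` and `RV_orth` (for instance `DirectSum.IsInternal.subordinateOrthonormalBasis` for
the finitely many `lam` with a nonzero joint eigenspace, or a maximal orthonormal set of joint
eigenvectors). Let `al` be a root; the number of `i` with `ch i = al` is `2`: take a unit vector `Z` in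
`RV al`; `∑ i, (⟪e i, Z⟫² + ⟪e i, J Z⟫²) = 2` (Parseval) and the summand is `1` if `ch i = al` (`e i` is a unit
vector in the span of `Z, J Z` by `RV_unique`) and `0` otherwise (`RV_orth`). If `ch i ≠ 0` then `ch i` is a
root. So the sum of `F (ch i)` is `2` times the sum over the roots.
-/

set_option autoImplicit false

open scoped InnerProductSpace

namespace Pool.Agent.Lib.MP_4322ef_CH

open Pool.Agent.Lib.MP_4322ef_al.SR

variable {g : Type} [NormedAddCommGroup g] [InnerProductSpace ℝ g] {L : RedLie g}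

variable [FiniteDimensional ℝ g]

/-- the joint eigenspace -/
private def S04V (L : RedLie g) (a : Submodule ℝ g) (lam : g) : Submodule ℝ g where
  carrier := {Z | RV L a lam Z}
  add_mem' := by
    intro x y hx hy H hH
    rw [map_add, hx H hH, hy H hH, smul_add]
  zero_mem' := by
    intro H hH
    rw [map_zero, smul_zero]
  smul_mem' := by
    intro c x hx H hH
    rw [map_smul, hx H hH, smul_comm]

omit [FiniteDimensional ℝ g] in
private theorem S04_count (J : CStr L) (C : CSub L) {n : ℕ} (e : OrthonormalBasis (Fin n) ℝ g)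
    (ch : Fin n → g) (hch : ∀ i, ch i ∈ C.a ∧ RV L C.a (ch i) (e i)) {al : g}
    (hal : al ∈ roots L C.a) [DecidableEq g] : ∑ i, (if ch i = al then (1 : ℝ) else 0) = 2 := by
  obtain ⟨hala, hal0, Y, hY0, hY⟩ := hal
  set Z : g := (‖Y‖⁻¹ : ℝ) • Y with hZ
  have hZn : ‖Z‖ = 1 := by
    rw [hZ, norm_smul, norm_inv, norm_norm, inv_mul_cancel₀ (norm_ne_zero_iff.2 hY0)]
  have hZZ : ⟪Z, Z⟫_ℝ = 1 := by rw [real_inner_self_eq_norm_sq, hZn, one_pow]
  have hJJ : ⟪J.J Z, J.J Z⟫_ℝ = 1 := by rw [J.inner, hZZ]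
  have hZJ : ⟪Z, J.J Z⟫_ℝ = 0 := inner_J_self J Z
  have hZ0 : Z ≠ 0 := by
    intro h
    rw [h, norm_zero] at hZn
    exact zero_ne_one hZn
  have hRZ : RV L C.a al Z := by
    intro H hH
    rw [hZ, map_smul, hY H hH, smul_comm]
  have hRJ : RV L C.a al (J.J Z) := RV_J J C hRZ
  clear_value Z
  have key : ∀ i, (if ch i = al then (1 : ℝ) else 0) =
      ⟪Z, e i⟫_ℝ * ⟪e i, Z⟫_ℝ + ⟪J.J Z, e i⟫_ℝ * ⟪e i, J.J Z⟫_ℝ := by
    intro i
    by_cases h : ch i = al
    · rw [if_pos h]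
      have hi := (hch i).2
      rw [h] at hi
      obtain ⟨s, t, hst⟩ := RV_unique J C hala hal0 hRZ hZ0 hi
      have hnorm : ⟪e i, e i⟫_ℝ = 1 := by
        rw [real_inner_self_eq_norm_sq, e.orthonormal.1 i, one_pow]
      have h1 : ⟪e i, Z⟫_ℝ = s := by
        rw [hst, inner_add_left, real_inner_smul_left, real_inner_smul_left, hZZ,
          real_inner_comm, hZJ, mul_one, mul_zero, add_zero]
      have h2 : ⟪e i, J.J Z⟫_ℝ = t := by
        rw [hst, inner_add_left, real_inner_smul_left, real_inner_smul_left, hJJ,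
          hZJ, mul_one, mul_zero, zero_add]
      have h3 : ⟪e i, e i⟫_ℝ = s * s + t * t := by
        nth_rewrite 2 [hst]
        rw [inner_add_right, real_inner_smul_right, real_inner_smul_right, h1, h2]
      rw [real_inner_comm (e i) Z, real_inner_comm (e i) (J.J Z), h1, h2, ← h3, hnorm]
    · rw [if_neg h]
      rw [RV_orth C (hch i).1 hala (hch i).2 hRZ h, RV_orth C (hch i).1 hala (hch i).2 hRJ h,
        mul_zero, mul_zero, add_zero]
  rw [Finset.sum_congr rfl fun i _ => key i, Finset.sum_add_distrib, e.sum_inner_mul_inner,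
    e.sum_inner_mul_inner, hZZ, hJJ]
  norm_num

theorem exists_onb (J : CStr L) (C : CSub L) : ∃ (n : ℕ) (e : OrthonormalBasis (Fin n) ℝ g)
    (ch : Fin n → g), (∀ i, ch i ∈ C.a ∧ RV L C.a (ch i) (e i)) ∧
      ∀ F : g → ℝ, F 0 = 0 → ∑ i, F (ch i) = 2 * ∑ᶠ al ∈ roots L C.a, F al := by
  classical
  have hfin := roots_finite C
  have hfin0 : (insert 0 (roots L C.a)).Finite := hfin.insert 0
  have hmem : ∀ lam ∈ insert 0 (roots L C.a), lam ∈ C.a := by
    intro lam h
    rcases h with h | h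
    · rw [h]; exact C.a.zero_mem
    · exact h.1
  let _ : Fintype (insert 0 (roots L C.a) : Set g) := hfin0.fintype
  let V : (insert 0 (roots L C.a) : Set g) → Submodule ℝ g := fun lam => S04V L C.a lam
  have hV' : OrthogonalFamily ℝ (fun i => V i) fun i => (V i).subtypeₗᵢ := by
    intro lam lam' hne x y
    exact RV_orth C (hmem _ lam.2) (hmem _ lam'.2) x.2 y.2 fun h => hne (Subtype.ext h)
  have htop : iSup V = ⊤ := by
    rw [eq_top_iff]
    intro Z _
    have hle : Submodule.span ℝ {Z | ∃ lam ∈ C.a, RV L C.a lam Z} ≤ iSup V := by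
      rw [Submodule.span_le]
      rintro A ⟨lam, hlam, hA⟩
      by_cases hA0 : A = 0
      · rw [hA0]; exact Submodule.zero_mem _
      have hin : lam ∈ insert 0 (roots L C.a) := by
        by_cases h0 : lam = 0
        · exact Or.inl h0
        · exact Or.inr ⟨hlam, h0, A, hA0, hA⟩
      exact Submodule.mem_iSup_of_mem (p := V) ⟨lam, hin⟩ hA
    exact hle (span_RV C Z)
  have hV : DirectSum.IsInternal V := by
    rw [hV'.isInternal_iff, htop, Submodule.top_orthogonal_eq_bot]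
  let e := hV.subordinateOrthonormalBasis rfl hV'
  let idx := fun i => hV.subordinateOrthonormalBasisIndex rfl i hV'
  have hch : ∀ i, (idx i : g) ∈ C.a ∧ RV L C.a (idx i : g) (e i) := fun i =>
    ⟨hmem _ (idx i).2, hV.subordinateOrthonormalBasis_subordinate rfl i hV'⟩
  refine ⟨_, e, fun i => (idx i : g), hch, ?_⟩
  intro F hF
  rw [finsum_mem_eq_finite_toFinset_sum _ hfin]
  have h1 : ∀ i, F (idx i : g) =
      ∑ al ∈ hfin.toFinset, (if (idx i : g) = al then (1 : ℝ) else 0) * F al := by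
    intro i
    rcases (idx i).2 with h | h
    · have h0 : (idx i : g) = 0 := h
      rw [h0, hF]
      symm
      apply Finset.sum_eq_zero
      intro al hal
      rw [if_neg, zero_mul]
      intro h2
      exact ((hfin.mem_toFinset).1 hal).2.1 h2.symm
    · rw [Finset.sum_eq_single (idx i : g)]
      · rw [if_pos rfl, one_mul]
      · intro b _ hb
        rw [if_neg (fun h => hb h.symm), zero_mul]
      · intro hn
        exact absurd ((hfin.mem_toFinset).2 h) hn
  rw [Finset.sum_congr rfl fun i _ => h1 i, Finset.sum_comm, Finset.mul_sum]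
  refine Finset.sum_congr rfl fun al hal => ?_
  rw [← Finset.sum_mul, S04_count J C e (fun i => (idx i : g)) hch ((hfin.mem_toFinset).1 hal)]

end Pool.Agent.Lib.MP_4322ef_CH
end

section

/-!
# The roots are stable under the reflections
-/

set_option autoImplicit false

open scoped InnerProductSpace

namespace Pool.Agent.Lib.MP_4322ef_CH

open Pool.Agent.Lib.MP_4322ef_al.SR

variable {g : Type} [NormedAddCommGroup g] [InnerProductSpace ℝ g] {L : RedLie g}

theorem roots_neg (C : CSub L) {al : g} (h : al ∈ roots L C.a) : -al ∈ roots L C.a := by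
  obtain ⟨ha, hne, Z, hZ0, hZ⟩ := h
  refine ⟨C.a.neg_mem ha, neg_ne_zero.2 hne, L.th Z, fun h0 => hZ0 ?_, RV_th C hZ⟩
  rw [← L.th_th Z, h0, map_zero]

/-- the `sl₂` triple `E`, `-th E`, `(2 / ⟪al, al⟫) • al` of a root -/
theorem root_triple (C : CSub L) {al : g} (h : al ∈ roots L C.a) :
    ∃ E, RV L C.a al E ∧ E ≠ 0 ∧
      L.br E (-L.th E) = (2 / ⟪al, al⟫_ℝ) • al ∧
      L.br ((2 / ⟪al, al⟫_ℝ) • al) E = (2 : ℝ) • E ∧
      L.br ((2 / ⟪al, al⟫_ℝ) • al) (-L.th E) = -((2 : ℝ) • (-L.th E)) := by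
  obtain ⟨ha, hne, Z, hZ0, hZ⟩ := h
  have hal : 0 < ⟪al, al⟫_ℝ := real_inner_self_pos.2 hne
  have hZp : 0 < ⟪Z, Z⟫_ℝ := real_inner_self_pos.2 hZ0
  let c : ℝ := Real.sqrt (2 / ⟪al, al⟫_ℝ / ⟪Z, Z⟫_ℝ)
  have hc : 0 < c := Real.sqrt_pos.2 (by positivity)
  have hc2 : c * c = 2 / ⟪al, al⟫_ℝ / ⟪Z, Z⟫_ℝ := Real.mul_self_sqrt (by positivity)
  have hE : RV L C.a al (c • Z) := by
    intro H hH
    rw [map_smul, hZ H hH, smul_comm]
  have hEE : ⟪c • Z, c • Z⟫_ℝ = 2 / ⟪al, al⟫_ℝ := by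
    rw [real_inner_smul_left, real_inner_smul_right, ← mul_assoc, hc2]
    field_simp
  refine ⟨c • Z, hE, smul_ne_zero hc.ne' hZ0, ?_, ?_, ?_⟩
  · rw [map_neg, br_th_root C ha hE, neg_neg, hEE]
  · have h1 := hE al ha
    rw [map_smul L.br, LinearMap.smul_apply, h1, smul_smul]
    congr 1
    field_simp
  · have h1 := RV_th C hE al ha
    rw [map_smul L.br, LinearMap.smul_apply, map_neg, h1, inner_neg_left, neg_smul, neg_neg,
      smul_smul, smul_neg, neg_neg]
    congr 1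
    field_simp

theorem RV_pow (C : CSub L) {al be E Z : g} (hE : RV L C.a al E) (hZ : RV L C.a be Z) (p : ℕ) :
    RV L C.a ((p : ℝ) • al + be) (((L.br E) ^ p) Z) := by
  induction p with
  | zero =>
    rw [Nat.cast_zero, zero_smul, zero_add, pow_zero]
    exact hZ
  | succ p ih =>
    rw [pow_succ', Module.End.mul_apply]
    have h1 := RV_br C hE ih
    have h2 : al + ((p : ℝ) • al + be) = ((p + 1 : ℕ) : ℝ) • al + be := by
      push_cast
      rw [add_smul, one_smul]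
      abel
    rw [← h2]
    exact h1

theorem roots_refl [FiniteDimensional ℝ g] (C : CSub L) {al be : g} (h : al ∈ roots L C.a)
    (h' : be ∈ roots L C.a) : sr al be ∈ roots L C.a := by
  have key : ∀ al ∈ roots L C.a, 0 ≤ ⟪be, al⟫_ℝ → sr al be ∈ roots L C.a := by
    intro al h h0
    obtain ⟨ha, hne, -⟩ := id h
    obtain ⟨hb, hbne, Z, hZ0, hZ⟩ := h'
    obtain ⟨E, hE, hE0, r1, r2, r3⟩ := root_triple C h
    have hal : 0 < ⟪al, al⟫_ℝ := real_inner_self_pos.2 hne
    obtain ⟨p, q, hq, hpq⟩ := sl2_refl (L.br E) (L.br (-L.th E)) (L.br ((2 / ⟪al, al⟫_ℝ) • al))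
      (fun x => by
        have h1 := L.jacobi ((2 / ⟪al, al⟫_ℝ) • al) E x
        rw [h1, r2, map_smul, LinearMap.smul_apply]
        abel)
      (fun x => by
        have h1 := L.jacobi ((2 / ⟪al, al⟫_ℝ) • al) (-L.th E) x
        rw [h1, r3, map_neg, LinearMap.neg_apply, map_smul, LinearMap.smul_apply]
        abel)
      (fun x => by
        have h1 := L.jacobi E (-L.th E) x
        rw [h1, r1]
        abel)
      (c := 2 / ⟪al, al⟫_ℝ * ⟪be, al⟫_ℝ) (by positivity) hZ0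
      (by
        rw [map_smul, LinearMap.smul_apply, hZ al ha, smul_smul])
    have hF : RV L C.a (-al) (-L.th E) := by
      intro H hH
      rw [map_neg, RV_th C hE H hH, smul_neg]
    have h1 := RV_pow C hF (RV_pow C hE hZ p) q
    have h2 : (q : ℝ) • (-al) + ((p : ℝ) • al + be) = sr al be := by
      rw [hq, sr]
      have h3 : 2 * ⟪be, al⟫_ℝ / ⟪al, al⟫_ℝ = 2 / ⟪al, al⟫_ℝ * ⟪be, al⟫_ℝ := by ring
      rw [h3]
      module
    rw [h2] at h1
    refine ⟨?_, ?_, _, hpq, h1⟩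
    · rw [sr]
      exact C.a.sub_mem hb (C.a.smul_mem _ ha)
    · intro h3
      apply hbne
      rw [← sr_sr hne be, h3, sr, inner_zero_left, mul_zero, zero_div, zero_smul, sub_zero]
  rcases le_total 0 ⟪be, al⟫_ℝ with h0 | h0
  · exact key al h h0
  · have h1 := key (-al) (roots_neg C h) (by rw [inner_neg_right]; linarith)
    rw [sr_neg_al] at h1
    exact h1

end Pool.Agent.Lib.MP_4322ef_CH
end

section

/-!
# The roots as a finite reflection-stable subset of `a`
-/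

set_option autoImplicit false

open scoped InnerProductSpace

namespace Pool.Agent.Lib.MP_4322ef_CH

open Pool.Agent.Lib.MP_4322ef_al.SR

variable {g : Type} [NormedAddCommGroup g] [InnerProductSpace ℝ g] {L : RedLie g}

variable [FiniteDimensional ℝ g]

open Classical in
theorem exists_P (C : CSub L) : ∃ P : Finset C.a, RSys P ∧
    (∀ x : C.a, x ∈ P ↔ (x : g) ∈ roots L C.a) ∧
    (∀ x : C.a, hh P x = hgt L C.a x) ∧
    (∀ H x : C.a, ⟪vc P H, x⟫_ℝ =
      ∑ᶠ be ∈ {be | be ∈ roots L C.a ∧ 0 < ⟪be, (H : g)⟫_ℝ}, ⟪be, (x : g)⟫_ℝ) ∧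
    Rg P ⟨C.H₀, C.mem⟩ := by
  have hfin : {x : C.a | (x : g) ∈ roots L C.a}.Finite :=
    (roots_finite C).preimage Subtype.val_injective.injOn
  let P : Finset C.a := hfin.toFinset
  have hPm : ∀ x : C.a, x ∈ P ↔ (x : g) ∈ roots L C.a := fun x => by
    rw [Set.Finite.mem_toFinset]
    rfl
  have hsub : ∀ Q : g → Prop, {be | be ∈ roots L C.a ∧ Q be} =
      ↑((P.filter (fun al : C.a => Q al)).map ⟨Subtype.val, Subtype.val_injective⟩) := by
    intro Q
    ext x
    simp only [Finset.coe_map, Function.Embedding.coeFn_mk, Set.mem_image, Finset.mem_coe,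
      Finset.mem_filter, Set.mem_ofPred_eq]
    constructor
    · rintro ⟨hx, hQ⟩
      exact ⟨⟨x, hx.1⟩, ⟨(hPm _).2 hx, hQ⟩, rfl⟩
    · rintro ⟨z, ⟨hz, hQ⟩, rfl⟩
      exact ⟨(hPm z).1 hz, hQ⟩
  have hsum : ∀ (Q : g → Prop) (F : g → ℝ), ∑ᶠ be ∈ {be | be ∈ roots L C.a ∧ Q be}, F be =
      ∑ al ∈ P.filter (fun al : C.a => Q al), F (al : g) := by
    intro Q F
    rw [hsub Q, finsum_mem_coe_finset, Finset.sum_map]
    rfl
  refine ⟨P, ⟨?_, ?_⟩, hPm, ?_, ?_, ?_⟩
  · intro al hal h0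
    exact ((hPm al).1 hal).2.1 (congrArg Subtype.val h0)
  · intro al hal be hbe
    rw [hPm]
    exact roots_refl C ((hPm al).1 hal) ((hPm be).1 hbe)
  · intro x
    have h1 := hsum (fun _ => True) (fun al => |⟪al, (x : g)⟫_ℝ|)
    have h2 : {be | be ∈ roots L C.a ∧ True} = roots L C.a := by
      ext z
      exact ⟨fun h => h.1, fun h => ⟨h, trivial⟩⟩
    rw [h2, Finset.sum_filter] at h1
    simp only [if_true] at h1
    rw [hh, hgt, h1]
    rfl
  · intro H x
    rw [hsum (fun be => 0 < ⟪be, (H : g)⟫_ℝ) (fun be => ⟪be, (x : g)⟫_ℝ), vc, sum_inner]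
    rfl
  · intro al hal h0
    obtain ⟨ha, hne, Z, hZ0, hZ⟩ := (hPm al).1 hal
    have h1 : L.br C.H₀ Z = 0 := by
      rw [hZ _ C.mem]
      have h2 : ⟪(al : g), C.H₀⟫_ℝ = 0 := h0
      rw [h2, zero_smul]
    have h3 := C.reg Z h1 _ ha
    rw [hZ _ ha] at h3
    rcases smul_eq_zero.1 h3 with h4 | h4
    · exact hne (inner_self_eq_zero.1 h4)
    · exact hZ0 h4

end Pool.Agent.Lib.MP_4322ef_CH
end

section

/-!
# Highest weight vectors: norms

Let `v` be a highest weight vector for `H₁` of weight `be`, `Z ∈ RV al`.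
* `ext_kill`: trivial if `Z = 0` or `0 < ⟪al, H₁⟫`. Otherwise `⟪al, H₁⟫ < 0` (`Reg`, `al` is a root), so
  `t.op (th Z) v = 0` (`RV_th`) and `‖Z v‖² = -⟪v, (th Z) Z v⟫ = -⟪v, [th Z, Z] v⟫ = -⟪Z, Z⟫ ⟪al, be⟫ ‖v‖² ≤ 0`
  (`br_th_root`: `[th Z, Z] = ⟪Z, Z⟫ al`).
* `hw_dom` (needs `H₁ ∈ C.a`, so the hypothesis `Reg` was added): `Z ≠ 0`, `Z v = 0`: `0 ≤ ‖(th Z) v‖² = -⟪v, Z (th Z) v⟫ = -⟪v, [Z, th Z] v⟫ = ⟪Z, Z⟫ ⟪al, be⟫ ‖v‖²`.
* `gCas_eq`: as in `SR.cas_split`, `gCas w = -∑ op (kk e)² w + ∑ op (pp e)² w`, and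
  `op (pp e) = -i op (J pp e)`, so the second sum is `-∑ op (J pp e)²`; by `SR.frame_mul` (`J pp` has adjoint
  `-J`-type, `(J pp)(J pp)* = kk`) `∑ op (J pp e)² = ∑ op (kk e)²`.
-/

set_option autoImplicit false

open scoped InnerProductSpace

namespace Pool.Agent.Lib.MP_4322ef_CH

open Pool.Agent.Lib.MP_4322ef_al.SR

variable {g : Type} [NormedAddCommGroup g] [InnerProductSpace ℝ g] {L : RedLie g}

section
variable {J : CStr L} {W : Type} [NormedAddCommGroup W] [InnerProductSpace ℂ W]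

theorem W05_self (x : W) : ⟪x, x⟫_ℂ = ((‖x‖ ^ 2 : ℝ) : ℂ) := by
  rw [inner_self_eq_norm_sq_to_K, Complex.ofReal_pow]
  rfl

/-- the norm of `op Z v` from the action of `(th Z) Z` -/
theorem W05_norm (t : CRep J W) {Z : g} {v : W} {r : ℝ}
    (h : t.op (L.th Z) (t.op Z v) = (r : ℂ) • v) : ‖t.op Z v‖ ^ 2 = -r * ‖v‖ ^ 2 := by
  have h7 : ((‖t.op Z v‖ ^ 2 : ℝ) : ℂ) = ((-r * ‖v‖ ^ 2 : ℝ) : ℂ) := by
    rw [← W05_self, t.adj, h, inner_smul_right, W05_self, ← Complex.ofReal_mul,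
      ← Complex.ofReal_neg, neg_mul]
  exact Complex.ofReal_injective h7

theorem ext_kill (t : CRep J W) (C : CSub L) {H₁ be : g} {v : W} (hH : Reg L C.a H₁)
    (h : HW t C.a H₁ be v) {al Z : g} (hal : al ∈ C.a) (hal0 : al ≠ 0) (hZ : RV L C.a al Z)
    (h0 : 0 ≤ ⟪al, be⟫_ℝ) : t.op Z v = 0 := by
  by_cases hZ0 : Z = 0
  · rw [hZ0, Rep.zero', LinearMap.zero_apply]
  have hr : ⟪al, H₁⟫_ℝ ≠ 0 := hH.2 al ⟨hal, hal0, Z, hZ0, hZ⟩
  rcases lt_or_gt_of_ne hr with h1 | h1
  · have h2 : t.op (L.th Z) v = 0 := by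
      refine h.pos _ ⟨-⟪al, H₁⟫_ℝ, by linarith, ?_⟩
      rw [RV_th C hZ H₁ hH.1, inner_neg_left]
    have h3 : L.br (L.th Z) Z = ⟪Z, Z⟫_ℝ • al := by
      have h4 := br_th_root C (C.a.neg_mem hal) (RV_th C hZ)
      rw [L.th_th, L.inner_th, smul_neg, neg_neg] at h4
      exact h4
    have h5 : t.op (L.th Z) (t.op Z v) = ((⟪Z, Z⟫_ℝ * ⟪be, al⟫_ℝ : ℝ) : ℂ) • v := by
      have h6 := t.bracket (L.th Z) Z v
      rw [h2, map_zero, sub_zero, h3, t.smul, LinearMap.smul_apply, h.wt al hal, smul_smul,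
        ← Complex.ofReal_mul] at h6
      exact h6.symm
    have h8 := W05_norm t h5
    have h9 : 0 ≤ ⟪Z, Z⟫_ℝ * ⟪be, al⟫_ℝ * ‖v‖ ^ 2 := by
      rw [real_inner_comm al be]
      exact mul_nonneg (mul_nonneg real_inner_self_nonneg h0) (sq_nonneg _)
    have h10 : ‖t.op Z v‖ ^ 2 = 0 := le_antisymm (by linarith) (sq_nonneg _)
    exact norm_eq_zero.1 (pow_eq_zero_iff two_ne_zero |>.1 h10)
  · exact h.pos _ ⟨⟪al, H₁⟫_ℝ, h1, hZ H₁ hH.1⟩

theorem hw_dom (t : CRep J W) (C : CSub L) {H₁ be : g} {v : W} (hH : Reg L C.a H₁)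
    (h : HW t C.a H₁ be v) {al : g}
    (ha : al ∈ roots L C.a) (hp : 0 < ⟪al, H₁⟫_ℝ) : 0 ≤ ⟪al, be⟫_ℝ := by
  obtain ⟨hal, hal0, Z, hZ0, hZ⟩ := ha
  have h2 : t.op Z v = 0 := h.pos _ ⟨⟪al, H₁⟫_ℝ, hp, hZ H₁ hH.1⟩
  have h5 : t.op (L.th (L.th Z)) (t.op (L.th Z) v) =
      ((-(⟪Z, Z⟫_ℝ * ⟪be, al⟫_ℝ) : ℝ) : ℂ) • v := by
    have h6 := t.bracket Z (L.th Z) v
    rw [h2, map_zero, sub_zero, br_th_root C hal hZ, Rep.neg', LinearMap.neg_apply, t.smul,
      LinearMap.smul_apply, h.wt al hal, smul_smul, ← Complex.ofReal_mul, ← neg_smul,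
      ← Complex.ofReal_neg] at h6
    rw [L.th_th]
    exact h6.symm
  have h8 := W05_norm t h5
  rw [neg_neg] at h8
  have h9 : 0 < ⟪Z, Z⟫_ℝ * ‖v‖ ^ 2 :=
    mul_pos (real_inner_self_pos.2 hZ0) (pow_pos (norm_pos_iff.2 h.ne) 2)
  have h10 : 0 ≤ (⟪Z, Z⟫_ℝ * ‖v‖ ^ 2) * ⟪al, be⟫_ℝ := by
    have h11 : (⟪Z, Z⟫_ℝ * ‖v‖ ^ 2) * ⟪al, be⟫_ℝ = ‖t.op (L.th Z) v‖ ^ 2 := by
      rw [h8, real_inner_comm be al]
      ring
    rw [h11]
    exact sq_nonneg _
  exact nonneg_of_mul_nonneg_right h10 h9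

theorem W05_mixed [FiniteDimensional ℝ g] (t : CRep J W) (w : W) (P Q : g →ₗ[ℝ] g)
    (hQ : ∀ A B, ⟪Q A, B⟫_ℝ = ⟪A, Q B⟫_ℝ) (hPQ : ∀ A, P (Q A) = 0) :
    ∑ i, t.op (P (stdOrthonormalBasis ℝ g i)) (t.op (Q (stdOrthonormalBasis ℝ g i)) w) = 0 := by
  have h := frame_mul (stdOrthonormalBasis ℝ g)
    (bil t.toRep t.toRep LinearMap.id LinearMap.id LinearMap.id LinearMap.id w) P Q Q hQ
  simp only [bil_apply, LinearMap.id_apply] at h
  rw [h]
  refine Finset.sum_eq_zero fun i _ => ?_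
  rw [hPQ, Rep.zero', LinearMap.zero_apply]

theorem W05_kk_pp0 (A : g) : L.kk (L.pp A) = 0 := kk_of_p L (th_pp L A)

theorem W05_pp_kk0 (A : g) : L.pp (L.kk A) = 0 := pp_of_k L (th_kk L A)

theorem gCas_eq [FiniteDimensional ℝ g] (t : CRep J W) (w : W) :
    gCas L t.op w = (2 : ℂ) • kCas L t.op w := by
  have h1 : ∀ A, t.op A (t.op (L.th A) w) = t.op (L.kk A) (t.op (L.kk A) w) -
      t.op (L.kk A) (t.op (L.pp A) w) + t.op (L.pp A) (t.op (L.kk A) w) -
      t.op (L.pp A) (t.op (L.pp A) w) := by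
    intro A
    have h2 : L.th A = L.kk A + -L.pp A := by
      conv_lhs => rw [← kk_add_pp L A]
      rw [map_add, th_kk, th_pp]
    rw [h2]
    conv_lhs =>
      enter [1]
      rw [← kk_add_pp L A]
    rw [t.add, t.add, Rep.neg']
    simp only [LinearMap.add_apply, LinearMap.neg_apply, map_add, map_neg]
    abel
  have h3 : ∀ A, t.op (L.pp A) (t.op (L.pp A) w) =
      -t.op (J.J (L.pp A)) (t.op (J.J (L.pp A)) w) := by
    intro A
    rw [t.lin, LinearMap.smul_apply, LinearMap.smul_apply, map_smul, smul_smul,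
      Complex.I_mul_I, neg_one_smul, neg_neg]
  have h4 : ∀ A, L.pp (J.J A) = J.J (L.kk A) := by
    intro A
    rw [pp_apply, kk_apply, J.th, sub_neg_eq_add, map_smul, map_add]
  have h5 : ∑ i, t.op (J.J (L.pp (stdOrthonormalBasis ℝ g i)))
      (t.op (J.J (L.pp (stdOrthonormalBasis ℝ g i))) w) =
      ∑ i, t.op (L.kk (stdOrthonormalBasis ℝ g i))
        (t.op (L.kk (stdOrthonormalBasis ℝ g i)) w) := by
    have h6 := frame_mul (stdOrthonormalBasis ℝ g)
      (bil t.toRep t.toRep LinearMap.id LinearMap.id LinearMap.id LinearMap.id w)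
      (J.J ∘ₗ L.pp) (J.J ∘ₗ L.pp) (-(L.pp ∘ₗ J.J)) (by
        intro A B
        rw [LinearMap.comp_apply, LinearMap.neg_apply, LinearMap.comp_apply, inner_neg_right,
          ← pp_symm, ← J.inner (L.pp A) (J.J B), J.sq, inner_neg_right, neg_neg])
    have h7 := frame_mul (stdOrthonormalBasis ℝ g)
      (bil t.toRep t.toRep LinearMap.id LinearMap.id LinearMap.id LinearMap.id w)
      L.kk L.kk L.kk (kk_symm L)
    simp only [bil_apply, LinearMap.id_apply, LinearMap.comp_apply, LinearMap.neg_apply] at h6 h7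
    rw [h6, h7]
    refine Finset.sum_congr rfl fun i _ => ?_
    have h8 : J.J (L.pp (-L.pp (J.J (stdOrthonormalBasis ℝ g i)))) =
        L.kk (L.kk (stdOrthonormalBasis ℝ g i)) := by
      rw [map_neg, map_neg, h4, h4, J.sq, neg_neg]
    rw [h8]
  have hk := W05_mixed t w L.kk L.pp (pp_symm L) W05_kk_pp0
  have hp := W05_mixed t w L.pp L.kk (kk_symm L) W05_pp_kk0
  rw [gCas, kCas]
  simp only [h1, Finset.sum_add_distrib, Finset.sum_sub_distrib, hk, hp, h3,
    Finset.sum_neg_distrib, h5]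
  rw [smul_neg, two_smul]
  abel

end

end Pool.Agent.Lib.MP_4322ef_CH
end

section

/-!
# Highest weight theory

* `hw_gen`: let `S₀` be the intersection of all `S` with the property of the hypotheses. Let
  `S' = {u ∈ S₀ | ∀ Z, t.op Z u ∈ S₀}`. Then `v ∈ S'` (decompose `Z` by `span_RV`: negative root vectors
  map `v` into `S₀`, `a` and `J a` to multiples of `v`, positive ones to `0`), and `S'` is stable under the negative
  root vectors `Y`: `Z Y u = [Z, Y] u + Y Z u`. So `S' = S₀`, `S₀` is stable under `g` and not zero.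
* `hw_bound`: `S` = span of the weight vectors with weight `lam'`, `⟪lam', c⟫ ≤ ⟪be, c⟫`; it contains `v` and
  is stable under the negative root vectors (`span_eig`, `wt_shift`), so `S = ⊤`. A weight vector of
  weight `lam` with `⟪be, c⟫ < ⟪lam, c⟫` is orthogonal to `S` (`wt_orth`).
* `hw_mult`: `S` = span of `v` and of the weight vectors with weight `lam'`, `⟪lam', H₁⟫ < ⟪be, H₁⟫`; again
  `S = ⊤`. `u - c v` orthogonal to `v` is orthogonal to `S`.
-/

set_option autoImplicit false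

open scoped InnerProductSpace

namespace Pool.Agent.Lib.MP_4322ef_CH

open Pool.Agent.Lib.MP_4322ef_al.SR

variable {g : Type} [NormedAddCommGroup g] [InnerProductSpace ℝ g] {L : RedLie g}

section
variable {J : CStr L} {W : Type} [NormedAddCommGroup W] [InnerProductSpace ℂ W]

variable [FiniteDimensional ℝ g] [FiniteDimensional ℂ W]

theorem hw_gen (t : CRep J W) (C : CSub L) (hirr : Irr t) {H₁ be : g} {v : W}
    (hH : Reg L C.a H₁) (h : HW t C.a H₁ be v) (S : Submodule ℂ W) (hv : v ∈ S)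
    (hS : ∀ Z, (∃ r : ℝ, 0 < r ∧ L.br H₁ Z = (-r) • Z) → ∀ u ∈ S, t.op Z u ∈ S) : S = ⊤ := by
  let S₀ : Submodule ℂ W := sInf {T | v ∈ T ∧
    ∀ Z, (∃ r : ℝ, 0 < r ∧ L.br H₁ Z = (-r) • Z) → ∀ u ∈ T, t.op Z u ∈ T}
  have hS0 : S₀ ≤ S := sInf_le ⟨hv, hS⟩
  have hv0 : v ∈ S₀ := Submodule.mem_sInf.2 fun T hT => hT.1
  have hst : ∀ Z, (∃ r : ℝ, 0 < r ∧ L.br H₁ Z = (-r) • Z) → ∀ u ∈ S₀, t.op Z u ∈ S₀ := by
    intro Z hZ u hu
    refine Submodule.mem_sInf.2 fun T hT => hT.2 Z hZ u ?_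
    exact Submodule.mem_sInf.1 hu T hT
  -- all of `g` maps `v` into `S₀`
  have h1 : ∀ Z, t.op Z v ∈ S₀ := by
    intro Z
    refine Submodule.span_induction (p := fun Z _ => t.op Z v ∈ S₀) ?_ ?_ ?_ ?_ (span_RV C Z)
    · rintro Z ⟨lam, hl, hZ⟩
      by_cases hl0 : lam = 0
      · rw [hl0] at hZ
        obtain ⟨H, hH', H', hH'', rfl⟩ := RV_zero J C hZ
        rw [t.add, t.lin, LinearMap.add_apply, LinearMap.smul_apply, h.wt H hH', h.wt H' hH'']
        exact S₀.add_mem (S₀.smul_mem _ hv0) (S₀.smul_mem _ (S₀.smul_mem _ hv0))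
      · by_cases hZ0 : Z = 0
        · rw [hZ0, Rep.zero', LinearMap.zero_apply]
          exact S₀.zero_mem
        rcases lt_or_gt_of_ne (hH.2 lam ⟨hl, hl0, Z, hZ0, hZ⟩) with h2 | h2
        · refine hst Z ⟨-⟪lam, H₁⟫_ℝ, by linarith, ?_⟩ v hv0
          rw [neg_neg]
          exact hZ H₁ hH.1
        · rw [h.pos Z ⟨⟪lam, H₁⟫_ℝ, h2, hZ H₁ hH.1⟩]
          exact S₀.zero_mem
    · rw [Rep.zero', LinearMap.zero_apply]
      exact S₀.zero_mem
    · intro A B _ _ hA hB
      rw [t.add, LinearMap.add_apply]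
      exact S₀.add_mem hA hB
    · intro r A _ hA
      rw [t.smul, LinearMap.smul_apply]
      exact S₀.smul_mem _ hA
  let S' : Submodule ℂ W :=
    { carrier := {u | u ∈ S₀ ∧ ∀ Z, t.op Z u ∈ S₀}
      add_mem' := by
        rintro a b ⟨ha, ha'⟩ ⟨hb, hb'⟩
        refine ⟨S₀.add_mem ha hb, fun Z => ?_⟩
        rw [map_add]
        exact S₀.add_mem (ha' Z) (hb' Z)
      zero_mem' := ⟨S₀.zero_mem, fun Z => by
        rw [map_zero]
        exact S₀.zero_mem⟩
      smul_mem' := by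
        rintro c a ⟨ha, ha'⟩
        refine ⟨S₀.smul_mem c ha, fun Z => ?_⟩
        rw [map_smul]
        exact S₀.smul_mem c (ha' Z) }
  have hS'0 : S₀ ≤ S' := by
    refine sInf_le ⟨⟨hv0, h1⟩, ?_⟩
    rintro Y hY u ⟨hu, hu'⟩
    refine ⟨hst Y hY u hu, fun Z => ?_⟩
    have h2 : t.op Z (t.op Y u) = t.op (L.br Z Y) u + t.op Y (t.op Z u) := by
      rw [t.bracket, sub_add_cancel]
    rw [h2]
    exact S₀.add_mem (hu' _) (hst Y hY _ (hu' Z))
  rcases hirr S₀ (fun Z u hu => (hS'0 hu).2 Z) with h3 | h3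
  · exfalso
    apply h.ne
    rw [h3] at hv0
    exact (Submodule.mem_bot ℂ).1 hv0
  · rw [h3] at hS0
    exact top_le_iff.1 hS0

/-- a span of weight vectors which is closed under the negative root vectors -/
theorem W04_stable (t : CRep J W) (C : CSub L) {H₁ : g} (hH : H₁ ∈ C.a) (G : Set W)
    (hG : ∀ al Z, RV L C.a al Z → al ∈ C.a → Z ≠ 0 → ⟪al, H₁⟫_ℝ < 0 → ∀ u ∈ G,
      t.op Z u ∈ Submodule.span ℂ G) :
    ∀ Z, (∃ r : ℝ, 0 < r ∧ L.br H₁ Z = (-r) • Z) → ∀ u ∈ Submodule.span ℂ G,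
      t.op Z u ∈ Submodule.span ℂ G := by
  rintro Z ⟨r, hr, hZ⟩ u hu
  refine Submodule.span_induction (p := fun Z _ => t.op Z u ∈ Submodule.span ℂ G) ?_ ?_ ?_ ?_
    (span_eig C hH hZ)
  · rintro Z ⟨al, hal, hZ, hr'⟩
    by_cases hZ0 : Z = 0
    · rw [hZ0, Rep.zero', LinearMap.zero_apply]
      exact Submodule.zero_mem _
    refine Submodule.span_induction (p := fun u _ => t.op Z u ∈ Submodule.span ℂ G) ?_ ?_ ?_ ?_ hu
    · intro x hx
      exact hG al Z hZ hal hZ0 (by linarith) x hx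
    · rw [map_zero]
      exact Submodule.zero_mem _
    · intro a b _ _ ha hb
      rw [map_add]
      exact Submodule.add_mem _ ha hb
    · intro c a _ ha
      rw [map_smul]
      exact Submodule.smul_mem _ _ ha
  · rw [Rep.zero', LinearMap.zero_apply]
    exact Submodule.zero_mem _
  · intro A B _ _ hA hB
    rw [t.add, LinearMap.add_apply]
    exact Submodule.add_mem _ hA hB
  · intro r A _ hA
    rw [t.smul, LinearMap.smul_apply]
    exact Submodule.smul_mem _ _ hA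

theorem hw_bound (t : CRep J W) (C : CSub L) (hirr : Irr t) {H₁ be : g} {v : W}
    (hH : Reg L C.a H₁) (h : HW t C.a H₁ be v) {lam : g} (hl : IsW t C.a lam) {c : g}
    (hc : c ∈ C.a) (hd : ∀ al ∈ roots L C.a, 0 < ⟪al, H₁⟫_ℝ → 0 ≤ ⟪al, c⟫_ℝ) :
    ⟪lam, c⟫_ℝ ≤ ⟪be, c⟫_ℝ := by
  by_contra hcon
  push Not at hcon
  obtain ⟨hl1, x, hx0, hx⟩ := hl
  have htop := hw_gen t C hirr hH h
    (Submodule.span ℂ {u | ∃ lam' ∈ C.a, WV t C.a lam' u ∧ ⟪lam', c⟫_ℝ ≤ ⟪be, c⟫_ℝ})
    (Submodule.subset_span ⟨be, h.mem, h.wt, le_rfl⟩) (by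
      refine W04_stable t C hH.1 _ ?_
      rintro al Z hZ hal hZ0 hneg u ⟨lam', hl', hu, hle⟩
      refine Submodule.subset_span ⟨al + lam', C.a.add_mem hal hl', wt_shift t C hZ hu, ?_⟩
      have hal0 : al ≠ 0 := by
        rintro rfl
        rw [inner_zero_left] at hneg
        exact lt_irrefl _ hneg
      have hroot : -al ∈ roots L C.a := by
        refine ⟨C.a.neg_mem hal, neg_ne_zero.2 hal0, L.th Z, ?_, RV_th C hZ⟩
        intro h3
        apply hZ0
        rw [← L.th_th Z, h3, map_zero]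
      have h4 := hd _ hroot (by rw [inner_neg_left]; linarith)
      rw [inner_neg_left] at h4
      rw [inner_add_left]
      linarith)
  have hxx : ∀ y ∈ Submodule.span ℂ {u | ∃ lam' ∈ C.a, WV t C.a lam' u ∧ ⟪lam', c⟫_ℝ ≤ ⟪be, c⟫_ℝ},
      ⟪x, y⟫_ℂ = 0 := by
    intro y hy
    refine Submodule.span_induction (p := fun y _ => ⟪x, y⟫_ℂ = 0) ?_ ?_ ?_ ?_ hy
    · rintro u ⟨lam', hl', hu, hle⟩
      refine wt_orth t C hl1 hl' hx hu ?_
      rintro rfl
      exact absurd hle (not_le.2 hcon)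
    · exact inner_zero_right x
    · intro a b _ _ ha hb
      rw [inner_add_right, ha, hb, add_zero]
    · intro r a _ ha
      rw [inner_smul_right, ha, mul_zero]
  have hxt : x ∈ Submodule.span ℂ {u | ∃ lam' ∈ C.a, WV t C.a lam' u ∧ ⟪lam', c⟫_ℝ ≤ ⟪be, c⟫_ℝ} := by
    rw [htop]
    exact Submodule.mem_top
  exact hx0 (inner_self_eq_zero.1 (hxx x hxt))

theorem hw_mult (t : CRep J W) (C : CSub L) (hirr : Irr t) {H₁ be : g} {v : W}
    (hH : Reg L C.a H₁) (h : HW t C.a H₁ be v) {u : W} (hu : WV t C.a be u) :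
    ∃ c : ℂ, u = c • v := by
  have hvv : ⟪v, v⟫_ℂ ≠ 0 := fun h1 => h.ne (inner_self_eq_zero.1 h1)
  refine ⟨⟪v, u⟫_ℂ / ⟪v, v⟫_ℂ, ?_⟩
  have htop := hw_gen t C hirr hH h
    (Submodule.span ℂ ({v} ∪ {u | ∃ lam' ∈ C.a, WV t C.a lam' u ∧ ⟪lam', H₁⟫_ℝ < ⟪be, H₁⟫_ℝ}))
    (Submodule.subset_span (Or.inl rfl)) (by
      refine W04_stable t C hH.1 _ ?_
      rintro al Z hZ hal hZ0 hneg u (rfl | ⟨lam', hl', hu, hle⟩)
      · refine Submodule.subset_span (Or.inr ⟨al + be, C.a.add_mem hal h.mem,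
          wt_shift t C hZ h.wt, ?_⟩)
        rw [inner_add_left]
        linarith
      · refine Submodule.subset_span (Or.inr ⟨al + lam', C.a.add_mem hal hl',
          wt_shift t C hZ hu, ?_⟩)
        rw [inner_add_left]
        linarith)
  have hwt : WV t C.a be (u - (⟪v, u⟫_ℂ / ⟪v, v⟫_ℂ) • v) := by
    intro H hH'
    rw [map_sub, map_smul, hu H hH', h.wt H hH', smul_sub, smul_comm]
  have hvx : ⟪u - (⟪v, u⟫_ℂ / ⟪v, v⟫_ℂ) • v, v⟫_ℂ = 0 := by
    have h1 : ⟪v, u - (⟪v, u⟫_ℂ / ⟪v, v⟫_ℂ) • v⟫_ℂ = 0 := by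
      rw [inner_sub_right, inner_smul_right, div_mul_cancel₀ _ hvv, sub_self]
    rw [← inner_conj_symm, h1, map_zero]
  have hxx : ∀ y ∈ Submodule.span ℂ
      ({v} ∪ {u | ∃ lam' ∈ C.a, WV t C.a lam' u ∧ ⟪lam', H₁⟫_ℝ < ⟪be, H₁⟫_ℝ}),
      ⟪u - (⟪v, u⟫_ℂ / ⟪v, v⟫_ℂ) • v, y⟫_ℂ = 0 := by
    intro y hy
    refine Submodule.span_induction
      (p := fun y _ => ⟪u - (⟪v, u⟫_ℂ / ⟪v, v⟫_ℂ) • v, y⟫_ℂ = 0) ?_ ?_ ?_ ?_ hy
    · rintro y (rfl | ⟨lam', hl', hu', hle⟩)
      · exact hvx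
      · refine wt_orth t C h.mem hl' hwt hu' ?_
        rintro rfl
        exact lt_irrefl _ hle
    · exact inner_zero_right _
    · intro a b _ _ ha hb
      rw [inner_add_right, ha, hb, add_zero]
    · intro r a _ ha
      rw [inner_smul_right, ha, mul_zero]
  have hxt : u - (⟪v, u⟫_ℂ / ⟪v, v⟫_ℂ) • v ∈ Submodule.span ℂ
      ({v} ∪ {u | ∃ lam' ∈ C.a, WV t C.a lam' u ∧ ⟪lam', H₁⟫_ℝ < ⟪be, H₁⟫_ℝ}) := by
    rw [htop]
    exact Submodule.mem_top
  exact sub_eq_zero.1 (inner_self_eq_zero.1 (hxx _ hxt))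

end

end Pool.Agent.Lib.MP_4322ef_CH
end

section

/-!
# The weights and roots of `gl(E)` and `sl(E)`

* `e`: an orthonormal basis of `E` of weight vectors (`wt_span`, `wt_orth` in file W02: the weight spaces are
  orthogonal and span; take orthonormal bases of them, e.g. `DirectSum.IsInternal.subordinateOrthonormalBasis` as in
  file S04, or diagonalise a generic element), with weights `ep i`.
* for `i ≠ j` let `E i j` be the operator `x ↦ ⟪e j, x⟫ e i`: it has trace zero, so it is `s.op A` for some `A`; `A` is in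
  `RV (ep i - ep j)` by faithfulness (`s.op [H, A] = [s.op H, s.op A] = ⟪ep i - ep j, H⟫ s.op A`). The adjoint of
  `E i j` is `E j i`, so `s.op (θ A) = -E j i` (`adj`).
* `ep i ≠ ep j`: the operator `E i i - E j j` has trace zero, is `s.op D`; `θ D = -D` (it is selfadjoint) and `[H, D] = 0`
  for `H ∈ a` (it commutes with the diagonal operators `s.op H`), so `D ∈ a` (`a_max`), `⟪ep i, D⟫ = 1`, `⟪ep j, D⟫ = -1`.
  (Use `WV` at `D`.)
* so `ep i - ep j` is a root. `br_th_root`: `[A, θ A] = -⟪A, A⟫ (ep i - ep j)`; apply `s.op`: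
  `E i i - E j j = ⟪A, A⟫ s.op (ep i - ep j)`, at `e k`: `⟪A, A⟫ ⟪ep k, ep i - ep j⟫ = (k = i) - (k = j)`. The same
  for `k = i` and `k = j` gives `⟪A, A⟫ ⟪ep i - ep j, ep i - ep j⟫ = 2`. This is `cor`.
* `all`: for a root `al` with root vector `Z ≠ 0`, `s.op Z ≠ 0`, so `⟪e i, s.op Z (e j)⟫ ≠ 0` for some `i`, `j`, and
  `[H, Z] = ⟪al, H⟫ Z` gives `⟪al, H⟫ = ⟪ep i - ep j, H⟫` for all `H ∈ a`.
* `typeA_gen`: sort: there is a permutation `σ` with `⟪ep (σ k), H⟫` strictly decreasing (`Tuple.sort`; the values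
  are distinct as `H` is regular), replace `ep` by `ep ∘ σ`. `S` = the `om k = ∑ i ≤ k, ep i` for `k + 1 < n`.
  For `al m = ep m - ep (m + 1)`: `⟪al m, om k⟫ = ½ ⟪al m, al m⟫` for `m = k` and `0` for `m ≠ k` (`cor`). For dominant `x` take
  `c (om k) = 2 ⟪al k, x⟫ / ⟪al k, al k⟫` (the `om k` are distinct). Then `x - ∑ c y • y` is orthogonal to the `al m`, and
  every root is `ep i - ep j`, a sum or difference of such.
-/

set_option autoImplicit false

open scoped InnerProductSpace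

namespace Pool.Agent.Lib.MP_4322ef_CH

open Pool.Agent.Lib.MP_4322ef_al.SR

variable {g : Type} [NormedAddCommGroup g] [InnerProductSpace ℝ g] {L : RedLie g}
  [FiniteDimensional ℝ g]

/-- the weights `ep i` of `E` and the roots `ep i - ep j`; the other roots are orthogonal to all `ep i` -/
structure AW (C : CSub L) {n : ℕ} (ep : Fin n → g) : Prop where
  mem : ∀ i, ep i ∈ C.a
  root : ∀ i j, i ≠ j → ep i - ep j ∈ roots L C.a
  all : ∀ al ∈ roots L C.a, (∃ i j, i ≠ j ∧ al = ep i - ep j) ∨ ∀ i, ⟪ep i, al⟫_ℝ = 0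
  cor : ∀ i j k, i ≠ j → 2 * ⟪ep k, ep i - ep j⟫_ℝ =
    ((if k = i then 1 else 0) - (if k = j then 1 else 0)) * ⟪ep i - ep j, ep i - ep j⟫_ℝ

section
variable {J : CStr L} {E : Type} [NormedAddCommGroup E] [InnerProductSpace ℂ E]

/-- the weight space -/
private def G01V (s : CRep J E) (a : Submodule ℝ g) (lam : g) : Submodule ℂ E where
  carrier := {v | WV s a lam v}
  add_mem' := by
    intro x y hx hy H hH
    rw [map_add, hx H hH, hy H hH, smul_add]
  zero_mem' := by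
    intro H hH
    rw [map_zero, smul_zero]
  smul_mem' := by
    intro c x hx H hH
    rw [map_smul, hx H hH, smul_comm]

theorem G01_onb [FiniteDimensional ℂ E] (C : CSub L) (s : CRep J E) :
    ∃ (n : ℕ) (e : OrthonormalBasis (Fin n) ℂ E) (ep : Fin n → g),
      ∀ i, ep i ∈ C.a ∧ WV s C.a (ep i) (e i) := by
  classical
  have hfin := wt_finite s C
  let _ : Fintype ({lam | IsW s C.a lam} : Set g) := hfin.fintype
  let V : ({lam | IsW s C.a lam} : Set g) → Submodule ℂ E := fun lam => G01V s C.a lam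
  have hV' : OrthogonalFamily ℂ (fun i => V i) fun i => (V i).subtypeₗᵢ := by
    intro lam lam' hne x y
    exact wt_orth s C lam.2.1 lam'.2.1 x.2 y.2 fun h => hne (Subtype.ext h)
  have htop : iSup V = ⊤ := by
    rw [eq_top_iff]
    intro w _
    have hle : Submodule.span ℂ {v | ∃ lam ∈ C.a, WV s C.a lam v} ≤ iSup V := by
      rw [Submodule.span_le]
      rintro v ⟨lam, hlam, hv⟩
      by_cases hv0 : v = 0
      · rw [hv0]; exact Submodule.zero_mem _
      exact Submodule.mem_iSup_of_mem (p := V) ⟨lam, hlam, v, hv0, hv⟩ hv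
    exact hle (wt_span s C w)
  have hV : DirectSum.IsInternal V := by
    rw [hV'.isInternal_iff, htop, Submodule.top_orthogonal_eq_bot]
  let e := hV.subordinateOrthonormalBasis rfl hV'
  let idx := fun i => hV.subordinateOrthonormalBasisIndex rfl i hV'
  exact ⟨_, e, fun i => (idx i : g), fun i => ⟨(idx i).2.1,
    hV.subordinateOrthonormalBasis_subordinate rfl i hV'⟩⟩

/-- the matrix units -/
private noncomputable def G01U {n : ℕ} (e : OrthonormalBasis (Fin n) ℂ E) (i j : Fin n) : E →ₗ[ℂ] E where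
  toFun x := ⟪e j, x⟫_ℂ • e i
  map_add' x y := by rw [inner_add_right, add_smul]
  map_smul' c x := by rw [inner_smul_right, mul_smul, RingHom.id_apply]

private theorem G01U_apply {n : ℕ} (e : OrthonormalBasis (Fin n) ℂ E) (i j : Fin n) (x : E) :
    G01U e i j x = ⟪e j, x⟫_ℂ • e i := rfl

private theorem G01U_self {n : ℕ} (e : OrthonormalBasis (Fin n) ℂ E) (i j : Fin n) :
    G01U e i j (e j) = e i := by
  rw [G01U_apply, inner_self_eq_norm_sq_to_K, e.orthonormal.1 j]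
  simp

private theorem G01U_ne {n : ℕ} (e : OrthonormalBasis (Fin n) ℂ E) (i : Fin n) {j k : Fin n}
    (h : j ≠ k) : G01U e i j (e k) = 0 := by
  rw [G01U_apply, e.orthonormal.2 h, zero_smul]

private theorem G01U_trace [FiniteDimensional ℂ E] {n : ℕ} (e : OrthonormalBasis (Fin n) ℂ E)
    (i j : Fin n) : LinearMap.trace ℂ E (G01U e i j) = ⟪e j, e i⟫_ℂ := by
  rw [LinearMap.trace_eq_sum_inner _ e, Finset.sum_eq_single j]
  · rw [G01U_self]
  · intro k _ hk
    rw [G01U_ne e i (Ne.symm hk), inner_zero_right]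
  · intro h
    exact absurd (Finset.mem_univ _) h

private theorem G01U_adj {n : ℕ} (e : OrthonormalBasis (Fin n) ℂ E) (i j : Fin n) (x y : E) :
    ⟪G01U e i j x, y⟫_ℂ = ⟪x, G01U e j i y⟫_ℂ := by
  rw [G01U_apply, G01U_apply, inner_smul_left, inner_smul_right, inner_conj_symm, mul_comm]

private theorem G01_sub (s : CRep J E) (A B : g) : s.op (A - B) = s.op A - s.op B := by
  rw [sub_eq_add_neg, s.add, Rep.neg', sub_eq_add_neg]

/-- faithfulness on the basis -/
private theorem G01_faith [FiniteDimensional ℂ E] {s : CRep J E} {N : Submodule ℝ g} (hs : Ide s N)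
    {n : ℕ} (e : OrthonormalBasis (Fin n) ℂ E) {A B : g} (hA : A ∈ N) (hB : B ∈ N)
    (h : ∀ k, s.op A (e k) = s.op B (e k)) : A = B := by
  rw [← sub_eq_zero]
  apply hs.faith _ (N.sub_mem hA hB)
  rw [G01_sub, sub_eq_zero]
  exact e.toBasis.ext fun k => by rw [e.coe_toBasis]; exact h k

end

theorem typeA_weights {J : CStr L} {E : Type} [NormedAddCommGroup E] [InnerProductSpace ℂ E]
    [FiniteDimensional ℂ E] (C : CSub L) (s : CRep J E) {N : Submodule ℝ g} (hs : TypeAN s N) :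
    ∃ (n : ℕ) (e : OrthonormalBasis (Fin n) ℂ E) (ep : Fin n → g), AW C ep ∧
      (∀ i, WV s C.a (ep i) (e i)) ∧
      ∀ i j, i ≠ j → ∃ A ∈ N, A ≠ 0 ∧ RV L C.a (ep i - ep j) A := by
  obtain ⟨n, e, ep, hep⟩ := G01_onb C s
  obtain ⟨hf, ht⟩ := hs
  have hw : ∀ k, ∀ H ∈ C.a, s.op H (e k) = (⟪ep k, H⟫_ℝ : ℂ) • e k := fun k => (hep k).2
  have he0 : ∀ k, e k ≠ 0 := fun k h => by
    have := e.orthonormal.1 k
    rw [h, norm_zero] at this
    exact zero_ne_one this
  -- the matrix units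
  have hA : ∀ i j, i ≠ j → ∃ A ∈ N, s.op A = G01U e i j := by
    intro i j hij
    apply ht
    rw [G01U_trace, e.orthonormal.2 (Ne.symm hij)]
  have hAR : ∀ i j, i ≠ j → ∀ A ∈ N, s.op A = G01U e i j → RV L C.a (ep i - ep j) A := by
    intro i j _ A hAN hA H hH
    apply G01_faith hf e (hf.stab _ _ hAN) (N.smul_mem _ hAN)
    intro k
    rw [s.bracket, s.smul, LinearMap.smul_apply, hw k H hH, map_smul, hA]
    by_cases hk : j = k
    · subst hk
      rw [G01U_self, hw i H hH, inner_sub_left, Complex.ofReal_sub, sub_smul]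
    · rw [G01U_ne e i hk, map_zero, smul_zero, smul_zero, sub_zero]
  -- the adjoint
  have hAth : ∀ i j, ∀ A, s.op A = G01U e i j → s.op (L.th A) = -G01U e j i := by
    intro i j A hA
    refine LinearMap.ext fun y => ?_
    refine ext_inner_left ℂ fun x => ?_
    have h1 := s.adj A x y
    rw [hA, G01U_adj] at h1
    rw [LinearMap.neg_apply, inner_neg_right, h1, neg_neg]
  -- the diagonal
  have hD : ∀ i j, i ≠ j → ep i ≠ ep j := by
    intro i j hij h
    have htr : LinearMap.trace ℂ E (G01U e i i - G01U e j j) = 0 := by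
      rw [map_sub, G01U_trace, G01U_trace, inner_self_eq_norm_sq_to_K, inner_self_eq_norm_sq_to_K,
        e.orthonormal.1 i, e.orthonormal.1 j, sub_self]
    obtain ⟨D, hDN, hD⟩ := ht _ htr
    have hDe : ∀ k, ∃ c : ℂ, s.op D (e k) = c • e k := by
      intro k
      rw [hD, LinearMap.sub_apply]
      by_cases h1 : i = k
      · subst h1
        refine ⟨1, ?_⟩
        rw [G01U_self, G01U_ne e j (Ne.symm hij), sub_zero, one_smul]
      · by_cases h2 : j = k
        · subst h2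
          refine ⟨-1, ?_⟩
          rw [G01U_self, G01U_ne e i h1, zero_sub, neg_smul, one_smul]
        · exact ⟨0, by rw [G01U_ne e i h1, G01U_ne e j h2, sub_zero, zero_smul]⟩
    have hDth : L.th D = -D := by
      rw [← sub_eq_zero]
      apply hf.faith _ (N.sub_mem (hf.th _ hDN) (N.neg_mem hDN))
      rw [G01_sub, Rep.neg', sub_neg_eq_add, hD]
      refine LinearMap.ext fun y => ?_
      refine ext_inner_left ℂ fun x => ?_
      have h1 := s.adj D x y
      rw [hD, LinearMap.sub_apply, inner_sub_left, G01U_adj, G01U_adj, ← inner_sub_right] at h1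
      rw [LinearMap.add_apply, inner_add_right, LinearMap.sub_apply, h1, LinearMap.zero_apply,
        inner_zero_right, add_neg_cancel]
    have hDa : D ∈ C.a := by
      refine C.a_max D hDth fun H hH => ?_
      apply G01_faith hf e (hf.stab _ _ hDN) N.zero_mem
      intro k
      obtain ⟨c, hc⟩ := hDe k
      rw [s.bracket, hw k H hH, map_smul, hc, map_smul, hw k H hH, smul_comm, sub_self, Rep.zero',
        LinearMap.zero_apply]
    have h1 : (⟪ep i, D⟫_ℝ : ℂ) = 1 := by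
      have h2 := hw i D hDa
      rw [hD, LinearMap.sub_apply, G01U_self, G01U_ne e j (Ne.symm hij), sub_zero] at h2
      exact (smul_left_injective ℂ (he0 i) (by simpa using h2)).symm
    have h2 : (⟪ep j, D⟫_ℝ : ℂ) = -1 := by
      have h2 := hw j D hDa
      rw [hD, LinearMap.sub_apply, G01U_self, G01U_ne e i hij, zero_sub] at h2
      exact (smul_left_injective ℂ (he0 j) (by simpa using h2)).symm
    rw [h, h2] at h1
    have h3 : (-1 : ℂ).re = (1 : ℂ).re := by rw [h1]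
    norm_num at h3
  -- `cor` in terms of the root vector
  have hc : ∀ i j k, i ≠ j → ∀ A ∈ N, s.op A = G01U e i j →
      ⟪A, A⟫_ℝ * ⟪ep k, ep i - ep j⟫_ℝ = (if k = i then 1 else 0) - (if k = j then 1 else 0) := by
    intro i j k hij A hAN hA
    have hm : ep i - ep j ∈ C.a := C.a.sub_mem (hep i).1 (hep j).1
    have h1 := s.bracket A (L.th A) (e k)
    rw [br_th_root C hm (hAR i j hij A hAN hA), Rep.neg', s.smul, LinearMap.neg_apply,
      LinearMap.smul_apply, hw k _ hm, hAth i j A hA, hA, LinearMap.neg_apply, LinearMap.neg_apply,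
      map_neg, smul_smul] at h1
    by_cases hk : k = i
    · subst hk
      rw [G01U_self e j k, G01U_self, G01U_ne e k (Ne.symm hij), map_zero, neg_zero, sub_zero,
        neg_inj] at h1
      have h2 : ((⟪A, A⟫_ℝ : ℂ) * (⟪ep k, ep k - ep j⟫_ℝ : ℂ)) = 1 :=
        smul_left_injective ℂ (he0 k) (by simpa using h1)
      rw [if_pos rfl, if_neg hij, sub_zero]
      exact_mod_cast h2
    · by_cases hk' : k = j
      · subst hk'
        rw [G01U_self e i k, G01U_self, G01U_ne e k (Ne.symm hk), map_zero, neg_zero, zero_sub,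
          neg_neg] at h1
        have h2 : -((⟪A, A⟫_ℝ : ℂ) * (⟪ep k, ep i - ep k⟫_ℝ : ℂ)) = 1 :=
          smul_left_injective ℂ (he0 k) (by simpa using h1)
        rw [if_neg hk, if_pos rfl, zero_sub]
        have h3 : ((⟪A, A⟫_ℝ : ℂ) * (⟪ep k, ep i - ep k⟫_ℝ : ℂ)) = -1 := by rw [← h2, neg_neg]
        exact_mod_cast h3
      · rw [G01U_ne e j (Ne.symm hk), G01U_ne e i (Ne.symm hk'), map_zero, map_zero, neg_zero,
          sub_zero] at h1
        have h2 : ((⟪A, A⟫_ℝ : ℂ) * (⟪ep k, ep i - ep j⟫_ℝ : ℂ)) = 0 := by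
          rcases smul_eq_zero.1 (neg_eq_zero.1 h1) with h2 | h2
          · exact h2
          · exact absurd h2 (he0 k)
        rw [if_neg hk, if_neg hk', sub_zero]
        exact_mod_cast h2
  have hvec : ∀ i j, i ≠ j → ∃ A ∈ N, A ≠ 0 ∧ RV L C.a (ep i - ep j) A := by
    intro i j hij
    obtain ⟨A, hAN, hA'⟩ := hA i j hij
    refine ⟨A, hAN, ?_, hAR i j hij A hAN hA'⟩
    intro h
    rw [h, Rep.zero'] at hA'
    apply he0 i
    rw [← G01U_self e i j, ← hA', LinearMap.zero_apply]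
  refine ⟨n, e, ep, ⟨fun i => (hep i).1, ?_, ?_, ?_⟩, fun i => (hep i).2, hvec⟩
  · intro i j hij
    obtain ⟨A, -, hA0, hAR'⟩ := hvec i j hij
    exact ⟨C.a.sub_mem (hep i).1 (hep j).1, sub_ne_zero.2 (hD i j hij), A, hA0, hAR'⟩
  · rintro al ⟨hala, hal0, Z, hZ0, hZ⟩
    by_cases h1 : ∀ j, s.op Z (e j) = 0
    · refine Or.inr fun k => ?_
      have h2 : s.op Z = 0 := e.toBasis.ext fun k => by
        rw [e.coe_toBasis, h1 k, LinearMap.zero_apply]
      have h3 := s.bracket Z (L.th Z) (e k)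
      rw [br_th_root C hala hZ, Rep.neg', s.smul, h2, LinearMap.neg_apply, LinearMap.smul_apply,
        hw k al hala, LinearMap.zero_apply, LinearMap.zero_apply, map_zero, sub_zero,
        neg_eq_zero, smul_smul] at h3
      rcases smul_eq_zero.1 h3 with h4 | h4
      · rcases mul_eq_zero.1 h4 with h5 | h5
        · have h6 : ⟪Z, Z⟫_ℝ = 0 := by exact_mod_cast h5
          exact absurd (inner_self_eq_zero.1 h6) hZ0
        · exact_mod_cast h5
      · exact absurd h4 (he0 k)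
    left
    push Not at h1
    obtain ⟨j, hj⟩ := h1
    have h2 : ∃ i, ⟪e i, s.op Z (e j)⟫_ℂ ≠ 0 := by
      by_contra h
      push Not at h
      apply hj
      rw [← e.sum_repr' (s.op Z (e j))]
      exact Finset.sum_eq_zero fun i _ => by rw [h i, zero_smul]
    obtain ⟨i, hi⟩ := h2
    have h3 : ep i = al + ep j := by
      by_contra h
      exact hi (wt_orth s C (hep i).1 (C.a.add_mem hala (hep j).1) (hep i).2
        (wt_shift s C hZ (hep j).2) h)
    have h4 : al = ep i - ep j := by rw [h3, add_sub_cancel_right]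
    refine ⟨i, j, ?_, h4⟩
    intro h
    rw [h, sub_self] at h4
    exact hal0 h4
  · intro i j k hij
    obtain ⟨A, hAN, hA'⟩ := hA i j hij
    have h1 := hc i j k hij A hAN hA'
    have h2 := hc i j i hij A hAN hA'
    have h3 := hc i j j hij A hAN hA'
    rw [if_pos rfl, if_neg hij, sub_zero] at h2
    rw [if_neg (Ne.symm hij), if_pos rfl, zero_sub] at h3
    have h4 : ⟪A, A⟫_ℝ * ⟪ep i - ep j, ep i - ep j⟫_ℝ = 2 := by
      rw [inner_sub_left (𝕜 := ℝ) (ep i) (ep j), mul_sub, h2, h3]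
      norm_num
    rw [← h1]
    have h5 : 2 * ⟪ep k, ep i - ep j⟫_ℝ =
        (⟪A, A⟫_ℝ * ⟪ep i - ep j, ep i - ep j⟫_ℝ) * ⟪ep k, ep i - ep j⟫_ℝ := by rw [h4]
    rw [h5]
    ring

/-- `cor` for sums -/
theorem AW.G01_sum {C : CSub L} {n : ℕ} {ep : Fin n → g} (h : AW C ep) (I : Finset (Fin n))
    {i j : Fin n} (hij : i ≠ j) : 2 * ⟪∑ k ∈ I, ep k, ep i - ep j⟫_ℝ =
      ((if i ∈ I then 1 else 0) - (if j ∈ I then 1 else 0)) * ⟪ep i - ep j, ep i - ep j⟫_ℝ := by
  rw [sum_inner, Finset.mul_sum, Finset.sum_congr rfl fun k _ => h.cor i j k hij, ← Finset.sum_mul,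
    Finset.sum_sub_distrib, Finset.sum_ite_eq', Finset.sum_ite_eq']

theorem AW.mins {C : CSub L} {n : ℕ} {ep : Fin n → g} (h : AW C ep) (I : Finset (Fin n)) :
    Mins L C.a (∑ i ∈ I, ep i) := by
  intro al hal
  rcases h.all al hal with ⟨i, j, hij, rfl⟩ | h9
  swap
  · rw [sum_inner, Finset.sum_eq_zero fun i _ => h9 i, abs_zero, mul_zero]
    exact real_inner_self_nonneg
  have h0 : 0 ≤ ⟪ep i - ep j, ep i - ep j⟫_ℝ := real_inner_self_nonneg
  have h1 := h.G01_sum I hij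
  have h2 : 2 * |⟪∑ k ∈ I, ep k, ep i - ep j⟫_ℝ| = |2 * ⟪∑ k ∈ I, ep k, ep i - ep j⟫_ℝ| := by
    rw [abs_mul, abs_two]
  rw [h2, h1, abs_mul, abs_of_nonneg h0]
  have h3 : |((if i ∈ I then 1 else 0) - (if j ∈ I then 1 else 0) : ℝ)| ≤ 1 := by
    split_ifs <;> norm_num
  calc _ ≤ 1 * ⟪ep i - ep j, ep i - ep j⟫_ℝ := mul_le_mul_of_nonneg_right h3 h0
    _ = _ := one_mul _

theorem typeA_gen {C : CSub L} {n : ℕ} {ep : Fin n → g} (h : AW C ep) {H : g}
    (hH : Reg L C.a H) :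
    ∃ S : Finset g, GenR L C.a ep H S ∧ ∀ y ∈ S, ∃ I : Finset (Fin n), y = ∑ i ∈ I, ep i := by
  classical
  let σ : Equiv.Perm (Fin n) := Tuple.sort fun k => -⟪ep k, H⟫_ℝ
  have hmono : ∀ i j, i < j → ⟪ep (σ j), H⟫_ℝ < ⟪ep (σ i), H⟫_ℝ := by
    intro i j hij
    have h1 : -⟪ep (σ i), H⟫_ℝ ≤ -⟪ep (σ j), H⟫_ℝ := Tuple.monotone_sort (fun k => -⟪ep k, H⟫_ℝ) hij.le
    have hne : σ i ≠ σ j := fun h2 => hij.ne (σ.injective h2)
    have h2 := hH.2 _ (h.root _ _ hne)
    rw [inner_sub_left] at h2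
    have h3 : ⟪ep (σ i), H⟫_ℝ ≠ ⟪ep (σ j), H⟫_ℝ := fun h4 => h2 (sub_eq_zero.2 h4)
    rcases lt_or_eq_of_le (neg_le_neg_iff.1 h1) with h4 | h4
    · exact h4
    · exact absurd h4.symm h3
  clear_value σ
  let ep' : Fin n → g := fun i => ep (σ i)
  have h' : AW C ep' := by
    refine ⟨fun i => h.mem _, fun i j hij => h.root _ _ fun h2 => hij (σ.injective h2), ?_, ?_⟩
    · intro al hal
      rcases h.all al hal with ⟨i, j, hij, h1⟩ | h1
      · refine Or.inl ⟨σ.symm i, σ.symm j, fun h2 => hij (σ.symm.injective h2), ?_⟩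
        show al = ep (σ (σ.symm i)) - ep (σ (σ.symm j))
        rw [Equiv.apply_symm_apply, Equiv.apply_symm_apply, h1]
      · exact Or.inr fun i => h1 (σ i)
    · intro i j k hij
      have h1 := h.cor (σ i) (σ j) (σ k) fun h2 => hij (σ.injective h2)
      simp only [EmbeddingLike.apply_eq_iff_eq] at h1
      exact h1
  have hpos : ∀ i j, 0 < ⟪ep' i - ep' j, H⟫_ℝ → i < j := by
    intro i j h1
    rw [inner_sub_left] at h1
    by_contra h2
    rcases lt_or_eq_of_le (not_lt.1 h2) with h3 | h3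
    · have := hmono j i h3
      simp only [ep'] at h1
      linarith
    · rw [h3, sub_self] at h1
      exact lt_irrefl _ h1
  let om : Fin n → g := fun k => ∑ i ∈ Finset.Iic k, ep' i
  let K : Finset (Fin n) := Finset.univ.filter fun k => k.val + 1 < n
  have hom : ∀ al : g, (∀ i, ⟪ep' i, al⟫_ℝ = 0) → ∀ k, ⟪al, om k⟫_ℝ = 0 := by
    intro al hal k
    rw [real_inner_comm]
    show ⟪∑ i ∈ Finset.Iic k, ep' i, al⟫_ℝ = 0
    rw [sum_inner]
    exact Finset.sum_eq_zero fun i _ => hal i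
  refine ⟨K.image om, ⟨?_, ?_, ?_⟩, ?_⟩
  · intro y hy al hal hp
    obtain ⟨k, _, rfl⟩ := Finset.mem_image.1 hy
    rcases h'.all al hal with ⟨i, j, hij, rfl⟩ | h9
    swap
    · rw [hom al h9 k]
    have h1 := h'.G01_sum (Finset.Iic k) hij
    have h2 := hpos i j hp
    have h3 : 0 ≤ ⟪ep' i - ep' j, ep' i - ep' j⟫_ℝ := real_inner_self_nonneg
    rw [real_inner_comm]
    have h4 : (0 : ℝ) ≤ (if i ∈ Finset.Iic k then 1 else 0) - (if j ∈ Finset.Iic k then 1 else 0) := by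
      by_cases h5 : j ∈ Finset.Iic k
      · have h6 : i ∈ Finset.Iic k := Finset.mem_Iic.2 (h2.le.trans (Finset.mem_Iic.1 h5))
        rw [if_pos h5, if_pos h6, sub_self]
      · rw [if_neg h5]
        split_ifs <;> norm_num
    have h5 : 0 ≤ 2 * ⟪om k, ep' i - ep' j⟫_ℝ := by
      show 0 ≤ 2 * ⟪∑ i ∈ Finset.Iic k, ep' i, ep' i - ep' j⟫_ℝ
      rw [h1]
      exact mul_nonneg h4 h3
    linarith
  · intro y hy al _ hal
    obtain ⟨k, _, rfl⟩ := Finset.mem_image.1 hy
    exact hom al (fun i => hal (σ i)) k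
  · intro x hx hdom
    -- the coefficients
    let nx : Fin n → Fin n := fun k => if hk : k.val + 1 < n then ⟨k.val + 1, hk⟩ else k
    let d : Fin n → ℝ := fun k => 2 * ⟪ep' k - ep' (nx k), x⟫_ℝ /
      ⟪ep' k - ep' (nx k), ep' k - ep' (nx k)⟫_ℝ
    have hnx : ∀ k : Fin n, k.val + 1 < n → k < nx k := by
      intro k hk
      simp only [nx, dif_pos hk]
      rw [Fin.lt_def]
      simp
    have hroot : ∀ k : Fin n, k.val + 1 < n → ep' k - ep' (nx k) ∈ roots L C.a := fun k hk =>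
      h'.root _ _ (hnx k hk).ne
    have hposk : ∀ k : Fin n, k.val + 1 < n → 0 < ⟪ep' k - ep' (nx k), H⟫_ℝ := by
      intro k hk
      rw [inner_sub_left, sub_pos]
      exact hmono _ _ (hnx k hk)
    have hsq : ∀ k : Fin n, k.val + 1 < n → 0 < ⟪ep' k - ep' (nx k), ep' k - ep' (nx k)⟫_ℝ :=
      fun k hk => real_inner_self_pos.2 (hroot k hk).2.1
    have hd : ∀ k ∈ K, 0 ≤ d k := by
      intro k hk
      have hk' : k.val + 1 < n := (Finset.mem_filter.1 hk).2
      have h1 := hdom _ (hroot k hk') (hposk k hk')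
      have h2 := hsq k hk'
      exact div_nonneg (by linarith) h2.le
    have hS : ∑ y ∈ K.image om, (∑ k ∈ K.filter (fun k => om k = y), d k) • y =
        ∑ k ∈ K, d k • om k := by
      rw [← Finset.sum_fiberwise_of_maps_to (s := K) (t := K.image om) (g := om)
        (fun k hk => Finset.mem_image_of_mem om hk)]
      refine Finset.sum_congr rfl fun y _ => ?_
      rw [Finset.sum_smul]
      refine Finset.sum_congr rfl fun k hk => ?_
      rw [(Finset.mem_filter.1 hk).2]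
    refine ⟨fun y => ∑ k ∈ K.filter (fun k => om k = y), d k, ?_, ?_⟩
    · intro y _
      exact Finset.sum_nonneg fun k hk => hd k (Finset.mem_filter.1 hk).1
    · rw [hS]
      have hkey : ∀ m : Fin n, m.val + 1 < n →
          ⟪ep' m - ep' (nx m), x - ∑ k ∈ K, d k • om k⟫_ℝ = 0 := by
        intro m hm
        have hne := (hnx m hm).ne
        have h1 : ∀ k ∈ K, 2 * ⟪ep' m - ep' (nx m), d k • om k⟫_ℝ =
            if k = m then d m * ⟪ep' m - ep' (nx m), ep' m - ep' (nx m)⟫_ℝ else 0 := by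
          intro k _
          have h2 := h'.G01_sum (Finset.Iic k) hne
          have h3 : ⟪ep' m - ep' (nx m), om k⟫_ℝ = ⟪∑ i ∈ Finset.Iic k, ep' i, ep' m - ep' (nx m)⟫_ℝ :=
            real_inner_comm _ _
          rw [real_inner_smul_right, h3, mul_left_comm, h2]
          by_cases hk : k = m
          · subst hk
            rw [if_pos rfl, if_pos (Finset.mem_Iic.2 le_rfl), if_neg, sub_zero, one_mul]
            intro h4
            exact absurd (Finset.mem_Iic.1 h4) (not_le.2 (hnx k hm))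
          · rw [if_neg hk]
            by_cases h4 : m < k
            · have h5 : nx m ≤ k := by
                simp only [nx, dif_pos hm]
                rw [Fin.le_def]
                exact h4
              rw [if_pos (Finset.mem_Iic.2 h4.le), if_pos (Finset.mem_Iic.2 h5), sub_self, zero_mul,
                mul_zero]
            · have h5 : k < m := lt_of_le_of_ne (not_lt.1 h4) hk
              have h6 : m ∉ Finset.Iic k := fun h7 => absurd (Finset.mem_Iic.1 h7) (not_le.2 h5)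
              have h7 : nx m ∉ Finset.Iic k := fun h8 =>
                absurd (Finset.mem_Iic.1 h8) (not_le.2 (h5.trans (hnx m hm)))
              rw [if_neg h6, if_neg h7, sub_self, zero_mul, mul_zero]
        have h2 : 2 * ⟪ep' m - ep' (nx m), ∑ k ∈ K, d k • om k⟫_ℝ =
            d m * ⟪ep' m - ep' (nx m), ep' m - ep' (nx m)⟫_ℝ := by
          have hmK : m ∈ K := Finset.mem_filter.2 ⟨Finset.mem_univ _, hm⟩
          rw [inner_sum, Finset.mul_sum, Finset.sum_congr rfl h1, Finset.sum_ite_eq', if_pos hmK]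
        have h3 : d m * ⟪ep' m - ep' (nx m), ep' m - ep' (nx m)⟫_ℝ =
            2 * ⟪ep' m - ep' (nx m), x⟫_ℝ := div_mul_cancel₀ _ (hsq m hm).ne'
        rw [inner_sub_right]
        linarith
      have hconst : ∀ m : ℕ, ∀ hm : m < n, ⟪ep' ⟨m, hm⟩, x - ∑ k ∈ K, d k • om k⟫_ℝ =
          ⟪ep' ⟨0, (Nat.zero_le m).trans_lt hm⟩, x - ∑ k ∈ K, d k • om k⟫_ℝ := by
        intro m
        induction m with
        | zero => intro _; rfl
        | succ m ih =>
          intro hm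
          rw [← ih (Nat.lt_of_succ_lt hm)]
          have h1 := hkey ⟨m, Nat.lt_of_succ_lt hm⟩ hm
          have h2 : nx ⟨m, Nat.lt_of_succ_lt hm⟩ = ⟨m + 1, hm⟩ := by
            simp only [nx, dif_pos hm]
          rw [h2, inner_sub_left] at h1
          linarith
      intro al hal
      rcases h'.all al hal with ⟨i, j, _, rfl⟩ | h9
      swap
      · left
        intro i
        have h10 := h9 (σ.symm i)
        have h11 : ep' (σ.symm i) = ep i := by
          show ep (σ (σ.symm i)) = ep i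
          rw [Equiv.apply_symm_apply]
        rw [h11] at h10
        exact h10
      right
      have h1 := hconst i.val i.isLt
      have h2 := hconst j.val j.isLt
      rw [inner_sub_left]
      have h3 : (⟨i.val, i.isLt⟩ : Fin n) = i := rfl
      have h4 : (⟨j.val, j.isLt⟩ : Fin n) = j := rfl
      rw [h3] at h1
      rw [h4] at h2
      rw [h1, h2, sub_self]
  · intro y hy
    obtain ⟨k, _, rfl⟩ := Finset.mem_image.1 hy
    refine ⟨(Finset.Iic k).map σ.toEmbedding, ?_⟩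
    rw [Finset.sum_map]
    rfl

end Pool.Agent.Lib.MP_4322ef_CH
end
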