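import Pool.Agent.Lib.MP_4322ef_CH.Mg.G003

section

/-!
# The inequality R1 for all weights `y` with `y` and `rho - y` dominant

For fixed `y` both sides are linear resp. convex in `m` on a chamber, so (`mem_hull`) it is enough to treat
`m = v = vc P c`. Let `q = vc P H₁`, `v - y ∈ Chm P H₁`, `W = 2 v - q`, `W ∈ Chm P H'`, `R = vc P H'`. There is a chamber with
`hh P x ≤ ⟪W, x⟫` for all `x` in it (`vc_T`), and then this holds in the chamber of `H'`, in which `W` is dominant. Move `y` to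
`y' ∈ Chm P H'` by reflections: `⟪W, y⟫ ≤ ⟪W, y'⟫`, and `c' = R - 2 y' ∈ Chm P H'`. So `⟪R, c'⟫ ≤ ⟪W, c'⟫`, and the inequality follows
from `0 ≤ |W - R|²`.
-/

set_option autoImplicit false

open scoped InnerProductSpace

namespace Pool.Agent.Lib.MP_4322ef_CH

variable {E : Type} [NormedAddCommGroup E] [InnerProductSpace ℝ E]

/-- moving into a chamber by reflections -/
theorem move' {P : Finset E} (hP : RSys P) (H : E) (Q : E → Prop)
    (hst : ∀ x, Q x → ∀ al ∈ P, 0 < ⟪al, H⟫_ℝ → ⟪al, x⟫_ℝ < 0 → Q (sr al x)) (x : E) (hx : Q x) :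
    ∃ x', Q x' ∧ x' ∈ Chm P H := by
  classical
  let O : Set E := {z | z - x ∈ Submodule.span ℝ (P : Set E) ∧
    ∀ al ∈ P, ∃ be ∈ P, ⟪al, z⟫_ℝ = ⟪be, x⟫_ℝ}
  have hO : O.Finite := by
    have hfin : (Set.pi Set.univ (fun _ : P => ((P.image fun be => ⟪be, x⟫_ℝ : Finset ℝ) : Set ℝ))).Finite :=
      Set.Finite.pi fun _ => Finset.finite_toSet _
    refine Set.Finite.of_finite_image (f := fun z => fun al : P => ⟪(al : E), z⟫_ℝ)
      (hfin.subset ?_) ?_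
    · rintro _ ⟨z, hz, rfl⟩ al _
      obtain ⟨be, hbe, h⟩ := hz.2 al al.2
      exact Finset.mem_coe.2 (Finset.mem_image.2 ⟨be, hbe, h.symm⟩)
    · intro z hz z' hz' h
      have h1 : z - z' ∈ Submodule.span ℝ (P : Set E) := by
        have h2 := Submodule.sub_mem _ hz.1 hz'.1
        rw [sub_sub_sub_cancel_right] at h2
        exact h2
      have h2 : ∀ w ∈ Submodule.span ℝ (P : Set E), ⟪w, z - z'⟫_ℝ = 0 := by
        intro w hw
        induction hw using Submodule.span_induction with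
        | mem w hw =>
          have h3 := congrFun h ⟨w, hw⟩
          have h4 : ⟪w, z⟫_ℝ = ⟪w, z'⟫_ℝ := h3
          rw [inner_sub_right, h4, sub_self]
        | zero => rw [inner_zero_left]
        | add a b _ _ ha hb => rw [inner_add_left, ha, hb, add_zero]
        | smul r a _ ha => rw [real_inner_smul_left, ha, mul_zero]
      exact sub_eq_zero.1 (inner_self_eq_zero.1 (h2 _ h1))
  have hxO : x ∈ O := by
    refine ⟨?_, fun al hal => ⟨al, hal, rfl⟩⟩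
    rw [sub_self]
    exact Submodule.zero_mem _
  obtain ⟨z, ⟨hz, hQz⟩, hmax⟩ := Set.exists_max_image {z | z ∈ O ∧ Q z} (fun z => ⟪z, H⟫_ℝ)
    (hO.subset fun z h => h.1) ⟨x, hxO, hx⟩
  refine ⟨z, hQz, ?_⟩
  intro al hal hH
  by_contra hneg
  rw [not_le] at hneg
  have h0 : al ≠ 0 := hP.ne al hal
  have h1 : sr al z ∈ O := by
    refine ⟨?_, fun be hbe => ?_⟩
    · have h2 : sr al z - x = (z - x) - (2 * ⟪z, al⟫_ℝ / ⟪al, al⟫_ℝ) • al := by
        rw [sr]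
        abel
      rw [h2]
      exact Submodule.sub_mem _ hz.1 (Submodule.smul_mem _ _ (Submodule.subset_span hal))
    · obtain ⟨ga, hga, h2⟩ := hz.2 (sr al be) (hP.refl al hal be hbe)
      exact ⟨ga, hga, by rw [← sr_inner, h2]⟩
  have h5 : ⟪sr al z, H⟫_ℝ ≤ ⟪z, H⟫_ℝ := hmax (sr al z) ⟨h1, hst z hQz al hal hH hneg⟩
  unfold sr at h5
  rw [inner_sub_left, real_inner_smul_left] at h5
  have h6 : 0 < ⟪al, al⟫_ℝ := real_inner_self_pos.mpr h0
  have h7 : 2 * ⟪z, al⟫_ℝ / ⟪al, al⟫_ℝ * ⟪al, H⟫_ℝ < 0 := by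
    rw [real_inner_comm al z] at *
    exact mul_neg_of_neg_of_pos (div_neg_of_neg_of_pos (by linarith) h6) hH
  linarith

theorem chm_sr {P : Finset E} (hP : RSys P) {al H x : E} (hal : al ∈ P)
    (h : x ∈ Chm P (sr al H)) : sr al x ∈ Chm P H := by
  intro be hbe hpos
  rw [← sr_inner]
  refine h (sr al be) (hP.refl al hal be hbe) ?_
  rw [sr_isom (hP.ne al hal)]
  exact hpos

theorem rg_sr {P : Finset E} (hP : RSys P) {al H : E} (hal : al ∈ P) (h : Rg P H) :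
    Rg P (sr al H) := by
  intro be hbe
  rw [← sr_inner]
  exact h _ (hP.refl al hal be hbe)

theorem vc_sr {P : Finset E} (hP : RSys P) {al : E} (hal : al ∈ P) (H : E) :
    vc P (sr al H) = sr al (vc P H) := by
  classical
  have h0 := hP.ne al hal
  have hlin : ∀ s : Finset E, sr al (∑ be ∈ s, be) = ∑ be ∈ s, sr al be := by
    intro s
    induction s using Finset.induction_on with
    | empty =>
      rw [Finset.sum_empty, Finset.sum_empty, sr, inner_zero_left]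
      simp
    | insert a s ha ih => rw [Finset.sum_insert ha, Finset.sum_insert ha, sr_add, ih]
  unfold vc
  rw [hlin]
  refine Finset.sum_bij' (fun be _ => sr al be) (fun be _ => sr al be) ?_ ?_
    (fun be _ => sr_sr h0 be) (fun be _ => sr_sr h0 be) ?_
  · intro be hb
    rw [Finset.mem_filter] at hb ⊢
    exact ⟨hP.refl al hal be hb.1, by rw [sr_inner]; exact hb.2⟩
  · intro be hb
    rw [Finset.mem_filter] at hb ⊢
    exact ⟨hP.refl al hal be hb.1, by rw [sr_isom h0]; exact hb.2⟩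
  · intro be _
    exact (sr_sr h0 be).symm

theorem chm_same {P : Finset E} (hP : RSys P) {H z : E} (hH : Rg P H) (hz : Rg P z)
    (hzH : z ∈ Chm P H) {al : E} (hal : al ∈ P) : 0 < ⟪al, z⟫_ℝ ↔ 0 < ⟪al, H⟫_ℝ := by
  constructor
  · intro h
    rcases lt_or_gt_of_ne (hH al hal) with h1 | h1
    · have h2 := hzH (-al) (hP.neg_mem hal) (by rw [inner_neg_left]; linarith)
      rw [inner_neg_left] at h2
      linarith
    · exact h1
  · intro h
    exact lt_of_le_of_ne (hzH al hal h) (hz al hal).symm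

theorem vc_norm {P : Finset E} (hP : RSys P) {H H' : E} (hH : Rg P H) (hH' : Rg P H') :
    ⟪vc P H, vc P H⟫_ℝ = ⟪vc P H', vc P H'⟫_ℝ := by
  classical
  obtain ⟨z, ⟨hz, hzn⟩, hzC⟩ := move' hP H' (fun z => Rg P z ∧
    ⟪vc P z, vc P z⟫_ℝ = ⟪vc P H, vc P H⟫_ℝ) (by
      rintro x ⟨hx, hxn⟩ al hal _ _
      refine ⟨rg_sr hP hal hx, ?_⟩
      rw [vc_sr hP hal, sr_isom (hP.ne al hal), hxn]) H ⟨hH, rfl⟩
  have h1 : vc P z = vc P H' := by
    unfold vc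
    congr 1
    refine Finset.filter_congr fun al hal => ?_
    exact chm_same hP hH' hz hzC hal
  rw [← hzn, h1]

theorem vc_hh {P : Finset E} (hP : RSys P) (c : E) : hh P (vc P c) = ⟪vc P c, vc P c⟫_ℝ := by
  classical
  have h1 : ∀ al ∈ P, |⟪al, vc P c⟫_ℝ| = |⟪al, vc P c⟫_ℝ| := fun _ _ => rfl
  have h2 : ⟪vc P c, vc P c⟫_ℝ = ∑ al ∈ P.filter (fun al => 0 < ⟪al, c⟫_ℝ), ⟪al, vc P c⟫_ℝ := by
    conv_lhs => rw [vc]
    rw [sum_inner]
    rfl
  have h3 : ∑ al ∈ P.filter (fun al => ⟪al, c⟫_ℝ = 0), |⟪al, vc P c⟫_ℝ| = 0 := by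
    refine Finset.sum_eq_zero fun al hal => ?_
    rw [Finset.mem_filter] at hal
    rw [real_inner_comm, vc_zero hP hal.1 hal.2, abs_zero]
  have h4 : ∑ al ∈ P.filter (fun al => 0 < ⟪al, c⟫_ℝ), |⟪al, vc P c⟫_ℝ| =
      ∑ al ∈ P.filter (fun al => 0 < ⟪al, c⟫_ℝ), ⟪al, vc P c⟫_ℝ := by
    refine Finset.sum_congr rfl fun al hal => ?_
    rw [Finset.mem_filter] at hal
    refine abs_of_nonneg ?_
    rw [real_inner_comm]
    exact le_trans real_inner_self_nonneg (vc_pos hP hal.1 hal.2)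
  rw [h2, hh, R02_half hP c (fun al => |⟪al, vc P c⟫_ℝ|)
    (fun al => by rw [inner_neg_left, abs_neg]), h3, h4]
  ring

theorem vc_T {P : Finset E} (hP : RSys P) {H₀ : E} (h0 : Rg P H₀) {H₁ : E} (hH₁ : Rg P H₁)
    (c : E) : ∃ H, Rg P H ∧ ∀ x ∈ Chm P H, hh P x ≤ ⟪(2 : ℝ) • vc P c - vc P H₁, x⟫_ℝ := by
  classical
  obtain ⟨H, hH, hd⟩ := exists_chm h0 c (-H₁)
  refine ⟨H, hH, fun x hx => ?_⟩
  let F : E → ℝ := fun al => (2 * (if 0 < ⟪al, c⟫_ℝ then 1 else 0) -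
    (if 0 < ⟪al, H₁⟫_ℝ then 1 else 0) - (if 0 < ⟪al, H⟫_ℝ then 1 else 0)) * ⟪al, x⟫_ℝ
  have hv : ∀ z : E, ⟪vc P z, x⟫_ℝ = ∑ al ∈ P, (if 0 < ⟪al, z⟫_ℝ then 1 else 0) * ⟪al, x⟫_ℝ := by
    intro z
    rw [vc, sum_inner, Finset.sum_filter]
    refine Finset.sum_congr rfl fun al _ => ?_
    split_ifs <;> simp
  have h1 : ⟪(2 : ℝ) • vc P c - vc P H₁, x⟫_ℝ - hh P x = ∑ al ∈ P, F al := by
    rw [hh_chm hP hH hx, inner_sub_left, real_inner_smul_left, hv, hv, hv, Finset.mul_sum,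
      ← Finset.sum_sub_distrib, ← Finset.sum_sub_distrib]
    refine Finset.sum_congr rfl fun al _ => ?_
    show _ = (2 * (if 0 < ⟪al, c⟫_ℝ then 1 else 0) -
      (if 0 < ⟪al, H₁⟫_ℝ then 1 else 0) - (if 0 < ⟪al, H⟫_ℝ then 1 else 0)) * ⟪al, x⟫_ℝ
    ring
  have hneg : ∑ al ∈ P, F al = ∑ al ∈ P, F (-al) := by
    refine Finset.sum_nbij' (fun al => -al) (fun al => -al) (fun al h => hP.neg_mem h)
      (fun al h => hP.neg_mem h) (fun al _ => neg_neg al) (fun al _ => neg_neg al) fun al _ => ?_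
    rw [neg_neg]
  have hkey : ∀ al ∈ P, 0 < ⟪al, H⟫_ℝ → 0 ≤ F al + F (-al) := by
    intro al hal hpos
    obtain ⟨h2, h3⟩ := hd al hal hpos
    rw [inner_neg_right] at h3
    have hx0 := hx al hal hpos
    have hH1 := hH₁ al hal
    show 0 ≤ (2 * (if 0 < ⟪al, c⟫_ℝ then 1 else 0) - (if 0 < ⟪al, H₁⟫_ℝ then 1 else 0) -
      (if 0 < ⟪al, H⟫_ℝ then 1 else 0)) * ⟪al, x⟫_ℝ +
      (2 * (if 0 < ⟪-al, c⟫_ℝ then 1 else 0) - (if 0 < ⟪-al, H₁⟫_ℝ then 1 else 0) -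
      (if 0 < ⟪-al, H⟫_ℝ then 1 else 0)) * ⟪-al, x⟫_ℝ
    rw [inner_neg_left, inner_neg_left, inner_neg_left, inner_neg_left, if_pos hpos,
      if_neg (show ¬ 0 < -⟪al, H⟫_ℝ by linarith), if_neg (show ¬ 0 < -⟪al, c⟫_ℝ by linarith)]
    rcases lt_or_eq_of_le h2 with h4 | h4
    · rw [if_pos h4]
      rcases lt_or_gt_of_ne hH1 with h5 | h5
      · rw [if_neg (not_lt.2 h5.le), if_pos (show 0 < -⟪al, H₁⟫_ℝ by linarith)]
        nlinarith
      · rw [if_pos h5, if_neg (show ¬ 0 < -⟪al, H₁⟫_ℝ by linarith)]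
        nlinarith
    · have h5 := h3 h4.symm
      have h6 : ⟪al, H₁⟫_ℝ < 0 := lt_of_le_of_ne (by linarith) hH1
      rw [if_neg (show ¬ 0 < ⟪al, c⟫_ℝ by linarith), if_neg (not_lt.2 h6.le),
        if_pos (show 0 < -⟪al, H₁⟫_ℝ by linarith)]
      nlinarith
  have hall : ∀ al ∈ P, 0 ≤ F al + F (-al) := by
    intro al hal
    rcases lt_or_gt_of_ne (hH al hal) with h2 | h2
    · have h3 := hkey (-al) (hP.neg_mem hal) (by rw [inner_neg_left]; linarith)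
      rw [neg_neg] at h3
      linarith
    · exact hkey al hal h2
  have h2 : 0 ≤ ∑ al ∈ P, (F al + F (-al)) := Finset.sum_nonneg hall
  rw [Finset.sum_add_distrib, ← hneg] at h2
  linarith

theorem inner_sr (al z W : E) : ⟪W, sr al z⟫_ℝ =
    ⟪W, z⟫_ℝ - 2 * ⟪z, al⟫_ℝ / ⟪al, al⟫_ℝ * ⟪W, al⟫_ℝ := by
  rw [sr, inner_sub_right, real_inner_smul_right]

theorem R1V {P : Finset E} (hP : RSys P) {H₀ : E} (h0 : Rg P H₀) (c : E) {y : E}
    (hfund : ∀ H, Rg P H → y ∈ Chm P H → vc P H - (2 : ℝ) • y ∈ Chm P H) :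
    hh P (vc P c - y) + 2 * ⟪vc P c, y⟫_ℝ ≤ hh P (vc P c) + hh P y := by
  obtain ⟨H₁, hH₁, hd₁⟩ := exists_chm h0 (vc P c - y) 0
  have hq : hh P (vc P c - y) = ⟪vc P H₁, vc P c - y⟫_ℝ :=
    hh_chm hP hH₁ fun al hal hpos => (hd₁ al hal hpos).1
  set W : E := (2 : ℝ) • vc P c - vc P H₁ with hW
  obtain ⟨H', hH', hd'⟩ := exists_chm h0 W 0
  have hWC : ∀ al ∈ P, 0 < ⟪al, H'⟫_ℝ → 0 ≤ ⟪W, al⟫_ℝ := fun al hal hpos => by
    rw [real_inner_comm]
    exact (hd' al hal hpos).1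
  -- moving `y`
  obtain ⟨y', ⟨hy1, hy2, hy3⟩, hyC⟩ := move' hP H' (fun z => hh P z = hh P y ∧
    ⟪W, y⟫_ℝ ≤ ⟪W, z⟫_ℝ ∧ ∀ H, Rg P H → z ∈ Chm P H → vc P H - (2 : ℝ) • z ∈ Chm P H) (by
      rintro z ⟨h1, h2, h3⟩ al hal hpos hneg
      have hne := hP.ne al hal
      have hp : 0 < ⟪al, al⟫_ℝ := real_inner_self_pos.2 hne
      refine ⟨by rw [hh_sr hP hal, h1], ?_, ?_⟩
      · rw [inner_sr]
        have h4 : 2 * ⟪z, al⟫_ℝ / ⟪al, al⟫_ℝ * ⟪W, al⟫_ℝ ≤ 0 := by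
          rw [real_inner_comm al z]
          exact mul_nonpos_of_nonpos_of_nonneg
            (div_nonpos_of_nonpos_of_nonneg (by linarith) hp.le) (hWC al hal hpos)
        linarith
      · intro H hH hzH
        have h4 : z ∈ Chm P (sr al H) := by
          intro be hbe hb
          have h5 := hzH (sr al be) (hP.refl al hal be hbe) (by rw [sr_inner]; exact hb)
          rw [sr_isom hne] at h5
          exact h5
        have h5 := chm_sr hP hal (h3 (sr al H) (rg_sr hP hal hH) h4)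
        have h6 : sr al (vc P (sr al H) - (2 : ℝ) • z) = vc P H - (2 : ℝ) • sr al z := by
          rw [vc_sr hP hal, sub_eq_add_neg, sr_add, sr_sr hne, sub_eq_add_neg]
          congr 1
          simp only [sr, inner_neg_left, real_inner_smul_left, smul_sub, smul_smul]
          module
        rw [h6] at h5
        exact h5) y ⟨rfl, le_rfl, hfund⟩
  have hc' := hy3 H' hH' hyC
  -- moving the chamber
  obtain ⟨H₂, hH₂, hT⟩ := vc_T hP h0 hH₁ c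
  rw [← hW] at hT
  obtain ⟨z, ⟨hz, hzT⟩, hzC⟩ := move' hP H' (fun z => Rg P z ∧ ∀ x ∈ Chm P z, hh P x ≤ ⟪W, x⟫_ℝ) (by
      rintro z ⟨h1, h2⟩ al hal hpos hneg
      have hne := hP.ne al hal
      have hp : 0 < ⟪al, al⟫_ℝ := real_inner_self_pos.2 hne
      refine ⟨rg_sr hP hal h1, fun x hx => ?_⟩
      have h3 := h2 _ (chm_sr hP hal hx)
      rw [hh_sr hP hal, inner_sr] at h3
      have h4 : 0 ≤ ⟪al, x⟫_ℝ := by
        refine hx al hal ?_
        rw [← sr_inner, sr_self hne, inner_neg_left]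
        linarith
      have h5 : 0 ≤ 2 * ⟪x, al⟫_ℝ / ⟪al, al⟫_ℝ * ⟪W, al⟫_ℝ := by
        rw [real_inner_comm al x]
        exact mul_nonneg (div_nonneg (by linarith) hp.le) (hWC al hal hpos)
      linarith) H₂ ⟨hH₂, hT⟩
  have hTw : ∀ x ∈ Chm P H', hh P x ≤ ⟪W, x⟫_ℝ := fun x hx =>
    hzT x fun al hal hpos => hx al hal ((chm_same hP hH' hz hzC hal).1 hpos)
  have f1 := hTw _ hc'
  rw [hh_chm hP hH' hc'] at f1
  have f3 : hh P y = ⟪vc P H', y'⟫_ℝ := by rw [← hy1, hh_chm hP hH' hyC]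
  have f4 := vc_norm hP hH₁ hH'
  have f5 := vc_hh hP c
  have f6 : 0 ≤ ⟪W - vc P H', W - vc P H'⟫_ℝ := real_inner_self_nonneg
  have e1 : ⟪W, W⟫_ℝ = 4 * ⟪vc P c, vc P c⟫_ℝ - 4 * ⟪vc P H₁, vc P c⟫_ℝ +
      ⟪vc P H₁, vc P H₁⟫_ℝ := by
    rw [hW]
    simp only [inner_sub_left, inner_sub_right, real_inner_smul_left, real_inner_smul_right]
    rw [real_inner_comm (vc P H₁) (vc P c)]
    ring
  have e5 : ⟪W, y⟫_ℝ = 2 * ⟪vc P c, y⟫_ℝ - ⟪vc P H₁, y⟫_ℝ := by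
    rw [hW, inner_sub_left, real_inner_smul_left]
  rw [inner_sub_right, real_inner_smul_right, inner_sub_right, real_inner_smul_right] at f1
  have f7 : ∀ w r : E, ⟪w - r, w - r⟫_ℝ = ⟪w, w⟫_ℝ - 2 * ⟪w, r⟫_ℝ + ⟪r, r⟫_ℝ := by
    intro w r
    rw [inner_sub_left, inner_sub_right, inner_sub_right, real_inner_comm w r]
    ring
  rw [f7] at f6
  rw [hq, inner_sub_right, f3, f5]
  linarith

/-- the inequality R1 -/
theorem R1' [FiniteDimensional ℝ E] {P : Finset E} (hP : RSys P) {H₀ : E} (h0 : Rg P H₀) {m y : E}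
    (hm : m ∈ ZZ P) (hfund : ∀ H, Rg P H → y ∈ Chm P H → vc P H - (2 : ℝ) • y ∈ Chm P H) :
    hh P (m - y) + 2 * ⟪m, y⟫_ℝ ≤ hh P m + hh P y := by
  classical
  obtain ⟨H, hH, h1⟩ := exists_chm h0 m 0
  have hmC : m ∈ Chm P H := fun al hal hH3 => (h1 al hal hH3).1
  have hconv : Convex ℝ {x : E | hh P (x - y) + 2 * ⟪x, y⟫_ℝ ≤ ⟪vc P H, x⟫_ℝ + hh P y} := by
    rintro x hx z hz a b ha hb hab
    have hx' : hh P (x - y) + 2 * ⟪x, y⟫_ℝ ≤ ⟪vc P H, x⟫_ℝ + hh P y := hx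
    have hz' : hh P (z - y) + 2 * ⟪z, y⟫_ℝ ≤ ⟪vc P H, z⟫_ℝ + hh P y := hz
    show hh P (a • x + b • z - y) + 2 * ⟪a • x + b • z, y⟫_ℝ ≤ ⟪vc P H, a • x + b • z⟫_ℝ + hh P y
    have h2 : a • x + b • z - y = a • (x - y) + b • (z - y) := by
      have h3 : y = (a + b) • y := by rw [hab, one_smul]
      conv_lhs => rw [h3]
      rw [add_smul]
      module
    have h3 : hh P (a • (x - y) + b • (z - y)) ≤ a * hh P (x - y) + b * hh P (z - y) := by
      have h4 : ∑ al ∈ P, |⟪al, a • (x - y) + b • (z - y)⟫_ℝ| ≤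
          a * ∑ al ∈ P, |⟪al, x - y⟫_ℝ| + b * ∑ al ∈ P, |⟪al, z - y⟫_ℝ| := by
        rw [Finset.mul_sum, Finset.mul_sum, ← Finset.sum_add_distrib]
        refine Finset.sum_le_sum fun al _ => ?_
        rw [inner_add_right, real_inner_smul_right, real_inner_smul_right]
        refine (abs_add_le _ _).trans_eq ?_
        rw [abs_mul, abs_mul, abs_of_nonneg ha, abs_of_nonneg hb]
      unfold hh
      linarith
    rw [h2, inner_add_left, real_inner_smul_left, real_inner_smul_left, inner_add_right,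
      real_inner_smul_right, real_inner_smul_right]
    have h4 := mul_le_mul_of_nonneg_left hx' ha
    have h5 := mul_le_mul_of_nonneg_left hz' hb
    have h6 : hh P y = a * hh P y + b * hh P y := by rw [← add_mul, hab, one_mul]
    rw [h6]
    linarith
  have hsub : {v : E | ∃ c ∈ Chm P H, v = vc P c} ⊆
      {x : E | hh P (x - y) + 2 * ⟪x, y⟫_ℝ ≤ ⟪vc P H, x⟫_ℝ + hh P y} := by
    rintro v ⟨c, hc, rfl⟩
    have hvC : vc P c ∈ Chm P H := by
      intro al hal hpos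
      rw [real_inner_comm]
      rcases lt_or_eq_of_le (hc al hal hpos) with h2 | h2
      · exact le_trans real_inner_self_nonneg (vc_pos hP hal h2)
      · rw [vc_zero hP hal h2.symm]
    have h2 := R1V hP h0 c hfund
    rw [hh_chm hP hH hvC] at h2
    exact h2
  have h2 := convexHull_min hsub hconv (mem_hull hP hm hmC)
  have h3 : hh P (m - y) + 2 * ⟪m, y⟫_ℝ ≤ ⟪vc P H, m⟫_ℝ + hh P y := h2
  rw [hh_chm hP hH hmC]
  exact h3

end Pool.Agent.Lib.MP_4322ef_CH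
end

section

/-!
# The exit point from the hull

* `facet`: `exists_chm` with `x₁ = y`, `x₂ = -al` gives `H₃`; `al` is positive on `H₃` (otherwise `-al` is, and
  `0 ≤ ⟪-al, y⟫`). `R2b` with `c = -al`: `⟪vc P H₃, al⟫ ≤ ⟪p, al⟫`, and `hfund` at `H₃`:
  `0 ≤ ⟪al, vc P H₃ - 2 y⟫`.
* `exit_facet`: `{t ∈ [0, 1] | mu + t • nu ∈ ZZ P}` is compact and contains `0`, let `t₀` be its maximum, `t₀ < 1`,
  `p = mu + t₀ • nu`. `exists_chm` with `x₁ = p`, `x₂ = nu` gives `H`, and `p + s • nu ∈ Chm P H` for small `s > 0`.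
  For such `s ≤ 1 - t₀` we have `p + s nu ∉ ZZ P`, so `hh P x < ⟪p + s nu, x⟫` for some `x`; `move` with `H`
  and `Q z := hh P z = hh P x ∧ ⟪p + s nu, x⟫ ≤ ⟪p + s nu, z⟫` gives such an `x ∈ Chm P H`. Write
  `x = ∑ c y • y + z` with `⟪al, z⟫ = 0` for all `al ∈ P`: `⟪mu, z⟫ = 0` (`mu ∈ ZZ P` at `z` and `-z`, `hh P z = 0`),
  `⟪nu, z⟫ = 0` (`hcen`), and `hh P x = ⟪vc P H, x⟫ = ∑ c y * hh P y` (`hh_chm`; `⟪vc P H, z⟫ = 0`). So
  `hh P y < ⟪p + s nu, y⟫` for some `y ∈ S H`. `S H` is finite, so one `y` works for arbitrarily small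
  `s > 0`; hence `⟪p, y⟫ = hh P y` (`p ∈ ZZ P`) and `0 < ⟪nu, y⟫`, and
  `⟪mu + nu, y⟫ = ⟪p, y⟫ + (1 - t₀) ⟪nu, y⟫`.
-/

set_option autoImplicit false

open scoped InnerProductSpace

namespace Pool.Agent.Lib.MP_4322ef_CH

variable {E : Type} [NormedAddCommGroup E] [InnerProductSpace ℝ E]

theorem facet {P : Finset E} (hP : RSys P) {H₀ : E} (h0 : Rg P H₀) {y p al : E}
    (hfund : ∀ H, Rg P H → y ∈ Chm P H → vc P H - (2 : ℝ) • y ∈ Chm P H) (hp : p ∈ ZZ P)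
    (hpy : ⟪p, y⟫_ℝ = hh P y) (hal : al ∈ P) (hpos : 0 < ⟪al, y⟫_ℝ) :
    2 * ⟪al, y⟫_ℝ ≤ ⟪al, p⟫_ℝ := by
  obtain ⟨H₃, hR, hH⟩ := exists_chm h0 y (-al)
  have hyH : y ∈ Chm P H₃ := fun be hbe hb => (hH be hbe hb).1
  have halH : 0 < ⟪al, H₃⟫_ℝ := by
    rcases lt_trichotomy ⟪al, H₃⟫_ℝ 0 with h | h | h
    · exfalso
      have h1 := hyH (-al) (hP.neg_mem hal) (by rw [inner_neg_left]; linarith)
      rw [inner_neg_left] at h1
      linarith
    · exact absurd h (hR al hal)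
    · exact h
  have h2 := R2b hP hR hH hp hpy
  have h3 := hfund H₃ hR hyH al hal halH
  rw [inner_neg_right, inner_neg_right] at h2
  rw [inner_sub_right, real_inner_smul_right] at h3
  have h4 : ⟪p, al⟫_ℝ = ⟪al, p⟫_ℝ := real_inner_comm al p
  have h5 : ⟪vc P H₃, al⟫_ℝ = ⟪al, vc P H₃⟫_ℝ := real_inner_comm al _
  rw [h4, h5] at h2
  linarith

theorem N07_closed (P : Finset E) : IsClosed (ZZ P) := by
  have h1 : ZZ P = ⋂ x : E, {p : E | ⟪p, x⟫_ℝ ≤ hh P x} := by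
    ext p
    simp [ZZ]
  rw [h1]
  refine isClosed_iInter fun x => isClosed_le (by fun_prop) continuous_const

/-- small steps stay in the chamber -/
theorem N07_chm {P : Finset E} {H p nu : E}
    (hH : ∀ al ∈ P, 0 < ⟪al, H⟫_ℝ → 0 ≤ ⟪al, p⟫_ℝ ∧ (⟪al, p⟫_ℝ = 0 → 0 ≤ ⟪al, nu⟫_ℝ)) :
    ∀ᶠ s in nhdsWithin (0 : ℝ) (Set.Ioi 0), p + s • nu ∈ Chm P H := by
  have hpos : ∀ᶠ t in nhdsWithin (0 : ℝ) (Set.Ioi 0), 0 < t := self_mem_nhdsWithin
  have h1 : ∀ᶠ s in nhdsWithin (0 : ℝ) (Set.Ioi 0),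
      ∀ al ∈ P, 0 < ⟪al, H⟫_ℝ → 0 ≤ ⟪al, p⟫_ℝ + s * ⟪al, nu⟫_ℝ := by
    rw [Finset.eventually_all]
    intro al hal
    by_cases hb : 0 < ⟪al, H⟫_ℝ
    · obtain ⟨h2, h3⟩ := hH al hal hb
      rcases h2.eq_or_lt with h4 | h4
      · filter_upwards [hpos] with s hs _
        rw [← h4, zero_add]
        exact mul_nonneg hs.le (h3 h4.symm)
      · have h5 : Filter.Tendsto (fun s : ℝ => ⟪al, p⟫_ℝ + s * ⟪al, nu⟫_ℝ)
            (nhdsWithin (0 : ℝ) (Set.Ioi 0)) (nhds (⟪al, p⟫_ℝ + 0 * ⟪al, nu⟫_ℝ)) := by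
          have : Continuous (fun s : ℝ => ⟪al, p⟫_ℝ + s * ⟪al, nu⟫_ℝ) := by fun_prop
          exact (this.tendsto 0).mono_left nhdsWithin_le_nhds
        rw [zero_mul, add_zero] at h5
        filter_upwards [h5.eventually_const_lt h4] with s hs _
        exact hs.le
    · exact Filter.Eventually.of_forall fun s h => absurd h hb
  filter_upwards [h1] with s hs al hal hb
  rw [inner_add_right, real_inner_smul_right]
  exact hs al hal hb

theorem N07_step [FiniteDimensional ℝ E] {P : Finset E} (hP : RSys P) {H mu nu q : E}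
    (hR : Rg P H) (hq : q ∈ Chm P H) (hqZ : q ∉ ZZ P) {r : ℝ} (hqr : q = mu + r • nu) (hmu : mu ∈ ZZ P)
    (hcen : ∀ z, (∀ al ∈ P, ⟪al, z⟫_ℝ = 0) → ⟪nu, z⟫_ℝ = 0) {S : Finset E}
    (hS1 : ∀ y ∈ S, y ∈ Chm P H) (hS2 : ∀ x ∈ Chm P H, ∃ c : E → ℝ,
      (∀ y ∈ S, 0 ≤ c y) ∧ ∀ al ∈ P, ⟪al, x - ∑ y ∈ S, c y • y⟫_ℝ = 0) :
    ∃ y ∈ S, hh P y < ⟪q, y⟫_ℝ := by
  by_contra hcon
  push Not at hcon
  have h1 : ∃ x, hh P x < ⟪q, x⟫_ℝ := by
    by_contra h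
    push Not at h
    exact hqZ h
  obtain ⟨x, hx⟩ := h1
  have hcl : IsClosed {z : E | hh P z = hh P x ∧ ⟪q, x⟫_ℝ ≤ ⟪q, z⟫_ℝ} := by
    have e1 : IsClosed {z : E | hh P z = hh P x} := isClosed_eq (hh_cont P) continuous_const
    have e2 : IsClosed {z : E | ⟪q, x⟫_ℝ ≤ ⟪q, z⟫_ℝ} :=
      isClosed_le continuous_const (continuous_const.inner continuous_id)
    exact e1.inter e2
  obtain ⟨x', ⟨hx1, hx2⟩, hxC⟩ := move hP H (fun z => hh P z = hh P x ∧ ⟪q, x⟫_ℝ ≤ ⟪q, z⟫_ℝ) hcl (by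
      intro z hz al hal hb hneg
      refine ⟨by rw [hh_sr hP hal]; exact hz.1, hz.2.trans ?_⟩
      unfold sr
      rw [inner_sub_right, real_inner_smul_right]
      have h2 : 0 ≤ ⟪q, al⟫_ℝ := by
        rw [real_inner_comm]
        exact hq al hal hb
      have h3 : ⟪z, al⟫_ℝ < 0 := by
        rw [real_inner_comm]
        exact hneg
      have h4 : 0 < ⟪al, al⟫_ℝ := real_inner_self_pos.mpr (hP.ne al hal)
      have h5 : 2 * ⟪z, al⟫_ℝ / ⟪al, al⟫_ℝ * ⟪q, al⟫_ℝ ≤ 0 :=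
        mul_nonpos_of_nonpos_of_nonneg (div_nonpos_of_nonpos_of_nonneg (by linarith) h4.le) h2
      linarith) x ⟨rfl, le_refl _⟩
  obtain ⟨c, hc0, hc⟩ := hS2 x' hxC
  set z := x' - ∑ y ∈ S, c y • y with hz
  have hx' : x' = ∑ y ∈ S, c y • y + z := by rw [hz]; abel
  have hhz : hh P z = 0 := by
    unfold hh
    rw [Finset.sum_eq_zero fun al hal => by rw [hc al hal, abs_zero], mul_zero]
  have hhz' : hh P (-z) = 0 := by
    unfold hh
    rw [Finset.sum_eq_zero fun al hal => by rw [inner_neg_right, hc al hal, neg_zero, abs_zero],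
      mul_zero]
  have h6 := hmu z
  have h7 := hmu (-z)
  rw [hhz] at h6
  rw [hhz', inner_neg_right] at h7
  have h8 : ⟪q, z⟫_ℝ = 0 := by
    rw [hqr, inner_add_left, real_inner_smul_left, hcen z hc]
    linarith
  have h9 : ⟪vc P H, z⟫_ℝ = 0 := by
    unfold vc
    rw [sum_inner]
    exact Finset.sum_eq_zero fun al hal => hc al (Finset.mem_filter.1 hal).1
  have h10 : ⟪q, x'⟫_ℝ ≤ ⟪vc P H, x'⟫_ℝ := by
    rw [hx', inner_add_right, inner_add_right, h8, h9, inner_sum, inner_sum]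
    refine add_le_add_left (Finset.sum_le_sum fun y hy => ?_) 0
    rw [real_inner_smul_right, real_inner_smul_right, ← hh_chm hP hR (hS1 y hy)]
    exact mul_le_mul_of_nonneg_left (hcon y hy) (hc0 y hy)
  rw [← hh_chm hP hR hxC, hx1] at h10
  linarith

theorem exit_facet [FiniteDimensional ℝ E] {P : Finset E} (hP : RSys P) {H₀ : E} (h0 : Rg P H₀)
    {mu nu : E} (hmu : mu ∈ ZZ P) (hout : mu + nu ∉ ZZ P)
    (hcen : ∀ z, (∀ al ∈ P, ⟪al, z⟫_ℝ = 0) → ⟪nu, z⟫_ℝ = 0) (S : E → Finset E)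
    (hS : ∀ H, Rg P H → (∀ y ∈ S H, y ∈ Chm P H) ∧ ∀ x ∈ Chm P H, ∃ c : E → ℝ,
      (∀ y ∈ S H, 0 ≤ c y) ∧ ∀ al ∈ P, ⟪al, x - ∑ y ∈ S H, c y • y⟫_ℝ = 0) :
    ∃ t : ℝ, 0 ≤ t ∧ mu + t • nu ∈ ZZ P ∧ ∃ H, Rg P H ∧ ∃ y ∈ S H,
      ⟪mu + t • nu, y⟫_ℝ = hh P y ∧ hh P y < ⟪mu + nu, y⟫_ℝ := by
  have hcomp : IsCompact ({t : ℝ | mu + t • nu ∈ ZZ P} ∩ Set.Icc 0 1) := by
    refine isCompact_Icc.inter_left ?_
    exact (N07_closed P).preimage (f := fun t : ℝ => mu + t • nu) (by fun_prop)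
  have hne : ({t : ℝ | mu + t • nu ∈ ZZ P} ∩ Set.Icc 0 1).Nonempty :=
    ⟨0, by simpa using hmu, by simp⟩
  obtain ⟨t₀, ht, htmax⟩ := hcomp.exists_isGreatest hne
  have hmax : ∀ t : ℝ, t₀ < t → t ≤ 1 → mu + t • nu ∉ ZZ P := by
    intro t h1 h2 h3
    exact absurd (htmax ⟨h3, ht.2.1.trans h1.le, h2⟩) (not_le.2 h1)
  have ht1 : t₀ < 1 := by
    rcases ht.2.2.eq_or_lt with h | h
    · exfalso
      have h1 : mu + t₀ • nu ∈ ZZ P := ht.1
      rw [h, one_smul] at h1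
      exact hout h1
    · exact h
  obtain ⟨p, hp⟩ : ∃ p, p = mu + t₀ • nu := ⟨_, rfl⟩
  have hpZ : p ∈ ZZ P := by rw [hp]; exact ht.1
  obtain ⟨H, hR, hH⟩ := exists_chm h0 p nu
  have hpos : ∀ᶠ t in nhdsWithin (0 : ℝ) (Set.Ioi 0), 0 < t := self_mem_nhdsWithin
  have hsm : ∀ᶠ t in nhdsWithin (0 : ℝ) (Set.Ioi 0), t < 1 - t₀ :=
    nhdsWithin_le_nhds (eventually_lt_nhds (by linarith))
  have key : ∃ y ∈ S H, ∃ᶠ s in nhdsWithin (0 : ℝ) (Set.Ioi 0), hh P y < ⟪p + s • nu, y⟫_ℝ := by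
    by_contra hcon
    push Not at hcon
    have h1 : ∀ᶠ s in nhdsWithin (0 : ℝ) (Set.Ioi 0), ∀ y ∈ S H, ⟪p + s • nu, y⟫_ℝ ≤ hh P y := by
      rw [Finset.eventually_all]
      intro y hy
      exact hcon y hy
    obtain ⟨s, h2, h3, h4, h5⟩ := (h1.and (hpos.and (hsm.and (N07_chm hH)))).exists
    have hq : p + s • nu = mu + (t₀ + s) • nu := by rw [hp, add_smul]; abel
    have h6 : p + s • nu ∉ ZZ P := by
      rw [hq]
      exact hmax _ (by linarith) (by linarith)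
    obtain ⟨y, hy, h7⟩ := N07_step hP hR h5 h6 hq hmu hcen (hS H hR).1 (hS H hR).2
    exact absurd h7 (not_lt.2 (h2 y hy))
  obtain ⟨y, hy, hfr⟩ := key
  have hpy : ⟪p, y⟫_ℝ = hh P y := by
    refine le_antisymm (hpZ y) ?_
    by_contra hlt
    push Not at hlt
    have h5 : Filter.Tendsto (fun s : ℝ => ⟪p + s • nu, y⟫_ℝ)
        (nhdsWithin (0 : ℝ) (Set.Ioi 0)) (nhds (⟪p + (0 : ℝ) • nu, y⟫_ℝ)) := by
      have : Continuous (fun s : ℝ => ⟪p + s • nu, y⟫_ℝ) := by fun_prop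
      exact (this.tendsto 0).mono_left nhdsWithin_le_nhds
    rw [zero_smul, add_zero] at h5
    obtain ⟨s, h6, h7⟩ := (hfr.and_eventually (h5.eventually_lt_const hlt)).exists
    linarith
  obtain ⟨s, h6, h7⟩ := (hfr.and_eventually hpos).exists
  rw [inner_add_left, real_inner_smul_left, hpy] at h6
  have h8 : 0 < ⟪nu, y⟫_ℝ := by
    by_contra h9
    push Not at h9
    have := mul_nonpos_of_nonneg_of_nonpos h7.le h9
    linarith
  refine ⟨t₀, ht.2.1, ht.1, H, hR, y, hy, by rw [← hp]; exact hpy, ?_⟩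
  have h9 : mu + nu = p + (1 - t₀) • nu := by
    rw [hp, sub_smul, one_smul]; abel
  rw [h9, inner_add_left, real_inner_smul_left, hpy]
  have := mul_pos (by linarith : 0 < 1 - t₀) h8
  linarith

end Pool.Agent.Lib.MP_4322ef_CH
end
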