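import Pool.Agent.Lib.MP_4322ef_CH.Mg.G001
import Pool.Agent.Lib.MP_4322ef_CH.Mg.G002

section

/-!
# The weights are stable under the reflections
-/

set_option autoImplicit false

open scoped InnerProductSpace

namespace Pool.Agent.Lib.MP_4322ef_CH

open Pool.Agent.Lib.MP_4322ef_al.SR

variable {g : Type} [NormedAddCommGroup g] [InnerProductSpace ℝ g] {L : RedLie g}

section
variable {J : CStr L} {W : Type} [NormedAddCommGroup W] [InnerProductSpace ℂ W]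

theorem WV_pow (t : CRep J W) (C : CSub L) {al lam E : g} {v : W} (hE : RV L C.a al E)
    (h : WV t C.a lam v) (p : ℕ) :
    WV t C.a ((p : ℝ) • al + lam) ((((t.op E).restrictScalars ℝ) ^ p) v) := by
  induction p with
  | zero =>
    rw [Nat.cast_zero, zero_smul, zero_add, pow_zero]
    exact h
  | succ p ih =>
    rw [pow_succ', Module.End.mul_apply]
    have h1 := wt_shift t C hE ih
    have h2 : al + ((p : ℝ) • al + lam) = ((p + 1 : ℕ) : ℝ) • al + lam := by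
      push_cast
      rw [add_smul, one_smul]
      abel
    rw [← h2]
    exact h1

variable [FiniteDimensional ℂ W]

theorem wt_refl (t : CRep J W) (C : CSub L) {lam al : g} (h : IsW t C.a lam)
    (ha : al ∈ roots L C.a) : IsW t C.a (sr al lam) := by
  have key : ∀ al ∈ roots L C.a, 0 ≤ ⟪lam, al⟫_ℝ → IsW t C.a (sr al lam) := by
    intro al h' h0
    obtain ⟨hal, hne, -⟩ := id h'
    obtain ⟨hlam, v, hv0, hv⟩ := h
    obtain ⟨E, hE, hE0, r1, r2, r3⟩ := root_triple C h'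
    have hp : 0 < ⟪al, al⟫_ℝ := real_inner_self_pos.2 hne
    have hF : RV L C.a (-al) (-L.th E) := by
      intro H hH
      rw [map_neg, RV_th C hE H hH, smul_neg]
    have hsm : ∀ A : g, t.op ((2 : ℝ) • A) = (2 : ℝ) • t.op A := by
      intro A
      rw [t.smul]
      ext x
      rw [LinearMap.smul_apply, LinearMap.smul_apply, Complex.coe_smul]
    obtain ⟨p, q, hq, hpq⟩ := sl2_refl ((t.op E).restrictScalars ℝ)
      ((t.op (-L.th E)).restrictScalars ℝ) ((t.op ((2 / ⟪al, al⟫_ℝ) • al)).restrictScalars ℝ)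
      (fun x => by
        show t.op ((2 / ⟪al, al⟫_ℝ) • al) (t.op E x) - t.op E (t.op ((2 / ⟪al, al⟫_ℝ) • al) x) =
          (2 : ℝ) • t.op E x
        rw [← t.bracket, r2, hsm, LinearMap.smul_apply])
      (fun x => by
        show t.op ((2 / ⟪al, al⟫_ℝ) • al) (t.op (-L.th E) x)
          - t.op (-L.th E) (t.op ((2 / ⟪al, al⟫_ℝ) • al) x) = -((2 : ℝ) • t.op (-L.th E) x)
        rw [← t.bracket, r3, Rep.neg', LinearMap.neg_apply, hsm, LinearMap.smul_apply])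
      (fun x => by
        show t.op E (t.op (-L.th E) x) - t.op (-L.th E) (t.op E x) =
          t.op ((2 / ⟪al, al⟫_ℝ) • al) x
        rw [← t.bracket, r1])
      (c := 2 / ⟪al, al⟫_ℝ * ⟪lam, al⟫_ℝ) (by positivity) hv0
      (by
        show t.op ((2 / ⟪al, al⟫_ℝ) • al) v = _
        rw [t.smul, LinearMap.smul_apply, hv al hal, Complex.coe_smul, Complex.coe_smul,
          smul_smul])
    have h1 := WV_pow t C hF (WV_pow t C hE hv p) q
    have h2 : (q : ℝ) • (-al) + ((p : ℝ) • al + lam) = sr al lam := by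
      rw [hq, sr]
      have h3 : 2 * ⟪lam, al⟫_ℝ / ⟪al, al⟫_ℝ = 2 / ⟪al, al⟫_ℝ * ⟪lam, al⟫_ℝ := by ring
      rw [h3]
      module
    rw [h2] at h1
    refine ⟨?_, _, hpq, h1⟩
    rw [sr]
    exact C.a.sub_mem hlam (C.a.smul_mem _ hal)
  rcases le_total 0 ⟪lam, al⟫_ℝ with h0 | h0
  · exact key al ha h0
  · have h1 := key (-al) (roots_neg C ha) (by rw [inner_neg_right]; linarith)
    rw [sr_neg_al] at h1
    exact h1

end

end Pool.Agent.Lib.MP_4322ef_CH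
end

section

/-!
# The exponent and the split Casimir operator
-/

set_option autoImplicit false

open scoped InnerProductSpace

namespace Pool.Agent.Lib.MP_4322ef_CH

open Pool.Agent.Lib.MP_4322ef_al.SR

variable {g : Type} [NormedAddCommGroup g] [InnerProductSpace ℝ g] {L : RedLie g}

theorem finsum_P {C : CSub L} {P : Finset C.a} (hPm : ∀ x : C.a, x ∈ P ↔ (x : g) ∈ roots L C.a)
    (F : g → ℝ) : ∑ᶠ al ∈ roots L C.a, F al = ∑ al ∈ P, F (al : g) := by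
  have h : roots L C.a = ↑(P.map ⟨Subtype.val, Subtype.val_injective⟩) := by
    ext x
    simp only [Finset.coe_map, Function.Embedding.coeFn_mk, Set.mem_image, Finset.mem_coe]
    constructor
    · intro hx
      exact ⟨⟨x, hx.1⟩, (hPm _).2 hx, rfl⟩
    · rintro ⟨z, hz, rfl⟩
      exact (hPm z).1 hz
  rw [h, finsum_mem_coe_finset, Finset.sum_map]
  rfl

section
variable {E : Type} [NormedAddCommGroup E] [InnerProductSpace ℝ E]

/-- the sum over the negative roots -/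
theorem sum_neg {P : Finset E} (hP : RSys P) (F : E → ℝ) :
    ∑ al ∈ P, F al = ∑ al ∈ P, F (-al) := by
  refine Finset.sum_nbij' (fun al => -al) (fun al => -al) (fun al h => hP.neg_mem h)
    (fun al h => hP.neg_mem h) (fun al _ => neg_neg al) (fun al _ => neg_neg al) fun al _ => ?_
  rw [neg_neg]

end

section
variable {X : Type} [NormedAddCommGroup X] [InnerProductSpace ℂ X] (r : HC L X)
  [FiniteDimensional ℝ g]

open Classical in
theorem casEval {D : Type} [NormedAddCommGroup D] [InnerProductSpace ℂ D] (de : DData L D)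
    (J : CStr L) (C : CSub L) {H₂ mu nu y : g} (hH₂ : Reg L C.a H₂) (hy : y ∈ C.a)
    (hmu : mu ∈ C.a) (hnu : nu ∈ C.a) (ep : X →ₗ[ℂ] ℂ)
    (hn : ∀ Z, (∃ c : ℝ, 0 < c ∧ L.br H₂ Z = c • Z) → ∀ x, ep (r.op Z x) = 0)
    (ha : ∀ H ∈ C.a, ∀ x, ep (r.op H x) =
      (((∑ᶠ be ∈ {be | be ∈ roots L C.a ∧ 0 < ⟪be, H₂⟫_ℝ}, ⟪be, H⟫_ℝ) - ⟪nu, H⟫_ℝ : ℝ) : ℂ) * ep x)
    (hm : ∀ H ∈ C.a, ∀ x, ep (r.op (J.J H) x) = (Complex.I * (⟪mu, H⟫_ℝ : ℂ)) * ep x)
    (d₁ : D) (h2 : ∀ H ∈ C.a, de.τ.op H d₁ = (⟪y, H⟫_ℝ : ℂ) • d₁)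
    (h3 : ∀ A, de.τ.op (J.J A) d₁ = Complex.I • de.τ.op A d₁)
    {T : D →ₗ[ℂ] X} (hT : T ∈ KHom L r.op de.κ)
    (h4 : ∀ al ∈ roots L C.a, 0 < ⟪al, H₂⟫_ℝ → ∀ Z, RV L C.a al Z →
      ep (T (de.κ (Z + L.th Z) (de.τ.op Z d₁))) =
        ((⟪Z, Z⟫_ℝ * min ⟪al, y⟫_ℝ 0 : ℝ) : ℂ) * ep (T d₁)) :
    ep (cas r de T d₁) = ((⟪nu - mu, y⟫_ℝ - hgt L C.a y : ℝ) : ℂ) * ep (T d₁) := by
  obtain ⟨P, hP, hPm, hPh, hPv, -⟩ := exists_P C
  obtain ⟨n, e, ch, hch, hF⟩ := exists_onb J C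
  let H₂' : C.a := ⟨H₂, hH₂.1⟩
  let y' : C.a := ⟨y, hy⟩
  let R : g := (vc P H₂' : C.a)
  have hRa : R ∈ C.a := (vc P H₂').2
  have hR : ∀ H ∈ C.a, (∑ᶠ be ∈ {be | be ∈ roots L C.a ∧ 0 < ⟪be, H₂⟫_ℝ}, ⟪be, H⟫_ℝ) =
      ⟪R, H⟫_ℝ := fun H hH => (hPv H₂' ⟨H, hH⟩).symm
  have hRg : Rg P H₂' := fun al hal => hH₂.2 _ ((hPm al).1 hal)
  -- the two kinds of contributions
  let G : g → ℂ := fun A => ((-(⟪y, A⟫_ℝ * ⟪R - nu, A⟫_ℝ) - ⟪J.J y, A⟫_ℝ * ⟪J.J mu, A⟫_ℝ : ℝ) : ℂ)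
    + Complex.I * ((⟪J.J y, A⟫_ℝ * ⟪R - nu, A⟫_ℝ - ⟪y, A⟫_ℝ * ⟪J.J mu, A⟫_ℝ : ℝ) : ℂ)
  let F : g → ℝ := fun x => if ⟪x, H₂⟫_ℝ < 0 then min (-⟪x, y⟫_ℝ) 0 else 0
  have hterm : ∀ i, ep (r.op (e i) (T (de.τ.op (L.th (e i)) d₁))) =
      (G (e i) + (F (ch i) : ℂ)) * ep (T d₁) := by
    intro i
    obtain ⟨hcha, hchi⟩ := hch i
    by_cases h0 : ch i = 0
    · rw [h0] at hchi
      obtain ⟨H, hH, H', hH', he⟩ := RV_zero J C hchi
      have e1 : ⟪y, e i⟫_ℝ = ⟪y, H⟫_ℝ := by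
        rw [he, inner_add_right, J_a_orth J C hy hH', add_zero]
      have e2 : ⟪R - nu, e i⟫_ℝ = ⟪R - nu, H⟫_ℝ := by
        rw [he, inner_add_right, J_a_orth J C (C.a.sub_mem hRa hnu) hH', add_zero]
      have e3 : ∀ x ∈ C.a, ⟪J.J x, e i⟫_ℝ = ⟪x, H'⟫_ℝ := by
        intro x hx
        rw [he, inner_add_right, real_inner_comm, J_a_orth J C hH hx, zero_add, J.inner]
      have hGi : G (e i) = ((-(⟪y, H⟫_ℝ * ⟪R - nu, H⟫_ℝ) - ⟪y, H'⟫_ℝ * ⟪mu, H'⟫_ℝ : ℝ) : ℂ)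
          + Complex.I * ((⟪y, H'⟫_ℝ * ⟪R - nu, H⟫_ℝ - ⟪y, H⟫_ℝ * ⟪mu, H'⟫_ℝ : ℝ) : ℂ) := by
        show ((-(⟪y, e i⟫_ℝ * ⟪R - nu, e i⟫_ℝ) - ⟪J.J y, e i⟫_ℝ * ⟪J.J mu, e i⟫_ℝ : ℝ) : ℂ)
          + Complex.I * ((⟪J.J y, e i⟫_ℝ * ⟪R - nu, e i⟫_ℝ - ⟪y, e i⟫_ℝ * ⟪J.J mu, e i⟫_ℝ : ℝ) : ℂ)
          = _
        rw [e1, e2, e3 y hy, e3 mu hmu]
      have hF0 : F (ch i) = 0 := by
        show (if ⟪ch i, H₂⟫_ℝ < 0 then min (-⟪ch i, y⟫_ℝ) 0 else 0) = 0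
        rw [h0, inner_zero_left, if_neg (lt_irrefl _)]
      have hth : L.th (e i) = -H + J.J H' := by
        rw [he, map_add, C.a_p H hH, th_JH J C hH']
      have h5 : de.τ.op (L.th (e i)) d₁ = (-(⟪y, H⟫_ℝ : ℂ) + Complex.I * (⟪y, H'⟫_ℝ : ℂ)) • d₁ := by
        rw [hth, de.τ.add, LinearMap.add_apply, Rep.neg', LinearMap.neg_apply, h2 H hH, h3,
          h2 H' hH', smul_smul, ← neg_smul, ← add_smul]
      have h6 : ep (r.op (e i) (T d₁)) =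
          ((⟪R - nu, H⟫_ℝ : ℂ) + Complex.I * (⟪mu, H'⟫_ℝ : ℂ)) * ep (T d₁) := by
        rw [he, r.add, LinearMap.add_apply, map_add, ha H hH, hm H' hH', hR H hH, inner_sub_left]
        ring
      rw [h5, map_smul, map_smul, map_smul, smul_eq_mul, h6, hGi, hF0]
      have hI : Complex.I * Complex.I = -1 := Complex.I_mul_I
      push_cast
      linear_combination ((⟪y, H'⟫_ℝ : ℂ) * (⟪mu, H'⟫_ℝ : ℂ) * ep (T d₁)) * hI
    · have hne : e i ≠ 0 := e.orthonormal.ne_zero i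
      have hroot : ch i ∈ roots L C.a := ⟨hcha, h0, e i, hne, hchi⟩
      have hz : ∀ x ∈ C.a, ⟪x, e i⟫_ℝ = 0 := fun x hx =>
        RV_orth C C.a.zero_mem hcha (RV_a C hx) hchi (Ne.symm h0)
      have hzJ : ∀ x ∈ C.a, ⟪J.J x, e i⟫_ℝ = 0 := fun x hx =>
        RV_orth C C.a.zero_mem hcha (RV_Ja J C hx) hchi (Ne.symm h0)
      have hGi : G (e i) = 0 := by
        show ((-(⟪y, e i⟫_ℝ * ⟪R - nu, e i⟫_ℝ) - ⟪J.J y, e i⟫_ℝ * ⟪J.J mu, e i⟫_ℝ : ℝ) : ℂ)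
          + Complex.I * ((⟪J.J y, e i⟫_ℝ * ⟪R - nu, e i⟫_ℝ - ⟪y, e i⟫_ℝ * ⟪J.J mu, e i⟫_ℝ : ℝ) : ℂ)
          = 0
        rw [hz y hy, hzJ y hy]
        simp
      rw [hGi, zero_add]
      rcases lt_or_gt_of_ne (hH₂.2 _ hroot) with hneg | hpos
      · have hF1 : F (ch i) = min (-⟪ch i, y⟫_ℝ) 0 := if_pos hneg
        have hZ : RV L C.a (-ch i) (L.th (e i)) := RV_th C hchi
        have hroot' : -ch i ∈ roots L C.a := roots_neg C hroot
        have hpos' : 0 < ⟪-ch i, H₂⟫_ℝ := by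
          rw [inner_neg_left]
          linarith
        have h5 := h4 _ hroot' hpos' _ hZ
        have h6 : r.op (L.th (e i) + L.th (L.th (e i))) (T (de.τ.op (L.th (e i)) d₁)) =
            T (de.κ (L.th (e i) + L.th (L.th (e i))) (de.τ.op (L.th (e i)) d₁)) := by
          refine hT _ ?_ _
          rw [map_add, L.th_th, add_comm]
        have h7 : ep (r.op (L.th (e i)) (T (de.τ.op (L.th (e i)) d₁))) = 0 := by
          refine hn _ ⟨⟪-ch i, H₂⟫_ℝ, hpos', ?_⟩ _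
          exact hZ H₂ hH₂.1
        have h8 : ⟪L.th (e i), L.th (e i)⟫_ℝ = 1 := by
          rw [L.inner_th, real_inner_self_eq_norm_sq, e.norm_eq_one, one_pow]
        rw [← h6, h8, one_mul, r.add, LinearMap.add_apply, map_add, h7, zero_add, L.th_th] at h5
        rw [h5, hF1, inner_neg_left]
      · have hF1 : F (ch i) = 0 := if_neg (not_lt.2 hpos.le)
        rw [hF1, Complex.ofReal_zero, zero_mul]
        exact hn _ ⟨⟪ch i, H₂⟫_ℝ, hpos, hchi H₂ hH₂.1⟩ _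
  -- the sum
  have hsum : ep (cas r de T d₁) = ∑ i, ep (r.op (e i) (T (de.τ.op (L.th (e i)) d₁))) := by
    have h := frame_indep (stdOrthonormalBasis ℝ g) e
      (bil r.toRep de.τ ep T LinearMap.id L.th d₁)
    simp only [bil_apply, LinearMap.id_apply] at h
    rw [cas_apply, map_sum]
    exact h
  have hsG : ∑ i, G (e i) = ((⟪nu - mu, y⟫_ℝ - ⟪R, y⟫_ℝ : ℝ) : ℂ) := by
    have k1 : ∀ u v : g, ∑ i, ⟪u, e i⟫_ℝ * ⟪v, e i⟫_ℝ = ⟪u, v⟫_ℝ := by
      intro u v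
      rw [← e.sum_inner_mul_inner u v]
      exact Finset.sum_congr rfl fun i _ => by rw [real_inner_comm v]
    have k2 : ∑ i, G (e i) = ((∑ i, (-(⟪y, e i⟫_ℝ * ⟪R - nu, e i⟫_ℝ)
        - ⟪J.J y, e i⟫_ℝ * ⟪J.J mu, e i⟫_ℝ) : ℝ) : ℂ)
        + Complex.I * ((∑ i, (⟪J.J y, e i⟫_ℝ * ⟪R - nu, e i⟫_ℝ - ⟪y, e i⟫_ℝ * ⟪J.J mu, e i⟫_ℝ) : ℝ) : ℂ)
        := by
      rw [Complex.ofReal_sum, Complex.ofReal_sum, Finset.mul_sum, ← Finset.sum_add_distrib]
    have a1 : ⟪J.J y, R - nu⟫_ℝ = 0 := by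
      rw [real_inner_comm]
      exact J_a_orth J C (C.a.sub_mem hRa hnu) hy
    have a2 : ⟪y, R - nu⟫_ℝ = ⟪R, y⟫_ℝ - ⟪nu, y⟫_ℝ := by
      rw [real_inner_comm, inner_sub_left]
    have a3 : ⟪y, mu⟫_ℝ = ⟪mu, y⟫_ℝ := real_inner_comm _ _
    rw [k2, Finset.sum_sub_distrib, Finset.sum_sub_distrib, Finset.sum_neg_distrib, k1, k1, k1, k1,
      J.inner, J_a_orth J C hy hmu, a1, a2, a3, inner_sub_left, sub_zero, Complex.ofReal_zero,
      mul_zero, add_zero]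
    congr 1
    ring
  have hsF : ∑ i, F (ch i) = ⟪R, y⟫_ℝ - hgt L C.a y := by
    have hF0 : F 0 = 0 := by
      show (if ⟪(0 : g), H₂⟫_ℝ < 0 then min (-⟪(0 : g), y⟫_ℝ) 0 else 0) = 0
      rw [inner_zero_left, if_neg (lt_irrefl _)]
    rw [hF F hF0, finsum_P hPm, ← hPh y', hh_pos hP hRg]
    have k1 : ∑ al ∈ P, F (al : g) =
        ∑ al ∈ P.filter (fun al => 0 < ⟪al, H₂'⟫_ℝ), min ⟪al, y'⟫_ℝ 0 := by
      rw [sum_neg hP (fun al : C.a => F (al : g)), Finset.sum_filter]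
      refine Finset.sum_congr rfl fun al _ => ?_
      show (if ⟪-(al : g), H₂⟫_ℝ < 0 then min (-⟪-(al : g), y⟫_ℝ) 0 else 0) =
        if 0 < ⟪(al : g), H₂⟫_ℝ then min ⟪(al : g), y⟫_ℝ 0 else 0
      rw [inner_neg_left, inner_neg_left, neg_neg]
      by_cases h : 0 < ⟪(al : g), H₂⟫_ℝ
      · rw [if_pos h, if_pos (by linarith)]
      · rw [if_neg h, if_neg (by linarith)]
    have k2 : ⟪R, y⟫_ℝ = ∑ al ∈ P.filter (fun al => 0 < ⟪al, H₂'⟫_ℝ), ⟪al, y'⟫_ℝ := by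
      have h : ⟪R, y⟫_ℝ = ⟪vc P H₂', y'⟫_ℝ := rfl
      rw [h, vc, sum_inner]
    rw [k1, k2, ← Finset.sum_sub_distrib, Finset.mul_sum]
    refine Finset.sum_congr rfl fun al _ => ?_
    rcases le_total 0 ⟪al, y'⟫_ℝ with h | h
    · rw [min_eq_right h, abs_of_nonneg h]
      ring
    · rw [min_eq_left h, abs_of_nonpos h]
      ring
  rw [hsum, Finset.sum_congr rfl fun i _ => hterm i, ← Finset.sum_mul, Finset.sum_add_distrib, hsG,
    ← Complex.ofReal_sum, hsF]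
  push_cast
  ring

end

end Pool.Agent.Lib.MP_4322ef_CH
end

section

/-!
# The Casimir operator on a highest weight vector
-/

set_option autoImplicit false

open scoped InnerProductSpace

namespace Pool.Agent.Lib.MP_4322ef_CH

open Pool.Agent.Lib.MP_4322ef_al.SR

variable {g : Type} [NormedAddCommGroup g] [InnerProductSpace ℝ g] {L : RedLie g}

section
variable {J : CStr L} {W : Type} [NormedAddCommGroup W] [InnerProductSpace ℂ W]
variable [FiniteDimensional ℝ g]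

open Classical in
theorem hw_cas (t : CRep J W) (C : CSub L) {H₁ be : g} {v : W} (hH : Reg L C.a H₁)
    (h : HW t C.a H₁ be v) :
    gCas L t.op v = ((2 * (⟪be, be⟫_ℝ + hgt L C.a be) : ℝ) : ℂ) • v := by
  obtain ⟨P, hP, hPm, hPh, hPv, -⟩ := exists_P C
  obtain ⟨n, e, ch, hch, hF⟩ := exists_onb J C
  let H' : C.a := ⟨H₁, hH.1⟩
  let b' : C.a := ⟨be, h.mem⟩
  have hRg : Rg P H' := fun al hal => hH.2 _ ((hPm al).1 hal)
  let F : g → ℝ := fun x => if 0 < ⟪x, H₁⟫_ℝ then ⟪x, be⟫_ℝ else 0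
  have hterm : ∀ i, t.op (e i) (t.op (L.th (e i)) v) =
      ((-(⟪be, e i⟫_ℝ * ⟪be, e i⟫_ℝ) - ⟪J.J be, e i⟫_ℝ * ⟪J.J be, e i⟫_ℝ - F (ch i) : ℝ) : ℂ) •
        v := by
    intro i
    obtain ⟨hcha, hchi⟩ := hch i
    by_cases h0 : ch i = 0
    · rw [h0] at hchi
      obtain ⟨H, hHa, K, hKa, he⟩ := RV_zero J C hchi
      have e1 : ⟪be, e i⟫_ℝ = ⟪be, H⟫_ℝ := by
        rw [he, inner_add_right, J_a_orth J C h.mem hKa, add_zero]
      have e2 : ⟪J.J be, e i⟫_ℝ = ⟪be, K⟫_ℝ := by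
        rw [he, inner_add_right, real_inner_comm, J_a_orth J C hHa h.mem, zero_add, J.inner]
      have hF0 : F (ch i) = 0 := by
        show (if 0 < ⟪ch i, H₁⟫_ℝ then ⟪ch i, be⟫_ℝ else 0) = 0
        rw [h0, inner_zero_left, if_neg (lt_irrefl _)]
      have hth : L.th (e i) = -H + J.J K := by
        rw [he, map_add, C.a_p H hHa, th_JH J C hKa]
      have h5 : ∀ a b : ℝ, t.op (-H + J.J K) v =
          (-(⟪be, H⟫_ℝ : ℂ) + Complex.I * (⟪be, K⟫_ℝ : ℂ)) • v := by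
        intro _ _
        rw [t.add, LinearMap.add_apply, Rep.neg', LinearMap.neg_apply, h.wt H hHa, t.lin,
          LinearMap.smul_apply, h.wt K hKa, smul_smul, ← neg_smul, ← add_smul]
      have h6 : t.op (H + J.J K) v = ((⟪be, H⟫_ℝ : ℂ) + Complex.I * (⟪be, K⟫_ℝ : ℂ)) • v := by
        rw [t.add, LinearMap.add_apply, h.wt H hHa, t.lin,
          LinearMap.smul_apply, h.wt K hKa, smul_smul, ← add_smul]
      rw [hth, h5 0 0, map_smul, he, h6, smul_smul, ← he, e1, e2, hF0]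
      congr 1
      push_cast
      linear_combination ((⟪be, K⟫_ℝ : ℂ) * (⟪be, K⟫_ℝ : ℂ)) * Complex.I_mul_I
    · have hne : e i ≠ 0 := e.orthonormal.ne_zero i
      have hroot : ch i ∈ roots L C.a := ⟨hcha, h0, e i, hne, hchi⟩
      have hz : ⟪be, e i⟫_ℝ = 0 :=
        RV_orth C C.a.zero_mem hcha (RV_a C h.mem) hchi (Ne.symm h0)
      have hzJ : ⟪J.J be, e i⟫_ℝ = 0 :=
        RV_orth C C.a.zero_mem hcha (RV_Ja J C h.mem) hchi (Ne.symm h0)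
      rw [hz, hzJ]
      rcases lt_or_gt_of_ne (hH.2 _ hroot) with hneg | hpos
      · have hF1 : F (ch i) = 0 := if_neg (not_lt.2 hneg.le)
        have h7 : t.op (L.th (e i)) v = 0 := by
          refine h.pos _ ⟨⟪-ch i, H₁⟫_ℝ, ?_, (RV_th C hchi) H₁ hH.1⟩
          rw [inner_neg_left]
          linarith
        rw [h7, map_zero, hF1]
        simp
      · have hF1 : F (ch i) = ⟪ch i, be⟫_ℝ := if_pos hpos
        have h7 : t.op (e i) v = 0 := h.pos _ ⟨⟪ch i, H₁⟫_ℝ, hpos, hchi H₁ hH.1⟩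
        have h8 := t.bracket (e i) (L.th (e i)) v
        rw [h7, map_zero, sub_zero, br_th_root C hcha hchi, real_inner_self_eq_norm_sq,
          e.norm_eq_one, one_pow, one_smul, Rep.neg', LinearMap.neg_apply, h.wt _ hcha] at h8
        rw [← h8, hF1, ← neg_smul, real_inner_comm be (ch i)]
        congr 1
        push_cast
        ring
  have hsum : gCas L t.op v = -∑ i, t.op (e i) (t.op (L.th (e i)) v) := by
    have h1 := frame_indep (stdOrthonormalBasis ℝ g) e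
      (bil t.toRep t.toRep LinearMap.id LinearMap.id LinearMap.id L.th v)
    simp only [bil_apply, LinearMap.id_apply] at h1
    rw [gCas, h1]
  have hsF : ∑ i, F (ch i) = 2 * hgt L C.a be := by
    have hF0 : F 0 = 0 := by
      show (if 0 < ⟪(0 : g), H₁⟫_ℝ then ⟪(0 : g), be⟫_ℝ else 0) = 0
      rw [inner_zero_left, if_neg (lt_irrefl _)]
    rw [hF F hF0, finsum_P hPm, ← hPh b', hh_pos hP hRg, Finset.sum_filter]
    congr 1
    refine Finset.sum_congr rfl fun al hal => ?_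
    show (if 0 < ⟪(al : g), H₁⟫_ℝ then ⟪(al : g), be⟫_ℝ else 0) =
      if 0 < ⟪(al : g), H₁⟫_ℝ then |⟪(al : g), be⟫_ℝ| else 0
    by_cases hp : 0 < ⟪(al : g), H₁⟫_ℝ
    · rw [if_pos hp, if_pos hp, abs_of_nonneg (hw_dom t C hH h ((hPm al).1 hal) hp)]
    · rw [if_neg hp, if_neg hp]
  have k1 : ∀ u : g, ∑ i, ⟪u, e i⟫_ℝ * ⟪u, e i⟫_ℝ = ⟪u, u⟫_ℝ := by
    intro u
    rw [← e.sum_inner_mul_inner u u]
    exact Finset.sum_congr rfl fun i _ => by rw [real_inner_comm u]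
  rw [hsum, Finset.sum_congr rfl fun i _ => hterm i, ← Finset.sum_smul, ← Complex.ofReal_sum,
    Finset.sum_sub_distrib, Finset.sum_sub_distrib, Finset.sum_neg_distrib, k1, k1, J.inner, hsF,
    ← neg_smul]
  congr 1
  push_cast
  ring

end

end Pool.Agent.Lib.MP_4322ef_CH
end
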