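import Pool.Agent.Lib.MP_4322ef_CH.Defs
import Pool.Agent.Lib.MP_4322ef_CH.RDefs

section

/-!
# Complex reductive Lie algebras: joint eigenvectors and complex linear unitary modules
-/

set_option autoImplicit false

open scoped InnerProductSpace TensorProduct

namespace Pool.Agent.Lib.MP_4322ef_CH

open Pool.Agent.Lib.MP_4322ef_al.SR

variable {g : Type} [NormedAddCommGroup g] [InnerProductSpace ℝ g] {L : RedLie g}

/-- `Z` is a joint eigenvector of `ad a` of weight `lam` (or zero) -/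
def RV (L : RedLie g) (a : Submodule ℝ g) (lam Z : g) : Prop :=
  ∀ H ∈ a, L.br H Z = ⟪lam, H⟫_ℝ • Z

section
variable {J : CStr L} {W : Type} [NormedAddCommGroup W] [InnerProductSpace ℂ W]

/-- `v` is a weight vector of weight `lam` (or zero) -/
def WV (t : CRep J W) (a : Submodule ℝ g) (lam : g) (v : W) : Prop :=
  ∀ H ∈ a, t.op H v = (⟪lam, H⟫_ℝ : ℂ) • v

/-- `lam` is a weight of `W` -/
def IsW (t : CRep J W) (a : Submodule ℝ g) (lam : g) : Prop :=
  lam ∈ a ∧ ∃ v, v ≠ 0 ∧ WV t a lam v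

/-- `v` is a highest weight vector of weight `be` for the positive system of `H₁` -/
structure HW (t : CRep J W) (a : Submodule ℝ g) (H₁ be : g) (v : W) : Prop where
  mem : be ∈ a
  ne : v ≠ 0
  wt : WV t a be v
  pos : ∀ Z, (∃ r : ℝ, 0 < r ∧ L.br H₁ Z = r • Z) → t.op Z v = 0

end

end Pool.Agent.Lib.MP_4322ef_CH
end

section

/-!
# Joint eigenvectors of `ad a`: basic facts

* `RV_th`: `[H, th Z] = th [th H, Z] = -th [H, Z]`. `RV_J`: `[H, J Z] = -J [Z, H] = J [H, Z]`.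
* `RV_orth`: `ad H` is symmetric for `H ∈ a` (`L.inner_br`, `C.a_p`); `H = lam - lam'` gives
  `⟪lam - lam', lam - lam'⟫ * ⟪Z, Z'⟫ = 0`.
* `RV_br`: Jacobi.
* `RV_zero`: `pp Z` and `J (kk Z)` lie in `p₀` and commute with `a`, so they are in `a` (`C.a_max`);
  `Z = pp Z + J (-J (kk Z))`.
* `br_th_root`: `D = [Z, th Z]` has `th D = -D`, commutes with `a` (`RV_br` with `lam + -lam = 0`), so it is
  in `a`; `⟪D, H⟫ = -⟪th Z, [th Z, H]⟫ = ⟪th Z, [H, th Z]⟫ = -⟪lam, H⟫ ⟪Z, Z⟫` for `H ∈ a`.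
* `inner_J_self`: `⟪A, J A⟫ = ⟪J A, J J A⟫ = -⟪J A, A⟫`. `J_a_orth`: `th (J H') = J H'`, `th H = -H`
  (`inner_kp`).
-/

set_option autoImplicit false

open scoped InnerProductSpace

namespace Pool.Agent.Lib.MP_4322ef_CH

open Pool.Agent.Lib.MP_4322ef_al.SR

variable {g : Type} [NormedAddCommGroup g] [InnerProductSpace ℝ g] {L : RedLie g}

theorem inner_J_self (J : CStr L) (A : g) : ⟪A, J.J A⟫_ℝ = 0 := by
  have h := J.inner A (J.J A)
  rw [J.sq, inner_neg_right, real_inner_comm] at h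
  linarith

private theorem S01_brJ (J : CStr L) (A B : g) : L.br A (J.J B) = J.J (L.br A B) := by
  rw [br_skew L A (J.J B), J.br, br_skew L B A, map_neg, neg_neg]

private theorem S01_th (C : CSub L) {H : g} (h : H ∈ C.a) (Z : g) :
    L.br H (L.th Z) = -L.th (L.br H Z) := by
  rw [L.th_br, C.a_p H h, map_neg, LinearMap.neg_apply, neg_neg]

theorem th_JH (J : CStr L) (C : CSub L) {H : g} (h : H ∈ C.a) : L.th (J.J H) = J.J H := by
  rw [J.th, C.a_p H h, map_neg, neg_neg]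

theorem J_a_orth (J : CStr L) (C : CSub L) {H H' : g} (h : H ∈ C.a) (h' : H' ∈ C.a) :
    ⟪H, J.J H'⟫_ℝ = 0 := by
  rw [real_inner_comm]
  exact inner_kp L (th_JH J C h') (C.a_p H h)

theorem RV_a (C : CSub L) {H : g} (h : H ∈ C.a) : RV L C.a 0 H := by
  intro H' h'
  rw [C.a_comm H' h' H h, inner_zero_left, zero_smul]

theorem RV_Ja (J : CStr L) (C : CSub L) {H : g} (h : H ∈ C.a) : RV L C.a 0 (J.J H) := by
  intro H' h'
  rw [S01_brJ, C.a_comm H' h' H h, map_zero, inner_zero_left, zero_smul]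

theorem RV_th (C : CSub L) {lam Z : g} (h : RV L C.a lam Z) : RV L C.a (-lam) (L.th Z) := by
  intro H hH
  rw [S01_th C hH, h H hH, map_smul, inner_neg_left, neg_smul]

theorem RV_J (J : CStr L) (C : CSub L) {lam Z : g} (h : RV L C.a lam Z) :
    RV L C.a lam (J.J Z) := by
  intro H hH
  rw [S01_brJ, h H hH, map_smul]

theorem RV_orth (C : CSub L) {lam lam' Z Z' : g} (hl : lam ∈ C.a) (hl' : lam' ∈ C.a)
    (h : RV L C.a lam Z) (h' : RV L C.a lam' Z') (hne : lam ≠ lam') : ⟪Z, Z'⟫_ℝ = 0 := by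
  have hH : lam - lam' ∈ C.a := C.a.sub_mem hl hl'
  have h1 : ⟪L.br (lam - lam') Z, Z'⟫_ℝ = ⟪Z, L.br (lam - lam') Z'⟫_ℝ := by
    rw [L.inner_br, C.a_p _ hH, map_neg, LinearMap.neg_apply, inner_neg_right, neg_neg]
  rw [h _ hH, h' _ hH, real_inner_smul_left, real_inner_smul_right] at h1
  have h2 : ⟪lam - lam', lam - lam'⟫_ℝ * ⟪Z, Z'⟫_ℝ = 0 := by
    rw [inner_sub_left, sub_mul]
    linarith
  rcases mul_eq_zero.1 h2 with h3 | h3
  · exact absurd (sub_eq_zero.1 (inner_self_eq_zero.1 h3)) hne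
  · exact h3

theorem RV_br (C : CSub L) {lam lam' Z Z' : g} (h : RV L C.a lam Z) (h' : RV L C.a lam' Z') :
    RV L C.a (lam + lam') (L.br Z Z') := by
  intro H hH
  rw [L.jacobi, h H hH, h' H hH, map_smul, LinearMap.smul_apply, map_smul, inner_add_left,
    add_smul]

theorem RV_zero (J : CStr L) (C : CSub L) {Z : g} (h : RV L C.a 0 Z) :
    ∃ H ∈ C.a, ∃ H' ∈ C.a, Z = H + J.J H' := by
  have h0 : ∀ H ∈ C.a, L.br H Z = 0 := fun H hH => by
    rw [h H hH, inner_zero_left, zero_smul]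
  have h1 : ∀ H ∈ C.a, L.br H (L.th Z) = 0 := fun H hH => by
    rw [S01_th C hH, h0 H hH, map_zero, neg_zero]
  have hp : L.pp Z ∈ C.a := by
    refine C.a_max _ (th_pp L Z) fun H hH => ?_
    rw [pp_apply, map_smul, map_sub, h0 H hH, h1 H hH, sub_zero, smul_zero]
  have hk : J.J (L.kk Z) ∈ C.a := by
    refine C.a_max _ ?_ fun H hH => ?_
    · rw [J.th, th_kk]
    · rw [S01_brJ, kk_apply, map_smul, map_add, h0 H hH, h1 H hH, add_zero, smul_zero, map_zero]
  refine ⟨L.pp Z, hp, -J.J (L.kk Z), C.a.neg_mem hk, ?_⟩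
  rw [map_neg, J.sq, neg_neg, add_comm, kk_add_pp]

theorem br_th_root (C : CSub L) {lam Z : g} (hl : lam ∈ C.a) (h : RV L C.a lam Z) :
    L.br Z (L.th Z) = -(⟪Z, Z⟫_ℝ • lam) := by
  have hD : L.br Z (L.th Z) ∈ C.a := by
    refine C.a_max _ ?_ fun H hH => ?_
    · rw [L.th_br, L.th_th, br_skew]
    · have h1 := RV_br C h (RV_th C h) H hH
      rw [h1, add_neg_cancel, inner_zero_left, zero_smul]
  have h2 : ∀ H ∈ C.a, ⟪L.br Z (L.th Z) + ⟪Z, Z⟫_ℝ • lam, H⟫_ℝ = 0 := by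
    intro H hH
    rw [inner_add_left, real_inner_smul_left, L.inner_br, br_skew L (L.th Z) H,
      RV_th C h H hH, inner_neg_right, real_inner_smul_right, L.inner_th, inner_neg_left]
    ring
  have h3 := h2 _ (C.a.add_mem hD (C.a.smul_mem ⟪Z, Z⟫_ℝ hl))
  exact eq_neg_of_add_eq_zero_left (inner_self_eq_zero.1 h3)

end Pool.Agent.Lib.MP_4322ef_CH
end

section

/-!
# The root spaces have real dimension two

Subtract the orthogonal projection: `Z' = s Z + t J Z + E` with `E ⊥ Z`, `E ⊥ J Z` (`Z ⊥ J Z`, same norm),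
`E ∈ RV lam`. Claim `E = 0`. First `[th Z, E] = 0`: it is in `RV 0`, so it is `H + J H'` (`RV_zero`), and it is
orthogonal to `a` and `J a`: `⟪[th Z, E], H''⟫ = -⟪E, [Z, H'']⟫ = ⟪lam, H''⟫ ⟪E, Z⟫ = 0`,
`⟪[th Z, E], J H''⟫ = ⟪lam, H''⟫ ⟪E, J Z⟫ = 0`. Then `‖[Z, E]‖² = -⟪E, [th Z, [Z, E]]⟫`,
`[th Z, [Z, E]] = [[th Z, Z], E] + [Z, [th Z, E]] = ⟪Z, Z⟫ [lam, E] = ⟪Z, Z⟫ ⟪lam, lam⟫ E`
(`br_th_root`), so `‖[Z, E]‖² = -⟪Z, Z⟫ ⟪lam, lam⟫ ⟪E, E⟫ ≤ 0` and `E = 0`.
-/

set_option autoImplicit false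

open scoped InnerProductSpace

namespace Pool.Agent.Lib.MP_4322ef_CH

open Pool.Agent.Lib.MP_4322ef_al.SR

variable {g : Type} [NormedAddCommGroup g] [InnerProductSpace ℝ g] {L : RedLie g}

theorem RV_unique (J : CStr L) (C : CSub L) {lam Z Z' : g} (hl : lam ∈ C.a) (h0 : lam ≠ 0)
    (h : RV L C.a lam Z) (hZ : Z ≠ 0) (h' : RV L C.a lam Z') : ∃ s t : ℝ, Z' = s • Z + t • J.J Z := by
  have hZZ : ⟪Z, Z⟫_ℝ ≠ 0 := fun h => hZ (inner_self_eq_zero.1 h)
  set s : ℝ := ⟪Z', Z⟫_ℝ / ⟪Z, Z⟫_ℝ with hs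
  set t : ℝ := ⟪Z', J.J Z⟫_ℝ / ⟪Z, Z⟫_ℝ with ht
  set E : g := Z' - (s • Z + t • J.J Z) with hE
  refine ⟨s, t, ?_⟩
  have hJZ : ⟪Z, J.J Z⟫_ℝ = 0 := inner_J_self J Z
  have hEZ : ⟪E, Z⟫_ℝ = 0 := by
    rw [hE, inner_sub_left, inner_add_left, real_inner_smul_left, real_inner_smul_left,
      real_inner_comm Z (J.J Z), hJZ, mul_zero, add_zero, hs, div_mul_cancel₀ _ hZZ, sub_self]
  have hEJ : ⟪E, J.J Z⟫_ℝ = 0 := by
    rw [hE, inner_sub_left, inner_add_left, real_inner_smul_left, real_inner_smul_left, hJZ,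
      mul_zero, zero_add, J.inner, ht, div_mul_cancel₀ _ hZZ, sub_self]
  have hRE : RV L C.a lam E := by
    intro H hH
    rw [hE, map_sub, map_add, map_smul, map_smul, h' H hH, h H hH, RV_J J C h H hH]
    module
  -- `[th Z, E] = 0`
  have h0' : RV L C.a 0 (L.br (L.th Z) E) := by
    have h1 := RV_br C (RV_th C h) hRE
    rwa [neg_add_cancel] at h1
  obtain ⟨H, hH, H', hH', hsum⟩ := RV_zero J C h0'
  have key : ∀ H'' ∈ C.a, ⟪L.br (L.th Z) E, H''⟫_ℝ = 0 := by
    intro H'' hH''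
    rw [L.inner_br, L.th_th, br_skew L Z H'', h H'' hH'', inner_neg_right, real_inner_smul_right,
      hEZ, mul_zero, neg_zero, neg_zero]
  have brJ : ∀ A B : g, L.br A (J.J B) = J.J (L.br A B) := fun A B => by
    rw [br_skew L A (J.J B), J.br, br_skew L B A, map_neg, neg_neg]
  have key2 : ∀ H'' ∈ C.a, ⟪L.br (L.th Z) E, J.J H''⟫_ℝ = 0 := by
    intro H'' hH''
    rw [L.inner_br, L.th_th, brJ, br_skew L Z H'', h H'' hH'', map_neg, map_smul, inner_neg_right,
      real_inner_smul_right, hEJ, mul_zero, neg_zero, neg_zero]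
  have hz : L.br (L.th Z) E = 0 := by
    have h1 : ⟪L.br (L.th Z) E, L.br (L.th Z) E⟫_ℝ = 0 := by
      have h1' : ⟪L.br (L.th Z) E, H + J.J H'⟫_ℝ = 0 := by
        rw [inner_add_right, key H hH, key2 H' hH', add_zero]
      rwa [← hsum] at h1'
    exact inner_self_eq_zero.1 h1
  -- `‖[Z, E]‖² = -⟪E, [th Z, [Z, E]]⟫`
  have h2 : L.br (L.th Z) (L.br Z E) = (⟪Z, Z⟫_ℝ * ⟪lam, lam⟫_ℝ) • E := by
    rw [L.jacobi, hz, map_zero, add_zero, br_skew L (L.th Z) Z, br_th_root C hl h, neg_neg,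
      map_smul, LinearMap.smul_apply, hRE lam hl, smul_smul]
  have h3 : ⟪L.br Z E, L.br Z E⟫_ℝ = -(⟪Z, Z⟫_ℝ * ⟪lam, lam⟫_ℝ * ⟪E, E⟫_ℝ) := by
    rw [L.inner_br, h2, real_inner_smul_right]
  have hZp : 0 < ⟪Z, Z⟫_ℝ := real_inner_self_pos.2 hZ
  have hlp : 0 < ⟪lam, lam⟫_ℝ := real_inner_self_pos.2 h0
  have h4 : 0 ≤ ⟪L.br Z E, L.br Z E⟫_ℝ := real_inner_self_nonneg
  have h5 : 0 ≤ ⟪E, E⟫_ℝ := real_inner_self_nonneg
  have h6 : ⟪E, E⟫_ℝ = 0 := by
    by_contra hne
    have h7 : 0 < ⟪E, E⟫_ℝ := lt_of_le_of_ne h5 (Ne.symm hne)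
    have h8 : 0 < ⟪Z, Z⟫_ℝ * ⟪lam, lam⟫_ℝ * ⟪E, E⟫_ℝ := mul_pos (mul_pos hZp hlp) h7
    linarith
  have h7 : E = 0 := inner_self_eq_zero.1 h6
  rw [hE] at h7
  exact sub_eq_zero.1 h7

end Pool.Agent.Lib.MP_4322ef_CH
end

section

/-!
# Root space decomposition

* `span_RV`: the operators `ad H`, `H ∈ a`, are symmetric and commute (Jacobi, `C.a_comm`); by
  `LinearMap.IsSymmetric.iSup_iInf_eq_top_of_commute` (Mathlib, JointEigenspace; index type `C.a`) `g` is
  the sum of the joint eigenspaces for `χ : C.a → ℝ`. If such a joint eigenspace is nonzero, `χ` is linear,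
  so it is `H ↦ ⟪lam, H⟫` with `lam ∈ a` (Riesz on `C.a`).
* `roots_finite`: choose a nonzero root vector for each root; they are orthogonal (`RV_orth`), hence linearly
  independent.
* `span_eig`: `g = S ⊔ T`, `S` the span of the `RV lam` with `⟪lam, H₁⟫ = r`, `T` the span of the others.
  `Z = u + w`; `w = Z - u` is an `r`-eigenvector of `ad H₁` and it is orthogonal to all `r`-eigenvectors.
* `exists_csub`: `a_p`, `a_comm`, `a_max` are those of `C`; `reg`: `[H₂, Z] = 0` gives by `span_eig`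
  (`r = 0`) that `Z` is in the span of the `RV lam` with `⟪lam, H₂⟫ = 0`; a nonzero such vector has
  `lam = 0` since `H₂` is regular.
-/

set_option autoImplicit false

open scoped InnerProductSpace

namespace Pool.Agent.Lib.MP_4322ef_CH

open Pool.Agent.Lib.MP_4322ef_al.SR

variable {g : Type} [NormedAddCommGroup g] [InnerProductSpace ℝ g] {L : RedLie g}

variable [FiniteDimensional ℝ g]

theorem span_RV (C : CSub L) (Z : g) :
    Z ∈ Submodule.span ℝ {Z | ∃ lam ∈ C.a, RV L C.a lam Z} := by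
  have hT : ∀ H : C.a, (L.br (H : g)).IsSymmetric := by
    intro H A B
    rw [L.inner_br, C.a_p _ H.2, map_neg, LinearMap.neg_apply, inner_neg_right, neg_neg]
  have hC : Pairwise (Function.onFun Commute (fun H : C.a => L.br (H : g))) := by
    intro H H' _
    refine LinearMap.ext fun A => ?_
    change L.br H (L.br H' A) = L.br H' (L.br H A)
    rw [L.jacobi, C.a_comm _ H.2 _ H'.2, map_zero, LinearMap.zero_apply, zero_add]
  have htop := LinearMap.IsSymmetric.iSup_iInf_eq_top_of_commute hT hC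
  have hle : (⨆ χ : C.a → ℝ, ⨅ H : C.a, Module.End.eigenspace (L.br (H : g)) (χ H)) ≤
      Submodule.span ℝ {Z | ∃ lam ∈ C.a, RV L C.a lam Z} := by
    refine iSup_le fun χ => ?_
    intro A hA
    by_cases hA0 : A = 0
    · rw [hA0]; exact Submodule.zero_mem _
    have hA1 : ∀ H : C.a, L.br (H : g) A = χ H • A := fun H =>
      Module.End.mem_eigenspace_iff.1 ((Submodule.mem_iInf _).1 hA H)
    have hinj : ∀ c d : ℝ, c • A = d • A → c = d := fun c d h => smul_left_injective ℝ hA0 h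
    have hadd : ∀ H H' : C.a, χ (H + H') = χ H + χ H' := by
      intro H H'
      apply hinj
      rw [add_smul, ← hA1, ← hA1, ← hA1, Submodule.coe_add, map_add, LinearMap.add_apply]
    have hsmul : ∀ (c : ℝ) (H : C.a), χ (c • H) = c * χ H := by
      intro c H
      apply hinj
      rw [mul_smul, ← hA1, ← hA1, Submodule.coe_smul, map_smul, LinearMap.smul_apply]
    let f : C.a →ₗ[ℝ] ℝ :=
      { toFun := χ
        map_add' := hadd
        map_smul' := fun c H => by rw [hsmul, RingHom.id_apply, smul_eq_mul] }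
    let lam : C.a := (InnerProductSpace.toDual ℝ C.a).symm (LinearMap.toContinuousLinearMap f)
    have hlam : ∀ H : C.a, ⟪(lam : g), (H : g)⟫_ℝ = χ H := by
      intro H
      have h1 : ⟪lam, H⟫_ℝ = χ H := by
        rw [InnerProductSpace.toDual_symm_apply]
        rfl
      rw [← h1]
      rfl
    refine Submodule.subset_span ⟨lam, lam.2, fun H hH => ?_⟩
    rw [hlam ⟨H, hH⟩]
    exact hA1 ⟨H, hH⟩
  apply hle
  rw [htop]
  exact Submodule.mem_top

theorem roots_finite (C : CSub L) : (roots L C.a).Finite := by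
  have h1 : ∀ al : roots L C.a, ∃ Z : g, Z ≠ 0 ∧ RV L C.a (al : g) Z := fun al => al.2.2.2
  choose v hv0 hv using h1
  have hli : LinearIndependent ℝ v := by
    refine linearIndependent_of_ne_zero_of_inner_eq_zero hv0 ?_
    intro al be hne
    exact RV_orth C al.2.1 be.2.1 (hv al) (hv be) fun h => hne (Subtype.ext h)
  have : Finite (roots L C.a) := hli.finite
  exact Set.toFinite _

omit [FiniteDimensional ℝ g] in
private theorem S03_eig (C : CSub L) {H₁ : g} (hH : H₁ ∈ C.a) {r : ℝ} {u : g}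
    (hu : u ∈ Submodule.span ℝ {Z | ∃ lam ∈ C.a, RV L C.a lam Z ∧ ⟪lam, H₁⟫_ℝ = r}) :
    L.br H₁ u = r • u := by
  induction hu using Submodule.span_induction with
  | mem x hx =>
    obtain ⟨lam, _, hx, hr⟩ := hx
    rw [hx H₁ hH, hr]
  | zero => rw [map_zero, smul_zero]
  | add x y _ _ hx hy => rw [map_add, hx, hy, smul_add]
  | smul c x _ hx => rw [map_smul, hx, smul_comm]

omit [FiniteDimensional ℝ g] in
private theorem S03_orth (C : CSub L) {H₁ : g} (hH : H₁ ∈ C.a) {r : ℝ} {w v : g}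
    (hv : L.br H₁ v = r • v)
    (hw : w ∈ Submodule.span ℝ {Z | ∃ lam ∈ C.a, RV L C.a lam Z ∧ ⟪lam, H₁⟫_ℝ ≠ r}) :
    ⟪w, v⟫_ℝ = 0 := by
  induction hw using Submodule.span_induction with
  | mem x hx =>
    obtain ⟨lam, _, hx, hr⟩ := hx
    have h1 : ⟪L.br H₁ x, v⟫_ℝ = ⟪x, L.br H₁ v⟫_ℝ := by
      rw [L.inner_br, C.a_p _ hH, map_neg, LinearMap.neg_apply, inner_neg_right, neg_neg]
    rw [hx H₁ hH, hv, real_inner_smul_left, real_inner_smul_right] at h1
    have h2 : (⟪lam, H₁⟫_ℝ - r) * ⟪x, v⟫_ℝ = 0 := by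
      rw [sub_mul]
      linarith
    rcases mul_eq_zero.1 h2 with h3 | h3
    · exact absurd (sub_eq_zero.1 h3) hr
    · exact h3
  | zero => rw [inner_zero_left]
  | add x y _ _ hx hy => rw [inner_add_left, hx, hy, add_zero]
  | smul c x _ hx => rw [real_inner_smul_left, hx, mul_zero]

theorem span_eig (C : CSub L) {H₁ Z : g} (hH : H₁ ∈ C.a) {r : ℝ} (hr : L.br H₁ Z = r • Z) :
    Z ∈ Submodule.span ℝ {Z | ∃ lam ∈ C.a, RV L C.a lam Z ∧ ⟪lam, H₁⟫_ℝ = r} := by
  have hle : Submodule.span ℝ {Z | ∃ lam ∈ C.a, RV L C.a lam Z} ≤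
      Submodule.span ℝ {Z | ∃ lam ∈ C.a, RV L C.a lam Z ∧ ⟪lam, H₁⟫_ℝ = r} ⊔
      Submodule.span ℝ {Z | ∃ lam ∈ C.a, RV L C.a lam Z ∧ ⟪lam, H₁⟫_ℝ ≠ r} := by
    rw [Submodule.span_le]
    rintro A ⟨lam, hlam, hA⟩
    by_cases h : ⟪lam, H₁⟫_ℝ = r
    · exact Submodule.mem_sup_left (Submodule.subset_span ⟨lam, hlam, hA, h⟩)
    · exact Submodule.mem_sup_right (Submodule.subset_span ⟨lam, hlam, hA, h⟩)
  obtain ⟨u, hu, w, hw, huw⟩ := Submodule.mem_sup.1 (hle (span_RV C Z))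
  have hw1 : L.br H₁ w = r • w := by
    have h1 : w = Z - u := by rw [← huw, add_sub_cancel_left]
    rw [h1, map_sub, hr, S03_eig C hH hu, smul_sub]
  have hw0 : w = 0 := inner_self_eq_zero.1 (S03_orth C hH hw1 hw)
  rw [← huw, hw0, add_zero]
  exact hu

theorem exists_csub (C : CSub L) {H₂ : g} (hH : Reg L C.a H₂) :
    ∃ C₂ : CSub L, C₂.a = C.a ∧ C₂.H₀ = H₂ := by
  refine ⟨⟨C.a, H₂, C.a_p, C.a_comm, C.a_max, hH.1, ?_⟩, rfl, rfl⟩
  intro Z hZ H hHa
  have h1 : L.br H₂ Z = (0 : ℝ) • Z := by rw [hZ, zero_smul]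
  have h2 := span_eig C hH.1 h1
  clear hZ h1
  induction h2 using Submodule.span_induction with
  | mem x hx =>
    obtain ⟨lam, hlam, hx, hr⟩ := hx
    by_cases hx0 : x = 0
    · rw [hx0, map_zero]
    by_cases hl0 : lam = 0
    · rw [hx H hHa, hl0, inner_zero_left, zero_smul]
    · exact absurd hr (hH.2 lam ⟨hlam, hl0, x, hx0, hx⟩)
  | zero => rw [map_zero]
  | add x y _ _ hx hy => rw [map_add, hx, hy, add_zero]
  | smul c x _ hx => rw [map_smul, hx, smul_zero]

end Pool.Agent.Lib.MP_4322ef_CH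
end

section

/-!
# Reflections of weights for `sl₂`

Let `p` be maximal with `e^p v ≠ 0` (it exists: the `e^j v` have the distinct eigenvalues `c + 2 j` for
`h`, and `M` has finite dimension). Then `u = e^p v` is a primitive vector of weight `c + 2 p`; Mathlib
(`Mathlib/Algebra/Lie/Sl2.lean`: `IsSl2Triple.HasPrimitiveVectorWith`, `exists_nat`,
`pow_toEnd_f_ne_zero_of_eq_nat`, applied to the Lie algebra `Module.End ℝ M` acting on `M`, or a direct
induction) gives `c + 2 p = n` with `n : ℕ` and `f^j u ≠ 0` for `j ≤ n`. Take `q = n - p` (`c ≥ 0` gives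
`p ≤ n`).
-/

set_option autoImplicit false

open scoped InnerProductSpace

namespace Pool.Agent.Lib.MP_4322ef_CH

open Pool.Agent.Lib.MP_4322ef_al.SR

variable {g : Type} [NormedAddCommGroup g] [InnerProductSpace ℝ g] {L : RedLie g}

/-- a sequence of eigenvectors with distinct eigenvalues vanishes somewhere -/
theorem X01_zero {M : Type} [AddCommGroup M] [Module ℝ M] [FiniteDimensional ℝ M]
    (h : M →ₗ[ℝ] M) (u : ℕ → M) (c d : ℝ) (hd : d ≠ 0)
    (hu : ∀ j, h (u j) = (c + d * j) • u j) : ∃ j, u j = 0 := by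
  by_contra hcon
  push Not at hcon
  have hinj : Function.Injective (fun j : ℕ => c + d * (j : ℝ)) := by
    intro i j hij
    have h1 : c + d * (i : ℝ) = c + d * (j : ℝ) := hij
    have h2 : (i : ℝ) = j := mul_left_cancel₀ hd (add_left_cancel h1)
    exact_mod_cast h2
  have hmem : ∀ j : ℕ, c + d * (j : ℝ) ∈ {μ : ℝ | Module.End.HasEigenvalue (h : Module.End ℝ M) μ} := by
    intro j
    exact Module.End.hasEigenvalue_of_hasEigenvector
      (x := u j) ⟨Module.End.mem_eigenspace_iff.2 (hu j), hcon j⟩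
  exact (Set.infinite_of_injective_forall_mem hinj hmem)
    (Module.End.finite_hasEigenvalue (h : Module.End ℝ M))

theorem X01_e {M : Type} [AddCommGroup M] [Module ℝ M]
    (e h : M →ₗ[ℝ] M) (he : ∀ x, h (e x) - e (h x) = (2 : ℝ) • e x)
    {c : ℝ} {v : M} (hw : h v = c • v) (j : ℕ) :
    h ((e ^ j) v) = (c + 2 * j) • (e ^ j) v := by
  induction j with
  | zero => simp [hw]
  | succ j ih =>
    have h1 := he ((e ^ j) v)
    rw [ih, map_smul] at h1
    have h2 : (e ^ (j + 1)) v = e ((e ^ j) v) := by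
      rw [pow_succ', Module.End.mul_apply]
    rw [h2, eq_add_of_sub_eq h1, ← add_smul]
    congr 1
    push_cast
    ring

theorem X01_f {M : Type} [AddCommGroup M] [Module ℝ M]
    (f h : M →ₗ[ℝ] M) (hf : ∀ x, h (f x) - f (h x) = -((2 : ℝ) • f x))
    {c : ℝ} {v : M} (hw : h v = c • v) (j : ℕ) :
    h ((f ^ j) v) = (c + (-2) * j) • (f ^ j) v := by
  induction j with
  | zero => simp [hw]
  | succ j ih =>
    have h1 := hf ((f ^ j) v)
    rw [ih, map_smul] at h1
    have h2 : (f ^ (j + 1)) v = f ((f ^ j) v) := by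
      rw [pow_succ', Module.End.mul_apply]
    rw [h2, eq_add_of_sub_eq h1, ← neg_smul, ← add_smul]
    congr 1
    push_cast
    ring

theorem X01_ef {M : Type} [AddCommGroup M] [Module ℝ M]
    (e f h : M →ₗ[ℝ] M) (hf : ∀ x, h (f x) - f (h x) = -((2 : ℝ) • f x))
    (hef : ∀ x, e (f x) - f (e x) = h x)
    {c : ℝ} {v : M} (hw : h v = c • v) (hv : e v = 0) (j : ℕ) :
    e ((f ^ (j + 1)) v) = (((j : ℝ) + 1) * (c - j)) • (f ^ j) v := by
  induction j with
  | zero =>
    have h1 := hef v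
    rw [hv, map_zero, sub_zero] at h1
    simp [h1, hw]
  | succ j ih =>
    have h1 := hef ((f ^ (j + 1)) v)
    have h2 : (f ^ (j + 1 + 1)) v = f ((f ^ (j + 1)) v) := by
      rw [pow_succ', Module.End.mul_apply]
    have h3 : (f ^ (j + 1)) v = f ((f ^ j) v) := by
      rw [pow_succ', Module.End.mul_apply]
    rw [ih, map_smul, ← h3, X01_f f h hf hw (j + 1)] at h1
    rw [h2, eq_add_of_sub_eq h1, ← add_smul]
    congr 1
    push_cast
    ring

theorem sl2_refl {M : Type} [AddCommGroup M] [Module ℝ M] [FiniteDimensional ℝ M]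
    (e f h : M →ₗ[ℝ] M) (he : ∀ x, h (e x) - e (h x) = (2 : ℝ) • e x)
    (hf : ∀ x, h (f x) - f (h x) = -((2 : ℝ) • f x)) (hef : ∀ x, e (f x) - f (e x) = h x)
    {c : ℝ} (hc : 0 ≤ c) {v : M} (hv : v ≠ 0) (hw : h v = c • v) :
    ∃ p q : ℕ, (q : ℝ) = c + p ∧ (f ^ q) ((e ^ p) v) ≠ 0 := by
  classical
  have h1 : ∃ j, (e ^ j) v = 0 :=
    X01_zero h (fun j => (e ^ j) v) c 2 two_ne_zero (X01_e e h he hw)
  obtain ⟨hP1, hP2⟩ : (e ^ (Nat.find h1)) v = 0 ∧ ∀ m < Nat.find h1, (e ^ m) v ≠ 0 :=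
    ⟨Nat.find_spec h1, fun m hm => Nat.find_min h1 hm⟩
  generalize Nat.find h1 = P at hP1 hP2
  obtain _ | p := P
  · simp at hP1
    exact absurd hP1 hv
  have hu : (e ^ p) v ≠ 0 := hP2 p (Nat.lt_succ_self p)
  have heu : e ((e ^ p) v) = 0 := by
    rw [← hP1, pow_succ', Module.End.mul_apply]
  have hwu := X01_e e h he hw p
  have h2 : ∃ j, (f ^ j) ((e ^ p) v) = 0 :=
    X01_zero h (fun j => (f ^ j) ((e ^ p) v)) (c + 2 * p) (-2) (by norm_num) (X01_f f h hf hwu)
  obtain ⟨hQ1, hQ2⟩ : (f ^ (Nat.find h2)) ((e ^ p) v) = 0 ∧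
      ∀ m < Nat.find h2, (f ^ m) ((e ^ p) v) ≠ 0 :=
    ⟨Nat.find_spec h2, fun m hm => Nat.find_min h2 hm⟩
  generalize Nat.find h2 = Q at hQ1 hQ2
  obtain _ | n := Q
  · simp at hQ1
    exact absurd hQ1 hu
  have h3 := X01_ef e f h hf hef hwu heu n
  rw [hQ1, map_zero] at h3
  have h4 : (((n : ℝ) + 1) * (c + 2 * p - n)) = 0 := by
    rcases smul_eq_zero.1 h3.symm with h | h
    · exact h
    · exact absurd h (hQ2 n (Nat.lt_succ_self n))
  have h5 : c + 2 * p = n := by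
    rcases mul_eq_zero.1 h4 with h | h
    · have : (0 : ℝ) ≤ n := Nat.cast_nonneg n
      linarith
    · linarith
  have h6 : p ≤ n := by
    have : (p : ℝ) ≤ n := by
      have : (0 : ℝ) ≤ p := Nat.cast_nonneg p
      linarith
    exact_mod_cast this
  refine ⟨p, n - p, ?_, hQ2 _ (by omega)⟩
  rw [Nat.cast_sub h6]
  linarith

end Pool.Agent.Lib.MP_4322ef_CH
end

section

/-!
# Weight space decomposition

`t.op H`, `H ∈ a`, is symmetric (`t.adj`, `C.a_p`) and the `t.op H` commute (`C.a_comm`). As in `span_RV` (file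
S03): `LinearMap.IsSymmetric.iSup_iInf_eq_top_of_commute` with index type `C.a`; the eigenvalues are real
and linear in `H`. `wt_orth`: `H = lam - lam'`. `wt_finite`: orthogonal nonzero vectors.
-/

set_option autoImplicit false

open scoped InnerProductSpace

namespace Pool.Agent.Lib.MP_4322ef_CH

open Pool.Agent.Lib.MP_4322ef_al.SR

variable {g : Type} [NormedAddCommGroup g] [InnerProductSpace ℝ g] {L : RedLie g}

section
variable {J : CStr L} {W : Type} [NormedAddCommGroup W] [InnerProductSpace ℂ W]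

theorem W02_symm (t : CRep J W) (C : CSub L) {H : g} (hH : H ∈ C.a) : (t.op H).IsSymmetric := by
  intro x y
  rw [t.adj, C.a_p H hH, Rep.neg', LinearMap.neg_apply, inner_neg_right, neg_neg]

theorem wt_orth (t : CRep J W) (C : CSub L) {lam lam' : g} (hl : lam ∈ C.a) (hl' : lam' ∈ C.a)
    {v v' : W} (h : WV t C.a lam v) (h' : WV t C.a lam' v') (hne : lam ≠ lam') : ⟪v, v'⟫_ℂ = 0 := by
  have hd : lam - lam' ∈ C.a := C.a.sub_mem hl hl'
  have h1 := W02_symm t C hd v v'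
  rw [h _ hd, h' _ hd, inner_smul_left, inner_smul_right, Complex.conj_ofReal] at h1
  have h2 : ((⟪lam, lam - lam'⟫_ℝ : ℂ) - (⟪lam', lam - lam'⟫_ℝ : ℂ)) * ⟪v, v'⟫_ℂ = 0 := by
    rw [sub_mul, h1, sub_self]
  rcases mul_eq_zero.1 h2 with h3 | h3
  · exfalso
    rw [← Complex.ofReal_sub, ← inner_sub_left] at h3
    have h4 : ⟪lam - lam', lam - lam'⟫_ℝ = 0 := by exact_mod_cast h3
    exact hne (sub_eq_zero.1 (inner_self_eq_zero.1 h4))
  · exact h3

/-- root vectors shift the weights -/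
theorem wt_shift (t : CRep J W) (C : CSub L) {al lam Z : g} {v : W} (hZ : RV L C.a al Z)
    (h : WV t C.a lam v) : WV t C.a (al + lam) (t.op Z v) := by
  intro H hH
  have h1 := t.bracket H Z v
  rw [hZ H hH, t.smul, LinearMap.smul_apply, h H hH, map_smul] at h1
  rw [← add_eq_of_eq_sub h1, ← add_smul, inner_add_left, Complex.ofReal_add]

variable [FiniteDimensional ℂ W]

theorem wt_span (t : CRep J W) (C : CSub L) [FiniteDimensional ℝ g] (w : W) :
    w ∈ Submodule.span ℂ {v | ∃ lam ∈ C.a, WV t C.a lam v} := by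
  have hcomm : Pairwise (Function.onFun Commute (fun H : C.a => (t.op (H : g) : Module.End ℂ W))) := by
    intro H H' _
    show t.op (H : g) * t.op (H' : g) = t.op (H' : g) * t.op (H : g)
    ext x
    have h1 := t.bracket (H : g) (H' : g) x
    rw [C.a_comm _ H.2 _ H'.2, Rep.zero', LinearMap.zero_apply] at h1
    exact (sub_eq_zero.1 h1.symm)
  have htop := LinearMap.IsSymmetric.iSup_iInf_eq_top_of_commute
    (T := fun H : C.a => (t.op (H : g) : W →ₗ[ℂ] W)) (fun H => W02_symm t C H.2) hcomm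
  have hw : w ∈ (⊤ : Submodule ℂ W) := Submodule.mem_top
  rw [← htop] at hw
  refine (iSup_le ?_ : _ ≤ Submodule.span ℂ {v | ∃ lam ∈ C.a, WV t C.a lam v}) hw
  intro χ v hv
  by_cases hv0 : v = 0
  · rw [hv0]
    exact Submodule.zero_mem _
  have hv1 : ∀ H : C.a, t.op (H : g) v = χ H • v := fun H =>
    Module.End.mem_eigenspace_iff.1 ((Submodule.mem_iInf _).1 hv H)
  have hre : ∀ H : C.a, ((χ H).re : ℂ) = χ H := by
    intro H
    have h1 := (W02_symm t C H.2).conj_eigenvalue_eq_self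
      (Module.End.hasEigenvalue_of_hasEigenvector
        (x := v) ⟨Module.End.mem_eigenspace_iff.2 (hv1 H), hv0⟩)
    exact Complex.conj_eq_iff_re.1 h1
  have hadd : ∀ H H' : C.a, χ (H + H') = χ H + χ H' := by
    intro H H'
    have h1 := hv1 (H + H')
    rw [Submodule.coe_add, t.add, LinearMap.add_apply, hv1, hv1, ← add_smul] at h1
    exact (smul_left_injective ℂ hv0 h1).symm
  have hsm : ∀ (r : ℝ) (H : C.a), χ (r • H) = (r : ℂ) * χ H := by
    intro r H
    have h1 := hv1 (r • H)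
    rw [Submodule.coe_smul, t.smul, LinearMap.smul_apply, hv1, smul_smul] at h1
    exact (smul_left_injective ℂ hv0 h1).symm
  let φ : C.a →ₗ[ℝ] ℝ :=
    { toFun := fun H => (χ H).re
      map_add' := fun H H' => by rw [hadd, Complex.add_re]
      map_smul' := fun r H => by
        rw [hsm, Complex.re_ofReal_mul, RingHom.id_apply, smul_eq_mul] }
  have hcs : CompleteSpace C.a := FiniteDimensional.complete ℝ C.a
  let lam : C.a := (InnerProductSpace.toDual ℝ C.a).symm (LinearMap.toContinuousLinearMap φ)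
  have hlam : ∀ H : C.a, ⟪(lam : g), (H : g)⟫_ℝ = (χ H).re := by
    intro H
    have h1 : ⟪lam, H⟫_ℝ = (LinearMap.toContinuousLinearMap φ) H :=
      InnerProductSpace.toDual_symm_apply
    rw [← Submodule.coe_inner, h1]
    rfl
  refine Submodule.subset_span ⟨(lam : g), lam.2, ?_⟩
  intro H hH
  rw [hv1 ⟨H, hH⟩, hlam ⟨H, hH⟩, hre]

theorem wt_finite (t : CRep J W) (C : CSub L) : {lam | IsW t C.a lam}.Finite := by
  have hch : ∀ lam : {lam | IsW t C.a lam}, ∃ v, v ≠ 0 ∧ WV t C.a (lam : g) v := fun lam => lam.2.2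
  choose v hv0 hv using hch
  have hli : LinearIndependent ℂ v := by
    refine linearIndependent_of_ne_zero_of_inner_eq_zero hv0 ?_
    intro lam lam' hne
    exact wt_orth t C lam.2.1 lam'.2.1 (hv lam) (hv lam') (fun h => hne (Subtype.ext h))
  have hfin : Finite {lam | IsW t C.a lam} := hli.finite_of_isNoetherian
  exact Set.toFinite _

end

end Pool.Agent.Lib.MP_4322ef_CH
end

section

/-!
# `Hom (Y, W)` as a unitary module, and irreducible submodules

* `exists_hom`: take an orthonormal basis `o` of `Y` and `U = PiLp 2 (fun _ : Fin (finrank ℂ Y) => W)`, with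
  `h u y = ∑ j, ⟪o j, y⟫ • u j`, inverse `φ ↦ (j ↦ φ (o j))`, and
  `op A u = h⁻¹ (t.op A ∘ h u - h u ∘ s.op A)`. `adj`: `⟪u, u'⟫ = ∑ j, ⟪h u (o j), h u' (o j)⟫` and
  `⟪o k, s.op A (o j)⟫ = -⟪s.op (th A) (o k), o j⟫`. Last statement: Riesz, or `u₀ j = ⟪y, o j⟫ • w`.
* `exists_irr`: among the stable submodules `V` of `U` with `⟪u₀, P_V u⟫ ≠ 0` (`P_V` the orthogonal
  projection; it commutes with the `t.op A` by `adj`; `⊤` is one) take one of minimal dimension. If `V = V' ⊕ V''`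
  is an orthogonal decomposition into stable subspaces, then `P_V u = P_{V'} u + P_{V''} u`, so `V' = ⊥` or
  `V'' = ⊥`: `V` is irreducible (`V''` = the orthogonal complement of `V'` in `V`, stable by `adj`). The vector
  `P_V u` is a highest weight vector of weight `la`.
-/

set_option autoImplicit false

open scoped InnerProductSpace

namespace Pool.Agent.Lib.MP_4322ef_CH

open Pool.Agent.Lib.MP_4322ef_al.SR

variable {g : Type} [NormedAddCommGroup g] [InnerProductSpace ℝ g] {L : RedLie g}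

section
variable {J : CStr L}

/-- the action on the linear maps -/
noncomputable def N05_G {W : Type} [NormedAddCommGroup W] [InnerProductSpace ℂ W]
    {Y : Type} [NormedAddCommGroup Y] [InnerProductSpace ℂ Y]
    (t : CRep J W) (s : CRep J Y) (A : g) : (Y →ₗ[ℂ] W) →ₗ[ℂ] (Y →ₗ[ℂ] W) where
  toFun φ := t.op A ∘ₗ φ - φ ∘ₗ s.op A
  map_add' φ ψ := by
    ext y
    simp only [LinearMap.sub_apply, LinearMap.comp_apply, LinearMap.add_apply, map_add]
    abel
  map_smul' c φ := by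
    ext y
    simp only [LinearMap.sub_apply, LinearMap.comp_apply, LinearMap.smul_apply, map_smul,
      RingHom.id_apply, smul_sub]

theorem N05_G_apply {W : Type} [NormedAddCommGroup W] [InnerProductSpace ℂ W]
    {Y : Type} [NormedAddCommGroup Y] [InnerProductSpace ℂ Y]
    (t : CRep J W) (s : CRep J Y) (A : g) (φ : Y →ₗ[ℂ] W) (y : Y) :
    N05_G t s A φ y = t.op A (φ y) - φ (s.op A y) := rfl

/-- the transported module, given adjointness -/
noncomputable def N05_rep {W : Type} [NormedAddCommGroup W] [InnerProductSpace ℂ W]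
    {Y : Type} [NormedAddCommGroup Y] [InnerProductSpace ℂ Y]
    (t : CRep J W) (s : CRep J Y) {U : Type} [NormedAddCommGroup U] [InnerProductSpace ℂ U]
    (h : U ≃ₗ[ℂ] (Y →ₗ[ℂ] W))
    (hadj : ∀ A x y, ⟪h.symm (N05_G t s A (h x)), y⟫_ℂ = -⟪x, h.symm (N05_G t s (L.th A) (h y))⟫_ℂ) :
    CRep J U where
  op A := h.symm.toLinearMap ∘ₗ N05_G t s A ∘ₗ h.toLinearMap
  add A B := by
    ext u
    simp only [LinearMap.comp_apply, LinearMap.add_apply, LinearEquiv.coe_coe, ← map_add]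
    congr 1
    ext y
    simp only [LinearMap.add_apply, N05_G_apply, t.add, s.add, map_add]
    abel
  smul r A := by
    ext u
    simp only [LinearMap.comp_apply, LinearMap.smul_apply, LinearEquiv.coe_coe, ← map_smul]
    congr 1
    ext y
    simp only [LinearMap.smul_apply, N05_G_apply, t.smul, s.smul, map_smul, smul_sub]
  bracket A B x := by
    simp only [LinearMap.comp_apply, LinearEquiv.coe_coe, LinearEquiv.apply_symm_apply, ← map_sub]
    congr 1
    ext y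
    simp only [LinearMap.sub_apply, N05_G_apply, t.bracket, s.bracket, map_sub]
    abel
  lin A := by
    ext u
    simp only [LinearMap.comp_apply, LinearMap.smul_apply, LinearEquiv.coe_coe, ← map_smul]
    congr 1
    ext y
    simp only [LinearMap.smul_apply, N05_G_apply, t.lin, s.lin, map_smul, smul_sub]
  adj A x y := hadj A x y

theorem N05_sum {Y : Type} [NormedAddCommGroup Y] [InnerProductSpace ℂ Y]
    [FiniteDimensional ℂ Y] {n : ℕ} (o : OrthonormalBasis (Fin n) ℂ Y)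
    {W : Type} [NormedAddCommGroup W] [InnerProductSpace ℂ W] (φ : Y →ₗ[ℂ] W) (y : Y) :
    φ y = ∑ j, ⟪o j, y⟫_ℂ • φ (o j) := by
  conv_lhs => rw [← o.sum_repr' y]
  rw [map_sum]
  exact Finset.sum_congr rfl fun j _ => by rw [map_smul]

theorem N05_adj {W : Type} [NormedAddCommGroup W] [InnerProductSpace ℂ W]
    {Y : Type} [NormedAddCommGroup Y] [InnerProductSpace ℂ Y]
    [FiniteDimensional ℂ Y] (t : CRep J W) (s : CRep J Y) {n : ℕ}
    (o : OrthonormalBasis (Fin n) ℂ Y) (A : g) (φ ψ : Y →ₗ[ℂ] W) :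
    ∑ j, ⟪N05_G t s A φ (o j), ψ (o j)⟫_ℂ = -∑ j, ⟪φ (o j), N05_G t s (L.th A) ψ (o j)⟫_ℂ := by
  have h1 : ∑ j, ⟪φ (s.op A (o j)), ψ (o j)⟫_ℂ =
      -∑ k, ⟪φ (o k), ψ (s.op (L.th A) (o k))⟫_ℂ := by
    calc ∑ j, ⟪φ (s.op A (o j)), ψ (o j)⟫_ℂ
        = ∑ j, ∑ k, ⟪s.op A (o j), o k⟫_ℂ * ⟪φ (o k), ψ (o j)⟫_ℂ := by
          refine Finset.sum_congr rfl fun j _ => ?_
          rw [N05_sum o φ (s.op A (o j)), sum_inner]
          refine Finset.sum_congr rfl fun k _ => ?_
          rw [inner_smul_left, inner_conj_symm]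
      _ = ∑ k, ∑ j, ⟪s.op A (o j), o k⟫_ℂ * ⟪φ (o k), ψ (o j)⟫_ℂ := Finset.sum_comm
      _ = -∑ k, ⟪φ (o k), ψ (s.op (L.th A) (o k))⟫_ℂ := by
          rw [← Finset.sum_neg_distrib]
          refine Finset.sum_congr rfl fun k _ => ?_
          rw [N05_sum o ψ (s.op (L.th A) (o k)), inner_sum, ← Finset.sum_neg_distrib]
          refine Finset.sum_congr rfl fun j _ => ?_
          rw [inner_smul_right, s.adj, neg_mul]
  simp only [N05_G_apply, inner_sub_left, inner_sub_right, Finset.sum_sub_distrib]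
  rw [h1]
  have h2 : ∑ j, ⟪t.op A (φ (o j)), ψ (o j)⟫_ℂ =
      -∑ j, ⟪φ (o j), t.op (L.th A) (ψ (o j))⟫_ℂ := by
    rw [← Finset.sum_neg_distrib]
    exact Finset.sum_congr rfl fun j _ => t.adj A _ _
  rw [h2]
  ring

theorem exists_hom {W : Type} [NormedAddCommGroup W] [InnerProductSpace ℂ W]
    [FiniteDimensional ℂ W] {Y : Type} [NormedAddCommGroup Y] [InnerProductSpace ℂ Y]
    [FiniteDimensional ℂ Y] (t : CRep J W) (s : CRep J Y) :
    ∃ (U : Type) (_ : NormedAddCommGroup U) (_ : InnerProductSpace ℂ U)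
      (_ : FiniteDimensional ℂ U) (q : CRep J U) (h : U ≃ₗ[ℂ] (Y →ₗ[ℂ] W)),
      (∀ A u y, h (q.op A u) y = t.op A (h u y) - h u (s.op A y)) ∧
      ∀ (w : W) (y : Y), ∃ u₀ : U, ∀ u, ⟪u₀, u⟫_ℂ = ⟪w, h u y⟫_ℂ := by
  obtain ⟨n, hn⟩ : ∃ n, n = Module.finrank ℂ Y := ⟨_, rfl⟩
  obtain ⟨o⟩ : Nonempty (OrthonormalBasis (Fin n) ℂ Y) := by
    subst hn
    exact ⟨stdOrthonormalBasis ℂ Y⟩
  obtain ⟨h, hh⟩ : ∃ h : PiLp 2 (fun _ : Fin n => W) ≃ₗ[ℂ] (Y →ₗ[ℂ] W), ∀ u j, h u (o j) = u j := by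
    refine ⟨(WithLp.linearEquiv 2 ℂ (Fin n → W)).trans (o.toBasis.constr ℂ), fun u j => ?_⟩
    rw [LinearEquiv.trans_apply]
    have := o.toBasis.constr_basis ℂ ((WithLp.linearEquiv 2 ℂ (Fin n → W)) u) j
    rw [OrthonormalBasis.coe_toBasis] at this
    exact this
  have hin : ∀ u v : PiLp 2 (fun _ : Fin n => W), ⟪u, v⟫_ℂ = ∑ j, ⟪h u (o j), h v (o j)⟫_ℂ := by
    intro u v
    rw [PiLp.inner_apply]
    exact Finset.sum_congr rfl fun j _ => by rw [hh, hh]
  refine ⟨PiLp 2 (fun _ : Fin n => W), inferInstance, inferInstance, inferInstance,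
    N05_rep t s h ?_, h, ?_, ?_⟩
  · intro A x y
    rw [hin, hin]
    simp only [LinearEquiv.apply_symm_apply]
    exact N05_adj t s o A (h x) (h y)
  · intro A u y
    show h (h.symm (N05_G t s A (h u))) y = _
    rw [LinearEquiv.apply_symm_apply, N05_G_apply]
  · intro w y
    refine ⟨WithLp.toLp 2 (fun j => ⟪y, o j⟫_ℂ • w), fun u => ?_⟩
    rw [PiLp.inner_apply, N05_sum o (h u) y, inner_sum]
    refine Finset.sum_congr rfl fun j _ => ?_
    rw [hh, inner_smul_right]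
    show ⟪⟪y, o j⟫_ℂ • w, u j⟫_ℂ = _
    rw [inner_smul_left, inner_conj_symm]

theorem N05_orth {U : Type} [NormedAddCommGroup U] [InnerProductSpace ℂ U]
    (q : CRep J U) {V : Submodule ℂ U} (hV : ∀ A, ∀ v ∈ V, q.op A v ∈ V) (A : g) {v : U}
    (hv : v ∈ Vᗮ) : q.op A v ∈ Vᗮ := by
  rw [Submodule.mem_orthogonal'] at hv ⊢
  intro w hw
  rw [q.adj, hv _ (hV _ _ hw), neg_zero]

theorem N05_comm {U : Type} [NormedAddCommGroup U] [InnerProductSpace ℂ U]
    [FiniteDimensional ℂ U] (q : CRep J U) {V : Submodule ℂ U} (hV : ∀ A, ∀ v ∈ V, q.op A v ∈ V)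
    (A : g) (u : U) : V.starProjection (q.op A u) = q.op A (V.starProjection u) := by
  refine Submodule.eq_starProjection_of_mem_orthogonal (hV _ _ (V.starProjection_apply_mem u)) ?_
  rw [← map_sub]
  exact N05_orth q hV A (V.sub_starProjection_mem_orthogonal u)

theorem N05_add {U : Type} [NormedAddCommGroup U] [InnerProductSpace ℂ U]
    [FiniteDimensional ℂ U] {V V' : Submodule ℂ U} (hle : V' ≤ V) (u : U) :
    V.starProjection u = V'.starProjection u + (V ⊓ V'ᗮ).starProjection u := by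
  have h1 := V'.starProjection_apply_mem u
  have h2 := (V ⊓ V'ᗮ).starProjection_apply_mem u
  refine Submodule.eq_starProjection_of_mem_of_inner_eq_zero (V.add_mem (hle h1) h2.1) ?_
  intro w hw
  have h3 := V'.starProjection_apply_mem w
  have h4 : w - V'.starProjection w ∈ V ⊓ V'ᗮ :=
    ⟨V.sub_mem hw (hle h3), V'.sub_starProjection_mem_orthogonal w⟩
  have h5 : ⟪u - V'.starProjection u, V'.starProjection w⟫_ℂ = 0 :=
    Submodule.starProjection_inner_eq_zero _ _ h3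
  have h6 : ⟪u - (V ⊓ V'ᗮ).starProjection u, w - V'.starProjection w⟫_ℂ = 0 :=
    Submodule.starProjection_inner_eq_zero _ _ h4
  have h7 : ⟪(V ⊓ V'ᗮ).starProjection u, V'.starProjection w⟫_ℂ = 0 :=
    (Submodule.mem_orthogonal' _ _).1 h2.2 _ h3
  have h8 : ⟪V'.starProjection u, w - V'.starProjection w⟫_ℂ = 0 :=
    (Submodule.mem_orthogonal _ _).1 h4.2 _ h1
  have h9 : w = V'.starProjection w + (w - V'.starProjection w) := by abel
  have h10 : ⟪u - (V'.starProjection u + (V ⊓ V'ᗮ).starProjection u), w⟫_ℂ =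
      (⟪u - V'.starProjection u, V'.starProjection w⟫_ℂ
        - ⟪(V ⊓ V'ᗮ).starProjection u, V'.starProjection w⟫_ℂ)
      + (⟪u - (V ⊓ V'ᗮ).starProjection u, w - V'.starProjection w⟫_ℂ
        - ⟪V'.starProjection u, w - V'.starProjection w⟫_ℂ) := by
    simp only [inner_sub_left, inner_sub_right, inner_add_left]
    ring
  rw [h10, h5, h6, h7, h8]
  ring

/-- restriction to a stable subspace -/
noncomputable def N05_res {U : Type} [NormedAddCommGroup U] [InnerProductSpace ℂ U]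
    (q : CRep J U) (V : Submodule ℂ U) (hV : ∀ A, ∀ v ∈ V, q.op A v ∈ V) : CRep J V where
  op A := (q.op A).restrict (hV A)
  add A B := by
    ext u
    simp only [LinearMap.coe_restrict_apply, LinearMap.add_apply, q.add, Submodule.coe_add]
  smul r A := by
    ext u
    simp only [LinearMap.coe_restrict_apply, LinearMap.smul_apply, q.smul, Submodule.coe_smul]
  bracket A B x := by
    apply Subtype.ext
    simp only [LinearMap.coe_restrict_apply, q.bracket, Submodule.coe_sub]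
  lin A := by
    ext u
    simp only [LinearMap.coe_restrict_apply, LinearMap.smul_apply, q.lin, Submodule.coe_smul]
  adj A x y := by
    rw [Submodule.coe_inner, Submodule.coe_inner]
    exact q.adj A x y

theorem exists_irr {U : Type} [NormedAddCommGroup U] [InnerProductSpace ℂ U]
    [FiniteDimensional ℂ U] (q : CRep J U) (C : CSub L) {H₁ la : g} {u : U}
    (hu : HW q C.a H₁ la u) (u₀ : U) (h0 : ⟪u₀, u⟫_ℂ ≠ 0) :
    ∃ (V : Submodule ℂ U) (t : CRep J V), Irr t ∧
      (∀ A, ∀ v : V, ((t.op A v : V) : U) = q.op A v) ∧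
      ∃ v : V, HW t C.a H₁ la v ∧ ⟪u₀, (v : U)⟫_ℂ ≠ 0 := by
  obtain ⟨V, ⟨hV, hV0⟩, hmin⟩ := (wellFounded_lt (α := Submodule ℂ U)).has_min
    {V : Submodule ℂ U | (∀ A, ∀ v ∈ V, q.op A v ∈ V) ∧ ⟪u₀, V.starProjection u⟫_ℂ ≠ 0}
    ⟨⊤, fun _ _ _ => trivial, by
      have : (⊤ : Submodule ℂ U).starProjection u = u :=
        Submodule.starProjection_eq_self_iff.2 trivial
      rw [this]
      exact h0⟩
  refine ⟨V, N05_res q V hV, ?_, fun A v => rfl, ⟨V.starProjection u, V.starProjection_apply_mem u⟩,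
    ⟨hu.mem, ?_, ?_, ?_⟩, hV0⟩
  · intro U' hU'
    have hle : U'.map V.subtype ≤ V := Submodule.map_subtype_le V U'
    have hst : ∀ A, ∀ v ∈ U'.map V.subtype, q.op A v ∈ U'.map V.subtype := by
      rintro A _ ⟨v, hv, rfl⟩
      exact ⟨_, hU' A v hv, rfl⟩
    by_cases hc : ⟪u₀, (U'.map V.subtype).starProjection u⟫_ℂ = 0
    · left
      have h1 : ⟪u₀, (V ⊓ (U'.map V.subtype)ᗮ).starProjection u⟫_ℂ ≠ 0 := by
        rw [N05_add hle u, inner_add_right, hc, zero_add] at hV0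
        exact hV0
      have h2 : V ⊓ (U'.map V.subtype)ᗮ = V := by
        refine eq_of_le_of_not_lt inf_le_left (hmin _ ⟨fun A v hv => ?_, h1⟩)
        exact ⟨hV A v hv.1, N05_orth q hst A hv.2⟩
      have h3 : U'.map V.subtype = ⊥ := by
        rw [eq_bot_iff]
        intro x hx
        have h4 : x ∈ (U'.map V.subtype)ᗮ := (inf_eq_left.1 h2) (hle hx)
        have h5 := (Submodule.mem_orthogonal _ _).1 h4 x hx
        rw [Submodule.mem_bot]
        exact inner_self_eq_zero.1 h5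
      rw [eq_bot_iff]
      intro x hx
      have h6 : (x : U) ∈ U'.map V.subtype := ⟨x, hx, rfl⟩
      rw [h3, Submodule.mem_bot] at h6
      rw [Submodule.mem_bot]
      exact Subtype.ext h6
    · right
      have h2 : U'.map V.subtype = V := eq_of_le_of_not_lt hle (hmin _ ⟨hst, hc⟩)
      rw [eq_top_iff]
      intro x _
      have h3 : (x : U) ∈ U'.map V.subtype := by rw [h2]; exact x.2
      obtain ⟨y, hy, hyx⟩ := h3
      have : y = x := Subtype.ext hyx
      rwa [← this]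
  · intro h
    apply hV0
    have := congrArg (fun x : V => (x : U)) h
    simp only [Submodule.coe_zero] at this
    rw [this, inner_zero_right]
  · intro H hH
    apply Subtype.ext
    show q.op H (V.starProjection u) = ((⟪la, H⟫_ℝ : ℂ) • V.starProjection u : U)
    rw [← N05_comm q hV, hu.wt H hH, map_smul]
  · intro Z hZ
    apply Subtype.ext
    show q.op Z (V.starProjection u) = 0
    rw [← N05_comm q hV, hu.pos Z hZ, map_zero]

end

end Pool.Agent.Lib.MP_4322ef_CH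
end
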