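import Pool.Agent.Lib.MP_4322ef_CH.Mg.G002
import Pool.Agent.Lib.MP_4322ef_CH.Mg.G001
import Pool.Agent.Lib.MP_4322ef_CH.Defs2

section

/-!
# Adapted orthonormal bases and the projection to the positive root vectors

* `ABas`: the data of `exists_onb`. `R L a H₁ x` is the sum of the positive roots (for `H₁`) at `x`.
* `exists_proj`: `Q A = ∑_{i : 0 < ⟪ch i, H₁⟫} ⟪e i, A⟫ e i`. All properties from `RV_orth` (if `Z ∈ RV al`
  then `⟪e i, Z⟫ = 0` unless `ch i = al`), `RV_J` (for `Q J = J Q` it is enough to compare on the `e i`).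
* `sum_plus`: `∑_{i : 0 < ⟪ch i, H₁⟫} β (e i) (e i) = ∑_i β (Q (f i)) (f i)` for every orthonormal basis `f`
  (`SR.frame_indep` for `β ∘ Q`). `sum_J`: take `f i = J (e i)` and `f i = e i` (`Q J = J Q`).
* `sum_th`: `θ e i`, `0 < ⟪ch i, H₁⟫`, and `e i`, `⟪ch i, H₁⟫ < 0`, span the same space: use `θ Q θ`.
* `kCas_wt`: `2 kCas w = gCas w = -∑ op (e i) (op (θ (e i)) w)` (`gCas_eq` in W05, `frame_indep`). The `i` with
  `ch i = 0` give `2 ⟪ze, ze⟫ w` (as in the proof of `hw_cas`, file W06: `e i = H + J H'`, Parseval), the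
  positive `i` give `⟪ch i, ze⟫ w - op (θ (e i)) (op (e i) w)` (`br_th_root`), the negative `i` give by `sum_th`
  `-∑_{positive} op (θ (e i)) (op (e i) w)`; `∑_{positive} ⟪ch i, ze⟫ = 2 R ze` (field `sum`, with
  `F x = if 0 < ⟪x, H₁⟫ then ⟪x, ze⟫ else 0`; `finsum_P`-style conversions are in file A02).
-/

set_option autoImplicit false

open scoped InnerProductSpace

namespace Pool.Agent.Lib.MP_4322ef_CH

open Pool.Agent.Lib.MP_4322ef_al.SR

variable {g : Type} [NormedAddCommGroup g] [InnerProductSpace ℝ g] {L : RedLie g}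

/-- an orthonormal basis of joint eigenvectors of `ad a` -/
structure ABas (C : CSub L) (n : ℕ) where
  e : OrthonormalBasis (Fin n) ℝ g
  ch : Fin n → g
  mem : ∀ i, ch i ∈ C.a
  rv : ∀ i, RV L C.a (ch i) (e i)
  sum : ∀ F : g → ℝ, F 0 = 0 → ∑ i, F (ch i) = 2 * ∑ᶠ al ∈ roots L C.a, F al

/-- the sum of the positive roots at `x` -/
noncomputable def R (L : RedLie g) (a : Submodule ℝ g) (H₁ x : g) : ℝ :=
  ∑ᶠ be ∈ {be | be ∈ roots L a ∧ 0 < ⟪be, H₁⟫_ℝ}, ⟪be, x⟫_ℝ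

variable [FiniteDimensional ℝ g]

theorem exists_abas (J : CStr L) (C : CSub L) : ∃ n, Nonempty (ABas C n) := by
  obtain ⟨n, e, ch, hch, hF⟩ := exists_onb J C
  exact ⟨n, ⟨⟨e, ch, fun i => (hch i).1, fun i => (hch i).2, hF⟩⟩⟩

open Classical in
/-- the indices of the positive root vectors -/
noncomputable def ABas.pl {C : CSub L} {n : ℕ} (b : ABas C n) (H₁ : g) : Finset (Fin n) :=
  Finset.univ.filter fun i => 0 < ⟪b.ch i, H₁⟫_ℝ

theorem ABas.mem_pl {C : CSub L} {n : ℕ} (b : ABas C n) {H₁ : g} {i : Fin n} :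
    i ∈ b.pl H₁ ↔ 0 < ⟪b.ch i, H₁⟫_ℝ := by
  rw [ABas.pl, Finset.mem_filter]
  exact ⟨fun h => h.2, fun h => ⟨Finset.mem_univ _, h⟩⟩

theorem ABas.root {C : CSub L} {n : ℕ} (b : ABas C n) {i : Fin n} (h : b.ch i ≠ 0) :
    b.ch i ∈ roots L C.a :=
  ⟨b.mem i, h, b.e i, b.e.orthonormal.ne_zero i, b.rv i⟩

theorem sum_root (J : CStr L) {C : CSub L} {n : ℕ} (b : ABas C n) {H₁ : g} (hH : Reg L C.a H₁)
    (x : g) : ∑ i ∈ b.pl H₁, ⟪b.ch i, x⟫_ℝ = 2 * R L C.a H₁ x := by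
  classical
  have h0 : (if 0 < ⟪(0 : g), H₁⟫_ℝ then ⟪(0 : g), x⟫_ℝ else 0) = 0 := by
    rw [inner_zero_left, if_neg (lt_irrefl _)]
  have h1 := b.sum (fun y => if 0 < ⟪y, H₁⟫_ℝ then ⟪y, x⟫_ℝ else 0) h0
  rw [ABas.pl, Finset.sum_filter]
  refine h1.trans ?_
  rw [R, finsum_mem_def, finsum_mem_def]
  congr 2
  funext y
  by_cases hy : y ∈ roots L C.a
  · rw [Set.indicator_of_mem hy]
    by_cases hp : 0 < ⟪y, H₁⟫_ℝ
    · rw [if_pos hp, Set.indicator_of_mem (show y ∈ {be | be ∈ roots L C.a ∧ 0 < ⟪be, H₁⟫_ℝ} from ⟨hy, hp⟩)]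
    · rw [if_neg hp, Set.indicator_of_notMem]
      exact fun h => hp h.2
  · rw [Set.indicator_of_notMem hy, Set.indicator_of_notMem]
    exact fun h => hy h.1

theorem exists_proj (J : CStr L) {C : CSub L} {n : ℕ} (b : ABas C n) (H₁ : g) :
    ∃ Q : g →ₗ[ℝ] g, (∀ A, Q A = ∑ i ∈ b.pl H₁, ⟪b.e i, A⟫_ℝ • b.e i) ∧
      (∀ A B, ⟪Q A, B⟫_ℝ = ⟪A, Q B⟫_ℝ) ∧ (∀ A, Q (Q A) = Q A) ∧
      (∀ A, Q (J.J A) = J.J (Q A)) ∧
      (∀ al ∈ C.a, 0 < ⟪al, H₁⟫_ℝ → ∀ Z, RV L C.a al Z → Q Z = Z) ∧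
      (∀ al ∈ C.a, ⟪al, H₁⟫_ℝ ≤ 0 → ∀ Z, RV L C.a al Z → Q Z = 0) := by
  classical
  let Q : g →ₗ[ℝ] g :=
    { toFun := fun A => ∑ i ∈ b.pl H₁, ⟪b.e i, A⟫_ℝ • b.e i
      map_add' := by
        intro A B
        rw [← Finset.sum_add_distrib]
        exact Finset.sum_congr rfl fun i _ => by rw [inner_add_right, add_smul]
      map_smul' := by
        intro r A
        rw [RingHom.id_apply, Finset.smul_sum]
        exact Finset.sum_congr rfl fun i _ => by rw [real_inner_smul_right, mul_smul] }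
  have hQ : ∀ A, Q A = ∑ i ∈ b.pl H₁, ⟪b.e i, A⟫_ℝ • b.e i := fun A => rfl
  have hpos : ∀ al ∈ C.a, 0 < ⟪al, H₁⟫_ℝ → ∀ Z, RV L C.a al Z → Q Z = Z := by
    intro al hal hp Z hZ
    rw [hQ]
    conv_rhs => rw [← b.e.sum_repr' Z]
    refine Finset.sum_subset (Finset.subset_univ _) ?_
    intro i _ hi
    have hne : b.ch i ≠ al := by
      intro h
      apply hi
      rw [b.mem_pl, h]
      exact hp
    rw [RV_orth C (b.mem i) hal (b.rv i) hZ hne, zero_smul]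
  have hneg : ∀ al ∈ C.a, ⟪al, H₁⟫_ℝ ≤ 0 → ∀ Z, RV L C.a al Z → Q Z = 0 := by
    intro al hal hp Z hZ
    rw [hQ]
    refine Finset.sum_eq_zero ?_
    intro i hi
    have hne : b.ch i ≠ al := by
      intro h
      rw [b.mem_pl, h] at hi
      exact absurd hi (not_lt.2 hp)
    rw [RV_orth C (b.mem i) hal (b.rv i) hZ hne, zero_smul]
  refine ⟨Q, hQ, ?_, ?_, ?_, hpos, hneg⟩
  · intro A B
    rw [hQ, hQ, sum_inner, inner_sum]
    refine Finset.sum_congr rfl fun i _ => ?_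
    rw [real_inner_smul_left, real_inner_smul_right, real_inner_comm (b.e i) A, mul_comm]
  · intro A
    rw [hQ A, map_sum]
    refine Finset.sum_congr rfl fun i hi => ?_
    rw [map_smul, hpos _ (b.mem i) (b.mem_pl.1 hi) _ (b.rv i)]
  · intro A
    have h : Q ∘ₗ J.J = J.J ∘ₗ Q := by
      refine b.e.toBasis.ext fun i => ?_
      rw [OrthonormalBasis.coe_toBasis, LinearMap.comp_apply, LinearMap.comp_apply]
      by_cases hp : 0 < ⟪b.ch i, H₁⟫_ℝ
      · rw [hpos _ (b.mem i) hp _ (b.rv i), hpos _ (b.mem i) hp _ (RV_J J C (b.rv i))]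
      · rw [hneg _ (b.mem i) (not_lt.1 hp) _ (b.rv i),
          hneg _ (b.mem i) (not_lt.1 hp) _ (RV_J J C (b.rv i)), map_zero]
    exact LinearMap.congr_fun h A

section
variable {M : Type} [AddCommGroup M] [Module ℝ M]

theorem sum_J (J : CStr L) {C : CSub L} {n : ℕ} (b : ABas C n) (H₁ : g)
    (β : g →ₗ[ℝ] g →ₗ[ℝ] M) :
    ∑ i ∈ b.pl H₁, β (J.J (b.e i)) (J.J (b.e i)) = ∑ i ∈ b.pl H₁, β (b.e i) (b.e i) := by
  classical
  obtain ⟨Q, -, -, -, hJ, hpos, hneg⟩ := exists_proj J b H₁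
  have h1 := frame_mul b.e β (J.J ∘ₗ Q) J.J (-J.J) (by
    intro A B
    rw [LinearMap.neg_apply, inner_neg_right, ← J.inner A (J.J B), J.sq, inner_neg_right, neg_neg])
  have h2 : ∀ i, β ((J.J ∘ₗ Q) (b.e i)) (J.J (b.e i)) =
      if i ∈ b.pl H₁ then β (J.J (b.e i)) (J.J (b.e i)) else 0 := by
    intro i
    rw [LinearMap.comp_apply]
    by_cases hi : i ∈ b.pl H₁
    · rw [if_pos hi, hpos _ (b.mem i) (b.mem_pl.1 hi) _ (b.rv i)]
    · rw [if_neg hi, hneg _ (b.mem i) (not_lt.1 fun h => hi (b.mem_pl.2 h)) _ (b.rv i), map_zero,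
        map_zero, LinearMap.zero_apply]
  have h3 : ∀ i, β ((J.J ∘ₗ Q) ((-J.J) (b.e i))) (b.e i) =
      if i ∈ b.pl H₁ then β (b.e i) (b.e i) else 0 := by
    intro i
    rw [LinearMap.comp_apply, LinearMap.neg_apply, map_neg, hJ, map_neg, J.sq, neg_neg]
    by_cases hi : i ∈ b.pl H₁
    · rw [if_pos hi, hpos _ (b.mem i) (b.mem_pl.1 hi) _ (b.rv i)]
    · rw [if_neg hi, hneg _ (b.mem i) (not_lt.1 fun h => hi (b.mem_pl.2 h)) _ (b.rv i), map_zero,
        LinearMap.zero_apply]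
  rw [Finset.sum_congr rfl fun i _ => h2 i, Finset.sum_congr rfl fun i _ => h3 i,
    Finset.sum_ite_mem, Finset.sum_ite_mem, Finset.univ_inter] at h1
  exact h1

theorem sum_th (J : CStr L) {C : CSub L} {n : ℕ} (b : ABas C n) {H₁ : g} (hH : H₁ ∈ C.a)
    (β : g →ₗ[ℝ] g →ₗ[ℝ] M) :
    ∑ i ∈ b.pl H₁, β (L.th (b.e i)) (L.th (b.e i)) = ∑ i ∈ b.pl (-H₁), β (b.e i) (b.e i) := by
  classical
  obtain ⟨Q, -, -, -, hJ, hpos, hneg⟩ := exists_proj J b H₁
  have h1 := frame_mul b.e β (L.th ∘ₗ Q) L.th L.th (th_symm L)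
  have h2 : ∀ i, β ((L.th ∘ₗ Q) (b.e i)) (L.th (b.e i)) =
      if i ∈ b.pl H₁ then β (L.th (b.e i)) (L.th (b.e i)) else 0 := by
    intro i
    rw [LinearMap.comp_apply]
    by_cases hi : i ∈ b.pl H₁
    · rw [if_pos hi, hpos _ (b.mem i) (b.mem_pl.1 hi) _ (b.rv i)]
    · rw [if_neg hi, hneg _ (b.mem i) (not_lt.1 fun h => hi (b.mem_pl.2 h)) _ (b.rv i), map_zero,
        map_zero, LinearMap.zero_apply]
  have h3 : ∀ i, β ((L.th ∘ₗ Q) (L.th (b.e i))) (b.e i) =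
      if i ∈ b.pl (-H₁) then β (b.e i) (b.e i) else 0 := by
    intro i
    rw [LinearMap.comp_apply]
    have hmem : -b.ch i ∈ C.a := C.a.neg_mem (b.mem i)
    by_cases hi : i ∈ b.pl (-H₁)
    · have h4 := b.mem_pl.1 hi
      rw [inner_neg_right] at h4
      rw [if_pos hi, hpos _ hmem (by rw [inner_neg_left]; exact h4) _ (RV_th C (b.rv i)), L.th_th]
    · have h4 : ¬0 < ⟪b.ch i, -H₁⟫_ℝ := fun h => hi (b.mem_pl.2 h)
      rw [inner_neg_right] at h4
      rw [if_neg hi, hneg _ hmem (by rw [inner_neg_left]; exact not_lt.1 h4) _ (RV_th C (b.rv i)),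
        map_zero, map_zero, LinearMap.zero_apply]
  rw [Finset.sum_congr rfl fun i _ => h2 i, Finset.sum_congr rfl fun i _ => h3 i,
    Finset.sum_ite_mem, Finset.sum_ite_mem, Finset.univ_inter] at h1
  rw [h1, Finset.univ_inter]

end

section
variable {J : CStr L} {W : Type} [NormedAddCommGroup W] [InnerProductSpace ℂ W]

theorem kCas_wt (t : CRep J W) {C : CSub L} {n : ℕ} (b : ABas C n) {H₁ ze : g}
    (hH : Reg L C.a H₁) (hze : ze ∈ C.a) {w : W} (hw : WV t C.a ze w) :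
    kCas L t.op w = ((⟪ze, ze⟫_ℝ + R L C.a H₁ ze : ℝ) : ℂ) • w
      - ∑ i ∈ b.pl H₁, t.op (L.th (b.e i)) (t.op (b.e i) w) := by
  classical
  have hterm : ∀ i, t.op (b.e i) (t.op (L.th (b.e i)) w) =
      ((-(⟪ze, b.e i⟫_ℝ * ⟪ze, b.e i⟫_ℝ) - ⟪J.J ze, b.e i⟫_ℝ * ⟪J.J ze, b.e i⟫_ℝ : ℝ) : ℂ) • w +
      (if i ∈ b.pl H₁ then t.op (L.th (b.e i)) (t.op (b.e i) w) - (⟪b.ch i, ze⟫_ℝ : ℂ) • w
        else 0) +
      (if i ∈ b.pl (-H₁) then t.op (b.e i) (t.op (L.th (b.e i)) w) else 0) := by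
    intro i
    have hcha := b.mem i
    have hchi := b.rv i
    by_cases h0 : b.ch i = 0
    · rw [h0] at hchi
      obtain ⟨H, hHa, K, hKa, he⟩ := RV_zero J C hchi
      have e1 : ⟪ze, b.e i⟫_ℝ = ⟪ze, H⟫_ℝ := by
        rw [he, inner_add_right, J_a_orth J C hze hKa, add_zero]
      have e2 : ⟪J.J ze, b.e i⟫_ℝ = ⟪ze, K⟫_ℝ := by
        rw [he, inner_add_right, real_inner_comm, J_a_orth J C hHa hze, zero_add, J.inner]
      have hn1 : i ∉ b.pl H₁ := by
        intro h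
        rw [b.mem_pl, h0, inner_zero_left] at h
        exact lt_irrefl _ h
      have hn2 : i ∉ b.pl (-H₁) := by
        intro h
        rw [b.mem_pl, h0, inner_zero_left] at h
        exact lt_irrefl _ h
      have hth : L.th (b.e i) = -H + J.J K := by
        rw [he, map_add, C.a_p H hHa, th_JH J C hKa]
      have h5 : t.op (-H + J.J K) w =
          (-(⟪ze, H⟫_ℝ : ℂ) + Complex.I * (⟪ze, K⟫_ℝ : ℂ)) • w := by
        rw [t.add, LinearMap.add_apply, Rep.neg', LinearMap.neg_apply, hw H hHa, t.lin,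
          LinearMap.smul_apply, hw K hKa, smul_smul, ← neg_smul, ← add_smul]
      have h6 : t.op (H + J.J K) w = ((⟪ze, H⟫_ℝ : ℂ) + Complex.I * (⟪ze, K⟫_ℝ : ℂ)) • w := by
        rw [t.add, LinearMap.add_apply, hw H hHa, t.lin,
          LinearMap.smul_apply, hw K hKa, smul_smul, ← add_smul]
      rw [if_neg hn1, if_neg hn2, add_zero, add_zero, hth, h5, map_smul, e1, e2]
      rw [he, h6, smul_smul]
      congr 1
      push_cast
      linear_combination ((⟪ze, K⟫_ℝ : ℂ) * (⟪ze, K⟫_ℝ : ℂ)) * Complex.I_mul_I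
    · have hz : ⟪ze, b.e i⟫_ℝ = 0 :=
        RV_orth C C.a.zero_mem hcha (RV_a C hze) hchi (Ne.symm h0)
      have hzJ : ⟪J.J ze, b.e i⟫_ℝ = 0 :=
        RV_orth C C.a.zero_mem hcha (RV_Ja J C hze) hchi (Ne.symm h0)
      rw [hz, hzJ]
      rcases lt_or_gt_of_ne (hH.2 _ (b.root h0)) with hneg | hpos
      · have hn1 : i ∉ b.pl H₁ := fun h => absurd (b.mem_pl.1 h) (not_lt.2 hneg.le)
        have hn2 : i ∈ b.pl (-H₁) := by
          rw [b.mem_pl, inner_neg_right]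
          linarith
        rw [if_neg hn1, if_pos hn2]
        simp
      · have hn1 : i ∈ b.pl H₁ := b.mem_pl.2 hpos
        have hn2 : i ∉ b.pl (-H₁) := by
          intro h
          rw [b.mem_pl, inner_neg_right] at h
          linarith
        have h8 := t.bracket (b.e i) (L.th (b.e i)) w
        rw [br_th_root C hcha hchi, real_inner_self_eq_norm_sq,
          b.e.norm_eq_one, one_pow, one_smul, Rep.neg', LinearMap.neg_apply, hw _ hcha] at h8
        have h9 : t.op (b.e i) (t.op (L.th (b.e i)) w) =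
            t.op (L.th (b.e i)) (t.op (b.e i) w) - (⟪b.ch i, ze⟫_ℝ : ℂ) • w := by
          rw [real_inner_comm ze (b.ch i), eq_add_of_sub_eq h8.symm]
          abel
        rw [if_pos hn1, if_neg hn2, h9]
        simp
  have hsum : gCas L t.op w = -∑ i, t.op (b.e i) (t.op (L.th (b.e i)) w) := by
    have h1 := frame_indep (stdOrthonormalBasis ℝ g) b.e
      (bil t.toRep t.toRep LinearMap.id LinearMap.id LinearMap.id L.th w)
    simp only [bil_apply, LinearMap.id_apply] at h1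
    rw [gCas, h1]
  have k1 : ∀ u : g, ∑ i, ⟪u, b.e i⟫_ℝ * ⟪u, b.e i⟫_ℝ = ⟪u, u⟫_ℝ := by
    intro u
    rw [← b.e.sum_inner_mul_inner u u]
    exact Finset.sum_congr rfl fun i _ => by rw [real_inner_comm u]
  have hth := sum_th J b hH.1 (bil t.toRep t.toRep LinearMap.id LinearMap.id LinearMap.id L.th w)
  simp only [bil_apply, LinearMap.id_apply, L.th_th] at hth
  have hR : ∑ i ∈ b.pl H₁, (⟪b.ch i, ze⟫_ℝ : ℂ) • w = ((2 * R L C.a H₁ ze : ℝ) : ℂ) • w := by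
    rw [← Finset.sum_smul, ← Complex.ofReal_sum, sum_root J b hH ze]
  have h2 := gCas_eq t w
  rw [hsum, Finset.sum_congr rfl fun i _ => hterm i, Finset.sum_add_distrib,
    Finset.sum_add_distrib, ← Finset.sum_smul, ← Complex.ofReal_sum, Finset.sum_sub_distrib,
    Finset.sum_neg_distrib, k1, k1, J.inner, Finset.sum_ite_mem, Finset.sum_ite_mem,
    Finset.univ_inter, Finset.univ_inter, ← hth, Finset.sum_sub_distrib, hR] at h2
  have h3 : kCas L t.op w = (2⁻¹ : ℂ) • ((2 : ℂ) • kCas L t.op w) := by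
    rw [smul_smul, inv_mul_cancel₀ two_ne_zero, one_smul]
  rw [h3, ← h2]
  set S := ∑ i ∈ b.pl H₁, t.op (L.th (b.e i)) (t.op (b.e i) w) with hS
  have h4 : (((-⟪ze, ze⟫_ℝ - ⟪ze, ze⟫_ℝ : ℝ) : ℂ)) = -(2 * (⟪ze, ze⟫_ℝ : ℂ)) := by
    push_cast
    ring
  rw [h4]
  push_cast
  module

end

end Pool.Agent.Lib.MP_4322ef_CH
end

section

/-!
# Definitions for the general case
-/

set_option autoImplicit false

open scoped InnerProductSpace

namespace Pool.Agent.Lib.MP_4322ef_CH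

open Pool.Agent.Lib.MP_4322ef_al.SR

variable {g : Type} [NormedAddCommGroup g] [InnerProductSpace ℝ g]

/-- `y` is integral: `2 ⟪y, al⟫ / ⟪al, al⟫` is an integer for all roots `al` -/
def Intg (L : RedLie g) (a : Submodule ℝ g) (y : g) : Prop :=
  ∀ al ∈ roots L a, ∃ k : ℤ, 2 * ⟪y, al⟫_ℝ = k * ⟪al, al⟫_ℝ

/-- `y` is in the span of the roots -/
def Semi (L : RedLie g) (a : Submodule ℝ g) (y : g) : Prop :=
  y ∈ a ∧ ∀ z ∈ a, (∀ al ∈ roots L a, ⟪al, z⟫_ℝ = 0) → ⟪y, z⟫_ℝ = 0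

/-- `w` is a root and no root which is not orthogonal to `w` is shorter than `w` -/
def LShort (L : RedLie g) (a : Submodule ℝ g) (w : g) : Prop :=
  w ∈ roots L a ∧ ∀ be ∈ roots L a, ⟪be, w⟫_ℝ ≠ 0 → ⟪w, w⟫_ℝ ≤ ⟪be, be⟫_ℝ

/-- the indecomposable positive roots -/
def Simp (L : RedLie g) (a : Submodule ℝ g) (H : g) : Set g :=
  {ga | ga ∈ roots L a ∧ 0 < ⟪ga, H⟫_ℝ ∧
    ∀ be ∈ roots L a, 0 < ⟪be, H⟫_ℝ → ∀ be' ∈ roots L a, 0 < ⟪be', H⟫_ℝ → ga ≠ be + be'}

/-- all nonzero weights of `s` are locally short roots of the same length -/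
def QM {L : RedLie g} {J : CStr L} (C : CSub L) {E : Type} [NormedAddCommGroup E]
    [InnerProductSpace ℂ E] (s : CRep J E) (q : ℝ) : Prop :=
  ∀ lam, IsW s C.a lam → lam ≠ 0 → LShort L C.a lam ∧ ⟪lam, lam⟫_ℝ = q

/-- The existence part of the theorem of the highest weight: every integral `y` in the span of the
roots is an extreme weight of an irreducible representation. -/
def HWT {L : RedLie g} (J : CStr L) (a : Submodule ℝ g) : Prop :=
  ∀ H, Reg L a H → ∀ y, Intg L a y → Semi L a y →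
    (∀ al ∈ roots L a, 0 < ⟪al, H⟫_ℝ → 0 ≤ ⟪al, y⟫_ℝ) →
    ∃ (Y : Type) (_ : NormedAddCommGroup Y) (_ : InnerProductSpace ℂ Y)
      (_ : FiniteDimensional ℂ Y) (s : CRep J Y), Irr s ∧ ∃ v, HW s a H y v

end Pool.Agent.Lib.MP_4322ef_CH
end

section

/-!
# The structure constants of the positive root vectors

Let `G Z = ∑_{i, j positive} ⟪[e i, e j], Z⟫ [e i, e j]`. Each nonzero term is in `RV al` (`RV_br`, `RV_orth`), so
`G Z = s Z + t J Z` (`RV_unique`; `Z = 0` is trivial). `t ⟪Z, Z⟫ = ⟪G Z, J Z⟫ = 0`: for fixed `j` apply `sum_J` to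
`β A A' = ⟪[A, e j], Z⟫ ⟪[A', e j], J Z⟫`; `⟪[J A, e j], Z⟫ = ⟪J [A, e j], Z⟫ = -⟪[A, e j], J Z⟫` etc. shows
that the sum is its own negative. And `s ⟪Z, Z⟫ = ∑_{i, j} ⟪[e i, e j], Z⟫² = ∑_i |Q [θ e i, Z]|²` since
`⟪[e i, e j], Z⟫ = -⟪e j, [θ e i, Z]⟫` (`L.inner_br`). Put `T₁ = ∑_i |[θ e i, Z]|²`, `T₂ = ∑_i |[e i, Z]|²`
(`i` positive). Split `[θ e i, Z]` into its components along the `e j` with `ch j` positive, zero, negative:
* zero part: only for `ch i = al` (`RV_br`); `e i = (⟪e i, Z⟫ Z + ⟪e i, J Z⟫ J Z) / ⟪Z, Z⟫`, so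
  `[θ e i, Z] = ⟪e i, Z⟫ al - ⟪e i, J Z⟫ J al` (`br_th_root`); the squares sum to `2 ⟪al, al⟫ ⟪Z, Z⟫`
  (Parseval for `Z` and `J Z`).
* negative part (`sum_th`: the `θ e j`, `j` positive, are a basis of the negative part):
  `∑_{i, j} ⟪θ e j, [θ e i, Z]⟫²`, `⟪θ e j, [θ e i, Z]⟫ = ⟪[Z, e j], e i⟫`, so it is `∑_j |[Z, e j]|² = T₂`
  (`[Z, e j]` is a combination of the positive `e i`).
* `T₁ - T₂ = ∑_i ⟪ch i, al⟫ ⟪Z, Z⟫ = 2 R al ⟪Z, Z⟫`: `|[θ e i, Z]|² = -⟪Z, [e i, [θ e i, Z]]⟫`,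
  `|[e i, Z]|² = -⟪Z, [θ e i, [e i, Z]]⟫`, Jacobi and `[e i, θ e i] = -ch i`.
So `s ⟪Z, Z⟫ = T₁ - T₂ - 2 ⟪al, al⟫ ⟪Z, Z⟫`.
-/

set_option autoImplicit false

open scoped InnerProductSpace

namespace Pool.Agent.Lib.MP_4322ef_CH

open Pool.Agent.Lib.MP_4322ef_al.SR

variable {g : Type} [NormedAddCommGroup g] [InnerProductSpace ℝ g] {L : RedLie g}

variable [FiniteDimensional ℝ g]

open Classical in
theorem N02_split {C : CSub L} {n : ℕ} (b : ABas C n) {H₁ : g} (hH : Reg L C.a H₁)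
    (f : Fin n → ℝ) : ∑ j, f j = ∑ j ∈ b.pl H₁, f j + ∑ j ∈ b.pl (-H₁), f j +
      ∑ j ∈ Finset.univ.filter (fun j => b.ch j = 0), f j := by
  have h : ∀ j, f j = (if j ∈ b.pl H₁ then f j else 0) + (if j ∈ b.pl (-H₁) then f j else 0) +
      (if j ∈ Finset.univ.filter (fun j => b.ch j = 0) then f j else 0) := by
    intro j
    by_cases h0 : b.ch j = 0
    · have h1 : j ∉ b.pl H₁ := by
        intro h
        rw [b.mem_pl, h0, inner_zero_left] at h
        exact lt_irrefl _ h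
      have h2 : j ∉ b.pl (-H₁) := by
        intro h
        rw [b.mem_pl, h0, inner_zero_left] at h
        exact lt_irrefl _ h
      have h3 : j ∈ Finset.univ.filter (fun j => b.ch j = 0) :=
        Finset.mem_filter.2 ⟨Finset.mem_univ _, h0⟩
      rw [if_neg h1, if_neg h2, if_pos h3, zero_add, zero_add]
    · have h3 : j ∉ Finset.univ.filter (fun j => b.ch j = 0) := fun h =>
        h0 (Finset.mem_filter.1 h).2
      rcases lt_or_gt_of_ne (hH.2 _ (b.root h0)) with hn | hp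
      · have h1 : j ∉ b.pl H₁ := fun h => absurd (b.mem_pl.1 h) (not_lt.2 hn.le)
        have h2 : j ∈ b.pl (-H₁) := by
          rw [b.mem_pl, inner_neg_right]
          linarith
        rw [if_neg h1, if_pos h2, if_neg h3, zero_add, add_zero]
      · have h1 : j ∈ b.pl H₁ := b.mem_pl.2 hp
        have h2 : j ∉ b.pl (-H₁) := by
          intro h
          rw [b.mem_pl, inner_neg_right] at h
          linarith
        rw [if_pos h1, if_neg h2, if_neg h3, add_zero, add_zero]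
  rw [Finset.sum_congr rfl fun j _ => h j, Finset.sum_add_distrib, Finset.sum_add_distrib,
    Finset.sum_ite_mem, Finset.sum_ite_mem, Finset.sum_ite_mem, Finset.univ_inter,
    Finset.univ_inter, Finset.univ_inter]

/-- Parseval for the positive root vectors -/
theorem N02_pars (J : CStr L) {C : CSub L} {n : ℕ} (b : ABas C n) {H₁ be X : g}
    (hbe : be ∈ C.a) (hp : 0 < ⟪be, H₁⟫_ℝ) (hX : RV L C.a be X) :
    ∑ i ∈ b.pl H₁, ⟪X, b.e i⟫_ℝ * ⟪b.e i, X⟫_ℝ = ⟪X, X⟫_ℝ := by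
  obtain ⟨Q, hQ, -, -, -, hpos, -⟩ := exists_proj J b H₁
  have h1 : ⟪X, Q X⟫_ℝ = ⟪X, X⟫_ℝ := by rw [hpos be hbe hp X hX]
  rw [← h1, hQ, inner_sum]
  refine Finset.sum_congr rfl fun i _ => ?_
  rw [real_inner_smul_right, mul_comm]

theorem N02_JJ (J : CStr L) (X Z : g) : ⟪J.J X, Z⟫_ℝ = -⟪X, J.J Z⟫_ℝ := by
  rw [← J.inner (J.J X) Z, J.sq, inner_neg_left]

theorem gsum (J : CStr L) {C : CSub L} {n : ℕ} (b : ABas C n) {H₁ al Z : g} (hH : Reg L C.a H₁)
    (hal : al ∈ C.a) (hpos : 0 < ⟪al, H₁⟫_ℝ) (hZ : RV L C.a al Z) :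
    ∑ i ∈ b.pl H₁, ∑ j ∈ b.pl H₁, ⟪L.br (b.e i) (b.e j), Z⟫_ℝ • L.br (b.e i) (b.e j) =
      (2 * R L C.a H₁ al - 2 * ⟪al, al⟫_ℝ) • Z := by
  classical
  by_cases hZ0 : Z = 0
  · rw [hZ0, smul_zero]
    refine Finset.sum_eq_zero fun i _ => Finset.sum_eq_zero fun j _ => ?_
    rw [inner_zero_right, zero_smul]
  have hal0 : al ≠ 0 := by
    intro h
    rw [h, inner_zero_left] at hpos
    exact lt_irrefl _ hpos
  have hZZ : ⟪Z, Z⟫_ℝ ≠ 0 := fun h => hZ0 (inner_self_eq_zero.1 h)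
  have hZJ : ⟪Z, J.J Z⟫_ℝ = 0 := inner_J_self J Z
  set G : g := ∑ i ∈ b.pl H₁, ∑ j ∈ b.pl H₁, ⟪L.br (b.e i) (b.e j), Z⟫_ℝ • L.br (b.e i) (b.e j)
    with hG
  have hGR : RV L C.a al G := by
    intro H hHa
    rw [hG, map_sum, Finset.smul_sum]
    refine Finset.sum_congr rfl fun i _ => ?_
    rw [map_sum, Finset.smul_sum]
    refine Finset.sum_congr rfl fun j _ => ?_
    by_cases h : b.ch i + b.ch j = al
    · rw [map_smul, RV_br C (b.rv i) (b.rv j) H hHa, h, smul_comm]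
    · rw [RV_orth C (C.a.add_mem (b.mem i) (b.mem j)) hal (RV_br C (b.rv i) (b.rv j)) hZ h,
        zero_smul, map_zero, smul_zero]
  obtain ⟨s, t, hst⟩ := RV_unique J C hal hal0 hZ hZ0 hGR
  -- the imaginary part vanishes
  have ht : t = 0 := by
    have h1 : ⟪G, J.J Z⟫_ℝ = t * ⟪Z, Z⟫_ℝ := by
      rw [hst, inner_add_left, real_inner_smul_left, real_inner_smul_left, hZJ, J.inner, mul_zero,
        zero_add]
    have h2 : ⟪G, J.J Z⟫_ℝ = 0 := by
      rw [hG, sum_inner, Finset.sum_congr rfl fun i _ => sum_inner (𝕜 := ℝ) _ _ _, Finset.sum_comm]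
      refine Finset.sum_eq_zero fun j _ => ?_
      let β : g →ₗ[ℝ] g →ₗ[ℝ] ℝ := LinearMap.mk₂ ℝ
        (fun A B => ⟪L.br A (b.e j), Z⟫_ℝ * ⟪L.br B (b.e j), J.J Z⟫_ℝ)
        (by intro A A' B; rw [map_add, LinearMap.add_apply, inner_add_left, add_mul])
        (by intro r A B; rw [map_smul, LinearMap.smul_apply, real_inner_smul_left, smul_eq_mul,
              mul_assoc])
        (by intro A B B'; rw [map_add, LinearMap.add_apply, inner_add_left, mul_add])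
        (by intro r A B; rw [map_smul, LinearMap.smul_apply, real_inner_smul_left, smul_eq_mul]
            ring)
      have hβ : ∀ A B, β A B = ⟪L.br A (b.e j), Z⟫_ℝ * ⟪L.br B (b.e j), J.J Z⟫_ℝ := fun A B => rfl
      have h3 := sum_J J b H₁ β
      have h4 : ∀ A, β (J.J A) (J.J A) = -β A A := by
        intro A
        rw [hβ, hβ, J.br, N02_JJ, J.inner]
        ring
      rw [Finset.sum_congr rfl fun i _ => h4 (b.e i), Finset.sum_neg_distrib] at h3
      have h5 : ∑ i ∈ b.pl H₁, β (b.e i) (b.e i) = 0 := by linarith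
      rw [← h5]
      refine Finset.sum_congr rfl fun i _ => ?_
      rw [real_inner_smul_left, hβ]
    rw [h1] at h2
    exact (mul_eq_zero.1 h2).resolve_right hZZ
  -- the real part
  have hs : s * ⟪Z, Z⟫_ℝ = (2 * R L C.a H₁ al - 2 * ⟪al, al⟫_ℝ) * ⟪Z, Z⟫_ℝ := by
    have h1 : ⟪G, Z⟫_ℝ = s * ⟪Z, Z⟫_ℝ := by
      rw [hst, inner_add_left, real_inner_smul_left, real_inner_smul_left,
        real_inner_comm Z (J.J Z), hZJ, mul_zero, add_zero]
    have h2 : ⟪G, Z⟫_ℝ = ∑ i ∈ b.pl H₁, ∑ j ∈ b.pl H₁,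
        ⟪L.br (L.th (b.e i)) Z, b.e j⟫_ℝ * ⟪b.e j, L.br (L.th (b.e i)) Z⟫_ℝ := by
      rw [hG, sum_inner]
      refine Finset.sum_congr rfl fun i _ => ?_
      rw [sum_inner]
      refine Finset.sum_congr rfl fun j _ => ?_
      rw [real_inner_smul_left, L.inner_br, real_inner_comm (b.e j) (L.br (L.th (b.e i)) Z)]
      ring
    -- Parseval for `X i = [th e i, Z]`
    have h3 : ∀ i ∈ b.pl H₁, ∑ j ∈ b.pl H₁,
        ⟪L.br (L.th (b.e i)) Z, b.e j⟫_ℝ * ⟪b.e j, L.br (L.th (b.e i)) Z⟫_ℝ =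
        (⟪L.br (b.e i) Z, L.br (b.e i) Z⟫_ℝ + ⟪b.ch i, al⟫_ℝ * ⟪Z, Z⟫_ℝ) -
        (∑ j ∈ b.pl H₁, ⟪L.br (b.e j) Z, b.e i⟫_ℝ * ⟪b.e i, L.br (b.e j) Z⟫_ℝ) -
        (⟪Z, b.e i⟫_ℝ * ⟪b.e i, Z⟫_ℝ + ⟪J.J Z, b.e i⟫_ℝ * ⟪b.e i, J.J Z⟫_ℝ) * ⟪al, al⟫_ℝ := by
      intro i hi
      set X : g := L.br (L.th (b.e i)) Z with hX
      have hXR : RV L C.a (-b.ch i + al) X := RV_br C (RV_th C (b.rv i)) hZ
      have q1 : ⟪X, X⟫_ℝ = ⟪L.br (b.e i) Z, L.br (b.e i) Z⟫_ℝ + ⟪b.ch i, al⟫_ℝ * ⟪Z, Z⟫_ℝ := by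
        have q2 : ⟪X, X⟫_ℝ = -⟪Z, L.br (b.e i) X⟫_ℝ := by
          rw [hX, L.inner_br, L.th_th]
        have q3 : L.br (b.e i) X = L.br (L.br (b.e i) (L.th (b.e i))) Z +
            L.br (L.th (b.e i)) (L.br (b.e i) Z) := by
          rw [hX, L.jacobi]
        have q4 : L.br (L.br (b.e i) (L.th (b.e i))) Z = -(⟪al, b.ch i⟫_ℝ • Z) := by
          rw [br_th_root C (b.mem i) (b.rv i), real_inner_self_eq_norm_sq, b.e.norm_eq_one, one_pow,
            one_smul, map_neg, LinearMap.neg_apply, hZ _ (b.mem i)]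
        rw [q2, q3, q4, inner_add_right, inner_neg_right, real_inner_smul_right,
          L.inner_br (b.e i) Z (L.br (b.e i) Z), real_inner_comm al (b.ch i)]
        ring
      have q5 := b.e.sum_inner_mul_inner X X
      rw [N02_split b hH] at q5
      -- the negative part
      have q6 : ∑ j ∈ b.pl (-H₁), ⟪X, b.e j⟫_ℝ * ⟪b.e j, X⟫_ℝ =
          ∑ j ∈ b.pl H₁, ⟪L.br (b.e j) Z, b.e i⟫_ℝ * ⟪b.e i, L.br (b.e j) Z⟫_ℝ := by
        let β : g →ₗ[ℝ] g →ₗ[ℝ] ℝ := LinearMap.mk₂ ℝ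
          (fun A B => ⟪X, A⟫_ℝ * ⟪B, X⟫_ℝ)
          (by intro A A' B; rw [inner_add_right, add_mul])
          (by intro r A B; rw [real_inner_smul_right, smul_eq_mul, mul_assoc])
          (by intro A B B'; rw [inner_add_left, mul_add])
          (by intro r A B; rw [real_inner_smul_left, smul_eq_mul]; ring)
        have hβ : ∀ A B, β A B = ⟪X, A⟫_ℝ * ⟪B, X⟫_ℝ := fun A B => rfl
        have q7 := sum_th J b hH.1 β
        have q8 : ∑ j ∈ b.pl (-H₁), ⟪X, b.e j⟫_ℝ * ⟪b.e j, X⟫_ℝ =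
            ∑ j ∈ b.pl (-H₁), β (b.e j) (b.e j) := rfl
        rw [q8, ← q7]
        refine Finset.sum_congr rfl fun j _ => ?_
        have q9 : ⟪X, L.th (b.e j)⟫_ℝ = -⟪b.e i, L.br (b.e j) Z⟫_ℝ := by
          rw [hX, L.inner_br, L.th_th, br_skew L (b.e i) (L.th (b.e j)), inner_neg_right, neg_neg,
            real_inner_comm, L.inner_br, L.th_th]
        rw [hβ, real_inner_comm X (L.th (b.e j)), q9, real_inner_comm (b.e i) (L.br (b.e j) Z)]
        ring
      -- the zero part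
      have q10 : ∑ j ∈ Finset.univ.filter (fun j => b.ch j = 0), ⟪X, b.e j⟫_ℝ * ⟪b.e j, X⟫_ℝ =
          (⟪Z, b.e i⟫_ℝ * ⟪b.e i, Z⟫_ℝ + ⟪J.J Z, b.e i⟫_ℝ * ⟪b.e i, J.J Z⟫_ℝ) * ⟪al, al⟫_ℝ := by
        by_cases hia : b.ch i = al
        · have r0 : -b.ch i + al = 0 := by rw [hia, neg_add_cancel]
          rw [r0] at hXR
          have r1 : ∑ j ∈ Finset.univ.filter (fun j => b.ch j = 0), ⟪X, b.e j⟫_ℝ * ⟪b.e j, X⟫_ℝ =
              ⟪X, X⟫_ℝ := by
            rw [← b.e.sum_inner_mul_inner X X]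
            refine Finset.sum_subset (Finset.subset_univ _) fun j _ hj => ?_
            have hj0 : b.ch j ≠ 0 := fun h => hj (Finset.mem_filter.2 ⟨Finset.mem_univ _, h⟩)
            rw [RV_orth C (b.mem j) C.a.zero_mem (b.rv j) hXR hj0, mul_zero]
          have r2 := b.rv i
          rw [hia] at r2
          obtain ⟨s', t', he⟩ := RV_unique J C hal hal0 hZ hZ0 r2
          have r3 : ⟪b.e i, Z⟫_ℝ = s' * ⟪Z, Z⟫_ℝ := by
            rw [he, inner_add_left, real_inner_smul_left, real_inner_smul_left,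
              real_inner_comm Z (J.J Z), hZJ, mul_zero, add_zero]
          have r4 : ⟪b.e i, J.J Z⟫_ℝ = t' * ⟪Z, Z⟫_ℝ := by
            rw [he, inner_add_left, real_inner_smul_left, real_inner_smul_left, hZJ, J.inner,
              mul_zero, zero_add]
          have r5 : L.br (L.th Z) Z = ⟪Z, Z⟫_ℝ • al := by
            rw [br_skew, br_th_root C hal hZ, neg_neg]
          have r6 : X = (s' * ⟪Z, Z⟫_ℝ) • al + (-(t' * ⟪Z, Z⟫_ℝ)) • J.J al := by
            rw [hX, he, map_add, map_smul, map_smul, J.th, map_add, map_smul, map_smul, map_neg,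
              LinearMap.add_apply, LinearMap.smul_apply, LinearMap.smul_apply,
              LinearMap.neg_apply, J.br, r5, map_smul]
            module
          have r7 : ⟪al, J.J al⟫_ℝ = 0 := inner_J_self J al
          rw [r1, real_inner_comm (b.e i) Z, real_inner_comm (b.e i) (J.J Z), r3, r4, r6,
            inner_add_left, inner_add_right, inner_add_right, real_inner_smul_left,
            real_inner_smul_left, real_inner_smul_left, real_inner_smul_left,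
            real_inner_smul_right, real_inner_smul_right, real_inner_smul_right,
            real_inner_smul_right, r7, real_inner_comm al (J.J al), r7, J.inner]
          ring
        · rw [real_inner_comm (b.e i) Z, real_inner_comm (b.e i) (J.J Z),
            RV_orth C (b.mem i) hal (b.rv i) hZ hia,
            RV_orth C (b.mem i) hal (b.rv i) (RV_J J C hZ) hia]
          have hne : -b.ch i + al ≠ 0 := by
            intro h
            exact hia (neg_add_eq_zero.1 h)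
          rw [Finset.sum_eq_zero]
          · ring
          intro j hj
          have hj0 : b.ch j = 0 := (Finset.mem_filter.1 hj).2
          have hjr := b.rv j
          rw [hj0] at hjr
          rw [RV_orth C C.a.zero_mem (C.a.add_mem (C.a.neg_mem (b.mem i)) hal) hjr hXR
            (Ne.symm hne), mul_zero]
      rw [q6, q10, q1] at q5
      linarith
    rw [Finset.sum_congr rfl h3, Finset.sum_sub_distrib, Finset.sum_sub_distrib,
      Finset.sum_add_distrib, ← Finset.sum_mul, ← Finset.sum_mul, Finset.sum_add_distrib,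
      sum_root J b hH al, N02_pars J b hal hpos hZ, N02_pars J b hal hpos (RV_J J C hZ), J.inner,
      Finset.sum_comm (s := b.pl H₁) (t := b.pl H₁)] at h2
    have h4 : ∑ j ∈ b.pl H₁, ∑ i ∈ b.pl H₁, ⟪L.br (b.e j) Z, b.e i⟫_ℝ *
        ⟪b.e i, L.br (b.e j) Z⟫_ℝ = ∑ j ∈ b.pl H₁, ⟪L.br (b.e j) Z, L.br (b.e j) Z⟫_ℝ := by
      refine Finset.sum_congr rfl fun j hj => ?_
      refine N02_pars J b (C.a.add_mem (b.mem j) hal) ?_ (RV_br C (b.rv j) hZ)
      rw [inner_add_left]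
      have := b.mem_pl.1 hj
      linarith
    rw [h4, h1] at h2
    rw [h2]
    ring
  have hs' : s = 2 * R L C.a H₁ al - 2 * ⟪al, al⟫_ℝ := mul_right_cancel₀ hZZ hs
  rw [hst, ht, hs', zero_smul, add_zero]

end Pool.Agent.Lib.MP_4322ef_CH
end

section

/-!
# Cocycles of the nilradical with values in a module with scalar Casimir operator

Let `c(x) = ⟪x, x⟫ + R x`, `S = -∑_{i positive} op (θ e i) (be (e i))` (a vector of weight `ze`). For `Z ∈ RV al`
positive (`Z = 0` is trivial), with sums over positive `i`, `j`: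
`op Z S = -∑ op (θ e i) (op Z (be (e i))) - ∑ op [Z, θ e i] (be (e i))`, and
`op Z (be (e i)) = op (e i) (be Z) + be [Z, e i]` (`hco`). So `op Z S = A + B + D` with
* `A = -∑ op (θ e i) (op (e i) (be Z)) = (c - c(ze + al)) be Z` (`kCas_wt` for `w = be Z`, `hc`);
* `B = -∑ op (θ e i) (be [Z, e i])`;
* `D = -∑ op [Z, θ e i] (be (e i))`. Expand `[Z, θ e i]` in the basis:
  - negative part: in terms of the `θ e j` (`j` positive, `sum_th`); `⟪θ e j, [Z, θ e i]⟫ = -⟪[Z, e j], e i⟫`, so it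
    is `∑_{i, j} ⟪[Z, e j], e i⟫ op (θ e j) (be (e i)) = ∑_j op (θ e j) (be [Z, e j]) = -B`;
  - zero part: only `ch i = al`; `e i = (⟪e i, Z⟫ Z + ⟪e i, J Z⟫ J Z) / ⟪Z, Z⟫`, so the zero part of `[Z, θ e i]`
    (all of it) is `-⟪e i, Z⟫ al + ⟪e i, J Z⟫ J al`, and with `be (J Z) = i be Z`, `op (J al) = i op al` and
    `∑_{ch i = al} ⟪e i, Z⟫ e i = Z` the contribution to `D` is `2 ⟪al, ze + al⟫ be Z`;
  - positive part: `⟪e j, [Z, θ e i]⟫ = ⟪[e i, e j], Z⟫` is antisymmetric; the contribution to `D` is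
    `-∑ ⟪[e i, e j], Z⟫ op (e j) (be (e i)) = ½ ∑ ⟪[e i, e j], Z⟫ be [e i, e j] = (R al - ⟪al, al⟫) be Z` (`gsum`).
Sum: `op Z S = (c - c(ze)) be Z`. Take `w = (c - c(ze))⁻¹ S`.
-/

set_option autoImplicit false

open scoped InnerProductSpace

namespace Pool.Agent.Lib.MP_4322ef_CH

open Pool.Agent.Lib.MP_4322ef_al.SR

variable {g : Type} [NormedAddCommGroup g] [InnerProductSpace ℝ g] {L : RedLie g}

section
variable {J : CStr L} {W : Type} [NormedAddCommGroup W] [InnerProductSpace ℂ W]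

/-- the action as a real bilinear map -/
noncomputable def OB (t : CRep J W) : g →ₗ[ℝ] W →ₗ[ℝ] W :=
  LinearMap.mk₂ ℝ (fun A w => t.op A w)
    (fun A A' w => by rw [t.add, LinearMap.add_apply])
    (fun c A w => by rw [t.smul, LinearMap.smul_apply, Complex.coe_smul])
    (fun A w w' => map_add _ _ _)
    (fun c A w => by rw [LinearMap.map_smul_of_tower])

theorem OB_apply (t : CRep J W) (A : g) (w : W) : OB t A w = t.op A w := rfl

variable [FiniteDimensional ℝ g]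

theorem R_add (J : CStr L) {C : CSub L} {n : ℕ} (b : ABas C n) {H₁ : g} (hH : Reg L C.a H₁)
    (x y : g) : R L C.a H₁ (x + y) = R L C.a H₁ x + R L C.a H₁ y := by
  have h1 := sum_root J b hH x
  have h2 := sum_root J b hH y
  have h3 := sum_root J b hH (x + y)
  simp only [inner_add_right, Finset.sum_add_distrib] at h3
  linarith

omit [FiniteDimensional ℝ g] in
/-- the components of `[Z, θ e i]` -/
theorem N03_dec (J : CStr L) {C : CSub L} {n : ℕ} (b : ABas C n) {H₁ al Z : g} (hH : Reg L C.a H₁)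
    (hal : al ∈ C.a) (hpos : 0 < ⟪al, H₁⟫_ℝ) (hZ : RV L C.a al Z) {Q : g →ₗ[ℝ] g}
    (hQp : ∀ al ∈ C.a, 0 < ⟪al, H₁⟫_ℝ → ∀ Z, RV L C.a al Z → Q Z = Z)
    (hQn : ∀ al ∈ C.a, ⟪al, H₁⟫_ℝ ≤ 0 → ∀ Z, RV L C.a al Z → Q Z = 0) {i : Fin n} :
    L.br Z (L.th (b.e i)) = Q (L.br Z (L.th (b.e i))) + L.th (Q (L.br (L.th Z) (b.e i)))
      + (-(⟪b.e i, Z⟫_ℝ • al) + ⟪b.e i, J.J Z⟫_ℝ • J.J al) := by
  have hA : RV L C.a (al + -b.ch i) (L.br Z (L.th (b.e i))) := RV_br C hZ (RV_th C (b.rv i))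
  have hA' : RV L C.a (-(al + -b.ch i)) (L.br (L.th Z) (b.e i)) := by
    have h1 := RV_th C hA
    rw [L.th_br, L.th_th] at h1
    exact h1
  have hmem : al + -b.ch i ∈ C.a := C.a.add_mem hal (C.a.neg_mem (b.mem i))
  have hmem' : -(al + -b.ch i) ∈ C.a := C.a.neg_mem hmem
  by_cases hc : b.ch i = al
  · have h0 : al + -b.ch i = 0 := by rw [hc, add_neg_cancel]
    rw [hQn _ hmem (by rw [h0, inner_zero_left]) _ hA,
      hQn _ hmem' (by rw [h0, neg_zero, inner_zero_left]) _ hA', map_zero, add_zero, zero_add]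
    by_cases hZ0 : Z = 0
    · rw [hZ0, map_zero, LinearMap.zero_apply, map_zero, inner_zero_right, zero_smul, zero_smul,
        neg_zero, add_zero]
    have hal0 : al ≠ 0 := by
      rintro rfl
      rw [inner_zero_left] at hpos
      exact lt_irrefl _ hpos
    have hZZ : ⟪Z, Z⟫_ℝ ≠ 0 := fun h => hZ0 (inner_self_eq_zero.1 h)
    obtain ⟨p, q, hpq⟩ := RV_unique J C hal hal0 hZ hZ0 (hc ▸ b.rv i)
    have h1 : ⟪b.e i, Z⟫_ℝ = p * ⟪Z, Z⟫_ℝ := by
      rw [hpq, inner_add_left, real_inner_smul_left, real_inner_smul_left,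
        real_inner_comm Z (J.J Z), inner_J_self, mul_zero, add_zero]
    have h2 : ⟪b.e i, J.J Z⟫_ℝ = q * ⟪Z, Z⟫_ℝ := by
      rw [hpq, inner_add_left, real_inner_smul_left, real_inner_smul_left,
        inner_J_self, mul_zero, zero_add, J.inner]
    have h3 : L.br Z (L.th (J.J Z)) = ⟪Z, Z⟫_ℝ • J.J al := by
      rw [J.th, map_neg]
      have h4 : L.br Z (J.J (L.th Z)) = J.J (L.br Z (L.th Z)) := by
        rw [br_skew, J.br, ← map_neg, ← br_skew]
      rw [h4, br_th_root C hal hZ, map_neg, neg_neg, map_smul]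
    rw [h1, h2, hpq, map_add, map_smul, map_smul, map_add, map_smul, map_smul, h3,
      br_th_root C hal hZ, mul_smul, mul_smul, smul_neg]
  · have h1 : ⟪b.e i, Z⟫_ℝ = 0 := RV_orth C (b.mem i) hal (b.rv i) hZ hc
    have h2 : ⟪b.e i, J.J Z⟫_ℝ = 0 := RV_orth C (b.mem i) hal (b.rv i) (RV_J J C hZ) hc
    rw [h1, h2, zero_smul, zero_smul, neg_zero, add_zero, add_zero]
    rcases lt_trichotomy 0 ⟪al + -b.ch i, H₁⟫_ℝ with h | h | h
    · rw [hQp _ hmem h _ hA, hQn _ hmem' (by rw [inner_neg_left]; linarith) _ hA', map_zero,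
        add_zero]
    · have h3 : L.br Z (L.th (b.e i)) = 0 := by
        by_contra hne
        refine hH.2 (al + -b.ch i) ⟨hmem, fun h0 => hc ?_, _, hne, hA⟩ h.symm
        exact (eq_of_sub_eq_zero (by rw [sub_eq_add_neg]; exact h0)).symm
      have h4 : L.br (L.th Z) (b.e i) = 0 := by
        have h5 := congrArg L.th h3
        rw [L.th_br, L.th_th, map_zero] at h5
        exact h5
      rw [h3, h4, map_zero, map_zero, add_zero]
    · rw [hQn _ hmem h.le _ hA, hQp _ hmem' (by rw [inner_neg_left]; linarith) _ hA', L.th_br,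
        L.th_th, zero_add]

theorem cocycle_solve (t : CRep J W) (C : CSub L) {H₁ ze : g} (hH : Reg L C.a H₁)
    (hze : ze ∈ C.a) {c : ℝ} (hc : ∀ w, kCas L t.op w = (c : ℂ) • w) (be : g →ₗ[ℝ] W)
    (hJ : ∀ al ∈ C.a, 0 < ⟪al, H₁⟫_ℝ → ∀ Z, RV L C.a al Z → be (J.J Z) = Complex.I • be Z)
    (hco : ∀ al ∈ C.a, 0 < ⟪al, H₁⟫_ℝ → ∀ Z, RV L C.a al Z →
      ∀ al' ∈ C.a, 0 < ⟪al', H₁⟫_ℝ → ∀ Z', RV L C.a al' Z' →
        be (L.br Z Z') = t.op Z (be Z') - t.op Z' (be Z))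
    (hw : ∀ al ∈ C.a, 0 < ⟪al, H₁⟫_ℝ → ∀ Z, RV L C.a al Z → WV t C.a (ze + al) (be Z))
    (hne : ⟪ze, ze⟫_ℝ + R L C.a H₁ ze ≠ c) :
    ∃ w, WV t C.a ze w ∧ ∀ al ∈ C.a, 0 < ⟪al, H₁⟫_ℝ → ∀ Z, RV L C.a al Z → t.op Z w = be Z := by
  obtain ⟨n, ⟨b⟩⟩ := exists_abas J C
  obtain ⟨Q, hQ, hQs, hQQ, hQJ, hQp, hQn⟩ := exists_proj J b H₁
  let S : W := -∑ i ∈ b.pl H₁, t.op (L.th (b.e i)) (be (b.e i))
  have hSw : WV t C.a ze S := by
    intro H hH'
    show t.op H (-∑ i ∈ b.pl H₁, t.op (L.th (b.e i)) (be (b.e i))) = _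
    rw [map_neg, map_sum, smul_neg, Finset.smul_sum]
    congr 1
    refine Finset.sum_congr rfl fun i hi => ?_
    have h1 := wt_shift t C (RV_th C (b.rv i)) (hw _ (b.mem i) (b.mem_pl.1 hi) _ (b.rv i)) H hH'
    rw [h1]
    congr 3
    abel
  have key : ∀ al ∈ C.a, 0 < ⟪al, H₁⟫_ℝ → ∀ Z, RV L C.a al Z →
      t.op Z S = ((c - (⟪ze, ze⟫_ℝ + R L C.a H₁ ze) : ℝ) : ℂ) • be Z := by
    intro al hal hpos Z hZ
    -- the three terms
    have e1 : t.op Z S = -(∑ i ∈ b.pl H₁, t.op (L.th (b.e i)) (t.op (b.e i) (be Z)))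
        - (∑ i ∈ b.pl H₁, t.op (L.th (b.e i)) (be (L.br Z (b.e i))))
        - ∑ i ∈ b.pl H₁, t.op (L.br Z (L.th (b.e i))) (be (b.e i)) := by
      show t.op Z (-∑ i ∈ b.pl H₁, t.op (L.th (b.e i)) (be (b.e i))) = _
      rw [map_neg, map_sum, ← neg_add', ← neg_add', ← Finset.sum_add_distrib,
        ← Finset.sum_add_distrib]
      congr 1
      refine Finset.sum_congr rfl fun i hi => ?_
      rw [hco al hal hpos Z hZ _ (b.mem i) (b.mem_pl.1 hi) _ (b.rv i), map_sub, t.bracket]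
      abel
    -- the Casimir operator
    have e2 : -(∑ i ∈ b.pl H₁, t.op (L.th (b.e i)) (t.op (b.e i) (be Z))) =
        ((c - (⟪ze + al, ze + al⟫_ℝ + R L C.a H₁ (ze + al)) : ℝ) : ℂ) • be Z := by
      have h1 := kCas_wt t b hH (C.a.add_mem hze hal) (hw al hal hpos Z hZ)
      rw [hc, sub_eq_add_neg] at h1
      rw [Complex.ofReal_sub, sub_smul, h1, add_sub_cancel_left]
    -- the components of `[Z, θ e i]`
    have e3 : ∑ i ∈ b.pl H₁, t.op (L.br Z (L.th (b.e i))) (be (b.e i)) =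
        (∑ i ∈ b.pl H₁, OB t (Q (L.br Z (L.th (b.e i)))) (be (b.e i)))
        + (∑ i ∈ b.pl H₁, OB t (L.th (Q (L.br (L.th Z) (b.e i)))) (be (b.e i)))
        + ∑ i ∈ b.pl H₁, OB t (-(⟪b.e i, Z⟫_ℝ • al) + ⟪b.e i, J.J Z⟫_ℝ • J.J al) (be (b.e i)) := by
      rw [← Finset.sum_add_distrib, ← Finset.sum_add_distrib]
      refine Finset.sum_congr rfl fun i hi => ?_
      rw [← LinearMap.add_apply, ← LinearMap.add_apply, ← map_add, ← map_add,
        ← N03_dec J b hH hal hpos hZ hQp hQn, OB_apply]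
    -- the negative part
    have e4 : (∑ i ∈ b.pl H₁, OB t (L.th (Q (L.br (L.th Z) (b.e i)))) (be (b.e i))) =
        -∑ i ∈ b.pl H₁, t.op (L.th (b.e i)) (be (L.br Z (b.e i))) := by
      have h1 : ∀ i, OB t (L.th (Q (L.br (L.th Z) (b.e i)))) (be (b.e i)) =
          ∑ j ∈ b.pl H₁, -(⟪b.e i, L.br Z (b.e j)⟫_ℝ • OB t (L.th (b.e j)) (be (b.e i))) := by
        intro i
        rw [hQ, map_sum, map_sum, LinearMap.sum_apply]
        refine Finset.sum_congr rfl fun j _ => ?_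
        rw [map_smul, map_smul, LinearMap.smul_apply, ← neg_smul]
        congr 1
        have h2 := L.inner_br Z (b.e j) (b.e i)
        rw [real_inner_comm (L.br Z (b.e j)) (b.e i), h2, neg_neg]
      rw [Finset.sum_congr rfl fun i _ => h1 i, Finset.sum_comm, ← Finset.sum_neg_distrib]
      refine Finset.sum_congr rfl fun j hj => ?_
      rw [Finset.sum_neg_distrib]
      congr 1
      have h3 : L.br Z (b.e j) = ∑ i ∈ b.pl H₁, ⟪b.e i, L.br Z (b.e j)⟫_ℝ • b.e i := by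
        rw [← hQ]
        exact (hQp _ (C.a.add_mem hal (b.mem j))
          (by rw [inner_add_left]; exact add_pos hpos (b.mem_pl.1 hj)) _
          (RV_br C hZ (b.rv j))).symm
      conv_rhs => rw [h3]
      rw [← OB_apply, map_sum, map_sum]
      refine Finset.sum_congr rfl fun i _ => ?_
      rw [map_smul, map_smul]
    -- the zero part
    have e5 : ∑ i ∈ b.pl H₁, OB t (-(⟪b.e i, Z⟫_ℝ • al) + ⟪b.e i, J.J Z⟫_ℝ • J.J al) (be (b.e i)) =
        -(((2 * ⟪ze + al, al⟫_ℝ : ℝ) : ℂ) • be Z) := by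
      have h1 : ∀ i, OB t (-(⟪b.e i, Z⟫_ℝ • al) + ⟪b.e i, J.J Z⟫_ℝ • J.J al) (be (b.e i)) =
          -(OB t al (be (⟪b.e i, Z⟫_ℝ • b.e i)))
            + OB t (J.J al) (be (⟪b.e i, J.J Z⟫_ℝ • b.e i)) := by
        intro i
        rw [map_add, map_neg, map_smul, map_smul, LinearMap.add_apply, LinearMap.neg_apply,
          LinearMap.smul_apply, LinearMap.smul_apply, map_smul, map_smul, map_smul, map_smul]
      rw [Finset.sum_congr rfl fun i _ => h1 i, Finset.sum_add_distrib, Finset.sum_neg_distrib,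
        ← map_sum, ← map_sum, ← map_sum, ← map_sum, ← hQ, ← hQ, hQp al hal hpos Z hZ,
        hQp al hal hpos _ (RV_J J C hZ), OB_apply, OB_apply, hJ al hal hpos Z hZ, t.lin,
        LinearMap.smul_apply, map_smul, smul_smul, Complex.I_mul_I,
        hw al hal hpos Z hZ al hal, neg_smul, one_smul, two_mul, Complex.ofReal_add, add_smul,
        neg_add]
    -- the positive part
    have e6 : ∑ i ∈ b.pl H₁, OB t (Q (L.br Z (L.th (b.e i)))) (be (b.e i)) =
        -(((R L C.a H₁ al - ⟪al, al⟫_ℝ : ℝ) : ℂ) • be Z) := by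
      have h1 : ∀ i, OB t (Q (L.br Z (L.th (b.e i)))) (be (b.e i)) =
          ∑ j ∈ b.pl H₁, ⟪L.br (b.e i) (b.e j), Z⟫_ℝ • OB t (b.e j) (be (b.e i)) := by
        intro i
        rw [hQ, map_sum, LinearMap.sum_apply]
        refine Finset.sum_congr rfl fun j _ => ?_
        rw [map_smul, LinearMap.smul_apply]
        congr 1
        rw [L.inner_br, br_skew L (L.th (b.e i)) Z, inner_neg_right, neg_neg]
      have h2 : ∑ i ∈ b.pl H₁, OB t (Q (L.br Z (L.th (b.e i)))) (be (b.e i)) =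
          -∑ i ∈ b.pl H₁, ∑ j ∈ b.pl H₁,
            ⟪L.br (b.e i) (b.e j), Z⟫_ℝ • OB t (b.e i) (be (b.e j)) := by
        rw [Finset.sum_congr rfl fun i _ => h1 i, Finset.sum_comm, ← Finset.sum_neg_distrib]
        refine Finset.sum_congr rfl fun i _ => ?_
        rw [← Finset.sum_neg_distrib]
        refine Finset.sum_congr rfl fun j _ => ?_
        rw [br_skew L (b.e j) (b.e i), inner_neg_left, neg_smul]
      have h3 : (∑ i ∈ b.pl H₁, ∑ j ∈ b.pl H₁,
            ⟪L.br (b.e i) (b.e j), Z⟫_ℝ • OB t (b.e j) (be (b.e i))) +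
          -(∑ i ∈ b.pl H₁, ∑ j ∈ b.pl H₁,
            ⟪L.br (b.e i) (b.e j), Z⟫_ℝ • OB t (b.e i) (be (b.e j))) =
          -(be ((2 * R L C.a H₁ al - 2 * ⟪al, al⟫_ℝ) • Z)) := by
        rw [← gsum J b hH hal hpos hZ, map_sum, ← sub_eq_add_neg, ← Finset.sum_sub_distrib,
          ← Finset.sum_neg_distrib]
        refine Finset.sum_congr rfl fun i hi => ?_
        rw [map_sum, ← Finset.sum_sub_distrib, ← Finset.sum_neg_distrib]
        refine Finset.sum_congr rfl fun j hj => ?_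
        rw [map_smul, hco _ (b.mem i) (b.mem_pl.1 hi) _ (b.rv i) _ (b.mem j) (b.mem_pl.1 hj) _
          (b.rv j), ← smul_sub, ← smul_neg, neg_sub]
        rfl
      rw [← h2, ← Finset.sum_congr rfl fun i _ => h1 i, ← two_smul ℝ] at h3
      refine smul_right_injective W (two_ne_zero (α := ℝ)) ?_
      show (2 : ℝ) • _ = (2 : ℝ) • _
      rw [h3, map_smul, smul_neg, Complex.coe_smul, smul_smul]
      congr 2
      ring
    rw [e1, e2, e3, e4, e5, e6, R_add J b hH, inner_add_left, inner_add_right, inner_add_right,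
      inner_add_left, real_inner_comm ze al]
    push_cast
    module
  have hc0 : ((c - (⟪ze, ze⟫_ℝ + R L C.a H₁ ze) : ℝ) : ℂ) ≠ 0 := by
    rw [Complex.ofReal_ne_zero]
    exact sub_ne_zero.2 hne.symm
  refine ⟨((c - (⟪ze, ze⟫_ℝ + R L C.a H₁ ze) : ℝ) : ℂ)⁻¹ • S, ?_, ?_⟩
  · intro H hH'
    rw [map_smul, hSw H hH', smul_comm]
  · intro al hal hpos Z hZ
    rw [map_smul, key al hal hpos Z hZ, smul_smul, inv_mul_cancel₀ hc0, one_smul]

end

end Pool.Agent.Lib.MP_4322ef_CH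
end

section

/-!
# Modules with a highest weight vector and a dual vector
-/

set_option autoImplicit false

open scoped InnerProductSpace

namespace Pool.Agent.Lib.MP_4322ef_CH

open Pool.Agent.Lib.MP_4322ef_al.SR

variable {g : Type} [NormedAddCommGroup g] [InnerProductSpace ℝ g]

/-- A complex linear module `M` (of any dimension) with a vector `v` of weight `lam` killed by the positive root vectors
of `H₁`, and a functional `ev` with `ev v = 1` of weight `lam` killed by the negative root vectors. -/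
structure VD {L : RedLie g} (J : CStr L) (a : Submodule ℝ g) (H₁ lam : g) (M : Type)
    [AddCommGroup M] [Module ℂ M] extends Rep L M where
  lin : ∀ A, op (J.J A) = Complex.I • op A
  v : M
  ev : M →ₗ[ℂ] ℂ
  ev_v : ev v = 1
  wt : ∀ H ∈ a, op H v = (⟪lam, H⟫_ℝ : ℂ) • v
  pos : ∀ Z, (∃ r : ℝ, 0 < r ∧ L.br H₁ Z = r • Z) → op Z v = 0
  ev_wt : ∀ H ∈ a, ∀ x, ev (op H x) = (⟪lam, H⟫_ℝ : ℂ) * ev x
  ev_neg : ∀ Z, (∃ r : ℝ, 0 < r ∧ L.br H₁ Z = (-r) • Z) → ∀ x, ev (op Z x) = 0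

/-- `v` generates `M`, and no nonzero submodule is contained in the kernel of `ev`: `M` is irreducible. -/
structure VL {L : RedLie g} (J : CStr L) (a : Submodule ℝ g) (H₁ lam : g) (M : Type)
    [AddCommGroup M] [Module ℂ M] extends VD J a H₁ lam M where
  cy : ∀ U : Submodule ℂ M, v ∈ U → (∀ A, ∀ u ∈ U, op A u ∈ U) → U = ⊤
  nd : ∀ U : Submodule ℂ M, (∀ u ∈ U, ev u = 0) → (∀ A, ∀ u ∈ U, op A u ∈ U) → U = ⊥

/-- `x` is a vector of weight `mu` (or zero) -/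
def WU {L : RedLie g} {M : Type} [AddCommGroup M] [Module ℂ M] (r : Rep L M) (a : Submodule ℝ g)
    (mu : g) (x : M) : Prop :=
  ∀ H ∈ a, r.op H x = (⟪mu, H⟫_ℝ : ℂ) • x

/-- the sums of positive roots -/
def Qp (L : RedLie g) (a : Submodule ℝ g) (H₁ : g) : AddSubmonoid g :=
  AddSubmonoid.closure {be | be ∈ roots L a ∧ 0 < ⟪be, H₁⟫_ℝ}

end Pool.Agent.Lib.MP_4322ef_CH
end
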