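import Pool.Agent.Lib.MP_4322ef_CH.Mg.G006
import Pool.Agent.Lib.MP_4322ef_CH.Mg.G002
import Pool.Agent.Lib.MP_4322ef_CH.Mg.G003
import Pool.Agent.Lib.MP_4322ef_CH.Mg.G008
import Pool.Agent.Lib.MP_4322ef_CH.Mg.G001
import Pool.Agent.Lib.MP_4322ef_CH.Mg.G004

section

/-!
# The Casimir operator is a scalar
-/

set_option autoImplicit false

open scoped InnerProductSpace

namespace Pool.Agent.Lib.MP_4322ef_CH

open Pool.Agent.Lib.MP_4322ef_al.SR

variable {g : Type} [NormedAddCommGroup g] [InnerProductSpace ℝ g] {L : RedLie g}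

section
variable {J : CStr L} {W : Type} [NormedAddCommGroup W] [InnerProductSpace ℂ W]

theorem cplx_split (t : CRep J W) (Z : g) (w : W) :
    t.op Z w = t.op (L.kk Z) w - Complex.I • t.op (J.J (L.pp Z)) w := by
  rw [t.lin, LinearMap.smul_apply, smul_smul, Complex.I_mul_I, neg_one_smul, sub_neg_eq_add,
    ← LinearMap.add_apply, ← t.add, kk_add_pp]

theorem th_Jpp (J : CStr L) (Z : g) : L.th (J.J (L.pp Z)) = J.J (L.pp Z) := by
  rw [J.th, th_pp, map_neg, neg_neg]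

variable [FiniteDimensional ℝ g]

theorem kCas_comm (t : CRep J W) {Z : g} (hZ : L.th Z = Z) (x : W) :
    kCas L t.op (t.op Z x) = t.op Z (kCas L t.op x) := by
  let e := stdOrthonormalBasis ℝ g
  have h := frame_skew e (bil t.toRep t.toRep LinearMap.id LinearMap.id L.kk L.kk x) (L.br Z)
    (br_k_skew L hZ)
  simp only [bil_apply, LinearMap.id_apply] at h
  rw [kCas, kCas, map_neg, map_sum, neg_inj, ← sub_eq_zero,
    ← Finset.sum_sub_distrib, ← neg_eq_zero, ← Finset.sum_neg_distrib, ← h]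
  refine Finset.sum_congr rfl fun i _ => ?_
  rw [kk_br hZ, t.bracket, t.bracket, map_sub]
  abel

theorem cas_scalar (t : CRep J W) (C : CSub L) (hirr : Irr t) {H₁ be : g} {v : W}
    (hH : Reg L C.a H₁) (h : HW t C.a H₁ be v) (w : W) :
    kCas L t.op w = ((⟪be, be⟫_ℝ + hgt L C.a be : ℝ) : ℂ) • w := by
  let c : ℂ := ((⟪be, be⟫_ℝ + hgt L C.a be : ℝ) : ℂ)
  have hv : kCas L t.op v = c • v := by
    have h1 := hw_cas t C hH h
    rw [gCas_eq] at h1
    have h2 : (2 : ℂ) • kCas L t.op v = (2 : ℂ) • (c • v) := by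
      rw [h1, smul_smul]
      congr 1
      show _ = 2 * ((⟪be, be⟫_ℝ + hgt L C.a be : ℝ) : ℂ)
      push_cast
      ring
    exact smul_right_injective W (two_ne_zero (α := ℂ)) h2
  let S : Submodule ℂ W :=
    { carrier := {w | kCas L t.op w = c • w}
      add_mem' := by
        intro a b ha hb
        have ha' : kCas L t.op a = c • a := ha
        have hb' : kCas L t.op b = c • b := hb
        show kCas L t.op (a + b) = c • (a + b)
        rw [smul_add, ← ha', ← hb']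
        simp only [kCas, map_add, Finset.sum_add_distrib, neg_add]
      zero_mem' := by
        show kCas L t.op 0 = c • 0
        simp only [kCas, map_zero, Finset.sum_const_zero, neg_zero, smul_zero]
      smul_mem' := by
        intro z a ha
        have ha' : kCas L t.op a = c • a := ha
        show kCas L t.op (z • a) = c • z • a
        rw [smul_comm, ← ha']
        simp only [kCas, map_smul, smul_neg, Finset.smul_sum] }
  have hk : ∀ Z, L.th Z = Z → ∀ u ∈ S, t.op Z u ∈ S := by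
    intro Z hZ u hu
    have hu' : kCas L t.op u = c • u := hu
    show kCas L t.op (t.op Z u) = c • t.op Z u
    rw [kCas_comm t hZ, hu', map_smul]
  have hS : S = ⊤ := by
    rcases hirr S (by
      intro Z u hu
      rw [cplx_split]
      exact S.sub_mem (hk _ (th_kk L _) u hu) (S.smul_mem _ (hk _ (th_Jpp J Z) u hu))) with h1 | h1
    · exfalso
      apply h.ne
      have h2 : v ∈ S := hv
      rw [h1, Submodule.mem_bot] at h2
      exact h2
    · exact h1
  have hw : w ∈ S := by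
    rw [hS]
    trivial
  exact hw

end

end Pool.Agent.Lib.MP_4322ef_CH
end

section

/-!
# Existence of highest weight vectors; the Casimir operator and arbitrary weights
-/

set_option autoImplicit false

open scoped InnerProductSpace

namespace Pool.Agent.Lib.MP_4322ef_CH

open Pool.Agent.Lib.MP_4322ef_al.SR

variable {g : Type} [NormedAddCommGroup g] [InnerProductSpace ℝ g] {L : RedLie g}

section
variable {J : CStr L} {W : Type} [NormedAddCommGroup W] [InnerProductSpace ℂ W]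
variable [FiniteDimensional ℝ g] [FiniteDimensional ℂ W]

theorem exists_hw (t : CRep J W) (C : CSub L) [Nontrivial W] {H₁ : g} (hH : Reg L C.a H₁) :
    ∃ be v, HW t C.a H₁ be v := by
  have hne : {lam | IsW t C.a lam}.Nonempty := by
    by_contra hcon
    rw [Set.not_nonempty_iff_eq_empty] at hcon
    obtain ⟨w, hw⟩ := exists_ne (0 : W)
    apply hw
    have h1 : Submodule.span ℂ {v | ∃ lam ∈ C.a, WV t C.a lam v} ≤ ⊥ := by
      refine Submodule.span_le.2 ?_
      rintro v ⟨lam, hlam, hv⟩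
      by_contra hv0
      have h2 : lam ∈ {lam | IsW t C.a lam} := ⟨hlam, v, hv0, hv⟩
      rw [hcon] at h2
      exact h2
    exact (Submodule.mem_bot ℂ).1 (h1 (wt_span t C w))
  obtain ⟨be, ⟨hbe, v, hv0, hv⟩, hmax⟩ :=
    Set.exists_max_image _ (fun lam => ⟪lam, H₁⟫_ℝ) (wt_finite t C) hne
  refine ⟨be, v, hbe, hv0, hv, ?_⟩
  rintro Z ⟨c, hc, hZ⟩
  have h1 := span_eig C hH.1 hZ
  have h2 : Submodule.span ℝ {Z | ∃ lam ∈ C.a, RV L C.a lam Z ∧ ⟪lam, H₁⟫_ℝ = c} ≤
      LinearMap.ker (show g →ₗ[ℝ] W from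
        { toFun := fun A => t.op A v
          map_add' := fun A A' => by rw [t.add, LinearMap.add_apply]
          map_smul' := fun c A => by
            rw [t.smul, LinearMap.smul_apply, Complex.coe_smul, RingHom.id_apply] }) := by
    refine Submodule.span_le.2 ?_
    rintro A ⟨lam, hlam, hA, hlc⟩
    refine LinearMap.mem_ker.2 ?_
    show t.op A v = 0
    by_contra hA0
    have h3 := hmax (lam + be) ⟨C.a.add_mem hlam hbe, _, hA0, wt_shift t C hA hv⟩
    have h4 : ⟪lam + be, H₁⟫_ℝ = c + ⟪be, H₁⟫_ℝ := by rw [inner_add_left, hlc]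
    simp only [h4] at h3
    linarith
  exact LinearMap.mem_ker.1 (h2 h1)

theorem low (t : CRep J W) (C : CSub L) (hirr : Irr t) {mu : g} (hmu : IsW t C.a mu) :
    ∃ c : ℝ, (∀ w, kCas L t.op w = (c : ℂ) • w) ∧ ⟪mu, mu⟫_ℝ + hgt L C.a mu ≤ c := by
  obtain ⟨P, hP, hPm, hPh, hPv, hP0⟩ := exists_P C
  obtain ⟨hmua, v, hv0, hv⟩ := hmu
  let m' : C.a := ⟨mu, hmua⟩
  obtain ⟨H, hH, hHm⟩ := exists_chm hP0 m' 0
  have : Nontrivial W := ⟨v, 0, hv0⟩
  have hR : Reg L C.a (H : g) := ⟨H.2, fun al hal => hH ⟨al, hal.1⟩ ((hPm _).2 hal)⟩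
  obtain ⟨be, u, hu⟩ := exists_hw t C hR
  let b' : C.a := ⟨be, hu.mem⟩
  have hIs : IsW t C.a mu := ⟨hmua, v, hv0, hv⟩
  have hdom : ∀ al ∈ roots L C.a, 0 < ⟪al, (H : g)⟫_ℝ → 0 ≤ ⟪al, mu⟫_ℝ := fun al hal hp =>
    (hHm ⟨al, hal.1⟩ ((hPm _).2 hal) hp).1
  have hbdom : ∀ al ∈ roots L C.a, 0 < ⟪al, (H : g)⟫_ℝ → 0 ≤ ⟪al, be⟫_ℝ := fun al hal hp =>
    hw_dom t C hR hu hal hp
  have h1 : ⟪mu, mu⟫_ℝ ≤ ⟪be, mu⟫_ℝ := hw_bound t C hirr hR hu hIs hmua hdom
  have h2 : ⟪mu, be⟫_ℝ ≤ ⟪be, be⟫_ℝ := hw_bound t C hirr hR hu hIs hu.mem hbdom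
  have h3 : ⟪mu, ((vc P H : C.a) : g)⟫_ℝ ≤ ⟪be, ((vc P H : C.a) : g)⟫_ℝ := by
    refine hw_bound t C hirr hR hu hIs (vc P H).2 fun al hal hp => ?_
    have h4 := vc_pos hP (c := H) ((hPm ⟨al, hal.1⟩).2 hal) hp
    have h5 : ⟪vc P H, (⟨al, hal.1⟩ : C.a)⟫_ℝ = ⟪al, ((vc P H : C.a) : g)⟫_ℝ := real_inner_comm _ _
    rw [h5] at h4
    exact le_trans (real_inner_self_nonneg) h4
  have hc1 : m' ∈ Chm P H := fun al hal hp => hdom al ((hPm al).1 hal) hp
  have hc2 : b' ∈ Chm P H := fun al hal hp => hbdom al ((hPm al).1 hal) hp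
  have h4 : hgt L C.a mu = ⟪mu, ((vc P H : C.a) : g)⟫_ℝ := by
    rw [← hPh m', hh_chm hP hH hc1]
    exact real_inner_comm _ _
  have h5 : hgt L C.a be = ⟪be, ((vc P H : C.a) : g)⟫_ℝ := by
    rw [← hPh b', hh_chm hP hH hc2]
    exact real_inner_comm _ _
  refine ⟨⟪be, be⟫_ℝ + hgt L C.a be, cas_scalar t C hirr hR hu, ?_⟩
  rw [h4, h5]
  have h6 : ⟪be, mu⟫_ℝ = ⟪mu, be⟫_ℝ := real_inner_comm _ _
  linarith

end

end Pool.Agent.Lib.MP_4322ef_CH
end

section

/-!
# The theorem for a map `V ⊗ Y → X`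
-/

set_option autoImplicit false

open scoped InnerProductSpace TensorProduct

namespace Pool.Agent.Lib.MP_4322ef_CH

open Pool.Agent.Lib.MP_4322ef_al.SR

variable {g : Type} [NormedAddCommGroup g] [InnerProductSpace ℝ g] {L : RedLie g}

section
variable {J : CStr L}
  {Y : Type} [NormedAddCommGroup Y] [InnerProductSpace ℂ Y] (s : CRep J Y)
  {V : Type} [NormedAddCommGroup V] [InnerProductSpace ℂ V] (t : CRep J V)

/-- the data on `V ⊗ Y` -/
noncomputable def tD : DData L (V ⊗[ℂ] Y) := tData s.toRep t.op s.adj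

theorem tD_tmul (Z : g) (v : V) (y : Y) :
    (tD s t).κ Z (v ⊗ₜ[ℂ] y) = (t.op Z v) ⊗ₜ[ℂ] y + v ⊗ₜ[ℂ] (s.op Z y) := rfl

theorem tD_tau (Z : g) (v : V) (y : Y) :
    (tD s t).τ.op Z (v ⊗ₜ[ℂ] y) = v ⊗ₜ[ℂ] (s.op Z y) := rfl

theorem tD_alpha (Z : g) (v : V) (y : Y) :
    (tD s t).α Z (v ⊗ₜ[ℂ] y) = (t.op Z v) ⊗ₜ[ℂ] y := rfl

/-- `V ⊗ Y` as a unitary representation of `k₀` -/
noncomputable def tK : KRep L (V ⊗[ℂ] Y) where
  op := (tD s t).κ
  add A B _ _ := by
    apply TensorProduct.ext'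
    intro v y
    rw [LinearMap.add_apply, tD_tmul, tD_tmul, tD_tmul, t.add, s.add, LinearMap.add_apply,
      LinearMap.add_apply, TensorProduct.add_tmul, TensorProduct.tmul_add]
    abel
  smul c A _ := by
    apply TensorProduct.ext'
    intro v y
    rw [LinearMap.smul_apply, tD_tmul, tD_tmul, t.smul, s.smul, LinearMap.smul_apply,
      LinearMap.smul_apply, TensorProduct.tmul_smul, smul_add]
    rfl
  bracket A B _ _ x := by
    induction x using TensorProduct.induction_on with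
    | zero => simp only [map_zero, sub_zero]
    | add x y hx hy => simp only [map_add, hx, hy]; abel
    | tmul v y =>
      rw [tD_tmul, tD_tmul, tD_tmul, map_add, map_add, tD_tmul, tD_tmul, tD_tmul, tD_tmul,
        t.bracket, s.bracket, TensorProduct.sub_tmul, TensorProduct.tmul_sub]
      abel
  skew Z hZ x y := by
    induction x using TensorProduct.induction_on with
    | zero => rw [map_zero, inner_zero_left, inner_zero_left, neg_zero]
    | add x x' hx hx' => rw [map_add, inner_add_left, inner_add_left, hx, hx']; ring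
    | tmul v u =>
      induction y using TensorProduct.induction_on with
      | zero => rw [map_zero, inner_zero_right, inner_zero_right, neg_zero]
      | add y y' hy hy' => rw [map_add, inner_add_right, inner_add_right, hy, hy']; ring
      | tmul v' u' =>
        rw [tD_tmul, tD_tmul, inner_add_left, inner_add_right, TensorProduct.inner_tmul,
          TensorProduct.inner_tmul, TensorProduct.inner_tmul, TensorProduct.inner_tmul,
          t.adj, s.adj, hZ]
        ring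

theorem tD_casα [FiniteDimensional ℝ g] {c : ℝ} (hc : ∀ v, kCas L t.op v = (c : ℂ) • v)
    (x : V ⊗[ℂ] Y) :
    ∑ i, (tD s t).α (L.kk (stdOrthonormalBasis ℝ g i))
      ((tD s t).α (L.kk (stdOrthonormalBasis ℝ g i)) x) = -((c : ℂ) • x) := by
  induction x using TensorProduct.induction_on with
  | zero => simp only [map_zero, Finset.sum_const_zero, smul_zero, neg_zero]
  | add x y hx hy => simp only [map_add, Finset.sum_add_distrib, hx, hy, smul_add, neg_add]
  | tmul v y =>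
    have h1 : ∑ j, t.op (L.kk (stdOrthonormalBasis ℝ g j))
        (t.op (L.kk (stdOrthonormalBasis ℝ g j)) v) = -((c : ℂ) • v) := by
      rw [← hc v, kCas, neg_neg]
    simp only [tD_alpha]
    rw [← TensorProduct.sum_tmul, h1, TensorProduct.neg_tmul]
    rfl

theorem tD_casτ [FiniteDimensional ℝ g] {c : ℝ} (hc : ∀ v, kCas L s.op v = (c : ℂ) • v)
    (x : V ⊗[ℂ] Y) :
    ∑ i, (tD s t).τ.op (L.kk (stdOrthonormalBasis ℝ g i))
      ((tD s t).τ.op (L.kk (stdOrthonormalBasis ℝ g i)) x) = -((c : ℂ) • x) := by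
  induction x using TensorProduct.induction_on with
  | zero => simp only [map_zero, Finset.sum_const_zero, smul_zero, neg_zero]
  | add x y hx hy => simp only [map_add, Finset.sum_add_distrib, hx, hy, smul_add, neg_add]
  | tmul v y =>
    have h1 : ∑ j, s.op (L.kk (stdOrthonormalBasis ℝ g j))
        (s.op (L.kk (stdOrthonormalBasis ℝ g j)) y) = -((c : ℂ) • y) := by
      rw [← hc y, kCas, neg_neg]
    simp only [tD_tau]
    rw [← TensorProduct.tmul_sum, h1, TensorProduct.tmul_neg, TensorProduct.tmul_smul]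

end

section
variable {X : Type} [NormedAddCommGroup X] [InnerProductSpace ℂ X] (r : HC L X)
  [FiniteDimensional ℝ g]

theorem transE (B : InvForm r) (J : CStr L) (C : CSub L)
    {Y : Type} [NormedAddCommGroup Y] [InnerProductSpace ℂ Y] [FiniteDimensional ℂ Y]
    (s : CRep J Y) (d : ℝ) (hd : ∀ y, kCas L s.op y = (d : ℂ) • y)
    {V : Type} [NormedAddCommGroup V] [InnerProductSpace ℂ V] [FiniteDimensional ℂ V]
    (t : CRep J V) (cV : ℝ) (hcV : ∀ v, kCas L t.op v = (cV : ℂ) • v)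
    {H₂ H₃ H₄ mu nu y : g} (hH₂ : Reg L C.a H₂) (hH₃ : Reg L C.a H₃) (hH₄ : Reg L C.a H₄)
    (hmu : mu ∈ C.a) (hnu : nu ∈ C.a)
    (hcomp : ∀ al ∈ roots L C.a, 0 < ⟪al, H₂⟫_ℝ → 0 ≤ ⟪al, y⟫_ℝ ∨ ⟪al, mu - y⟫_ℝ ≤ 0)
    (ep : X →ₗ[ℂ] ℂ)
    (hn : ∀ Z, (∃ c : ℝ, 0 < c ∧ L.br H₂ Z = c • Z) → ∀ x, ep (r.op Z x) = 0)
    (ha : ∀ H ∈ C.a, ∀ x, ep (r.op H x) =
      (((∑ᶠ be ∈ {be | be ∈ roots L C.a ∧ 0 < ⟪be, H₂⟫_ℝ}, ⟪be, H⟫_ℝ) - ⟪nu, H⟫_ℝ : ℝ) : ℂ) * ep x)
    (hm : ∀ H ∈ C.a, ∀ x, ep (r.op (J.J H) x) = (Complex.I * (⟪mu, H⟫_ℝ : ℂ)) * ep x)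
    {y₁ : Y} (hy₁ : HW s C.a H₄ y y₁) {v₁ : V} (hv₁ : HW t C.a H₃ (mu - y) v₁)
    (b : V →ₗ[ℂ] Y →ₗ[ℂ] X)
    (hb : ∀ Z, L.th Z = Z → ∀ v y, r.op Z (b v y) = b (t.op Z v) y + b v (s.op Z y))
    (hne : ep (b v₁ y₁) ≠ 0) (c₀ : ℝ)
    (hc₀ : ∀ V₁, IsKType L r.op V₁ → ∀ c : ℝ, (∀ v ∈ V₁, kCas L r.op v = (c : ℂ) • v) → c₀ ≤ c)
    (hlt : cV - d - c₀ < 2 * (⟪nu - mu, y⟫_ℝ - hgt L C.a y)) :
    ∃ V₁ V₂ : Submodule ℂ X, IsKType L r.op V₁ ∧ IsKType L r.op V₂ ∧
      (∃ b₁ : V →ₗ[ℂ] Y →ₗ[ℂ] X, (∀ v y, b₁ v y ∈ V₁) ∧ (∃ v y, b₁ v y ≠ 0) ∧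
        ∀ Z, L.th Z = Z → ∀ v y, r.op Z (b₁ v y) = b₁ (t.op Z v) y + b₁ v (s.op Z y)) ∧
      (∃ b₂ : V →ₗ[ℂ] Y →ₗ[ℂ] X, (∀ v y, b₂ v y ∈ V₂) ∧ (∃ v y, b₂ v y ≠ 0) ∧
        ∀ Z, L.th Z = Z → ∀ v y, r.op Z (b₂ v y) = b₂ (t.op Z v) y + b₂ v (s.op Z y)) ∧
      (∀ v ∈ V₁, v ≠ 0 → 0 < (B.form v v).re) ∧ ∀ v ∈ V₂, v ≠ 0 → (B.form v v).re < 0 := by
  have hy : y ∈ C.a := hy₁.mem
  let de := tD s t
  have hE : FiniteDimensional ℂ (KHom L r.op de.κ) := r.adm (V ⊗[ℂ] Y) (tK s t)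
  -- the functional on the intertwining operators vanishes on the other weights
  have hvan : ∀ T ∈ KHom L r.op de.κ, ∀ l ∈ C.a, ∀ l' ∈ C.a, ∀ (v : V) (w : Y), WV t C.a l v →
      WV s C.a l' w → l + l' ≠ mu → ep (T (v ⊗ₜ[ℂ] w)) = 0 := by
    intro T hT l hl l' hl' v w hv hw hll
    have hH : l + l' - mu ∈ C.a := C.a.sub_mem (C.a.add_mem hl hl') hmu
    have h1 := hm _ hH (T (v ⊗ₜ[ℂ] w))
    have h2 : de.κ (J.J (l + l' - mu)) (v ⊗ₜ[ℂ] w) =
        (Complex.I * (⟪l + l', l + l' - mu⟫_ℝ : ℂ)) • (v ⊗ₜ[ℂ] w) := by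
      rw [show de.κ (J.J (l + l' - mu)) (v ⊗ₜ[ℂ] w) = (t.op (J.J (l + l' - mu)) v) ⊗ₜ[ℂ] w
        + v ⊗ₜ[ℂ] (s.op (J.J (l + l' - mu)) w) from rfl, t.lin, s.lin, LinearMap.smul_apply,
        LinearMap.smul_apply, hv _ hH, hw _ hH, smul_smul, smul_smul, TensorProduct.tmul_smul,
        ← TensorProduct.smul_tmul', ← add_smul, inner_add_left]
      congr 1
      push_cast
      ring
    rw [hT _ (th_JH J C hH), h2, map_smul, map_smul, smul_eq_mul, ← sub_eq_zero, ← sub_mul,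
      ← mul_sub, ← Complex.ofReal_sub, ← inner_sub_left] at h1
    rcases mul_eq_zero.1 h1 with h3 | h3
    · exfalso
      rcases mul_eq_zero.1 h3 with h4 | h4
      · exact Complex.I_ne_zero h4
      · have h5 : ⟪l + l' - mu, l + l' - mu⟫_ℝ = 0 := by exact_mod_cast h4
        exact hll (sub_eq_zero.1 (inner_self_eq_zero.1 h5))
    · exact h3
  have heval : ∀ T ∈ KHom L r.op de.κ, ep (cas r de T (v₁ ⊗ₜ[ℂ] y₁)) =
      ((⟪nu - mu, y⟫_ℝ - hgt L C.a y : ℝ) : ℂ) * ep (T (v₁ ⊗ₜ[ℂ] y₁)) := by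
    intro T hT
    refine casEval r de J C hH₂ hy hmu hnu ep hn ha hm (v₁ ⊗ₜ[ℂ] y₁) ?_ ?_ hT ?_
    · intro H hH
      rw [show de.τ.op H (v₁ ⊗ₜ[ℂ] y₁) = v₁ ⊗ₜ[ℂ] (s.op H y₁) from rfl, hy₁.wt H hH,
        TensorProduct.tmul_smul]
    · intro A
      rw [show de.τ.op (J.J A) (v₁ ⊗ₜ[ℂ] y₁) = v₁ ⊗ₜ[ℂ] (s.op (J.J A) y₁) from rfl, s.lin,
        LinearMap.smul_apply, TensorProduct.tmul_smul]
      rfl
    · intro al hal hpos Z hZ
      have hal0 : al ≠ 0 := hal.2.1
      have e1 : de.κ (Z + L.th Z) (de.τ.op Z (v₁ ⊗ₜ[ℂ] y₁)) =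
          (t.op (Z + L.th Z) v₁) ⊗ₜ[ℂ] (s.op Z y₁)
          + v₁ ⊗ₜ[ℂ] (s.op (Z + L.th Z) (s.op Z y₁)) := rfl
      rcases le_or_gt 0 ⟪al, y⟫_ℝ with h0 | h0
      · have h1 : s.op Z y₁ = 0 := ext_kill s C hH₄ hy₁ hal.1 hal0 hZ h0
        rw [e1, h1, map_zero, TensorProduct.tmul_zero, TensorProduct.tmul_zero, add_zero, map_zero,
          map_zero, min_eq_right h0, mul_zero, Complex.ofReal_zero, zero_mul]
      · have hc : ⟪al, mu - y⟫_ℝ ≤ 0 := by
          rcases hcomp al hal hpos with h | h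
          · exact absurd h0 (not_lt.2 h)
          · exact h
        have hZ' := RV_th C hZ
        have hna : -al ∈ C.a := C.a.neg_mem hal.1
        have hna0 : -al ≠ 0 := neg_ne_zero.2 hal0
        have h1 : t.op (L.th Z) v₁ = 0 :=
          ext_kill t C hH₃ hv₁ hna hna0 hZ' (by rw [inner_neg_left]; linarith)
        have h2 : s.op (L.th Z) y₁ = 0 :=
          ext_kill s C hH₄ hy₁ hna hna0 hZ' (by rw [inner_neg_left]; linarith)
        have h3 : s.op (L.th Z) (s.op Z y₁) = ((⟪Z, Z⟫_ℝ * ⟪al, y⟫_ℝ : ℝ) : ℂ) • y₁ := by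
          have h4 := s.bracket (L.th Z) Z y₁
          rw [h2, map_zero, sub_zero] at h4
          rw [← h4, br_skew L, br_th_root C hal.1 hZ, neg_neg, s.smul, LinearMap.smul_apply,
            hy₁.wt al hal.1, smul_smul, real_inner_comm al y]
          push_cast
          rfl
        rw [e1, t.add, s.add, LinearMap.add_apply, LinearMap.add_apply, h1, h3, add_zero,
          TensorProduct.tmul_add, map_add, map_add, map_add, map_add, TensorProduct.tmul_smul,
          map_smul, map_smul, smul_eq_mul, min_eq_left h0.le]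
        have hv₁' : WV t C.a (mu - y) v₁ := hv₁.wt
        have hy₁' : WV s C.a y y₁ := hy₁.wt
        have hne2 : (2 : ℝ) • al ≠ 0 := smul_ne_zero two_ne_zero hal0
        have h5 : ep (T ((t.op Z v₁) ⊗ₜ[ℂ] (s.op Z y₁))) = 0 := by
          refine hvan T hT (al + (mu - y)) (C.a.add_mem hal.1 (C.a.sub_mem hmu hy)) (al + y)
            (C.a.add_mem hal.1 hy) _ _ (wt_shift t C hZ hv₁') (wt_shift s C hZ hy₁') ?_
          intro h
          apply hne2
          rw [two_smul]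
          have h6 : al + (mu - y) + (al + y) - mu = al + al := by abel
          rw [← h6, h, sub_self]
        have h6 : ep (T (v₁ ⊗ₜ[ℂ] (s.op Z (s.op Z y₁)))) = 0 := by
          refine hvan T hT (mu - y) (C.a.sub_mem hmu hy) (al + (al + y))
            (C.a.add_mem hal.1 (C.a.add_mem hal.1 hy)) _ _ hv₁'
            (wt_shift s C hZ (wt_shift s C hZ hy₁')) ?_
          intro h
          apply hne2
          rw [two_smul]
          have h6 : (mu - y) + (al + (al + y)) - mu = al + al := by abel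
          rw [← h6, h, sub_self]
        rw [h5, h6, zero_add, zero_add]
  let phi : KHom L r.op de.κ →ₗ[ℂ] ℂ :=
    { toFun := fun T => ep (T.1 (v₁ ⊗ₜ[ℂ] y₁))
      map_add' := fun S T => by
        rw [Submodule.coe_add, LinearMap.add_apply, map_add]
      map_smul' := fun c T => by
        rw [Submodule.coe_smul, LinearMap.smul_apply, map_smul, RingHom.id_apply] }
  have hT₁ : TensorProduct.lift b ∈ KHom L r.op de.κ := by
    intro Z hZ x
    induction x using TensorProduct.induction_on with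
    | zero => simp only [map_zero]
    | add x y hx hy => simp only [map_add, hx, hy]
    | tmul v w =>
      rw [show de.κ Z (v ⊗ₜ[ℂ] w) = (t.op Z v) ⊗ₜ[ℂ] w + v ⊗ₜ[ℂ] (s.op Z w) from rfl, map_add,
        TensorProduct.lift.tmul, TensorProduct.lift.tmul, TensorProduct.lift.tmul, hb Z hZ]
  obtain ⟨⟨T, hT⟩, hT0, hTe⟩ := exists_eigen_of_functional (casE r de) phi
    ((⟪nu - mu, y⟫_ℝ - hgt L C.a y : ℝ) : ℂ) (fun T => heval T.1 T.2)
    ⟨TensorProduct.lift b, hT₁⟩ (by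
      show ep (TensorProduct.lift b (v₁ ⊗ₜ[ℂ] y₁)) ≠ 0
      rw [TensorProduct.lift.tmul]
      exact hne)
  have hTe' : cas r de T = ((⟪nu - mu, y⟫_ℝ - hgt L C.a y : ℝ) : ℂ) • T :=
    congrArg Subtype.val hTe
  have hT0' : T ≠ 0 := fun h => hT0 (Subtype.ext h)
  obtain ⟨V₁, V₂, hV₁, hV₂, hK₁, hK₂, hpos, hneg⟩ :=
    coreT r de B hE cV c₀ d (tD_casα s t hcV) (tD_casτ s t hd)
      (fun V₁ _ hV₁ c hc => hc₀ V₁ ⟨hV₁.fin, hV₁.ne, hV₁.stable, hV₁.irr⟩ c hc) T hT hT0' _ hTe'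
      (by rw [Complex.ofReal_re]; exact hlt)
  have hocc : ∀ V' : Submodule ℂ X, KType r V' → V' ≤ XD r de.κ →
      ∃ b₁ : V →ₗ[ℂ] Y →ₗ[ℂ] X, (∀ v y, b₁ v y ∈ V') ∧ (∃ v y, b₁ v y ≠ 0) ∧
        ∀ Z, L.th Z = Z → ∀ v y, r.op Z (b₁ v y) = b₁ (t.op Z v) y + b₁ v (s.op Z y) := by
    intro V' hK hle
    obtain ⟨T', hT', hTV, x, hx⟩ := XD_occurs r de.κ hK hle
    refine ⟨TensorProduct.curry T', fun v y => ?_, ?_, fun Z hZ v y => ?_⟩
    · rw [TensorProduct.curry_apply]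
      exact hTV _
    · by_contra hcon
      push Not at hcon
      apply hx
      have h1 : T' = 0 := by
        apply TensorProduct.ext'
        intro v y
        have h2 := hcon v y
        rw [TensorProduct.curry_apply] at h2
        rw [h2, LinearMap.zero_apply]
      rw [h1, LinearMap.zero_apply]
    · rw [TensorProduct.curry_apply, TensorProduct.curry_apply, TensorProduct.curry_apply,
        hT' Z hZ, ← map_add]
      rfl
  exact ⟨V₁, V₂, ⟨hK₁.fin, hK₁.ne, hK₁.stable, hK₁.irr⟩, ⟨hK₂.fin, hK₂.ne, hK₂.stable, hK₂.irr⟩,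
    hocc V₁ hK₁ hV₁, hocc V₂ hK₂ hV₂, hpos, hneg⟩

end

end Pool.Agent.Lib.MP_4322ef_CH
end

section

/-!
# Twisted modules of polynomials: tensor products

* `vd_zero`: `M = ℂ`, `op = 0`, `v = 1`, `ev = id`.
* `vd_add`: `M ⊗ M'`, `op A = op A ⊗ 1 + 1 ⊗ op A`, `v ⊗ v'`, `ev ⊗ ev'` (`TensorProduct.map` and `TensorProduct.lid`).
-/

set_option autoImplicit false

open scoped InnerProductSpace TensorProduct

namespace Pool.Agent.Lib.MP_4322ef_CH

open Pool.Agent.Lib.MP_4322ef_al.SR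

variable {g : Type} [NormedAddCommGroup g] [InnerProductSpace ℝ g] {L : RedLie g}

section
variable {J : CStr L}

theorem vd_zero (J : CStr L) (a : Submodule ℝ g) (H₁ : g) : Nonempty (VD J a H₁ 0 ℂ) := by
  refine ⟨{ op := fun _ => 0, add := ?_, smul := ?_, bracket := ?_, lin := ?_, v := 1,
            ev := LinearMap.id, ev_v := rfl, wt := ?_, pos := ?_, ev_wt := ?_, ev_neg := ?_ }⟩
  · intro A B
    rw [add_zero]
  · intro r A
    rw [smul_zero]
  · intro A B x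
    simp
  · intro A
    rw [smul_zero]
  · intro H _
    simp
  · intro Z _
    rfl
  · intro H _ x
    simp
  · intro Z _ x
    rfl

/-- the operators on the tensor product -/
noncomputable def H01a_op {M M' : Type} [AddCommGroup M] [Module ℂ M] [AddCommGroup M']
    [Module ℂ M'] (S : M →ₗ[ℂ] M) (S' : M' →ₗ[ℂ] M') : (M ⊗[ℂ] M') →ₗ[ℂ] (M ⊗[ℂ] M') :=
  TensorProduct.map S LinearMap.id + TensorProduct.map LinearMap.id S'

theorem H01a_tmul {M M' : Type} [AddCommGroup M] [Module ℂ M] [AddCommGroup M']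
    [Module ℂ M'] (S : M →ₗ[ℂ] M) (S' : M' →ₗ[ℂ] M') (m : M) (m' : M') :
    H01a_op S S' (m ⊗ₜ[ℂ] m') = (S m) ⊗ₜ[ℂ] m' + m ⊗ₜ[ℂ] (S' m') := by
  simp [H01a_op]

theorem vd_add {a : Submodule ℝ g} {H₁ lam lam' : g} {M M' : Type} [AddCommGroup M] [Module ℂ M]
    [AddCommGroup M'] [Module ℂ M'] (K : VD J a H₁ lam M) (K' : VD J a H₁ lam' M') :
    Nonempty (VD J a H₁ (lam + lam') (M ⊗[ℂ] M')) := by
  have hev : ∀ (m : M) (m' : M'),
      ((TensorProduct.lid ℂ ℂ).toLinearMap ∘ₗ TensorProduct.map K.ev K'.ev) (m ⊗ₜ[ℂ] m') =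
        K.ev m * K'.ev m' := by
    intro m m'
    simp
  refine ⟨{ op := fun A => H01a_op (K.op A) (K'.op A), add := ?_, smul := ?_, bracket := ?_,
            lin := ?_, v := K.v ⊗ₜ[ℂ] K'.v,
            ev := (TensorProduct.lid ℂ ℂ).toLinearMap ∘ₗ TensorProduct.map K.ev K'.ev,
            ev_v := ?_, wt := ?_, pos := ?_, ev_wt := ?_, ev_neg := ?_ }⟩
  · intro A B
    refine TensorProduct.ext' fun m m' => ?_
    rw [LinearMap.add_apply, H01a_tmul, H01a_tmul, H01a_tmul, K.add, K'.add, LinearMap.add_apply,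
      LinearMap.add_apply, TensorProduct.add_tmul, TensorProduct.tmul_add]
    abel
  · intro r A
    refine TensorProduct.ext' fun m m' => ?_
    rw [LinearMap.smul_apply, H01a_tmul, H01a_tmul, K.smul, K'.smul, LinearMap.smul_apply,
      LinearMap.smul_apply, smul_add, ← TensorProduct.smul_tmul', TensorProduct.tmul_smul]
  · intro A B x
    induction x using TensorProduct.induction_on with
    | zero => simp
    | tmul m m' =>
      rw [H01a_tmul, H01a_tmul, H01a_tmul, map_add, map_add, H01a_tmul, H01a_tmul, H01a_tmul,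
        H01a_tmul, K.bracket, K'.bracket, TensorProduct.sub_tmul, TensorProduct.tmul_sub]
      abel
    | add x y hx hy =>
      rw [map_add, map_add, map_add, map_add, map_add, hx, hy]
      abel
  · intro A
    refine TensorProduct.ext' fun m m' => ?_
    rw [LinearMap.smul_apply, H01a_tmul, H01a_tmul, K.lin, K'.lin, LinearMap.smul_apply,
      LinearMap.smul_apply, smul_add, ← TensorProduct.smul_tmul', TensorProduct.tmul_smul]
  · rw [hev, K.ev_v, K'.ev_v, one_mul]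
  · intro H hH
    rw [H01a_tmul, K.wt H hH, K'.wt H hH, ← TensorProduct.smul_tmul', TensorProduct.tmul_smul,
      ← add_smul, inner_add_left]
    push_cast
    rfl
  · intro Z hZ
    rw [H01a_tmul, K.pos Z hZ, K'.pos Z hZ, TensorProduct.zero_tmul, TensorProduct.tmul_zero,
      add_zero]
  · intro H hH x
    induction x using TensorProduct.induction_on with
    | zero => simp
    | tmul m m' =>
      rw [H01a_tmul, map_add, hev, hev, hev, K.ev_wt H hH, K'.ev_wt H hH, inner_add_left]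
      push_cast
      ring
    | add x y hx hy =>
      rw [map_add, map_add, map_add, hx, hy, mul_add]
  · intro Z hZ x
    induction x using TensorProduct.induction_on with
    | zero => simp
    | tmul m m' =>
      rw [H01a_tmul, map_add, hev, hev, K.ev_neg Z hZ, K'.ev_neg Z hZ, zero_mul, mul_zero, add_zero]
    | add x y hx hy =>
      rw [map_add, map_add, hx, hy, add_zero]

end

end Pool.Agent.Lib.MP_4322ef_CH
end
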