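import Pool.Agent.Lib.MP_4322ef_CH.Mg.G007
import Pool.Agent.Lib.MP_4322ef_CH.Mg.G008
import Pool.Agent.Lib.MP_4322ef_CH.Mg.G005
import Pool.Agent.Lib.MP_4322ef_CH.Mg.G003
import Pool.Agent.Lib.MP_4322ef_CH.Mg.G006
import Pool.Agent.Lib.MP_4322ef_CH.Mg.G004
import Pool.Agent.Lib.MP_4322ef_CH.Mg.G002

section

/-! # The main theorem -/

set_option autoImplicit false

open scoped InnerProductSpace TensorProduct

namespace Pool.Agent.Lib.MP_4322ef_CH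

open Pool.Agent.Lib.MP_4322ef_al.SR

variable {g : Type} [NormedAddCommGroup g] [InnerProductSpace ℝ g] [FiniteDimensional ℝ g]
  {L : RedLie g}

/-- the geometric part: all weights of `V ⊗ Y` lie in the hull -/
theorem geo {J : CStr L} (C : CSub L) {mu y p p' : g} (hmu : mu ∈ C.a) (hy : y ∈ C.a)
    (hfund : Fund L C.a y) (hp : InHull L C.a p) (hp' : InHull L C.a p')
    (hpp : p + p' = (2 : ℝ) • mu) (hpy : ⟪p, y⟫_ℝ = hgt L C.a y)
    {V : Type} [NormedAddCommGroup V] [InnerProductSpace ℂ V] [FiniteDimensional ℂ V]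
    {Y : Type} [NormedAddCommGroup Y] [InnerProductSpace ℂ Y] [FiniteDimensional ℂ Y]
    (t : CRep J V) (ht : Irr t) (s : CRep J Y) (hs : Irr s) {H₁ H₂ : g} (hH₁ : Reg L C.a H₁)
    (hH₂ : Reg L C.a H₂) {v : V} {w : Y} (hv : HW t C.a H₁ (mu - y) v) (hw : HW s C.a H₂ y w)
    {l l' : g} (hl : IsW t C.a l) (hl' : IsW s C.a l') : InHull L C.a (l + l') := by
  obtain ⟨P, hP, hPm, hPh, hPv, hP0⟩ := exists_P C
  have key : (⟨l, hl.1⟩ : C.a) + ⟨l', hl'.1⟩ ∈ ZZ P := by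
    refine R2 hP (H₁ := ⟨H₁, hH₁.1⟩) (H₂ := ⟨H₂, hH₂.1⟩) (m := ⟨mu, hmu⟩) (y := ⟨y, hy⟩)
      (p := ⟨p, hp.1⟩) (p' := ⟨p', hp'.1⟩) (fun al ha => hH₁.2 _ ((hPm al).1 ha))
      (fun al ha => hH₂.2 _ ((hPm al).1 ha)) ?_ ?_ ?_ ?_ ?_ ?_
      (PV := {x : C.a | IsW t C.a x}) (PY := {x : C.a | IsW s C.a x}) ?_ ?_ ?_ ?_ ?_ ?_ hl hl'
    · intro al ha hpos
      exact hw_dom s C hH₂ hw ((hPm al).1 ha) hpos
    · intro H hH hyH al ha hpos
      have h1 := hfund H ⟨H.2, fun be hbe => hH ⟨be, hbe.1⟩ ((hPm _).2 hbe)⟩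
        (fun be hbe hpos' => hyH ⟨be, hbe.1⟩ ((hPm _).2 hbe) hpos') al ((hPm al).1 ha) hpos
      have h2 := hPv H al
      rw [inner_sub_right, real_inner_smul_right, real_inner_comm (vc P H) al, h2, sub_nonneg,
        real_inner_comm]
      exact h1
    · intro x
      rw [hPh]
      exact hp.2 x x.2
    · intro x
      rw [hPh]
      exact hp'.2 x x.2
    · exact Subtype.ext hpp
    · rw [hPh]
      exact hpy
    · exact (wt_finite t C).preimage Subtype.val_injective.injOn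
    · exact (wt_finite s C).preimage Subtype.val_injective.injOn
    · intro x hx al ha
      exact wt_refl t C hx ((hPm al).1 ha)
    · intro x hx al ha
      exact wt_refl s C hx ((hPm al).1 ha)
    · intro x hx c hc
      exact hw_bound t C ht hH₁ hv hx c.2
        (fun al ha hpos => hc ⟨al, ha.1⟩ ((hPm _).2 ha) hpos)
    · intro x hx c hc
      exact hw_bound s C hs hH₂ hw hx c.2
        (fun al ha hpos => hc ⟨al, ha.1⟩ ((hPm _).2 ha) hpos)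
  refine ⟨C.a.add_mem hl.1 hl'.1, fun H hH => ?_⟩
  have h1 := key ⟨H, hH⟩
  rw [hPh] at h1
  exact h1

/-- the numerical inequality -/
theorem ineq (C : CSub L) {mu nu y p p' : g} (hmu : mu ∈ C.a)
    (hy : y ∈ C.a) (hp : InHull L C.a p) (hp' : InHull L C.a p')
    (hpp : p + p' = (2 : ℝ) • mu) (hfund : Fund L C.a y)
    (hout : hgt L C.a y < ⟪mu + nu, y⟫_ℝ) :
    hgt L C.a (mu - y) + hgt L C.a y - hgt L C.a mu < 2 * ⟪nu, y⟫_ℝ := by
  obtain ⟨P, hP, hPm, hPh, hPv, hP0⟩ := exists_P C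
  have hmZ : (⟨mu, hmu⟩ : C.a) ∈ ZZ P := by
    intro x
    have h1 := hp.2 x x.2
    have h2 := hp'.2 x x.2
    have h3 : ⟪p, (x : g)⟫_ℝ + ⟪p', (x : g)⟫_ℝ = 2 * ⟪mu, (x : g)⟫_ℝ := by
      rw [← inner_add_left, hpp, real_inner_smul_left]
    rw [hPh]
    have h4 : ⟪(⟨mu, hmu⟩ : C.a), x⟫_ℝ = ⟪mu, (x : g)⟫_ℝ := rfl
    rw [h4]
    linarith
  have h := R1' hP hP0 hmZ (y := ⟨y, hy⟩) (fun H hH hyH al ha hpos => by
    have h1 := hfund H ⟨H.2, fun be hbe => hH ⟨be, hbe.1⟩ ((hPm _).2 hbe)⟩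
      (fun be hbe hpos' => hyH ⟨be, hbe.1⟩ ((hPm _).2 hbe) hpos') al ((hPm al).1 ha) hpos
    have h2 := hPv H al
    rw [inner_sub_right, real_inner_smul_right, real_inner_comm (vc P H) al, h2, sub_nonneg,
      real_inner_comm]
    exact h1)
  have e1 := hPh (⟨mu, hmu⟩ - ⟨y, hy⟩)
  have e2 := hPh ⟨mu, hmu⟩
  have e3 := hPh ⟨y, hy⟩
  have e4 : ⟪(⟨mu, hmu⟩ : C.a), (⟨y, hy⟩ : C.a)⟫_ℝ = ⟪mu, y⟫_ℝ := rfl
  rw [e1, e2, e3, e4] at h
  have e5 : (((⟨mu, hmu⟩ : C.a) - ⟨y, hy⟩ : C.a) : g) = mu - y := rfl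
  rw [e5] at h
  have e6 : ⟪mu + nu, y⟫_ℝ = ⟪mu, y⟫_ℝ + ⟪nu, y⟫_ℝ := inner_add_left _ _ _
  have h' : hgt L C.a (mu - y) + 2 * ⟪mu, y⟫_ℝ ≤ hgt L C.a mu + hgt L C.a y := h
  linarith

/-- a nonzero functional with the exponents of `InPS` does not vanish on a `k₀`-type; the `k₀`-type
has the weight `mu` -/
theorem ep_wt (J : CStr L) (C : CSub L)
    {X : Type} [NormedAddCommGroup X] [InnerProductSpace ℂ X] (r : HC L X)
    {H₂ mu nu : g} (hH₂ : Reg L C.a H₂) (hmua : mu ∈ C.a) (ep : X →ₗ[ℂ] ℂ) (hep0 : ep ≠ 0)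
    (hepn : ∀ Z, (∃ c : ℝ, 0 < c ∧ L.br H₂ Z = c • Z) → ∀ x, ep (r.op Z x) = 0)
    (hepa : ∀ H ∈ C.a, ∀ x, ep (r.op H x) =
      (((∑ᶠ be ∈ {be | be ∈ roots L C.a ∧ 0 < ⟪be, H₂⟫_ℝ}, ⟪be, H⟫_ℝ) - ⟪nu, H⟫_ℝ : ℝ) : ℂ) * ep x)
    (hepm : ∀ H ∈ C.a, ∀ x, ep (r.op (J.J H) x) = (Complex.I * (⟪mu, H⟫_ℝ : ℂ)) * ep x)
    {V₀ : Submodule ℂ X} (hV₀ : IsKType L r.op V₀) (t₀ : CRep J V₀)
    (hk₀ : ∀ Z, L.th Z = Z → ∀ v : V₀, ((t₀.op Z v : V₀) : X) = r.op Z v) :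
    ∃ w : V₀, WV t₀ C.a mu w ∧ ep (w : X) ≠ 0 := by
  have hV₀fin := hV₀.fin
  obtain ⟨C₂, hC₂a, hC₂H⟩ := exists_csub C hH₂
  obtain ⟨u, hu, hu0⟩ := eps_ne r C₂ ep hep0
    (fun H => (((∑ᶠ be ∈ {be | be ∈ roots L C.a ∧ 0 < ⟪be, H₂⟫_ℝ}, ⟪be, H⟫_ℝ)
      - ⟪nu, H⟫_ℝ : ℝ) : ℂ))
    (fun Z hZ x => by
      have h1 : C₂.n ≤ LinearMap.ker (show g →ₗ[ℝ] ℂ from
          { toFun := fun A => ep (r.op A x)
            map_add' := fun A A' => by rw [r.add, LinearMap.add_apply, map_add]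
            map_smul' := fun c A => by
              rw [r.smul, LinearMap.smul_apply, map_smul, Complex.coe_smul,
                RingHom.id_apply] }) := by
        refine Submodule.span_le.2 ?_
        rintro Z ⟨c, hc, hcZ⟩
        rw [hC₂H] at hcZ
        exact LinearMap.mem_ker.2 (hepn Z ⟨c, hc, hcZ⟩ x)
      exact LinearMap.mem_ker.1 (h1 hZ))
    (fun H hH x => hepa H (hC₂a ▸ hH) x) V₀ hV₀.stable hV₀.ne
  have h2 : ∃ lam ∈ C.a, ∃ w : V₀, WV t₀ C.a lam w ∧ ep (w : X) ≠ 0 := by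
    by_contra hcon
    push Not at hcon
    apply hu0
    have h3 : Submodule.span ℂ {v | ∃ lam ∈ C.a, WV t₀ C.a lam v} ≤
        LinearMap.ker (ep ∘ₗ V₀.subtype) := by
      refine Submodule.span_le.2 ?_
      rintro w ⟨lam, hlam, hw⟩
      exact LinearMap.mem_ker.2 (hcon lam hlam w hw)
    exact LinearMap.mem_ker.1 (h3 (wt_span t₀ C ⟨u, hu⟩))
  obtain ⟨lam, hlam, w, hw, hwe⟩ := h2
  have h4 : ∀ H ∈ C.a, ⟪lam, H⟫_ℝ = ⟪mu, H⟫_ℝ := by
    intro H hH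
    have h5 := hepm H hH w
    have h6 : r.op (J.J H) (w : X) = (Complex.I * (⟪lam, H⟫_ℝ : ℂ)) • (w : X) := by
      have h7 := hk₀ (J.J H) (th_JH J C hH) w
      rw [t₀.lin, LinearMap.smul_apply, hw H hH, smul_smul] at h7
      rw [← h7]
      rfl
    rw [h6, map_smul, smul_eq_mul] at h5
    have h8 := mul_right_cancel₀ hwe h5
    have h9 := mul_left_cancel₀ Complex.I_ne_zero h8
    exact_mod_cast h9
  have h5 : lam = mu := by
    have h6 : lam - mu ∈ C.a := C.a.sub_mem hlam hmua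
    have h7 := h4 _ h6
    rw [← sub_eq_zero, ← inner_sub_left] at h7
    exact sub_eq_zero.1 (inner_self_eq_zero.1 h7)
  exact ⟨w, h5 ▸ hw, hwe⟩

theorem main (J : CStr L) (C : CSub L)
    {X : Type} [NormedAddCommGroup X] [InnerProductSpace ℂ X] (r : HC L X) (B : InvForm r)
    {Y : Type} [NormedAddCommGroup Y] [InnerProductSpace ℂ Y] [FiniteDimensional ℂ Y]
    (s : CRep J Y) (hs : Irr s)
    {V : Type} [NormedAddCommGroup V] [InnerProductSpace ℂ V] [FiniteDimensional ℂ V]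
    (t : CRep J V) (ht : Irr t)
    {V₀ : Submodule ℂ X} (hV₀ : IsKType L r.op V₀)
    {H₂ mu nu y p p' : g} (hH₂ : Reg L C.a H₂) (hnu : nu ∈ C.a)
    (hX : InPS J C.a r.op H₂ mu nu)
    (hmu : IsExt J C.a r.op V₀ mu) (hVw : IsExt J C.a t.op ⊤ (mu - y))
    (hyw : IsExt J C.a s.op ⊤ y)
    (b : V →ₗ[ℂ] Y →ₗ[ℂ] X) (hbV : ∀ v y, b v y ∈ V₀)
    (hb : ∀ Z, L.th Z = Z → ∀ v y, r.op Z (b v y) = b (t.op Z v) y + b v (s.op Z y))
    (hb0 : ∃ v w, b v w ≠ 0 ∧ (∀ H ∈ C.a, t.op H v = (⟪mu - y, H⟫_ℝ : ℂ) • v) ∧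
      ∀ H ∈ C.a, s.op H w = (⟪y, H⟫_ℝ : ℂ) • w)
    (hcomp : ∀ al ∈ roots L C.a, 0 < ⟪al, H₂⟫_ℝ → 0 ≤ ⟪al, y⟫_ℝ ∨ ⟪al, mu - y⟫_ℝ ≤ 0)
    (hfund : Fund L C.a y)
    (hp : InHull L C.a p) (hp' : InHull L C.a p') (hpp : p + p' = (2 : ℝ) • mu)
    (hpy : ⟪p, y⟫_ℝ = hgt L C.a y) (hout : hgt L C.a y < ⟪mu + nu, y⟫_ℝ) :
    ∃ V₁ V₂ : Submodule ℂ X, IsKType L r.op V₁ ∧ IsKType L r.op V₂ ∧
      Small J C.a r.op V₁ ∧ Small J C.a r.op V₂ ∧
      (∀ v ∈ V₁, v ≠ 0 → 0 < (B.form v v).re) ∧ ∀ v ∈ V₂, v ≠ 0 → (B.form v v).re < 0 := by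
  obtain ⟨H₁, hH₁, hmu⟩ := hmu
  obtain ⟨H₃, hH₃, hVw⟩ := hVw
  obtain ⟨H₄, hH₄, hyw⟩ := hyw
  have hy : y ∈ C.a := hyw.1
  have hmua : mu ∈ C.a := hmu.1
  have hV₀fin := hV₀.fin
  obtain ⟨t₀, hirr₀, hk₀, hcas₀⟩ := ktype_pack r.toRep r.skew J hV₀
  obtain ⟨v₀, hv₀⟩ := high_hw r.toRep J C hk₀ hmu
  obtain ⟨v₁, hv₁⟩ := high_hw' t C hVw
  obtain ⟨y₁, hy₁⟩ := high_hw' s C hyw
  -- Casimir operators
  have hcV := cas_scalar t C ht hH₃ hv₁
  have hcY := cas_scalar s C hs hH₄ hy₁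
  have hin := ineq C (nu := nu) hmua hy hp hp' hpp hfund hout
  obtain ⟨ep, hep0, hepn, hepa, hepm⟩ := hX
  obtain ⟨w, hw, hwe⟩ := ep_wt J C r hH₂ hmua ep hep0 hepn hepa hepm hV₀ t₀ hk₀
  -- the product of the extreme weight vectors
  obtain ⟨v', w', hbvw, hv', hw'⟩ := hb0
  obtain ⟨cv, hcv⟩ := hw_mult t C ht hH₃ hv₁ hv'
  obtain ⟨cw, hcw⟩ := hw_mult s C hs hH₄ hy₁ hw'
  have hb1 : b v₁ y₁ ≠ 0 := by
    intro h0
    apply hbvw
    rw [hcv, hcw, map_smul, map_smul, LinearMap.smul_apply, h0, smul_zero, smul_zero]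
  let u : V₀ := ⟨b v₁ y₁, hbV v₁ y₁⟩
  have hu0 : u ≠ 0 := fun h => hb1 (congrArg Subtype.val h)
  have huw : WV t₀ C.a mu u := by
    intro H hH
    apply Subtype.ext
    have h1 : ((t₀.op (J.J H) u : V₀) : X) = r.op (J.J H) (b v₁ y₁) := hk₀ _ (th_JH J C hH) u
    have h2 : r.op (J.J H) (b v₁ y₁) = Complex.I • ((⟪mu, H⟫_ℝ : ℂ) • b v₁ y₁) := by
      rw [hb _ (th_JH J C hH), t.lin, s.lin, LinearMap.smul_apply, LinearMap.smul_apply,
        hv₁.wt H hH, hy₁.wt H hH, map_smul, map_smul, map_smul, map_smul, LinearMap.smul_apply,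
        LinearMap.smul_apply, inner_sub_left, ← smul_add, ← add_smul]
      push_cast
      congr 2
      ring
    rw [t₀.lin, LinearMap.smul_apply, h2] at h1
    have h3 : Complex.I • ((t₀.op H u : V₀) : X) = Complex.I • ((⟪mu, H⟫_ℝ : ℂ) • b v₁ y₁) := h1
    exact smul_right_injective X Complex.I_ne_zero h3
  have hepb : ep (b v₁ y₁) ≠ 0 := by
    obtain ⟨c, hc⟩ := hw_mult t₀ C hirr₀ hH₁ hv₀ hw
    obtain ⟨c', hc'⟩ := hw_mult t₀ C hirr₀ hH₁ hv₀ huw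
    have h1 : (w : X) = c • (v₀ : X) := by rw [hc]; rfl
    have h2 : b v₁ y₁ = c' • (v₀ : X) := by
      have h3 : (u : X) = c' • (v₀ : X) := by rw [hc']; rfl
      exact h3
    have hc'0 : c' ≠ 0 := by
      intro h0
      apply hu0
      rw [hc', h0, zero_smul]
    rw [h2, map_smul, smul_eq_mul]
    refine mul_ne_zero hc'0 ?_
    intro h0
    apply hwe
    rw [h1, map_smul, h0, smul_zero]
  obtain ⟨V₁, V₂, hK₁, hK₂, ⟨b₁, hb₁V, hb₁0, hb₁⟩, ⟨b₂, hb₂V, hb₂0, hb₂⟩, hpos, hneg⟩ :=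
    transE r B J C s (⟪y, y⟫_ℝ + hgt L C.a y) hcY t (⟪mu - y, mu - y⟫_ℝ + hgt L C.a (mu - y)) hcV
      hH₂ hH₃ hH₄ hmua hnu hcomp ep hepn hepa hepm hy₁ hv₁ b hb hepb
      (⟪mu, mu⟫_ℝ + hgt L C.a mu)
      (fun V₁ hV₁ c hc => by
        have hV₁fin := hV₁.fin
        obtain ⟨t₁, hirr₁, hk₁, hcas₁⟩ := ktype_pack r.toRep r.skew J hV₁
        obtain ⟨w₁, hw₁, hwe₁⟩ := ep_wt J C r hH₂ hmua ep hep0 hepn hepa hepm hV₁ t₁ hk₁
        have hw₁0 : w₁ ≠ 0 := by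
          intro h0
          apply hwe₁
          rw [h0, Submodule.coe_zero, map_zero]
        obtain ⟨c', hc', hle⟩ := low t₁ C hirr₁ ⟨hmua, w₁, hw₁0, hw₁⟩
        have h1 := hcas₁ w₁
        rw [hc', hc _ w₁.2] at h1
        have h2 : (c : ℂ) • (w₁ : X) = (c' : ℂ) • (w₁ : X) := h1
        have h3 : (w₁ : X) ≠ 0 := fun h => hw₁0 (Subtype.ext h)
        have h4 := smul_left_injective ℂ h3 h2
        have h5 : c = c' := by exact_mod_cast h4
        rw [h5]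
        exact hle)
      (by
        have e1 : ⟪mu - y, mu - y⟫_ℝ = ⟪mu, mu⟫_ℝ - 2 * ⟪mu, y⟫_ℝ + ⟪y, y⟫_ℝ := by
          rw [inner_sub_left, inner_sub_right, inner_sub_right, real_inner_comm mu y]
          ring
        have e2 : ⟪nu - mu, y⟫_ℝ = ⟪nu, y⟫_ℝ - ⟪mu, y⟫_ℝ := inner_sub_left _ _ _
        rw [e1, e2]
        linarith)
  refine ⟨V₁, V₂, hK₁, hK₂, ?_, ?_, hpos, hneg⟩
  · exact small_of r.toRep r.skew J C hK₁ t s b₁ hb₁V hb₁0 hb₁ (fun l hl l' hl' =>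
      geo C hmua hy hfund hp hp' hpp hpy t ht s hs hH₃ hH₄ hv₁ hy₁ hl hl')
  · exact small_of r.toRep r.skew J C hK₂ t s b₂ hb₂V hb₂0 hb₂ (fun l hl l' hl' =>
      geo C hmua hy hfund hp hp' hpp hpy t ht s hs hH₃ hH₄ hv₁ hy₁ hl hl')

end Pool.Agent.Lib.MP_4322ef_CH
end

section

/-!
# Twisted modules of polynomials

* `vd_twist`: let `n = ‖v‖⁻¹ • v` (a unit vector), `P x = x - ⟪n, x⟫ • n`, `e` an orthonormal basis of `V` (`Fin N`),
  `A = MvPolynomial (Fin N) ℂ`, `π x = C ⟪n, x⟫ + ∑ j, ⟪e j, P x⟫ • X j` (linear in `x`, `π n = 1`). For `Z ∈ g` let `D Z` be the derivation of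
  `A` with `D Z (X j) = π (Z (P (e j))) - π (P (e j)) * π (Z n)` (`MvPolynomial.mkDerivation`). Then for all `x ∈ V`
      `D Z (π x) = π (Z x) - π x * π (Z n)`                                                                            (1)
  (for `x = P x` since `∑ ⟪e j, P x⟫ • P (e j) = P x`; for `x = n` both sides are `0`). From (1):
  `D Z (D Z' (π x)) - D Z' (D Z (π x)) = π ([Z, Z'] x) - π x * π ([Z, Z'] n)`, so `[D Z, D Z'] = D [Z, Z']` on the `X j` (take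
  `x = P (e j)`), hence everywhere (`MvPolynomial.derivation_ext` or `MvPolynomial.derivation_eq_of_forall_mem_vars` etc.). `M = A`,
  `op Z f = D Z f + s • (π (Z n) * f)`: the bracket relation follows from `D Z (π (Z' n)) - D Z' (π (Z n)) = π ([Z, Z'] n)`, which
  is (1). `D (J Z) = i D Z`. `v = 1`, `op Z 1 = s • π (Z n)`: zero for positive `Z`, `s ⟪be, H⟫` for `Z = H ∈ a`. `ev` = evaluation at
  `0` (`MvPolynomial.constantCoeff` or `aeval 0`), `ev (π x) = ⟪n, x⟫`. For negative `Z`: `θ Z` is positive, so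
  `ev (D Z (X j)) = ⟪n, Z (P (e j))⟫ - ⟪n, P (e j)⟫ * _ = -⟪(θ Z) n, P (e j)⟫ = 0`, hence `ev (D Z f) = 0` for all `f` (by the Leibniz
  rule, `MvPolynomial.induction_on`), and `ev (π (Z n)) = ⟪n, Z n⟫ = 0`. For `H ∈ a`: `ev (D H (X j)) = ⟪n, H (P (e j))⟫ = ⟪H n, P (e j)⟫ = 0`,
  and `ev (π (H n)) = ⟪be, H⟫`.
-/

set_option autoImplicit false

open scoped InnerProductSpace TensorProduct

namespace Pool.Agent.Lib.MP_4322ef_CH

open Pool.Agent.Lib.MP_4322ef_al.SR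

variable {g : Type} [NormedAddCommGroup g] [InnerProductSpace ℝ g] {L : RedLie g}

section twist
variable {V : Type} [NormedAddCommGroup V] [InnerProductSpace ℂ V]

/-- the projection along `n` -/
noncomputable def H01b_P (n : V) : V →ₗ[ℂ] V :=
  LinearMap.id - ((innerₛₗ ℂ n).smulRight n)

theorem H01b_P_apply (n x : V) : H01b_P n x = x - ⟪n, x⟫_ℂ • n := rfl

variable {N : ℕ}

/-- the linear map to polynomials -/
noncomputable def H01b_pi (e : OrthonormalBasis (Fin N) ℂ V) (n : V) :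
    V →ₗ[ℂ] MvPolynomial (Fin N) ℂ :=
  (innerₛₗ ℂ n).smulRight 1 +
    ∑ j, ((innerₛₗ ℂ (e j)) ∘ₗ H01b_P n).smulRight (MvPolynomial.X j)

theorem H01b_pi_apply (e : OrthonormalBasis (Fin N) ℂ V) (n x : V) :
    H01b_pi e n x = ⟪n, x⟫_ℂ • 1 + ∑ j, ⟪e j, H01b_P n x⟫_ℂ • MvPolynomial.X j := by
  simp [H01b_pi]

/-- the derivation of the linear map `T` -/
noncomputable def H01b_D (e : OrthonormalBasis (Fin N) ℂ V) (n : V) (T : V →ₗ[ℂ] V) :
    Derivation ℂ (MvPolynomial (Fin N) ℂ) (MvPolynomial (Fin N) ℂ) :=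
  MvPolynomial.mkDerivation ℂ fun j => H01b_pi e n (T (H01b_P n (e j))) -
    H01b_pi e n (H01b_P n (e j)) * H01b_pi e n (T n)

theorem H01b_D_X (e : OrthonormalBasis (Fin N) ℂ V) (n : V) (T : V →ₗ[ℂ] V) (j : Fin N) :
    H01b_D e n T (MvPolynomial.X j) = H01b_pi e n (T (H01b_P n (e j))) -
      H01b_pi e n (H01b_P n (e j)) * H01b_pi e n (T n) :=
  MvPolynomial.mkDerivation_X _ _ _

theorem H01b_P_n {n : V} (hn : ⟪n, n⟫_ℂ = 1) : H01b_P n n = 0 := by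
  rw [H01b_P_apply, hn, one_smul, sub_self]

theorem H01b_inner_P {n : V} (hn : ⟪n, n⟫_ℂ = 1) (x : V) : ⟪n, H01b_P n x⟫_ℂ = 0 := by
  rw [H01b_P_apply, inner_sub_right, inner_smul_right, hn, mul_one, sub_self]

theorem H01b_P_P {n : V} (hn : ⟪n, n⟫_ℂ = 1) (x : V) : H01b_P n (H01b_P n x) = H01b_P n x := by
  conv_lhs => rw [H01b_P_apply]
  rw [H01b_inner_P hn, zero_smul, sub_zero]

theorem H01b_pi_n (e : OrthonormalBasis (Fin N) ℂ V) {n : V} (hn : ⟪n, n⟫_ℂ = 1) :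
    H01b_pi e n n = 1 := by
  rw [H01b_pi_apply, hn, H01b_P_n hn, one_smul]
  simp

theorem H01b_D_pi (e : OrthonormalBasis (Fin N) ℂ V) {n : V} (hn : ⟪n, n⟫_ℂ = 1)
    (T : V →ₗ[ℂ] V) (x : V) : H01b_D e n T (H01b_pi e n x) =
      H01b_pi e n (T x) - H01b_pi e n x * H01b_pi e n (T n) := by
  have h1 : H01b_D e n T (H01b_pi e n x) = H01b_pi e n (T (H01b_P n x)) -
      H01b_pi e n (H01b_P n x) * H01b_pi e n (T n) := by
    have e1 : ∑ j, ⟪e j, H01b_P n x⟫_ℂ • e j = H01b_P n x := e.sum_repr' _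
    have e2 : H01b_P n x = ∑ j, ⟪e j, H01b_P n x⟫_ℂ • H01b_P n (e j) := by
      conv_lhs => rw [← H01b_P_P hn, ← e1]
      rw [map_sum]
      exact Finset.sum_congr rfl fun j _ => map_smul _ _ _
    rw [H01b_pi_apply]
    conv_rhs => rw [e2]
    simp only [map_add, map_sum, map_smul, Derivation.map_smul, Derivation.map_one_eq_zero,
      smul_zero, zero_add, H01b_D_X, smul_sub, Finset.sum_sub_distrib, Finset.sum_mul,
      smul_mul_assoc]
  have h2 : x = H01b_P n x + ⟪n, x⟫_ℂ • n := by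
    rw [H01b_P_apply, sub_add_cancel]
  rw [h1]
  conv_rhs => rw [h2]
  simp only [map_add, map_smul, H01b_pi_n e hn, add_mul, smul_mul_assoc, one_mul]
  ring

theorem H01b_D_br (e : OrthonormalBasis (Fin N) ℂ V) {n : V} (hn : ⟪n, n⟫_ℂ = 1)
    {T S U : V →ₗ[ℂ] V} (h : ∀ x, U x = T (S x) - S (T x)) (f : MvPolynomial (Fin N) ℂ) :
    H01b_D e n U f = H01b_D e n T (H01b_D e n S f) - H01b_D e n S (H01b_D e n T f) := by
  have h1 : H01b_D e n U = ⁅H01b_D e n T, H01b_D e n S⁆ := by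
    refine MvPolynomial.derivation_ext fun j => ?_
    rw [Derivation.commutator_apply]
    obtain ⟨x, hx⟩ : ∃ x, x = H01b_P n (e j) := ⟨_, rfl⟩
    rw [H01b_D_X, H01b_D_X, H01b_D_X, ← hx]
    simp only [map_sub, Derivation.leibniz, H01b_D_pi e hn, h, smul_eq_mul]
    ring
  rw [h1, Derivation.commutator_apply]

end twist

section ev
variable {N : ℕ}

/-- evaluation at `0` -/
noncomputable def H01b_ev : MvPolynomial (Fin N) ℂ →ₗ[ℂ] ℂ :=
  (MvPolynomial.aeval (R := ℂ) (fun _ : Fin N => (0 : ℂ))).toLinearMap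

theorem H01b_ev_one : H01b_ev (N := N) 1 = 1 := by
  simp [H01b_ev]

theorem H01b_ev_mul (f h : MvPolynomial (Fin N) ℂ) :
    H01b_ev (f * h) = H01b_ev f * H01b_ev h := by
  simp [H01b_ev]

theorem H01b_ev_X (j : Fin N) : H01b_ev (MvPolynomial.X j : MvPolynomial (Fin N) ℂ) = 0 := by
  simp [H01b_ev]

theorem H01b_ev_pi {V : Type} [NormedAddCommGroup V] [InnerProductSpace ℂ V]
    (e : OrthonormalBasis (Fin N) ℂ V) (n x : V) : H01b_ev (H01b_pi e n x) = ⟪n, x⟫_ℂ := by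
  rw [H01b_pi_apply]
  simp only [map_add, map_sum, map_smul, H01b_ev_one, H01b_ev_X, smul_eq_mul, mul_zero,
    Finset.sum_const_zero, add_zero, mul_one]

theorem H01b_ev_D (D : Derivation ℂ (MvPolynomial (Fin N) ℂ) (MvPolynomial (Fin N) ℂ))
    (h : ∀ j, H01b_ev (D (MvPolynomial.X j)) = 0) (f : MvPolynomial (Fin N) ℂ) :
    H01b_ev (D f) = 0 := by
  induction f using MvPolynomial.induction_on with
  | C a => rw [show (MvPolynomial.C a : MvPolynomial (Fin N) ℂ) = algebraMap ℂ _ a from rfl,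
      Derivation.map_algebraMap, map_zero]
  | add p q hp hq => rw [map_add, map_add, hp, hq, add_zero]
  | mul_X p j _ => rw [Derivation.leibniz, map_add, smul_eq_mul, smul_eq_mul, H01b_ev_mul,
      H01b_ev_mul, h, H01b_ev_X, mul_zero, zero_mul, add_zero]

end ev

section
variable {J : CStr L}

theorem vd_twist {V : Type} [NormedAddCommGroup V] [InnerProductSpace ℂ V]
    [FiniteDimensional ℂ V] (t : CRep J V) (C : CSub L) {H₁ be : g} {v : V}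
    (hH₁ : Reg L C.a H₁) (hv : HW t C.a H₁ be v) (s : ℝ) :
    ∃ (M : Type) (_ : AddCommGroup M) (_ : Module ℂ M), Nonempty (VD J C.a H₁ (s • be) M) := by
  obtain ⟨n, hn⟩ : ∃ n : V, n = ((‖v‖⁻¹ : ℝ) : ℂ) • v := ⟨_, rfl⟩
  have hv0 : ‖v‖ ≠ 0 := norm_ne_zero_iff.2 hv.ne
  have hnn : ⟪n, n⟫_ℂ = 1 := by
    rw [hn, inner_smul_left, inner_smul_right, Complex.conj_ofReal, inner_self_eq_norm_sq_to_K]
    rw [← Complex.ofReal_one]
    show ((‖v‖⁻¹ : ℝ) : ℂ) * (((‖v‖⁻¹ : ℝ) : ℂ) * ((‖v‖ : ℝ) : ℂ) ^ 2) = _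
    rw [← Complex.ofReal_pow, ← Complex.ofReal_mul, ← Complex.ofReal_mul]
    congr 1
    field_simp
  have hwt : ∀ H ∈ C.a, t.op H n = (⟪be, H⟫_ℝ : ℂ) • n := fun H hH => by
    rw [hn, map_smul, hv.wt H hH, smul_comm]
  have hpos : ∀ Z, (∃ r : ℝ, 0 < r ∧ L.br H₁ Z = r • Z) → t.op Z n = 0 := fun Z hZ => by
    rw [hn, map_smul, hv.pos Z hZ, smul_zero]
  have hadj : ∀ Z y, ⟪n, t.op Z y⟫_ℂ = -⟪t.op (L.th Z) n, y⟫_ℂ := fun Z y => by
    rw [t.adj, L.th_th, neg_neg]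
  obtain ⟨e, -⟩ : ∃ e : OrthonormalBasis (Fin (Module.finrank ℂ V)) ℂ V, True :=
    ⟨stdOrthonormalBasis ℂ V, trivial⟩
  obtain ⟨D, hD⟩ : ∃ D : g → Derivation ℂ (MvPolynomial (Fin (Module.finrank ℂ V)) ℂ)
      (MvPolynomial (Fin (Module.finrank ℂ V)) ℂ), ∀ Z, D Z = H01b_D e n (t.op Z) :=
    ⟨_, fun _ => rfl⟩
  have hDX : ∀ Z j, D Z (MvPolynomial.X j) = H01b_pi e n (t.op Z (H01b_P n (e j))) -
      H01b_pi e n (H01b_P n (e j)) * H01b_pi e n (t.op Z n) := fun Z j => by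
    rw [hD, H01b_D_X]
  have hDpi : ∀ Z x, D Z (H01b_pi e n x) =
      H01b_pi e n (t.op Z x) - H01b_pi e n x * H01b_pi e n (t.op Z n) := fun Z x => by
    rw [hD, H01b_D_pi e hnn]
  have hDadd : ∀ Z Z' f, D (Z + Z') f = D Z f + D Z' f := fun Z Z' f => by
    have h1 : D (Z + Z') = D Z + D Z' := by
      refine MvPolynomial.derivation_ext fun j => ?_
      rw [Derivation.add_apply]
      simp only [hDX, t.add, LinearMap.add_apply, map_add]
      ring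
    rw [h1, Derivation.add_apply]
  have hDsmul : ∀ (c : ℂ) (Z Z' : g), t.op Z' = c • t.op Z → ∀ f, D Z' f = c • D Z f :=
      fun c Z Z' h f => by
    have h1 : D Z' = c • D Z := by
      refine MvPolynomial.derivation_ext fun j => ?_
      rw [Derivation.smul_apply]
      simp only [hDX, h, LinearMap.smul_apply, map_smul, smul_sub, mul_smul_comm]
    rw [h1, Derivation.smul_apply]
  have hDbr : ∀ Z Z' f, D (L.br Z Z') f = D Z (D Z' f) - D Z' (D Z f) := fun Z Z' f => by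
    rw [hD, hD, hD]
    exact H01b_D_br e hnn (fun x => t.bracket Z Z' x) f
  have hevD : ∀ Z, (∀ y, ⟪n, y⟫_ℂ = 0 → ⟪n, t.op Z y⟫_ℂ = 0) → ∀ f, H01b_ev (D Z f) = 0 :=
      fun Z h f => by
    refine H01b_ev_D _ (fun j => ?_) f
    rw [hDX, map_sub, H01b_ev_mul, H01b_ev_pi, H01b_ev_pi, h _ (H01b_inner_P hnn _),
      H01b_inner_P hnn, zero_mul, sub_zero]
  obtain ⟨op, hop⟩ : ∃ op : g → MvPolynomial (Fin (Module.finrank ℂ V)) ℂ →ₗ[ℂ]
      MvPolynomial (Fin (Module.finrank ℂ V)) ℂ, ∀ Z f, op Z f =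
        D Z f + (s : ℂ) • (H01b_pi e n (t.op Z n) * f) := by
    refine ⟨fun Z => (D Z : MvPolynomial (Fin (Module.finrank ℂ V)) ℂ →ₗ[ℂ] _) +
      (s : ℂ) • LinearMap.mulLeft ℂ (H01b_pi e n (t.op Z n)), fun Z f => ?_⟩
    rfl
  have hTH : ∀ H ∈ C.a, L.th H = -H := C.a_p
  have hopneg : ∀ A, t.op (-A) = -t.op A := fun A => by
    have := t.smul (-1) A
    rw [neg_one_smul] at this
    rw [this]
    simp
  refine ⟨MvPolynomial (Fin (Module.finrank ℂ V)) ℂ, inferInstance, inferInstance, ⟨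
    { op := op
      add := fun A B => ?_
      smul := fun r A => ?_
      bracket := fun A B x => ?_
      lin := fun A => ?_
      v := 1
      ev := H01b_ev
      ev_v := H01b_ev_one
      wt := fun H hH => ?_
      pos := fun Z hZ => ?_
      ev_wt := fun H hH x => ?_
      ev_neg := fun Z hZ x => ?_ }⟩⟩
  · refine LinearMap.ext fun f => ?_
    rw [LinearMap.add_apply, hop, hop, hop, hDadd, t.add, LinearMap.add_apply, map_add, add_mul,
      smul_add]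
    abel
  · refine LinearMap.ext fun f => ?_
    rw [LinearMap.smul_apply, hop, hop, hDsmul (r : ℂ) A (r • A) (t.smul r A), t.smul,
      LinearMap.smul_apply, map_smul, smul_mul_assoc, smul_add, smul_comm]
  · simp only [hop, hDbr, map_add, Derivation.map_smul, Derivation.leibniz, hDpi, t.bracket,
      map_sub, smul_eq_mul, mul_add, mul_smul_comm, smul_add, sub_mul]
    simp only [MvPolynomial.smul_eq_C_mul]
    ring
  · refine LinearMap.ext fun f => ?_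
    rw [LinearMap.smul_apply, hop, hop, hDsmul Complex.I A (J.J A) (t.lin A), t.lin,
      LinearMap.smul_apply, map_smul, smul_mul_assoc, smul_add, smul_comm]
  · rw [hop, Derivation.map_one_eq_zero, zero_add, hwt H hH, map_smul, H01b_pi_n e hnn, mul_one,
      smul_smul, real_inner_smul_left, Complex.ofReal_mul]
  · rw [hop, Derivation.map_one_eq_zero, zero_add, hpos Z hZ, map_zero, zero_mul, smul_zero]
  · have h1 : ∀ y, ⟪n, y⟫_ℂ = 0 → ⟪n, t.op H y⟫_ℂ = 0 := fun y hy => by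
      rw [hadj, hTH H hH, hopneg, LinearMap.neg_apply, inner_neg_left, neg_neg, hwt H hH,
        inner_smul_left, hy, mul_zero]
    rw [hop, map_add, hevD H h1, zero_add, map_smul, H01b_ev_mul, H01b_ev_pi, hwt H hH,
      inner_smul_right, hnn, mul_one, smul_eq_mul, ← mul_assoc, real_inner_smul_left,
      Complex.ofReal_mul]
  · obtain ⟨r, hr, hZ⟩ := hZ
    have h0 : t.op (L.th Z) n = 0 := by
      refine hpos _ ⟨r, hr, ?_⟩
      have h2 : L.br (L.th H₁) (L.th Z) = L.th (L.br H₁ Z) := (L.th_br _ _).symm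
      rw [hTH H₁ hH₁.1, hZ, map_neg, LinearMap.neg_apply, map_smul, neg_smul] at h2
      exact neg_injective h2
    have h1 : ∀ y, ⟪n, t.op Z y⟫_ℂ = 0 := fun y => by
      rw [hadj, h0, inner_zero_left, neg_zero]
    rw [hop, map_add, hevD Z (fun y _ => h1 y), zero_add, map_smul, H01b_ev_mul, H01b_ev_pi, h1,
      zero_mul, smul_zero]

end

end Pool.Agent.Lib.MP_4322ef_CH
end

section

/-!
# Twisted modules of polynomials: sums

* `vd_sum`: `Finset.induction_on` with `vd_zero`, `vd_twist`, `vd_add`.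
-/

set_option autoImplicit false

open scoped InnerProductSpace TensorProduct

namespace Pool.Agent.Lib.MP_4322ef_CH

open Pool.Agent.Lib.MP_4322ef_al.SR

variable {g : Type} [NormedAddCommGroup g] [InnerProductSpace ℝ g] {L : RedLie g}

section
variable {J : CStr L}

theorem vd_sum (C : CSub L) {H₁ : g} (hH₁ : Reg L C.a H₁) (S : Finset g) (y : g → g) (c : g → ℝ)
    (h : ∀ ga ∈ S, ∃ (V : Type) (_ : NormedAddCommGroup V) (_ : InnerProductSpace ℂ V)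
      (_ : FiniteDimensional ℂ V) (t : CRep J V) (v : V), HW t C.a H₁ (y ga) v) :
    ∃ (M : Type) (_ : AddCommGroup M) (_ : Module ℂ M),
      Nonempty (VD J C.a H₁ (∑ ga ∈ S, c ga • y ga) M) := by
  classical
  induction S using Finset.induction_on with
  | empty =>
    rw [Finset.sum_empty]
    exact ⟨ℂ, inferInstance, inferInstance, vd_zero J C.a H₁⟩
  | insert ga S hga ih =>
    obtain ⟨M, i1, i2, ⟨K⟩⟩ := ih fun x hx => h x (Finset.mem_insert_of_mem hx)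
    obtain ⟨V, j1, j2, j3, t, v, hv⟩ := h ga (Finset.mem_insert_self _ _)
    obtain ⟨M', k1, k2, ⟨K'⟩⟩ := vd_twist t C hH₁ hv (c ga)
    rw [Finset.sum_insert hga]
    exact ⟨M' ⊗[ℂ] M, inferInstance, inferInstance, vd_add K' K⟩

end

end Pool.Agent.Lib.MP_4322ef_CH
end
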